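import Mathlib

set_option autoImplicit false

open Set

namespace Pool.Agent.TH350.IntCompl

/-- the inclusion of integral vectors into real vectors -/
def rv (m : ℕ) : (Fin m → ℤ) →ₗ[ℤ] (Fin m → ℝ) where
  toFun k := fun i => (k i : ℝ)
  map_add' := by
    intro x y
    ext i
    simp
  map_smul' := by
    intro n x
    ext i
    simp

theorem rv_apply {m : ℕ} (k : Fin m → ℤ) (i : Fin m) : rv m k i = (k i : ℝ) := rfl

theorem mulVec_rv {m r : ℕ} (M : Matrix (Fin r) (Fin m) ℤ) (k : Fin m → ℤ) :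
    (M.map (Int.cast : ℤ → ℝ)).mulVec (rv m k) = rv r (M.mulVec k) := by
  funext i
  rw [rv_apply]
  exact (RingHom.map_mulVec (Int.castRingHom ℝ) M k i).symm

/-- a rational subspace of `ℝ^m` is the kernel of an integral matrix with an integral right
inverse -/
theorem exists_complement {m : ℕ} (L : List (Fin m → ℤ)) :
    ∃ (r : ℕ) (J : Matrix (Fin m) (Fin r) ℤ) (Q : Matrix (Fin r) (Fin m) ℤ), Q * J = 1 ∧
      ∀ θ : Fin m → ℝ, (Q.map (Int.cast : ℤ → ℝ)).mulVec θ = 0 ↔
        θ ∈ Submodule.span ℝ {v : Fin m → ℝ | ∃ k ∈ L, (fun i => (k i : ℝ)) = v} := by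
  classical
  set S : Submodule ℝ (Fin m → ℝ) :=
    Submodule.span ℝ {v : Fin m → ℝ | ∃ k ∈ L, (fun i => (k i : ℝ)) = v} with hS
  let Λ : Submodule ℤ (Fin m → ℤ) := (S.restrictScalars ℤ).comap (rv m)
  have hΛ : ∀ k, k ∈ Λ ↔ rv m k ∈ S := fun k => Iff.rfl
  have htf : Module.IsTorsionFree ℤ ((Fin m → ℤ) ⧸ Λ) := by
    rw [Module.isTorsionFree_iff_smul_eq_zero]
    intro n x hx
    obtain ⟨k, rfl⟩ := Submodule.mkQ_surjective Λ x
    rw [or_iff_not_imp_left]
    intro hn
    rw [← map_smul] at hx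
    have h1 : n • k ∈ Λ := (Submodule.Quotient.mk_eq_zero Λ).1 hx
    refine (Submodule.Quotient.mk_eq_zero Λ).2 ?_
    rw [hΛ] at h1 ⊢
    rw [map_smul] at h1
    have h2 : rv m k = ((n : ℝ)⁻¹) • (n • rv m k) := by
      ext i
      have hn' : (n : ℝ) ≠ 0 := by exact_mod_cast hn
      rw [Pi.smul_apply, Pi.smul_apply, zsmul_eq_mul, smul_eq_mul]
      field_simp
    rw [h2]
    exact S.smul_mem _ h1
  have hfree : Module.Free ℤ ((Fin m → ℤ) ⧸ Λ) := inferInstance
  let b := Module.finBasis ℤ ((Fin m → ℤ) ⧸ Λ)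
  let r := Module.finrank ℤ ((Fin m → ℤ) ⧸ Λ)
  let q : (Fin m → ℤ) →ₗ[ℤ] (Fin r → ℤ) := b.equivFun.toLinearMap ∘ₗ Λ.mkQ
  have hq : Function.Surjective q := b.equivFun.surjective.comp (Submodule.mkQ_surjective Λ)
  have hqk : ∀ k, q k = 0 ↔ k ∈ Λ := by
    intro k
    change b.equivFun (Λ.mkQ k) = 0 ↔ _
    rw [LinearEquiv.map_eq_zero_iff]
    exact Submodule.Quotient.mk_eq_zero Λ
  obtain ⟨J', hJ'⟩ := Module.projective_lifting_property q LinearMap.id hq
  refine ⟨r, LinearMap.toMatrix' J', LinearMap.toMatrix' q, ?_, ?_⟩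
  · rw [← LinearMap.toMatrix'_comp, hJ', LinearMap.toMatrix'_id]
  · intro θ
    have hQmul : ∀ k, (LinearMap.toMatrix' q).mulVec k = q k := fun k =>
      LinearMap.toMatrix'_mulVec q k
    have hJmul : ∀ k, (LinearMap.toMatrix' J').mulVec k = J' k := fun k =>
      LinearMap.toMatrix'_mulVec J' k
    constructor
    · intro hθ
      have h1 : θ = θ - ((LinearMap.toMatrix' J').map (Int.cast : ℤ → ℝ)).mulVec
          (((LinearMap.toMatrix' q).map (Int.cast : ℤ → ℝ)).mulVec θ) := by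
        rw [hθ, Matrix.mulVec_zero, sub_zero]
      let F : (Fin m → ℝ) →ₗ[ℝ] (Fin m → ℝ) := LinearMap.id -
        (Matrix.mulVecLin ((LinearMap.toMatrix' J').map (Int.cast : ℤ → ℝ))) ∘ₗ
        (Matrix.mulVecLin ((LinearMap.toMatrix' q).map (Int.cast : ℤ → ℝ)))
      have hF : ∀ x, F x = x - ((LinearMap.toMatrix' J').map (Int.cast : ℤ → ℝ)).mulVec
          (((LinearMap.toMatrix' q).map (Int.cast : ℤ → ℝ)).mulVec x) := fun x => rfl
      rw [h1, ← hF]
      have h2 : θ = ∑ i, θ i • rv m (Pi.single i 1) := by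
        funext j
        rw [Finset.sum_apply]
        simp only [Pi.smul_apply, rv_apply, smul_eq_mul]
        rw [Finset.sum_eq_single j]
        · simp
        · intro i _ hij
          rw [Pi.single_eq_of_ne (Ne.symm hij)]
          simp
        · intro h
          exact absurd (Finset.mem_univ _) h
      rw [h2, map_sum]
      refine Submodule.sum_mem _ fun i _ => ?_
      rw [map_smul]
      refine Submodule.smul_mem _ _ ?_
      rw [hF, mulVec_rv, mulVec_rv, hQmul, hJmul, ← map_sub, ← hΛ, ← hqk, map_sub]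
      have := LinearMap.congr_fun hJ' (q (Pi.single i 1))
      rw [LinearMap.comp_apply, LinearMap.id_apply] at this
      rw [this, sub_self]
    · intro hθ
      have hle : S ≤ LinearMap.ker
          (Matrix.mulVecLin ((LinearMap.toMatrix' q).map (Int.cast : ℤ → ℝ))) := by
        refine Submodule.span_le.2 ?_
        rintro v ⟨k, hk, rfl⟩
        change ((LinearMap.toMatrix' q).map (Int.cast : ℤ → ℝ)).mulVec (rv m k) = 0
        rw [mulVec_rv, hQmul, (hqk k).2 (by
          rw [hΛ]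
          exact Submodule.subset_span ⟨k, hk, rfl⟩), map_zero]
      exact hle hθ

end Pool.Agent.TH350.IntCompl
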