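import Pool.Agent.TH215.TM.Defs2
import Pool.Agent.Helper165.Geom3
import Pool.Agent.W506.H2

/-!
Job 304 (TM-GEOCOV): an affine cover of the blow-up with basic open intersections.
-/

set_option autoImplicit false
open CategoryTheory Limits AlgebraicGeometry Abelian HomogeneousLocalization
open Pool.Agent.Helper165

namespace Pool.Agent.TH350.J304

open Pool.Agent.TH215.TM Pool.Agent.W506.Hilb

open scoped TensorProduct

section localization

variable {A : Type} [CommRing A] (B : Type) [CommRing B] [Algebra A B]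

variable [Module.Flat A B]

theorem step {K P M : Type} [AddCommGroup K] [AddCommGroup P] [AddCommGroup M] [Module A K]
    [Module A P] [Module A M] [Module.Projective A P] (f : K →ₗ[A] P) (g : P →ₗ[A] M)
    (hf : Function.Injective f) (h : Function.Exact f g)
    (hg : Function.Surjective g) (n : ℕ) (h1 : PdLT B (B ⊗[A] K) (n + 1)) :
    PdLT B (B ⊗[A] M) (n + 2) := by
  have h2 : PdLT B (B ⊗[A] P) (n + 2) :=
    pdLT_mono (by omega) (pdLT_one_of_projective inferInstance)
  have h3 : Function.Injective (f.baseChange B) :=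
    Module.Flat.lTensor_preserves_injective_linearMap (M := B) f hf
  have h4 : Function.Surjective (g.baseChange B) := LinearMap.lTensor_surjective B hg
  have h5 : Function.Exact (f.baseChange B) (g.baseChange B) := lTensor_exact B h hg
  exact pdLT_right (f.baseChange B) (g.baseChange B) h3 h4 h5 h1 h2

theorem pdLT_baseChange {n : ℕ} : ∀ (M : Type) [AddCommGroup M] [Module A M],
    PdLT A M n → PdLT B (B ⊗[A] M) n := by
  induction n with
  | zero =>
    intro M _ _ h
    rw [pdLT_zero_iff] at h ⊢
    infer_instance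
  | succ n ih =>
    intro M _ _ h
    match n with
    | 0 =>
      have hp := projective_of_pdLT_one h
      exact pdLT_one_of_projective inferInstance
    | n + 1 =>
      let π : (M →₀ A) →ₗ[A] M := Finsupp.linearCombination A id
      have hπ : Function.Surjective π := Finsupp.linearCombination_id_surjective A M
      have hK : PdLT A (LinearMap.ker π) (n + 1) :=
        pdLT_left (LinearMap.ker π).subtype π (Submodule.injective_subtype _) hπ
          (LinearMap.exact_subtype_ker_map π)
          (pdLT_mono (by omega) (pdLT_one_of_projective inferInstance)) h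
      have h1 := ih _ hK
      have h3 : Function.Injective (LinearMap.ker π).subtype := Submodule.injective_subtype _
      have h4 : Function.Exact (LinearMap.ker π).subtype π := LinearMap.exact_subtype_ker_map π
      exact @step A _ B _ _ _ (LinearMap.ker π) (M →₀ A) M inferInstance inferInstance
        inferInstance inferInstance inferInstance inferInstance inferInstance
        (LinearMap.ker π).subtype π h3 h4 hπ n h1

end localization

theorem gl_localization {A : Type} [CommRing A] (f : A) (B : Type) [CommRing B] [Algebra A B]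
    [IsLocalization.Away f B] (d : ℕ) (hA : ∀ M : ModuleCat.{0} A, HasProjectiveDimensionLT M d)
    (M : ModuleCat.{0} B) : HasProjectiveDimensionLT M d := by
  let _ : Module A M := Module.compHom M (algebraMap A B)
  have _ : IsScalarTower A B M := ⟨fun a b m => by
    rw [Algebra.smul_def, mul_smul]; rfl⟩
  have _ : Module.Flat A B := IsLocalization.flat B (Submonoid.powers f)
  have h1 : PdLT A M d := hA (ModuleCat.of A M)
  have h2 := pdLT_baseChange B M h1
  have _ := isLocalizedModule_id (Submonoid.powers f) M B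
  have h3 : IsBaseChange B (LinearMap.id : M →ₗ[A] M) :=
    IsLocalizedModule.isBaseChange (Submonoid.powers f) B _
  exact pdLT_equiv h3.equiv h2

section geometry

universe u

variable {A : Type u} [CommRing A] (J : Ideal A)

theorem iSup_charts {n : ℕ} (s : Fin n → A) (hs : ∀ i, s i ∈ J) (hJ : J = Ideal.span (Set.range s)) :
    (⨆ i, (blowChart J (s i) (hs i)) ''ᵁ ⊤ : (blow J).Opens) = ⊤ := by
  rw [eq_top_iff]
  intro y _
  by_contra hcon
  apply false_of_span J y _ hJ
  rintro _ ⟨i, rfl⟩ hs'
  by_contra h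
  apply hcon
  rw [TopologicalSpace.Opens.mem_iSup]
  refine ⟨i, ?_⟩
  rw [Scheme.Hom.image_top_eq_opensRange, blowChart_opensRange]
  exact h

theorem inter_basicOpen (a b : A) (ha : a ∈ J) (hb : b ∈ J) :
    ∃ f : Γ(blow J, (blowChart J a ha) ''ᵁ ⊤),
      ((blowChart J a ha) ''ᵁ ⊤) ⊓ ((blowChart J b hb) ''ᵁ ⊤) = (blow J).basicOpen f := by
  have h1 : (blowChart J a ha) ⁻¹ᵁ ((blowChart J b hb) ''ᵁ ⊤) =
      PrimeSpectrum.basicOpen (Away.isLocalizationElem (tElt_mem J a ha) (tElt_mem J b hb)) := by
    rw [Scheme.Hom.image_top_eq_opensRange, blowChart_opensRange]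
    exact Proj.awayι_preimage_basicOpen (reesPiece J) (f := tElt J a ha) (tElt_mem J a ha)
      one_pos (g := tElt J b hb) (tElt_mem J b hb) one_pos
  refine ⟨((blowChart J a ha).appIso ⊤).inv ((Scheme.ΓSpecIso _).inv
    (Away.isLocalizationElem (tElt_mem J a ha) (tElt_mem J b hb))), ?_⟩
  rw [← Scheme.image_basicOpen, basicOpen_eq_of_affine, ← h1,
    Scheme.Hom.image_preimage_eq_opensRange_inf, Scheme.Hom.image_top_eq_opensRange]

theorem affine_chart (a : A) (ha : a ∈ J) : IsAffineOpen ((blowChart J a ha) ''ᵁ ⊤) :=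
  (isAffineOpen_top _).image_of_isOpenImmersion _

/-- sections over the image of a chart -/
noncomputable def secEquiv (a : A) (ha : a ∈ J) :
    Γ(blow J, (blowChart J a ha) ''ᵁ ⊤) ≃+* Away (reesPiece J) (tElt J a ha) :=
  (((blowChart J a ha).appIso ⊤) ≪≫ (Scheme.ΓSpecIso _)).commRingCatIsoToRingEquiv

end geometry

theorem gl_transfer {R R' : Type} [CommRing R] [CommRing R'] (e : R ≃+* R') (n : ℕ)
    (h : ∀ M : ModuleCat.{0} R, HasProjectiveDimensionLT M (n + 1)) (M : ModuleCat.{0} R') :
    HasProjectiveDimensionLT M (n + 1) := by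
  let _ : Module R M := Module.compHom M e.toRingHom
  exact pdLT_of_ringEquiv e M M (AddEquiv.refl _) (fun r m => rfl) (h (ModuleCat.of R M))

/-- the four generators of the ideal -/
noncomputable def gen : Fin 4 → RR := Fin.snoc xR wR

theorem gen_castSucc (i : Fin 3) : gen i.castSucc = xR i := Fin.snoc_castSucc (α := fun _ => RR) wR xR i

theorem gen_last : gen (Fin.last 3) = wR := Fin.snoc_last (α := fun _ => RR) wR xR

theorem gen_mem (i : Fin 4) : gen i ∈ J3 := by
  refine Fin.lastCases ?_ (fun i => ?_) i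
  · rw [gen_last]; exact wR_mem
  · rw [gen_castSucc]; exact xR_mem i

theorem J3_eq : J3 = Ideal.span (Set.range gen) := by
  unfold J3
  congr 1
  ext r
  constructor
  · rintro (⟨i, rfl⟩ | hr)
    · exact ⟨i.castSucc, gen_castSucc i⟩
    · exact ⟨Fin.last 3, by rw [gen_last, hr]⟩
  · rintro ⟨i, rfl⟩
    refine Fin.lastCases ?_ (fun i => ?_) i
    · rw [gen_last]; exact Or.inr rfl
    · rw [gen_castSucc]; exact Or.inl ⟨i, rfl⟩

theorem YY_cover
    (hS : ∀ M : ModuleCat.{0} S3, HasProjectiveDimensionLT M 4)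
    (hB : ∀ M : ModuleCat.{0} BB, HasProjectiveDimensionLT M 4)
    (hW : ∃ e : Away (reesPiece J3) (tElt J3 wR wR_mem) ≃+* S3,
      ∀ r, e (chartMap J3 wR wR_mem r) = cW r)
    (hX : ∀ i : Fin 3, ∃ e : Away (reesPiece J3) (tElt J3 (xR i) (xR_mem i)) ≃+* BB,
      ∀ r, e (chartMap J3 (xR i) (xR_mem i) r) = cX i r) :
    ∃ U : Fin 4 → YY.Opens, (∀ i, IsAffineOpen (U i)) ∧ (⨆ i, U i = ⊤) ∧
      (∀ i, IsNoetherianRing Γ(YY, U i)) ∧
      (∀ i, ∀ M : ModuleCat.{0} Γ(YY, U i), HasProjectiveDimensionLT M 4) ∧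
      (∀ i j, ∃ f : Γ(YY, U i), U i ⊓ U j = YY.basicOpen f) := by
  have key : ∀ i : Fin 4, IsNoetherianRing (Away (reesPiece J3) (tElt J3 (gen i) (gen_mem i))) ∧
      ∀ M : ModuleCat.{0} (Away (reesPiece J3) (tElt J3 (gen i) (gen_mem i))),
        HasProjectiveDimensionLT M 4 := by
    have main : ∀ (r : RR) (hr : r ∈ J3), (r = wR ∨ ∃ i, r = xR i) →
        IsNoetherianRing (Away (reesPiece J3) (tElt J3 r hr)) ∧
        ∀ M : ModuleCat.{0} (Away (reesPiece J3) (tElt J3 r hr)),
          HasProjectiveDimensionLT M 4 := by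
      rintro r hr (rfl | ⟨i, rfl⟩)
      · obtain ⟨e, -⟩ := hW
        exact ⟨isNoetherianRing_of_ringEquiv S3 e.symm, gl_transfer e.symm 3 hS⟩
      · obtain ⟨e, -⟩ := hX i
        have : IsNoetherianRing BB := inferInstance
        exact ⟨isNoetherianRing_of_ringEquiv BB e.symm, gl_transfer e.symm 3 hB⟩
    intro i
    apply main
    refine Fin.lastCases ?_ (fun i => ?_) i
    · exact Or.inl gen_last
    · exact Or.inr ⟨i, gen_castSucc i⟩
  refine ⟨fun i => (blowChart J3 (gen i) (gen_mem i)) ''ᵁ ⊤, fun i => ?_, ?_, fun i => ?_,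
    fun i => ?_, fun i j => ?_⟩
  · exact affine_chart J3 (gen i) (gen_mem i)
  · exact iSup_charts J3 gen gen_mem J3_eq
  · exact @isNoetherianRing_of_ringEquiv _ _ _ _ (secEquiv J3 (gen i) (gen_mem i)).symm (key i).1
  · exact gl_transfer (secEquiv J3 (gen i) (gen_mem i)).symm 3 (key i).2
  · exact inter_basicOpen J3 (gen i) (gen j) (gen_mem i) (gen_mem j)

end Pool.Agent.TH350.J304
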