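import Pool.Agent.TH215.TM.Defs

/-!
Job 294 (TM-UNB): a finitely generated `RR`-module with unbounded self-extensions, from a matrix
factorization of `w⁴ + x³ + y³ + z³`.
-/

set_option autoImplicit false

open CategoryTheory Abelian

namespace Pool.Agent.TH350.J294

open Pool.Agent.TH215.TM

section general

variable {R : Type} [CommRing R]

theorem shift {S : ShortComplex (ModuleCat.{0} R)} (hS : S.ShortExact) [Projective S.X₂]
    (Y : ModuleCat.{0} R) (j : ℕ) (h : Subsingleton (Ext S.X₃ Y (j + 2))) :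
    Subsingleton (Ext S.X₁ Y (j + 1)) := by
  refine subsingleton_of_forall_eq 0 fun x => ?_
  obtain ⟨x₂, hx₂⟩ := Ext.contravariant_sequence_exact₁ hS Y x (n₁ := j + 2) (by omega)
    (Subsingleton.elim _ _)
  rw [← hx₂, Ext.eq_zero_of_projective x₂, Ext.comp_zero]

theorem split {S : ShortComplex (ModuleCat.{0} R)} (hS : S.ShortExact)
    (h : Subsingleton (Ext S.X₃ S.X₁ 1)) : ∃ r : S.X₂ ⟶ S.X₁, S.f ≫ r = 𝟙 _ := by
  obtain ⟨x₂, hx₂⟩ := Ext.contravariant_sequence_exact₁ hS S.X₁ (Ext.mk₀ (𝟙 S.X₁)) (n₁ := 1)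
    (by omega) (Subsingleton.elim _ _)
  obtain ⟨r, rfl⟩ := Ext.addEquiv₀.symm.surjective x₂
  refine ⟨r, ?_⟩
  have h1 : Ext.mk₀ (S.f ≫ r) = Ext.mk₀ (𝟙 S.X₁) := by
    rw [← hx₂]
    exact (Ext.mk₀_comp_mk₀ _ _).symm
  exact Ext.mk₀_bijective _ _ |>.1 h1

/-- From a pair of endomorphisms of a finite projective module with exact period two we get
unbounded self-extensions, unless the endomorphism is regular in the sense of von Neumann. -/
theorem unbounded_of_periodic (V : Type) [AddCommGroup V] [Module R V] [Module.Finite R V]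
    [Module.Projective R V] (α β : V →ₗ[R] V) (h1 : LinearMap.ker α = LinearMap.range β)
    (h2 : LinearMap.ker β = LinearMap.range α) (hns : ¬ ∃ γ : V →ₗ[R] V, β ∘ₗ γ ∘ₗ β = β) :
    ∃ N : ModuleCat.{0} R, Module.Finite R N ∧
      ∀ n : ℕ, ∃ j, n ≤ j ∧ Nontrivial (Ext N N j) := by
  let N : ModuleCat.{0} R := ModuleCat.of R (V ⧸ LinearMap.range α)
  refine ⟨N, inferInstanceAs (Module.Finite R (V ⧸ LinearMap.range α)), ?_⟩
  by_contra hcon
  push Not at hcon
  obtain ⟨n, hn⟩ := hcon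
  have hP : Projective (ModuleCat.of R V) :=
    (IsProjective.iff_projective V).1 inferInstance
  -- first sequence
  let S1 : ShortComplex (ModuleCat.{0} R) := ShortComplex.mk
    (ModuleCat.ofHom (LinearMap.range α).subtype) (ModuleCat.ofHom (LinearMap.range α).mkQ) (by
      ext x
      simp)
  have hS1 : S1.ShortExact := by
    refine ModuleCat.shortComplex_shortExact S1 ?_ ?_ ?_
    · exact LinearMap.exact_subtype_mkQ _
    · exact Subtype.val_injective
    · exact Submodule.mkQ_surjective _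
  let f2 : (V ⧸ LinearMap.range α) →ₗ[R] V := (LinearMap.range α).liftQ β h2.ge
  have hf2 : Function.Injective f2 := by
    rw [← LinearMap.ker_eq_bot]
    exact Submodule.ker_liftQ_eq_bot _ _ _ h2.le
  have hαβ : ∀ x, α (β x) = 0 := fun x => by
    have : β x ∈ LinearMap.ker α := by rw [h1]; exact ⟨x, rfl⟩
    exact this
  let S2 : ShortComplex (ModuleCat.{0} R) := ShortComplex.mk
    (ModuleCat.ofHom f2) (ModuleCat.ofHom α.rangeRestrict) (by
      ext x
      exact hαβ x)
  have hS2 : S2.ShortExact := by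
    refine ModuleCat.shortComplex_shortExact S2 ?_ hf2 α.surjective_rangeRestrict
    intro y
    constructor
    · intro hy
      have hy' : y ∈ LinearMap.ker α := congrArg Subtype.val hy
      rw [h1] at hy'
      obtain ⟨x, rfl⟩ := hy'
      exact ⟨(LinearMap.range α).mkQ x, rfl⟩
    · rintro ⟨x, rfl⟩
      obtain ⟨x, rfl⟩ := Submodule.mkQ_surjective _ x
      apply Subtype.ext
      exact hαβ x
  have e1 : Projective S1.X₂ := hP
  have e2 : Projective S2.X₂ := hP
  have step : ∀ j : ℕ, Subsingleton (Ext N N (j + 3)) → Subsingleton (Ext N N (j + 1)) := by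
    intro j hj
    have h3 : Subsingleton (Ext S2.X₃ N (j + 2)) := shift hS1 N (j + 1) hj
    exact shift hS2 N j h3
  have hall : ∀ i j : ℕ, n ≤ j + 2 * i → Subsingleton (Ext N N (j + 1)) := by
    intro i
    induction i with
    | zero => exact fun j hj => not_nontrivial_iff_subsingleton.1 (by
        rw [not_nontrivial_iff_subsingleton]
        exact hn _ (by omega))
    | succ i ih => exact fun j hj => step j (ih (j + 2) (by omega))
  have h3 : Subsingleton (Ext N N 2) := hall n 1 (by omega)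
  have h4 : Subsingleton (Ext S2.X₃ N 1) := shift hS1 N 0 h3
  obtain ⟨r, hr⟩ := split hS2 h4
  apply hns
  -- lift the idempotent
  let ρ : V →ₗ[R] (V ⧸ LinearMap.range α) := r.hom
  have hρ : ∀ x, ρ (f2 x) = x := fun x => by
    have := congrArg (fun t => t.hom x) hr
    exact this
  obtain ⟨γ, hγ⟩ := Module.projective_lifting_property (LinearMap.range α).mkQ ρ
    (Submodule.mkQ_surjective _)
  refine ⟨γ, ?_⟩
  ext x
  have h5 : f2 ((LinearMap.range α).mkQ (γ (β x))) = β (γ (β x)) := rfl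
  have h6 : (LinearMap.range α).mkQ (γ (β x)) = ρ (β x) := LinearMap.congr_fun hγ _
  have h7 : β x = f2 ((LinearMap.range α).mkQ x) := rfl
  change β (γ (β x)) = β x
  rw [← h5, h6, h7, hρ]

end general

/-- exactness of a matrix factorization -/
theorem ker_eq_range {A : Type} [CommRing A] [IsDomain A] {R : Type} [CommRing R] {n : Type}
    [Fintype n] [DecidableEq n] (f : A) (hf : f ≠ 0) (π : A →+* R) (hπ : Function.Surjective π)
    (hker : ∀ a, π a = 0 ↔ f ∣ a) (P Q : Matrix n n A) (h1 : P * Q = f • (1 : Matrix n n A))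
    (h2 : Q * P = f • (1 : Matrix n n A)) :
    LinearMap.ker (P.map π).mulVecLin = LinearMap.range (Q.map π).mulVecLin := by
  apply le_antisymm
  · intro v hv
    rw [LinearMap.mem_ker, Matrix.mulVecLin_apply] at hv
    choose s hs using hπ
    let v' : n → A := fun i => s (v i)
    have hv' : π ∘ v' = v := funext fun i => hs _
    have h3 : ∀ i, f ∣ (P.mulVec v') i := by
      intro i
      rw [← hker]
      have := congrFun hv i
      rw [← hv', ← RingHom.map_mulVec] at this
      exact this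
    choose u hu using h3
    have h4 : P.mulVec v' = f • u := funext fun i => by rw [hu i]; rfl
    have h5 : Q.mulVec (P.mulVec v') = f • Q.mulVec u := by rw [h4, Matrix.mulVec_smul]
    rw [Matrix.mulVec_mulVec, h2, Matrix.smul_mulVec, Matrix.one_mulVec] at h5
    have h6 : v' = Q.mulVec u := funext fun i => mul_left_cancel₀ hf (congrFun h5 i)
    refine ⟨π ∘ u, ?_⟩
    rw [Matrix.mulVecLin_apply, ← hv', h6]
    funext i
    exact (RingHom.map_mulVec π Q u i).symm
  · rintro _ ⟨u, rfl⟩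
    rw [LinearMap.mem_ker, Matrix.mulVecLin_apply, Matrix.mulVecLin_apply, Matrix.mulVec_mulVec,
      ← Matrix.map_mul, h1]
    have : (f • (1 : Matrix n n A)).map π = 0 := by
      ext i j
      simp only [Matrix.map_apply, Matrix.smul_apply, smul_eq_mul, map_mul, Matrix.zero_apply]
      rw [(hker f).2 dvd_rfl, zero_mul]
    rw [this, Matrix.zero_mulVec]

section mf

variable {A : Type} [CommRing A]

/-- first matrix of the matrix factorization of `t ^ 4 + a b + z ^ 3` -/
def P4 (t a b z : A) : Matrix (Fin 4) (Fin 4) A :=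
  !![t, 0, a, -z; 0, t, z ^ 2, b; -b, -z, t ^ 3, 0; z ^ 2, -a, 0, t ^ 3]

/-- second matrix of the matrix factorization of `t ^ 4 + a b + z ^ 3` -/
def Q4 (t a b z : A) : Matrix (Fin 4) (Fin 4) A :=
  !![t ^ 3, 0, -a, z; 0, t ^ 3, -z ^ 2, -b; b, z, t, 0; -z ^ 2, a, 0, t]

theorem P4_mul_Q4 (t a b z : A) :
    P4 t a b z * Q4 t a b z = (t ^ 4 + a * b + z ^ 3) • (1 : Matrix (Fin 4) (Fin 4) A) := by
  ext i j
  fin_cases i <;> fin_cases j <;>
    simp [P4, Q4, Matrix.mul_apply, Fin.sum_univ_four] <;> ring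

theorem Q4_mul_P4 (t a b z : A) :
    Q4 t a b z * P4 t a b z = (t ^ 4 + a * b + z ^ 3) • (1 : Matrix (Fin 4) (Fin 4) A) := by
  ext i j
  fin_cases i <;> fin_cases j <;>
    simp [P4, Q4, Matrix.mul_apply, Fin.sum_univ_four] <;> ring

end mf

/-- the defining polynomial -/
noncomputable abbrev ff : Polynomial S3 := Polynomial.X ^ 4 + Polynomial.C g3

theorem ff_eq : ff = Polynomial.X ^ 4 + Polynomial.C (MvPolynomial.X 0 + MvPolynomial.X 1) *
    Polynomial.C (MvPolynomial.X 0 ^ 2 - MvPolynomial.X 0 * MvPolynomial.X 1 +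
      MvPolynomial.X 1 ^ 2) + Polynomial.C (MvPolynomial.X 2) ^ 3 := by
  unfold ff g3
  rw [← Polynomial.C_mul, ← Polynomial.C_pow, add_assoc (Polynomial.X ^ 4) (Polynomial.C _)
    (Polynomial.C _), ← Polynomial.C_add]
  congr 2
  ring

/-- evaluation at the first order neighbourhood of the origin along the `w`-axis -/
noncomputable def θ : RR →+* DualNumber ℂ :=
  AdjoinRoot.lift ((algebraMap ℂ (DualNumber ℂ)).comp MvPolynomial.constantCoeff) DualNumber.eps (by
    simp [g3, pow_succ])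

theorem not_regular {A R : Type} [CommRing A] [CommRing R] (π : A →+* R)
    (θ : R →+* DualNumber ℂ) (t a b z : A) (e1 : θ (π t) = DualNumber.eps) (e2 : θ (π a) = 0)
    (e3 : θ (π b) = 0) (e4 : θ (π z) = 0) (γ : (Fin 4 → R) →ₗ[R] (Fin 4 → R))
    (hγ : ((Q4 t a b z).map π).mulVecLin ∘ₗ γ ∘ₗ ((Q4 t a b z).map π).mulVecLin =
      ((Q4 t a b z).map π).mulVecLin) : False := by
  have h1 : (Q4 t a b z).map π * LinearMap.toMatrix' γ * (Q4 t a b z).map π =
      (Q4 t a b z).map π := by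
    have := congrArg LinearMap.toMatrix' hγ
    rw [LinearMap.toMatrix'_comp, LinearMap.toMatrix'_comp, ← Matrix.toLin'_apply',
      LinearMap.toMatrix'_toLin', ← mul_assoc] at this
    exact this
  have h2 := congrArg (fun M => M.map θ) h1
  simp only [Matrix.map_mul] at h2
  generalize (LinearMap.toMatrix' γ).map θ = G at h2
  have h4 : (DualNumber.eps : DualNumber ℂ) ^ 3 = 0 := by
    rw [pow_succ, pow_two, DualNumber.eps_mul_eps, zero_mul]
  have h5 : ((Q4 t a b z).map π).map θ = !![0, 0, 0, 0; 0, 0, 0, 0; 0, 0, DualNumber.eps, 0;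
      0, 0, 0, DualNumber.eps] := by
    refine Matrix.ext fun i j => ?_
    fin_cases i <;> fin_cases j <;> simp [Q4, e1, e2, e3, e4, h4]
  rw [h5] at h2
  have h3 := congrFun (congrFun h2 2) 2
  simp only [Matrix.mul_apply, Fin.sum_univ_four, Matrix.of_apply, Matrix.cons_val,
    mul_zero, zero_mul, add_zero, zero_add] at h3
  rw [mul_comm, ← mul_assoc, DualNumber.eps_mul_eps, zero_mul] at h3
  have h5 := congrArg TrivSqZeroExt.snd h3
  simp at h5

theorem unbounded : ∃ N : ModuleCat.{0} RR, Module.Finite RR N ∧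
    ∀ n : ℕ, ∃ j, n ≤ j ∧ Nontrivial (Ext N N j) := by
  have hff : ff ≠ 0 := (Polynomial.monic_X_pow_add_C g3 (by norm_num)).ne_zero
  obtain ⟨t, ht⟩ : ∃ t : Polynomial S3, t = Polynomial.X := ⟨_, rfl⟩
  obtain ⟨a, ha⟩ : ∃ a : Polynomial S3, a = Polynomial.C (MvPolynomial.X 0 + MvPolynomial.X 1) :=
    ⟨_, rfl⟩
  obtain ⟨b, hb⟩ : ∃ b : Polynomial S3, b = Polynomial.C (MvPolynomial.X 0 ^ 2 -
    MvPolynomial.X 0 * MvPolynomial.X 1 + MvPolynomial.X 1 ^ 2) := ⟨_, rfl⟩
  obtain ⟨z, hz⟩ : ∃ z : Polynomial S3, z = Polynomial.C (MvPolynomial.X 2) := ⟨_, rfl⟩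
  have hff' : ff = t ^ 4 + a * b + z ^ 3 := by rw [ff_eq, ht, ha, hb, hz]
  have hPQ : P4 t a b z * Q4 t a b z = ff • 1 := by rw [P4_mul_Q4, hff']
  have hQP : Q4 t a b z * P4 t a b z = ff • 1 := by rw [Q4_mul_P4, hff']
  have e1 : θ (AdjoinRoot.mk ff t) = DualNumber.eps := by
    rw [ht, AdjoinRoot.mk_X]
    exact AdjoinRoot.lift_root _
  have e2 : θ (AdjoinRoot.mk ff a) = 0 := by
    rw [ha, AdjoinRoot.mk_C]
    exact (AdjoinRoot.lift_of _).trans (by simp)
  have e3 : θ (AdjoinRoot.mk ff b) = 0 := by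
    rw [hb, AdjoinRoot.mk_C]
    exact (AdjoinRoot.lift_of _).trans (by simp)
  have e4 : θ (AdjoinRoot.mk ff z) = 0 := by
    rw [hz, AdjoinRoot.mk_C]
    exact (AdjoinRoot.lift_of _).trans (by simp)
  have k1 := ker_eq_range ff hff (AdjoinRoot.mk ff) AdjoinRoot.mk_surjective
    (fun a => AdjoinRoot.mk_eq_zero) _ _ hPQ hQP
  have k2 := ker_eq_range ff hff (AdjoinRoot.mk ff) AdjoinRoot.mk_surjective
    (fun a => AdjoinRoot.mk_eq_zero) _ _ hQP hPQ
  exact unbounded_of_periodic (Fin 4 → RR) _ _ k1 k2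
    fun ⟨γ, hγ⟩ => not_regular (AdjoinRoot.mk ff) θ t a b z e1 e2 e3 e4 γ hγ

end Pool.Agent.TH350.J294
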