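import Pool.Agent.TH350.CA3

set_option autoImplicit false

namespace Pool.Agent.TH350.CA

open MvPolynomial Pool.Agent.TH554.J92 PadicInt

section orbits

variable {A : Type} [CommRing A] {N : ℕ} {I : Ideal (MvPolynomial (Fin (N + 1)) A)}
  {𝓕 : Set (Fin (N + 1) → MvPolynomial (Fin (N + 1)) A)} {x₀ : Fin (N + 1) → A}
  {E : Type} [Field E]

/-- proportional vectors -/
def Par (v w : Fin (N + 1) → E) : Prop := ∀ a b, v a * w b = v b * w a

theorem Par.symm {v w : Fin (N + 1) → E} (h : Par v w) : Par w v := by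
  intro a b
  have := h b a
  rw [mul_comm (w a), mul_comm (w b)]
  exact this

theorem Par.trans {u v w : Fin (N + 1) → E} (h : Par u v) (h' : Par v w) (hv : v ≠ 0) :
    Par u w := by
  intro a b
  obtain ⟨k, hk⟩ := Function.ne_iff.1 hv
  have hk' : v k ≠ 0 := hk
  apply mul_right_cancel₀ hk'
  have h1 := h a k
  have h2 := h k b
  have h3 := h' a b
  calc u a * w b * v k = (u a * v k) * w b := by ring
    _ = u k * (v a * w b) := by rw [h1]; ring
    _ = (u k * v b) * w a := by rw [h3]; ring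
    _ = _ := by rw [h2]; ring

theorem orb_ne (hD : CData A N I 𝓕 x₀) {φ : A →+* E} {w : ℕ → Fin (N + 1) → E}
    (hw : IsOrbit 𝓕 x₀ φ w) : ∀ n, w n ≠ 0
  | 0 => by
    obtain ⟨i, hi⟩ := hD.x1
    intro h
    have h1 := congrFun hw.1 i
    rw [h, hi, map_one] at h1
    exact zero_ne_one h1
  | n + 1 => (hw.2 n).1

theorem orb_I (hD : CData A N I 𝓕 x₀) {φ : A →+* E} {w : ℕ → Fin (N + 1) → E}
    (hw : IsOrbit 𝓕 x₀ φ w) : ∀ n, ∀ P ∈ I, eval₂ φ (w n) P = 0
  | 0, P, hP => by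
    rw [hw.1, eval₂_map_pt, hD.xI P hP, map_zero]
  | n + 1, P, hP => by
    obtain ⟨F, hF, h⟩ := (hw.2 n).2
    have h1 : w (n + 1) = fun a => eval₂ φ (w n) (F a) := funext h
    rw [h1, ← eval₂_bind]
    exact orb_I hD hw n _ (hD.stab P hP F hF)

theorem par_step (hD : CData A N I 𝓕 x₀) {φ : A →+* E} {v v' : Fin (N + 1) → E}
    (h : Par v v') (hv' : v' ≠ 0) (hI : ∀ P ∈ I, eval₂ φ v' P = 0)
    {F F' : Fin (N + 1) → MvPolynomial (Fin (N + 1)) A} (hF : F ∈ 𝓕) (hF' : F' ∈ 𝓕) :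
    Par (fun a => eval₂ φ v (F a)) (fun a => eval₂ φ v' (F' a)) := by
  obtain ⟨k, hk⟩ := Function.ne_iff.1 hv'
  have hk' : v' k ≠ 0 := hk
  obtain ⟨d, hd⟩ := hD.tup F hF
  have h1 : v = fun a => (v k / v' k) * v' a := by
    funext a
    have := h a k
    field_simp
    exact this
  intro a b
  have h2 := hI _ (hD.prop F hF F' hF' a b)
  rw [eval₂_sub, eval₂_mul, eval₂_mul, sub_eq_zero] at h2
  simp only
  rw [h1, eval₂_scale φ v' _ (hd a), eval₂_scale φ v' _ (hd b), mul_assoc, h2]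
  ring

theorem orb_par (hD : CData A N I 𝓕 x₀) {φ : A →+* E} {w w' : ℕ → Fin (N + 1) → E}
    (hw : IsOrbit 𝓕 x₀ φ w) (hw' : IsOrbit 𝓕 x₀ φ w') : ∀ n, Par (w n) (w' n)
  | 0 => by
    rw [hw.1, hw'.1]
    intro a b
    exact mul_comm _ _
  | n + 1 => by
    obtain ⟨F, hF, h⟩ := (hw.2 n).2
    obtain ⟨F', hF', h'⟩ := (hw'.2 n).2
    have h1 : w (n + 1) = fun a => eval₂ φ (w n) (F a) := funext h
    have h2 : w' (n + 1) = fun a => eval₂ φ (w' n) (F' a) := funext h'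
    rw [h1, h2]
    exact par_step hD (orb_par hD hw hw' n) (orb_ne hD hw' n) (orb_I hD hw' n) hF hF'

theorem orb_shift (hD : CData A N I 𝓕 x₀) {φ : A →+* E} {w : ℕ → Fin (N + 1) → E}
    (hw : IsOrbit 𝓕 x₀ φ w) {n m : ℕ} (hnm : Par (w n) (w m)) :
    ∀ l, Par (w (n + l)) (w (m + l))
  | 0 => hnm
  | l + 1 => by
    obtain ⟨F, hF, h⟩ := (hw.2 (n + l)).2
    obtain ⟨F', hF', h'⟩ := (hw.2 (m + l)).2
    have h1 : w (n + (l + 1)) = fun a => eval₂ φ (w (n + l)) (F a) := funext h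
    have h2 : w (m + (l + 1)) = fun a => eval₂ φ (w (m + l)) (F' a) := funext h'
    rw [h1, h2]
    exact par_step hD (orb_shift hD hw hnm l) (orb_ne hD hw _) (orb_I hD hw _) hF hF'

theorem orb_mul (hD : CData A N I 𝓕 x₀) {φ : A →+* E} {w : ℕ → Fin (N + 1) → E}
    (hw : IsOrbit 𝓕 x₀ φ w) {n t : ℕ} (hnm : Par (w n) (w (n + t))) (l : ℕ) (hl : n ≤ l) :
    ∀ q, Par (w l) (w (l + q * t))
  | 0 => by
    intro a b
    rw [zero_mul, add_zero]
    exact mul_comm _ _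
  | q + 1 => by
    obtain ⟨c, rfl⟩ := Nat.exists_eq_add_of_le hl
    have h1 := orb_mul hD hw hnm (n + c) hl q
    have h2 := orb_shift hD hw hnm (c + q * t)
    have e1 : n + (c + q * t) = n + c + q * t := by ring
    have e2 : n + t + (c + q * t) = n + c + (q + 1) * t := by ring
    rw [e1, e2] at h2
    exact h1.trans h2 (orb_ne hD hw _)

/-- an orbit over a subring gives an orbit -/
theorem orbit_of_sub {R : Subring A} {𝓕' : Set (Fin (N + 1) → MvPolynomial (Fin (N + 1)) R)}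
    {x' : Fin (N + 1) → R}
    (hmap : ∀ F ∈ 𝓕', (fun a => MvPolynomial.map R.subtype (F a)) ∈ 𝓕)
    (hx' : ∀ a, (x' a : A) = x₀ a) {y : ℕ → Fin (N + 1) → R}
    {F : ℕ → Fin (N + 1) → MvPolynomial (Fin (N + 1)) R} (hy0 : y 0 = x') (hF : ∀ n, F n ∈ 𝓕')
    (hyF : ∀ n a, y (n + 1) a = eval (y n) (F n a)) (φ : A →+* E)
    (hne : ∀ n, ∃ a, φ (y n a : A) ≠ 0) : IsOrbit 𝓕 x₀ φ (fun n a => φ (y n a : A)) := by
  refine ⟨?_, fun n => ⟨?_, _, hmap _ (hF n), ?_⟩⟩
  · funext a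
    change φ (y 0 a : A) = _
    rw [hy0, hx']
  · intro h
    obtain ⟨a, ha⟩ := hne (n + 1)
    exact ha (congrFun h a)
  · intro a
    rw [eval₂_map]
    have h1 := eval₂_map_pt (φ.comp R.subtype) (y n) (F n a)
    change φ (y (n + 1) a : A) = _
    rw [hyF]
    exact h1.symm

end orbits

theorem ft_closure {A : Type} [CommRing A] (R : Subring A)
    (hR : ∃ t : Finset A, R = Subring.closure (t : Set A)) : Algebra.FiniteType ℤ R := by
  obtain ⟨t, rfl⟩ := hR
  have h1 : (Algebra.adjoin ℤ (t : Set A)).FG := ⟨t, rfl⟩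
  rw [Algebra.adjoin_int] at h1
  have h2 := (Subalgebra.fg_iff_finiteType _).1 h1
  exact h2

/-- CA (arithmetic part). -/
theorem CA_of
    (hFst : ∀ (A : Type) [CommRing A] [IsDomain A] [Algebra (AlgebraicClosure ℚ) A]
      [Algebra.FiniteType (AlgebraicClosure ℚ) A] (R : Subring A)
      (_ : ∃ t : Finset A, R = Subring.closure (t : Set A)),
      ∃ (p : ℕ) (_ : Fact p.Prime) (m : ℕ) (b : (Fin m → ℤ_[p]) → (R →+* ℤ_[p])),
        (∀ β β' r, ‖b β r - b β' r‖ ≤ (p : ℝ) ^ (-2 : ℤ)) ∧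
        (∀ r, Continuous fun β => b β r) ∧
        (∀ r, r ≠ 0 → ∀ U : Set (Fin m → ℤ_[p]), IsOpen U → U.Nonempty → ∃ β ∈ U, b β r ≠ 0) ∧
        (∀ n : Fin m → ℤ, ∃ b' : A →ₐ[AlgebraicClosure ℚ] AlgebraicClosure ℚ,
          ∀ r : R, b' (r : A) = 0 → b (fun i => (n i : ℤ_[p])) r = 0))
    (A : Type) [CommRing A] [IsDomain A] [Algebra (AlgebraicClosure ℚ) A]
    [Algebra.FiniteType (AlgebraicClosure ℚ) A] (N : ℕ)
    (I : Ideal (MvPolynomial (Fin (N + 1)) A))
    (𝓕 : Set (Fin (N + 1) → MvPolynomial (Fin (N + 1)) A)) (x₀ : Fin (N + 1) → A)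
    (hD : CData A N I 𝓕 x₀)
    (hdist : ∀ w : ℕ → Fin (N + 1) → FractionRing A,
      IsOrbit 𝓕 x₀ (algebraMap A (FractionRing A)) w →
      ∀ n m, n ≠ m → ¬ ∀ a b, w n a * w m b = w n b * w m a)
    (hneg : ∀ b' : A →ₐ[AlgebraicClosure ℚ] AlgebraicClosure ℚ,
      ∃ w : ℕ → Fin (N + 1) → AlgebraicClosure ℚ,
        IsOrbit 𝓕 x₀ (b' : A →+* AlgebraicClosure ℚ) w ∧
        ∃ n m, n ≠ m ∧ ∀ a b, w n a * w m b = w n b * w m a) :
    ∃ (R : Type) (_ : CommRing R) (_ : IsDomain R) (_ : CharZero R)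
      (I : Ideal (MvPolynomial (Fin (N + 1)) R))
      (𝓕 : Set (Fin (N + 1) → MvPolynomial (Fin (N + 1)) R)) (x : Fin (N + 1) → R)
      (_ : CData R N I 𝓕 x) (K : ℕ)
      (Φ : Fin (N + 1) → MvPolynomial (Fin (N + 1)) R) (_ : Φ ∈ Comp 𝓕 K) (i : Fin (N + 1))
      (J : Ideal (MvPolynomial (Fin (N + 1)) R)) (_ : J = I ⊔ Ideal.span {X i - 1})
      (γ : (MvPolynomial (Fin (N + 1)) R ⧸ J) →+*
        Localization.Away (Ideal.Quotient.mk J (Φ i)))
      (𝔮 : ℕ → Ideal (MvPolynomial (Fin (N + 1)) R ⧸ J)),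
      (∀ r : R, γ (Ideal.Quotient.mk J (MvPolynomial.C r)) =
        algebraMap _ _ (Ideal.Quotient.mk J (MvPolynomial.C r))) ∧
      (∀ l, γ (Ideal.Quotient.mk J (X l)) * algebraMap _ _ (Ideal.Quotient.mk J (Φ i)) =
        algebraMap _ _ (Ideal.Quotient.mk J (Φ l))) ∧
      (∀ m, (𝔮 m).IsPrime) ∧ (∀ m, Ideal.Quotient.mk J (Φ i) ∉ 𝔮 m) ∧
      (∀ m, Ideal.comap γ (Ideal.map (algebraMap _ _) (𝔮 (m + 1))) = 𝔮 m) ∧
      (∀ c, γ c - algebraMap _ _ c ∈
        Ideal.map (algebraMap _ (Localization.Away (Ideal.Quotient.mk J (Φ i)))) (𝔮 0)) ∧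
      (∀ r : R, Ideal.Quotient.mk J (MvPolynomial.C r) ∈ 𝔮 0 → r = 0) ∧ 𝔮 1 < 𝔮 0 := by
  obtain ⟨R, hR, I', 𝓕', x', hD', hmap, hx'⟩ := DSC A N I 𝓕 x₀ hD
  obtain ⟨p, hp, m, b, hb1, hb2, hb3, hb4⟩ := hFst A R hR
  have hft := ft_closure R hR
  have hloc := isLocalHom_toZModPow (p := p)
  have hlr := isLocalRing_zmod (p := p)
  have hnz : NeZero (p ^ 2) := ⟨pow_ne_zero _ hp.out.ne_zero⟩
  obtain ⟨y, F, hy0, hF, hyF, hyI, hunit, n0, k, hk, hper⟩ :=
    exists_seq ((toZModPow 2).comp (b 0)) hD'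
  have hbτ : ∀ β r, toZModPow 2 (b β r) = toZModPow 2 (b 0 r) := by
    intro β r
    have h1 := hb1 β 0 r
    rw [norm_iff, map_sub, sub_eq_zero] at h1
    exact h1
  have hbne : ∀ β n, ∃ a, b β (y n a) ≠ 0 := by
    intro β n
    obtain ⟨a, ha⟩ := hunit n
    refine ⟨a, ?_⟩
    have h1 : IsUnit (b β (y n a)) := by
      apply hloc.map_nonunit
      rw [hbτ]
      exact ha
    exact h1.ne_zero
  have hCZA : CharZero A :=
    charZero_of_injective_algebraMap (algebraMap (AlgebraicClosure ℚ) A).injective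
  have hCZR : CharZero R := ⟨fun a b hab => by
    have h1 : ((a : R) : A) = ((b : R) : A) := congrArg _ hab
    push_cast at h1
    exact_mod_cast h1⟩
  have hinjA : Function.Injective (algebraMap A (FractionRing A)) :=
    IsFractionRing.injective A (FractionRing A)
  obtain ⟨K, Φ, hΦ, i, γ, 𝔮, h⟩ := CA_core R N I' 𝓕' x' hD' p m b hb1 hb2 hb3 y F hF hyF hyI
    hunit n0 k hk hper (by
      intro n n' hne
      have horb := orbit_of_sub (E := FractionRing A) hmap hx' hy0 hF hyF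
        (algebraMap A (FractionRing A)) (by
          intro n
          obtain ⟨a, ha⟩ := hbne 0 n
          refine ⟨a, fun h0 => ha ?_⟩
          have h1 : (y n a : A) = 0 := hinjA (by rw [h0, map_zero])
          have h2 : y n a = 0 := Subtype.ext h1
          rw [h2, map_zero])
      have h1 := hdist _ horb n n' hne
      by_contra hcon
      push Not at hcon
      apply h1
      intro a c
      have h2 := congrArg (fun r : R => algebraMap A (FractionRing A) (r : A)) (hcon a c)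
      simp only [Subring.coe_mul, map_mul] at h2
      exact h2) (by
      intro n
      obtain ⟨b', hb'⟩ := hb4 n
      have horb := orbit_of_sub (E := AlgebraicClosure ℚ) hmap hx' hy0 hF hyF
        (b' : A →+* AlgebraicClosure ℚ) (by
          intro n'
          obtain ⟨a, ha⟩ := hbne (fun i => (n i : ℤ_[p])) n'
          exact ⟨a, fun h0 => ha (hb' _ h0)⟩)
      obtain ⟨w, hw, n1, n2, hne, hpar⟩ := hneg b'
      have key : ∀ n1 n2, n1 < n2 → Par (w n1) (w n2) → ∃ n1 t, 0 < t ∧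
          ∀ n', n1 ≤ n' → ∀ q a c,
          b (fun i => (n i : ℤ_[p])) (y n' a * y (n' + q * t) c) =
            b (fun i => (n i : ℤ_[p])) (y n' c * y (n' + q * t) a) := by
        intro n1 n2 hlt hpar
        obtain ⟨d, rfl⟩ := Nat.exists_eq_add_of_lt hlt
        refine ⟨n1, d + 1, by omega, fun n' hn' q a c => ?_⟩
        have h1 : Par (fun a => (b' : A →+* AlgebraicClosure ℚ) (y n1 a : A))
            (fun a => (b' : A →+* AlgebraicClosure ℚ) (y (n1 + (d + 1)) a : A)) :=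
          ((orb_par hD horb hw n1).trans hpar (orb_ne hD hw n1)).trans
            (orb_par hD hw horb (n1 + d + 1)) (orb_ne hD hw _)
        have h2 := orb_mul hD horb h1 n' hn' q a c
        have h3 : b' ((y n' a * y (n' + q * (d + 1)) c - y n' c * y (n' + q * (d + 1)) a : R) : A)
            = 0 := by
          rw [AddSubgroupClass.coe_sub, Subring.coe_mul, Subring.coe_mul, map_sub, map_mul, map_mul,
            sub_eq_zero]
          exact h2
        have h4 := hb' _ h3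
        rw [map_sub, sub_eq_zero] at h4
        exact h4
      rcases lt_or_gt_of_ne hne with hlt | hlt
      · exact key n1 n2 hlt hpar
      · exact key n2 n1 hlt (Par.symm hpar))
  exact ⟨R, inferInstance, inferInstance, hCZR, I', 𝓕', x', hD', K, Φ, hΦ, i, JJ I' i, rfl, γ,
    𝔮, h⟩

end Pool.Agent.TH350.CA
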