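import Mathlib

/-!
Job 620 (HNNZn-6): uniformly bounded powers imply `|det| = 1`.
-/

set_option autoImplicit false

namespace Pool.Agent.TH350.J620

theorem det_bound {n : ℕ} (M : Matrix (Fin n) (Fin n) ℚ) (C : ℝ) (hC : 0 ≤ C)
    (h : ∀ i j, |((M i j : ℚ) : ℝ)| ≤ C) : |((M.det : ℚ) : ℝ)| ≤ n.factorial * C ^ n := by
  rw [Matrix.det_apply]
  push_cast
  calc |∑ σ : Equiv.Perm (Fin n), ((Equiv.Perm.sign σ • ∏ i, M (σ i) i : ℚ) : ℝ)|
      ≤ ∑ σ : Equiv.Perm (Fin n), |((Equiv.Perm.sign σ • ∏ i, M (σ i) i : ℚ) : ℝ)| :=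
        Finset.abs_sum_le_sum_abs _ _
    _ ≤ ∑ _σ : Equiv.Perm (Fin n), C ^ n := by
        refine Finset.sum_le_sum fun σ _ => ?_
        have h1 : |((Equiv.Perm.sign σ • ∏ i, M (σ i) i : ℚ) : ℝ)| = ∏ i, |((M (σ i) i : ℚ) : ℝ)| := by
          rw [← Rat.cast_abs, Units.smul_def, zsmul_eq_mul, abs_mul]
          rcases Int.units_eq_one_or (Equiv.Perm.sign σ) with hs | hs <;> rw [hs] <;>
            simp [Finset.abs_prod]
        rw [h1]
        calc ∏ i, |((M (σ i) i : ℚ) : ℝ)| ≤ ∏ _i : Fin n, C :=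
              Finset.prod_le_prod (fun i _ => abs_nonneg _) (fun i _ => h _ _)
          _ = C ^ n := by simp
    _ = n.factorial * C ^ n := by simp [Fintype.card_perm]

theorem la_det_one (n : ℕ) (A : (Fin n → ℚ) ≃ₗ[ℚ] (Fin n → ℚ))
    (h : ∃ C : ℝ, ∀ (k : ℤ) (x : Fin n → ℚ) (i : Fin n),
        |(((A ^ k) x i : ℚ) : ℝ)| ≤ C * ∑ j, |((x j : ℚ) : ℝ)|) :
    |LinearMap.det (A : (Fin n → ℚ) →ₗ[ℚ] (Fin n → ℚ))| = 1 := by
  obtain ⟨C, hC⟩ := h
  set d : ℚˣ := LinearEquiv.det A with hd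
  have hd' : LinearMap.det (A : (Fin n → ℚ) →ₗ[ℚ] (Fin n → ℚ)) = (d : ℚ) :=
    (LinearEquiv.coe_det A).symm
  rw [hd']
  set B : ℝ := n.factorial * (max C 0) ^ n with hB
  have hbound : ∀ k : ℤ, |((((d ^ k : ℚˣ) : ℚ)) : ℝ)| ≤ B := by
    intro k
    have h1 : ((d ^ k : ℚˣ) : ℚ) =
        (LinearMap.toMatrix' ((A ^ k : (Fin n → ℚ) ≃ₗ[ℚ] (Fin n → ℚ)) :
          (Fin n → ℚ) →ₗ[ℚ] (Fin n → ℚ))).det := by
      rw [LinearMap.det_toMatrix', ← LinearEquiv.coe_det, map_zpow]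
    rw [h1]
    refine det_bound _ _ (le_max_right _ _) fun i j => ?_
    rw [LinearMap.toMatrix'_apply]
    refine (hC k _ i).trans ?_
    have h2 : ∑ l, |(((fun j' => if j' = j then (1 : ℚ) else 0) l : ℚ) : ℝ)| = 1 := by
      rw [Finset.sum_eq_single j]
      · simp
      · intro b _ hb
        simp [hb]
      · simp
    have h3 : ∑ l, |(((Pi.single j (1 : ℚ) : Fin n → ℚ) l : ℚ) : ℝ)| = 1 := by
      rw [Finset.sum_eq_single j]
      · simp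
      · intro b _ hb
        simp [hb]
      · simp
    first
      | (rw [h3, mul_one]; exact le_max_left _ _)
      | (rw [h2, mul_one]; exact le_max_left _ _)
  -- conclude
  have key : ∀ e : ℚˣ, (∀ k : ℕ, |((((e ^ k : ℚˣ) : ℚ)) : ℝ)| ≤ B) → |((e : ℚ) : ℝ)| ≤ 1 := by
    intro e he
    by_contra hcon
    rw [not_le] at hcon
    obtain ⟨k, hk⟩ := pow_unbounded_of_one_lt B hcon
    have := he k
    rw [Units.val_pow_eq_pow_val, Rat.cast_pow, abs_pow] at this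
    exact absurd this (not_le.2 hk)
  have h1 : |((d : ℚ) : ℝ)| ≤ 1 := key d fun k => by
    have := hbound k
    rwa [zpow_natCast] at this
  have h2 : |(((d⁻¹ : ℚˣ) : ℚ) : ℝ)| ≤ 1 := key d⁻¹ fun k => by
    have := hbound (-k)
    rwa [zpow_neg, zpow_natCast, ← inv_pow] at this
  have h3 : (0 : ℝ) < |((d : ℚ) : ℝ)| := abs_pos.2 (Rat.cast_ne_zero.2 d.ne_zero)
  have h4 : |((d : ℚ) : ℝ)| = 1 := by
    refine le_antisymm h1 ?_
    rw [Units.val_inv_eq_inv_val, Rat.cast_inv, abs_inv] at h2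
    exact (inv_le_one₀ h3).1 h2
  have h5 : ((|(d : ℚ)| : ℚ) : ℝ) = ((1 : ℚ) : ℝ) := by
    rw [Rat.cast_abs, h4, Rat.cast_one]
  exact Rat.cast_injective h5

end Pool.Agent.TH350.J620
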