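import Mathlib
import Pool.Agent.TH109.Defs

/-!
Job 624 (HNNZn-10): loops going up (from the area bound).
-/

set_option autoImplicit false

namespace Pool.Agent.TH350.J624

open Pool.Agent.TH109

section words

variable {H : Type} [Group H] {A B : Subgroup H} (φ : A ≃* B)

theorem hev_append (w w' : List (H ⊕ Bool)) : hev φ (w ++ w') = hev φ w * hev φ w' := by
  induction w with
  | nil => simp [hev]
  | cons x w ih =>
    rcases x with x | b
    · simp only [List.cons_append, hev, ih, mul_assoc]
    · cases b <;> simp only [List.cons_append, hev, ih, mul_assoc]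

theorem hint_append (Q : HNNExtension H A B φ → ℝ) (w w' : List (H ⊕ Bool))
    (g : HNNExtension H A B φ) : hint Q (w ++ w') g = hint Q w g + hint Q w' (g * hev φ w) := by
  induction w generalizing g with
  | nil => simp [hev, hint]
  | cons x w ih =>
    rcases x with x | b
    · simp only [List.cons_append, hev, hint, ih, mul_assoc]
    · cases b <;> simp only [List.cons_append, hev, hint, ih, mul_assoc, add_assoc]

/-- the inverse word -/
def winv : List (H ⊕ Bool) → List (H ⊕ Bool)
  | [] => []
  | Sum.inl x :: w => winv w ++ [Sum.inl x⁻¹]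
  | Sum.inr b :: w => winv w ++ [Sum.inr (!b)]

theorem hev_winv (w : List (H ⊕ Bool)) : hev φ (winv w) = (hev φ w)⁻¹ := by
  induction w with
  | nil => simp [hev, winv]
  | cons x w ih =>
    rcases x with x | b
    · simp only [winv, hev_append, ih, hev, mul_one, map_inv, mul_inv_rev]
    · cases b <;> simp only [winv, hev_append, ih, hev, mul_one, mul_inv_rev, Bool.not_true,
        Bool.not_false, inv_inv]

theorem hint_winv (Q : HNNExtension H A B φ → ℝ) (w : List (H ⊕ Bool))
    (g : HNNExtension H A B φ) : hint Q (winv w) g = -hint Q w (g * (hev φ w)⁻¹) := by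
  induction w generalizing g with
  | nil => simp [hint, winv]
  | cons x w ih =>
    rcases x with x | b
    · simp only [winv, hint_append, ih, hint, hev, mul_inv_rev, add_zero]
      rw [show g * ((hev φ w)⁻¹ * (HNNExtension.of x)⁻¹) * HNNExtension.of x =
        g * (hev φ w)⁻¹ by group]
    · cases b
      · simp only [winv, hint_append, ih, hint, hev, mul_inv_rev, add_zero, Bool.not_false,
          inv_inv, hev_winv]
        rw [show g * ((hev φ w)⁻¹ * HNNExtension.t) * HNNExtension.t⁻¹ = g * (hev φ w)⁻¹ by group]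
        ring
      · simp only [winv, hint_append, ih, hint, hev, mul_inv_rev, add_zero, Bool.not_true, hev_winv]
        rw [show g * ((hev φ w)⁻¹ * HNNExtension.t⁻¹) * HNNExtension.t = g * (hev φ w)⁻¹ by group,
          ← mul_assoc g]
        ring

theorem winv_length (w : List (H ⊕ Bool)) : (winv w).length = w.length := by
  induction w with
  | nil => rfl
  | cons x w ih =>
    rcases x with x | b <;> simp [winv, ih]

theorem mem_winv (w : List (H ⊕ Bool)) (x : H) (h : Sum.inl x ∈ winv w) : Sum.inl x⁻¹ ∈ w := by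
  induction w with
  | nil => simp [winv] at h
  | cons y w ih =>
    rcases y with y | b
    · simp only [winv, List.mem_append, List.mem_singleton, Sum.inl.injEq] at h
      rcases h with h | h
      · exact List.mem_cons_of_mem _ (ih h)
      · rw [h, inv_inv]
        exact List.mem_cons_self
    · simp only [winv, List.mem_append, List.mem_singleton, reduceCtorEq, or_false] at h
      exact List.mem_cons_of_mem _ (ih h)

/-- the word `d₀ t d₁ t ⋯ v ⋯ t⁻¹ t⁻¹` -/
def W : ℕ → (ℕ → H) → List H → List (H ⊕ Bool)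
  | 0, _, v => v.map Sum.inl
  | k + 1, d, v => Sum.inl (d 0) :: Sum.inr true :: (W k (fun i => d (i + 1)) v ++ [Sum.inr false])

omit [Group H] in
theorem W_length (k : ℕ) (d : ℕ → H) (v : List H) : (W k d v).length = 3 * k + v.length := by
  induction k generalizing d with
  | zero => simp [W]
  | succ k ih => simp only [W, List.length_cons, List.length_append, ih, List.length_nil]; ring

omit [Group H] in
theorem mem_W (k : ℕ) (d : ℕ → H) (v : List H) (x : H) (h : Sum.inl x ∈ W k d v) :
    (∃ i < k, x = d i) ∨ x ∈ v := by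
  induction k generalizing d with
  | zero => right; simpa [W] using h
  | succ k ih =>
    simp only [W, List.mem_cons, Sum.inl.injEq, reduceCtorEq, List.mem_append,
      List.not_mem_nil, or_false, false_or] at h
    rcases h with h | h
    · exact Or.inl ⟨0, Nat.succ_pos k, h⟩
    · rcases ih _ h with ⟨i, hi, hx⟩ | hx
      · exact Or.inl ⟨i + 1, by omega, hx⟩
      · exact Or.inr hx

theorem hev_map (v : List H) : hev φ (v.map Sum.inl) = HNNExtension.of v.prod := by
  induction v with
  | nil => simp [hev]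
  | cons x v ih => simp only [List.map_cons, hev, ih, List.prod_cons, map_mul]

theorem hint_map (Q : HNNExtension H A B φ → ℝ) (v : List H) (g : HNNExtension H A B φ) :
    hint Q (v.map Sum.inl) g = 0 := by
  induction v generalizing g with
  | nil => simp [hint]
  | cons x v ih => simp only [List.map_cons, hint, ih]

theorem hev_W (k : ℕ) (s d : ℕ → H) (v : List H) (hv : v.prod = s k)
    (hs : ∀ i, i < k → ∃ h : s (i + 1) ∈ A, s i = d i * (φ ⟨s (i + 1), h⟩ : H)) :
    hev φ (W k d v) = HNNExtension.of (s 0) := by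
  induction k generalizing s d with
  | zero => rw [W, hev_map, hv]
  | succ k ih =>
    obtain ⟨h, h0⟩ := hs 0 (Nat.succ_pos k)
    have ih' := ih (fun i => s (i + 1)) (fun i => d (i + 1)) hv
      fun i hi => hs (i + 1) (by omega)
    simp only [W, hev, hev_append, ih', mul_one]
    rw [h0, map_mul]
    have := HNNExtension.t_mul_of (φ := φ) ⟨s (0 + 1), h⟩
    simp only at this
    rw [← mul_assoc HNNExtension.t, this, mul_inv_cancel_right]

/-- the group element `d₀ t d₁ t ⋯ t d_j` -/
noncomputable def hX : ℕ → (ℕ → H) → HNNExtension H A B φ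
  | 0, d => HNNExtension.of (d 0)
  | j + 1, d => HNNExtension.of (d 0) * HNNExtension.t * hX j (fun i => d (i + 1))

theorem hint_W (Q : HNNExtension H A B φ → ℝ) (k : ℕ) (s d : ℕ → H) (v : List H)
    (hv : v.prod = s k)
    (hs : ∀ i, i < k → ∃ h : s (i + 1) ∈ A, s i = d i * (φ ⟨s (i + 1), h⟩ : H))
    (g : HNNExtension H A B φ) :
    hint Q (W k d v) g = ∑ j ∈ Finset.range k,
      (Q (g * hX φ j d) - Q (g * hX φ j d * HNNExtension.of ((d j)⁻¹ * s j))) := by
  induction k generalizing s d g with
  | zero => rw [W, hint_map, Finset.sum_range_zero]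
  | succ k ih =>
    obtain ⟨h, h0⟩ := hs 0 (Nat.succ_pos k)
    have hs' : ∀ i, i < k → ∃ h : s (i + 1 + 1) ∈ A,
        s (i + 1) = d (i + 1) * (φ ⟨s (i + 1 + 1), h⟩ : H) := fun i hi => hs (i + 1) (by omega)
    have ih' := ih (fun i => s (i + 1)) (fun i => d (i + 1)) hv hs'
    have he := hev_W φ k (fun i => s (i + 1)) (fun i => d (i + 1)) v hv hs'
    rw [Finset.sum_range_succ']
    simp only [W, hint, hint_append, ih', he, hX, add_zero]
    have e1 : g * HNNExtension.of (d 0) * HNNExtension.t * HNNExtension.of (s (0 + 1)) *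
        HNNExtension.t⁻¹ = g * HNNExtension.of (d 0) * HNNExtension.of ((d 0)⁻¹ * s 0) := by
      have := HNNExtension.t_mul_of (φ := φ) ⟨s (0 + 1), h⟩
      simp only at this
      rw [mul_assoc _ HNNExtension.t, this, h0, inv_mul_cancel_left, ← mul_assoc,
        mul_inv_cancel_right]
    rw [e1]
    simp only [mul_assoc]
    ring

end words

section lengths

variable {H : Type} [CommGroup H] {A B : Subgroup H} (φ : A ≃* B) (E : HLen φ)

theorem nm_hX (j : ℕ) (d : ℕ → H) : E.nm (hX φ j d) = j := by
  induction j using Nat.strong_induction_on generalizing d with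
  | _ j ih =>
    match j with
    | 0 => exact (E.nm_zero _).2 ⟨d 0, rfl⟩
    | 1 =>
      have h0 : E.nm (hX φ 0 (fun i => d (i + 1))) = 0 := ih 0 (by omega) _
      have h1 := E.nm_step (hX φ 0 (fun i => d (i + 1))) 1
      rw [h0] at h1
      have h2 : E.nm (hX φ 1 d) = E.nm (HNNExtension.t ^ ((1 : ℤˣ) : ℤ) *
          hX φ 0 (fun i => d (i + 1))) := by
        have := E.nm_of (d 0) 1 (HNNExtension.t * hX φ 0 (fun i => d (i + 1)))
        rw [map_one, mul_one, ← mul_assoc] at this
        rw [Units.val_one, zpow_one]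
        exact this
      rw [h2]
      omega
    | j + 2 =>
      set X' := hX φ (j + 1) (fun i => d (i + 1)) with hX'
      have h0 : E.nm X' = j + 1 := ih (j + 1) (by omega) _
      have h00 : E.nm (hX φ j (fun i => d (i + 1 + 1))) = j := ih j (by omega) _
      have h1 := E.nm_step X' 1
      have h2 : E.nm (hX φ (j + 2) d) = E.nm (HNNExtension.t ^ ((1 : ℤˣ) : ℤ) * X') := by
        have := E.nm_of (d 0) 1 (HNNExtension.t * X')
        rw [map_one, mul_one, ← mul_assoc] at this
        rw [Units.val_one, zpow_one]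
        exact this
      rw [h2]
      rcases h1 with h1 | h1
      · omega
      · exfalso
        have h3 : E.nm ((HNNExtension.of 1 * HNNExtension.t ^ (((-1 : ℤˣ)) : ℤ))⁻¹ * X') + 1 =
            E.nm X' := by
          rw [map_one, one_mul, Units.val_neg, Units.val_one, zpow_neg, inv_inv, zpow_one]
          rw [Units.val_one, zpow_one] at h1
          exact h1
        have h4 : E.nm ((HNNExtension.of (d 1) * HNNExtension.t ^ (((1 : ℤˣ)) : ℤ))⁻¹ * X') + 1 =
            E.nm X' := by
          have e : (HNNExtension.of (d 1) * HNNExtension.t ^ (((1 : ℤˣ)) : ℤ))⁻¹ * X' =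
              hX φ j (fun i => d (i + 1 + 1)) := by
            rw [hX', hX, Units.val_one, zpow_one, inv_mul_cancel_left]
          rw [e, h00, h0]
        have h5 := (E.dir_unique X' 1 (d 1) (-1) 1 h3 h4).1
        exact absurd h5 (by decide)

include E in
/-- the elements `X` and `r X` are not in the same coset of `B` -/
theorem not_coset (r : H) (hr : r ∉ B) (j : ℕ) (d : ℕ → H) (b : H) (hb : b ∈ B) :
    (hX φ j d)⁻¹ * (HNNExtension.of r * hX φ j d) ≠ HNNExtension.of b := by
  intro h
  match j with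
  | 0 =>
    rw [hX, ← map_inv, ← map_mul, ← map_mul] at h
    have h1 := HNNExtension.of_injective φ h
    apply hr
    have h2 : (d 0)⁻¹ * (r * d 0) = r := by
      rw [mul_comm r, inv_mul_cancel_left]
    rw [h2] at h1
    rw [h1]
    exact hb
  | j + 1 =>
    have hn := nm_hX φ E (j + 1) d
    have hn' := nm_hX φ E j (fun i => d (i + 1))
    have hrX : HNNExtension.of r * hX φ (j + 1) d = HNNExtension.of (r * d 0) * HNNExtension.t *
        hX φ j (fun i => d (i + 1)) := by
      rw [hX, map_mul]
      simp only [mul_assoc]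
    have hnr : E.nm (HNNExtension.of r * hX φ (j + 1) d) = j + 1 := by
      have := E.nm_of r 1 (hX φ (j + 1) d)
      rw [map_one, mul_one] at this
      rw [this, hn]
    have d1 : E.nm ((HNNExtension.of (d 0) * HNNExtension.t ^ (((1 : ℤˣ)) : ℤ))⁻¹ *
        hX φ (j + 1) d) + 1 = E.nm (hX φ (j + 1) d) := by
      rw [hn, hX, Units.val_one, zpow_one, inv_mul_cancel_left, hn']
    have d2 : E.nm ((HNNExtension.of (r * d 0) * HNNExtension.t ^ (((1 : ℤˣ)) : ℤ))⁻¹ *
        (HNNExtension.of r * hX φ (j + 1) d)) + 1 = E.nm (HNNExtension.of r * hX φ (j + 1) d) := by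
      rw [hnr, hrX, Units.val_one, zpow_one, inv_mul_cancel_left, hn']
    have h3 := E.dir_add (hX φ (j + 1) d) (HNNExtension.of r * hX φ (j + 1) d) (by
      rintro x u ⟨h4, h5⟩
      obtain ⟨hu, h6⟩ := E.dir_unique _ _ _ _ _ d1 h4
      obtain ⟨-, h7⟩ := E.dir_unique _ _ _ _ _ d2 h5
      change (d 0)⁻¹ * x ∈ B at h6
      change (r * d 0)⁻¹ * x ∈ B at h7
      apply hr
      have h8 := B.mul_mem h6 (B.inv_mem h7)
      have h9 : (d 0)⁻¹ * x * ((r * d 0)⁻¹ * x)⁻¹ = r := by
        rw [mul_inv_rev, inv_inv, mul_comm r (d 0)]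
        group
      rwa [h9] at h8)
    rw [h, hn, hnr, (E.nm_zero _).2 ⟨b, rfl⟩] at h3
    omega

/-- the exponent sum of `t` -/
noncomputable def tau : HNNExtension H A B φ →* Multiplicative ℤ :=
  HNNExtension.lift 1 (Multiplicative.ofAdd 1) (fun a => by simp)

theorem tau_of (h : H) : tau φ (HNNExtension.of h) = 1 := by
  rw [tau, HNNExtension.lift_of]
  rfl

theorem tau_t : tau φ HNNExtension.t = Multiplicative.ofAdd 1 := HNNExtension.lift_t _ _ _

theorem tau_hX (j : ℕ) (d : ℕ → H) : tau φ (hX φ j d) = Multiplicative.ofAdd (j : ℤ) := by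
  induction j generalizing d with
  | zero => rw [hX, tau_of]; rfl
  | succ j ih =>
    rw [hX, map_mul, map_mul, tau_of, tau_t, ih, one_mul, ← ofAdd_add]
    congr 1
    push_cast
    ring

end lengths

theorem up_loop {H : Type} [CommGroup H] {A B : Subgroup H} (φ : A ≃* B) (N : H → ℝ)
    (hN1 : N 1 = 0) (hN : ∀ x y, |N (x * y) - N x| ≤ N y) (r : H) (hr : r ∉ B)
    (E : HLen φ) (ha : AreaS φ N) : UpS φ N := by
  classical
  intro F hF
  obtain ⟨C0, hC0⟩ := ha (F ∪ F⁻¹ ∪ {r, r⁻¹}) ((hF.union hF.inv).union (by simp))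
  refine ⟨36 * max C0 0, ?_⟩
  intro k s d v hd hvF hv hs
  have hN0 : ∀ y, 0 ≤ N y := fun y => (abs_nonneg _).trans (hN 1 y)
  -- the closed word
  set U := W k d v with hU
  set w : List (H ⊕ Bool) := U ++ [Sum.inl r] ++ winv U ++ [Sum.inl r⁻¹] with hw
  have heU : hev φ U = HNNExtension.of (s 0) := hev_W φ k s d v hv hs
  -- the function Q
  set P : HNNExtension H A B φ → H → Prop := fun g b =>
    b ∈ B ∧ ∃ i < k, g = hX φ i d * HNNExtension.of b with hP
  have hPu : ∀ g b b', P g b → P g b' → b = b' := by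
    rintro g b b' ⟨_, i, hi, h1⟩ ⟨_, i', hi', h2⟩
    have h3 := congrArg (tau φ) (h1.symm.trans h2)
    rw [map_mul, map_mul, tau_of, tau_of, mul_one, mul_one, tau_hX, tau_hX] at h3
    have h4 : i = i' := by exact_mod_cast Multiplicative.ofAdd.injective h3
    subst h4
    exact HNNExtension.of_injective φ (mul_left_cancel (h1.symm.trans h2))
  set Q : HNNExtension H A B φ → ℝ := fun g => if h : ∃ b, P g b then N h.choose else 0 with hQ
  have hQ1 : ∀ g b, P g b → Q g = N b := by
    intro g b h
    have h' : ∃ b, P g b := ⟨b, h⟩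
    rw [hQ]
    simp only
    rw [dif_pos h', hPu g _ _ h'.choose_spec h]
  have hQ0 : ∀ g, (¬ ∃ b, P g b) → Q g = 0 := by
    intro g h
    rw [hQ]
    simp only
    rw [dif_neg h]
  have hPmul : ∀ g b c, c ∈ B → P g b → P (g * HNNExtension.of c) (b * c) := by
    rintro g b c hc ⟨hb, i, hi, h⟩
    refine ⟨B.mul_mem hb hc, i, hi, ?_⟩
    rw [h, map_mul, mul_assoc]
  have hQL : ∀ g, ∀ b ∈ B, |Q (g * HNNExtension.of b) - Q g| ≤ N b := by
    intro g c hc
    by_cases h : ∃ b, P g b
    · obtain ⟨b, hb⟩ := h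
      rw [hQ1 _ _ hb, hQ1 _ _ (hPmul g b c hc hb)]
      exact hN b c
    · have h' : ¬ ∃ b, P (g * HNNExtension.of c) b := by
        rintro ⟨b, hb⟩
        apply h
        have := hPmul _ b c⁻¹ (B.inv_mem hc) hb
        rw [mul_assoc, ← map_mul, mul_inv_cancel, map_one, mul_one] at this
        exact ⟨_, this⟩
      rw [hQ0 _ h, hQ0 _ h', sub_zero, abs_zero]
      exact hN0 c
  have hmem : ∀ x, Sum.inl x ∈ w → x ∈ F ∪ F⁻¹ ∪ {r, r⁻¹} := by
    intro x hx
    have hUF : ∀ y, Sum.inl y ∈ U → y ∈ F := by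
      intro y hy
      rcases mem_W k d v y hy with ⟨i, hi, rfl⟩ | h
      · exact hd i hi
      · exact hvF y h
    rw [hw] at hx
    simp only [List.mem_append, List.mem_singleton, Sum.inl.injEq] at hx
    rcases hx with ((hx | hx) | hx) | hx
    · exact Or.inl (Or.inl (hUF x hx))
    · exact Or.inr (Or.inl hx)
    · refine Or.inl (Or.inr ?_)
      exact hUF _ (mem_winv U x hx)
    · exact Or.inr (Or.inr hx)
  have hev1 : hev φ w = 1 := by
    rw [hw, hev_append, hev_append, hev_append, hev_winv, heU]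
    simp only [hev, mul_one]
    rw [← map_mul, ← map_inv, ← map_mul, ← map_mul, mul_comm (s 0) r, mul_inv_cancel_right,
      mul_inv_cancel, map_one]
  have hlen : (w.length : ℝ) = 6 * k + 2 * v.length + 2 := by
    rw [hw]
    simp only [List.length_append, winv_length, hU, W_length, List.length_singleton]
    push_cast
    ring
  have hint1 : hint Q w 1 = hint Q U 1 - hint Q U (HNNExtension.of r) := by
    rw [hw, hint_append, hint_append, hint_append, hint_winv, heU]
    simp only [hint, hev, hev_append, heU, one_mul, mul_one, add_zero]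
    rw [← map_mul, ← map_inv, ← map_mul, mul_comm (s 0) r, mul_inv_cancel_right]
    ring
  have hbj : ∀ j, j < k → (d j)⁻¹ * s j ∈ B := by
    intro j hj
    obtain ⟨h, h1⟩ := hs j hj
    rw [h1, inv_mul_cancel_left]
    exact (φ _).2
  have hval1 : hint Q U 1 = -∑ j ∈ Finset.range k, N ((d j)⁻¹ * s j) := by
    rw [hU, hint_W φ Q k s d v hv hs, ← Finset.sum_neg_distrib]
    refine Finset.sum_congr rfl fun j hj => ?_
    have hj' := Finset.mem_range.1 hj
    have p1 : P (1 * hX φ j d) 1 := ⟨B.one_mem, j, hj', by rw [map_one, mul_one, one_mul]⟩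
    rw [hQ1 _ _ p1, hQ1 _ _ (hPmul _ _ _ (hbj j hj') p1), hN1, one_mul, zero_sub]
  have hval2 : hint Q U (HNNExtension.of r) = 0 := by
    rw [hU, hint_W φ Q k s d v hv hs]
    refine Finset.sum_eq_zero fun j hj => ?_
    have hj' := Finset.mem_range.1 hj
    have key : ¬ ∃ b, P (HNNExtension.of r * hX φ j d) b := by
      rintro ⟨b, hb, i, hi, h⟩
      have h3 := congrArg (tau φ) h
      rw [map_mul, map_mul, tau_of, tau_of, mul_one, one_mul, tau_hX, tau_hX] at h3
      have h4 : j = i := by exact_mod_cast Multiplicative.ofAdd.injective h3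
      subst h4
      exact not_coset φ E r hr j d b hb (by rw [h, inv_mul_cancel_left])
    have key2 : ¬ ∃ b, P (HNNExtension.of r * hX φ j d * HNNExtension.of ((d j)⁻¹ * s j)) b := by
      rintro ⟨b, hb⟩
      apply key
      have := hPmul _ b ((d j)⁻¹ * s j)⁻¹ (B.inv_mem (hbj j hj')) hb
      rw [mul_assoc, ← map_mul, mul_inv_cancel, map_one, mul_one] at this
      exact ⟨_, this⟩
    rw [hQ0 _ key, hQ0 _ key2, sub_zero]
  have hfin := hC0 Q hQL w hmem hev1
  rw [hint1, hval1, hval2, sub_zero, abs_neg, abs_of_nonneg (Finset.sum_nonneg fun j _ => hN0 _),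
    hlen] at hfin
  refine hfin.trans ?_
  have h1 : C0 ≤ max C0 0 := le_max_left _ _
  have h2 : 0 ≤ max C0 0 := le_max_right _ _
  have h3 : (6 * (k : ℝ) + 2 * v.length + 2 + 1) ^ 2 ≤ 36 * ((k : ℝ) + v.length + 1) ^ 2 := by
    have hk : (0 : ℝ) ≤ k := Nat.cast_nonneg k
    have hvl : (0 : ℝ) ≤ v.length := Nat.cast_nonneg _
    have : 6 * (k : ℝ) + 2 * v.length + 2 + 1 ≤ 6 * ((k : ℝ) + v.length + 1) := by linarith
    calc (6 * (k : ℝ) + 2 * v.length + 2 + 1) ^ 2 ≤ (6 * ((k : ℝ) + v.length + 1)) ^ 2 :=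
          pow_le_pow_left₀ (by positivity) this 2
      _ = 36 * ((k : ℝ) + v.length + 1) ^ 2 := by ring
  calc C0 * (6 * (k : ℝ) + 2 * v.length + 2 + 1) ^ 2
      ≤ max C0 0 * (6 * (k : ℝ) + 2 * v.length + 2 + 1) ^ 2 :=
        mul_le_mul_of_nonneg_right h1 (sq_nonneg _)
    _ ≤ max C0 0 * (36 * ((k : ℝ) + v.length + 1) ^ 2) := mul_le_mul_of_nonneg_left h3 h2
    _ = 36 * max C0 0 * ((k : ℝ) + v.length + 1) ^ 2 := by ring

end Pool.Agent.TH350.J624
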