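import Mathlib
import Pool.Agent.TH109.Defs
import Pool.Agent.TH350.J624

/-!
Job 625 (HNNZn-11): the unbranched case (commutator loops violate the quadratic area bound).
-/

set_option autoImplicit false

namespace Pool.Agent.TH350.J625

open Pool.Agent.TH109 Pool.Agent.TH350.J624

section norm

variable {n : ℕ}

/-- the `ℓ¹` norm -/
def nrm (x : Multiplicative (Fin n → ℤ)) : ℝ := ∑ i, |((Multiplicative.toAdd x i : ℤ) : ℝ)|

theorem nrm_nonneg (x : Multiplicative (Fin n → ℤ)) : 0 ≤ nrm x :=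
  Finset.sum_nonneg fun _ _ => abs_nonneg _

theorem nrm_one : nrm (1 : Multiplicative (Fin n → ℤ)) = 0 := by
  simp [nrm]

theorem nrm_inv (x : Multiplicative (Fin n → ℤ)) : nrm x⁻¹ = nrm x := by
  unfold nrm
  refine Finset.sum_congr rfl fun i _ => ?_
  rw [toAdd_inv, Pi.neg_apply, Int.cast_neg, abs_neg]

theorem nrm_mul (x y : Multiplicative (Fin n → ℤ)) : nrm (x * y) ≤ nrm x + nrm y := by
  unfold nrm
  rw [← Finset.sum_add_distrib]
  refine Finset.sum_le_sum fun i _ => ?_
  rw [toAdd_mul, Pi.add_apply, Int.cast_add]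
  exact abs_add_le _ _

theorem nrm_pow (x : Multiplicative (Fin n → ℤ)) (k : ℕ) : nrm (x ^ k) = k * nrm x := by
  unfold nrm
  rw [Finset.mul_sum]
  refine Finset.sum_congr rfl fun i _ => ?_
  rw [toAdd_pow, Pi.smul_apply, nsmul_eq_mul, Int.cast_mul, abs_mul, Int.cast_natCast, Nat.abs_cast]

theorem nrm_lip (x y : Multiplicative (Fin n → ℤ)) : |nrm (x * y) - nrm x| ≤ nrm y := by
  rw [abs_le]
  constructor
  · have := nrm_mul (x * y) y⁻¹
    rw [mul_inv_cancel_right, nrm_inv] at this
    linarith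
  · have := nrm_mul x y
    linarith

/-- finitely many lattice points in a ball -/
theorem finite_ball (R : ℝ) : {x : Multiplicative (Fin n → ℤ) | nrm x ≤ R}.Finite := by
  have h1 : {x : Fin n → ℤ | ∀ i, x i ∈ Set.Icc (-⌈R⌉) ⌈R⌉}.Finite :=
    (Set.finite_Icc (fun _ : Fin n => -⌈R⌉) (fun _ => ⌈R⌉)).subset
      (fun x hx => ⟨fun i => (hx i).1, fun i => (hx i).2⟩)
  refine (h1.image Multiplicative.ofAdd).subset ?_
  intro x hx
  refine ⟨Multiplicative.toAdd x, fun i => ?_, rfl⟩
  have h2 : |((Multiplicative.toAdd x i : ℤ) : ℝ)| ≤ nrm x :=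
    Finset.single_le_sum (f := fun i => |((Multiplicative.toAdd x i : ℤ) : ℝ)|)
      (fun _ _ => abs_nonneg _) (Finset.mem_univ i)
  have h3 : |((Multiplicative.toAdd x i : ℤ) : ℝ)| ≤ ((⌈R⌉ : ℤ) : ℝ) :=
    h2.trans (le_trans hx (Int.le_ceil R))
  have h4 : |Multiplicative.toAdd x i| ≤ ⌈R⌉ := by exact_mod_cast h3
  exact abs_le.1 h4

theorem exists_far (y : ℤ → Multiplicative (Fin n → ℤ)) (hinj : Function.Injective y) (R : ℝ) :
    ∃ M : ℕ, ∀ i : ℤ, (M : ℤ) ≤ |i| → R ≤ nrm (y i) := by
  have h1 : {i : ℤ | nrm (y i) ≤ R}.Finite := (finite_ball R).preimage hinj.injOn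
  obtain ⟨M, hM⟩ := (h1.image fun i => i.natAbs).bddAbove
  refine ⟨M + 1, fun i hi => ?_⟩
  by_contra hcon
  have h2 : i.natAbs ≤ M := hM ⟨i, le_of_lt (not_le.1 hcon), rfl⟩
  rw [Int.abs_eq_natAbs] at hi
  have h3 : M + 1 ≤ i.natAbs := Int.ofNat_le.1 hi
  omega

end norm

section words

variable {H : Type} [Group H] {A B : Subgroup H} (φ : A ≃* B)

/-- `t ^ k` as a word -/
def tp (k : ℕ) : List (H ⊕ Bool) := List.replicate k (Sum.inr true)

/-- `t ^ (-k)` as a word -/
def tm (k : ℕ) : List (H ⊕ Bool) := List.replicate k (Sum.inr false)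

theorem hev_tp (k : ℕ) : hev φ (tp k) = HNNExtension.t ^ k := by
  induction k with
  | zero => rfl
  | succ k ih =>
    rw [tp, List.replicate_succ, hev, ← tp, ih, pow_succ']

theorem hev_tm (k : ℕ) : hev φ (tm k) = (HNNExtension.t ^ k)⁻¹ := by
  induction k with
  | zero => simp [tm, hev]
  | succ k ih =>
    rw [tm, List.replicate_succ, hev, ← tm, ih, pow_succ, mul_inv_rev]

theorem hint_tp (Q : HNNExtension H A B φ → ℝ) (k : ℕ) (g : HNNExtension H A B φ) :
    hint Q (tp k) g = ∑ j ∈ Finset.range k, Q (g * HNNExtension.t ^ (j : ℤ)) := by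
  induction k generalizing g with
  | zero => rfl
  | succ k ih =>
    rw [tp, List.replicate_succ, hint, ← tp, ih, Finset.sum_range_succ']
    rw [add_comm]
    congr 1
    · refine Finset.sum_congr rfl fun j _ => ?_
      congr 1
      rw [mul_assoc]
      congr 1
      push_cast
      group
    · simp

theorem hint_tm (Q : HNNExtension H A B φ → ℝ) (k : ℕ) (g : HNNExtension H A B φ) :
    hint Q (tm k) g = -∑ j ∈ Finset.range k, Q (g * HNNExtension.t ^ (-((j : ℤ) + 1))) := by
  induction k generalizing g with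
  | zero => simp [tm, hint]
  | succ k ih =>
    rw [tm, List.replicate_succ, hint, ← tm, ih, Finset.sum_range_succ', neg_add, add_comm]
    have e1 : g * HNNExtension.t ^ (-(((0 : ℕ) : ℤ) + 1)) = g * HNNExtension.t⁻¹ := by
      congr 1
    have e2 : ∀ j : ℕ, g * HNNExtension.t⁻¹ * HNNExtension.t ^ (-((j : ℤ) + 1)) =
        g * HNNExtension.t ^ (-(((j + 1 : ℕ) : ℤ) + 1)) := by
      intro j
      rw [mul_assoc]
      congr 1
      push_cast
      group
    simp only [e1, e2]

theorem hint_rep (Q : HNNExtension H A B φ → ℝ) (x : H) (k : ℕ) (g : HNNExtension H A B φ) :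
    hint Q (List.replicate k (Sum.inl x)) g = 0 := by
  have : (List.replicate k (Sum.inl x) : List (H ⊕ Bool)) = (List.replicate k x).map Sum.inl := by
    rw [List.map_replicate]
  rw [this, hint_map]

theorem hev_rep (x : H) (k : ℕ) :
    hev φ (List.replicate k (Sum.inl x)) = HNNExtension.of (x ^ k) := by
  have : (List.replicate k (Sum.inl x) : List (H ⊕ Bool)) = (List.replicate k x).map Sum.inl := by
    rw [List.map_replicate]
  rw [this, hev_map, List.prod_replicate]

end words

/-- the lattice -/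
abbrev Zn (n : ℕ) : Type := Multiplicative (Fin n → ℤ)

theorem main {n : ℕ} (φ : (⊤ : Subgroup (Zn n)) ≃* (⊤ : Subgroup (Zn n)))
    (y : ℤ → Zn n) (hinj : Function.Injective y)
    (hy : ∀ j, ∃ h : y j ∈ (⊤ : Subgroup (Zn n)), (φ ⟨y j, h⟩ : Zn n) = y (j + 1))
    (ha : AreaS φ nrm) : False := by
  -- the automorphism
  let ψ : MulAut (Zn n) := (Subgroup.topEquiv.symm.trans φ).trans Subgroup.topEquiv
  have hψ : ∀ a : (⊤ : Subgroup (Zn n)), (φ a : Zn n) = ψ a := fun a => rfl
  have hψy : ∀ j, ψ (y j) = y (j + 1) := by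
    intro j
    obtain ⟨h, h1⟩ := hy j
    exact h1
  let θ : Multiplicative ℤ →* MulAut (Zn n) := zpowersHom (MulAut (Zn n)) ψ
  have hθ : ∀ j : ℤ, θ (Multiplicative.ofAdd j) = ψ ^ j := fun j => rfl
  let Θ : HNNExtension (Zn n) ⊤ ⊤ φ →* SemidirectProduct (Zn n) (Multiplicative ℤ) θ :=
    HNNExtension.lift SemidirectProduct.inl (SemidirectProduct.inr (Multiplicative.ofAdd 1))
      (fun a => by
        rw [hψ]
        apply SemidirectProduct.ext
        · rw [SemidirectProduct.mul_left, SemidirectProduct.mul_left]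
          simp [hθ]
        · rw [SemidirectProduct.mul_right, SemidirectProduct.mul_right]
          simp)
  have hΘof : ∀ x : Zn n, Θ (HNNExtension.of x) = SemidirectProduct.inl x := fun x =>
    HNNExtension.lift_of _ _ _ x
  have hΘt : ∀ j : ℤ, Θ (HNNExtension.t ^ j) = SemidirectProduct.inr (Multiplicative.ofAdd j) := by
    intro j
    rw [map_zpow]
    have : Θ HNNExtension.t = SemidirectProduct.inr (Multiplicative.ofAdd 1) :=
      HNNExtension.lift_t _ _ _
    rw [this, ← map_zpow, ← ofAdd_zsmul, smul_eq_mul, mul_one]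
  let Z : HNNExtension (Zn n) ⊤ ⊤ φ → Zn n := fun g => (θ (Θ g).right)⁻¹ (Θ g).left
  have hZof : ∀ g (b : Zn n), Z (g * HNNExtension.of b) = Z g * b := by
    intro g b
    change (θ (Θ (g * HNNExtension.of b)).right)⁻¹ (Θ (g * HNNExtension.of b)).left = _
    rw [map_mul, hΘof, SemidirectProduct.mul_right, SemidirectProduct.mul_left,
      SemidirectProduct.right_inl, SemidirectProduct.left_inl, mul_one, map_mul,
      MulAut.inv_apply_self]
  have hZt : ∀ (a : Zn n) (j : ℤ), Z (HNNExtension.of a * HNNExtension.t ^ j) = (ψ ^ j)⁻¹ a := by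
    intro a j
    change (θ (Θ (HNNExtension.of a * HNNExtension.t ^ j)).right)⁻¹
      (Θ (HNNExtension.of a * HNNExtension.t ^ j)).left = _
    rw [map_mul, hΘof, hΘt, SemidirectProduct.mul_right, SemidirectProduct.mul_left,
      SemidirectProduct.right_inl, SemidirectProduct.left_inl, SemidirectProduct.right_inr,
      SemidirectProduct.left_inr, one_mul, map_one, mul_one, hθ]
  have hψz : ∀ j i : ℤ, (ψ ^ j) (y i) = y (i + j) := by
    intro j
    induction j using Int.induction_on with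
    | zero => intro i; simp
    | succ j ih =>
      intro i
      rw [zpow_add_one, MulAut.mul_apply, hψy, ih]
      congr 1
      ring
    | pred j ih =>
      intro i
      rw [zpow_sub_one, MulAut.mul_apply]
      have : ψ⁻¹ (y i) = y (i - 1) := by
        rw [MulAut.inv_apply, MulEquiv.symm_apply_eq, hψy]
        congr 1
        ring
      rw [this, ih]
      congr 1
      ring
  -- conjugation by powers of `t`
  have htof : ∀ (j : ℤ) (x : Zn n), HNNExtension.t ^ j * HNNExtension.of x =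
      (HNNExtension.of ((ψ ^ j) x) * HNNExtension.t ^ j : HNNExtension (Zn n) ⊤ ⊤ φ) := by
    have h1 : ∀ x : Zn n, HNNExtension.t * HNNExtension.of x =
        (HNNExtension.of (ψ x) * HNNExtension.t : HNNExtension (Zn n) ⊤ ⊤ φ) := fun x =>
      HNNExtension.t_mul_of (φ := φ) ⟨x, trivial⟩
    have h2 : ∀ x : Zn n, HNNExtension.t⁻¹ * HNNExtension.of x =
        (HNNExtension.of (ψ⁻¹ x) * HNNExtension.t⁻¹ : HNNExtension (Zn n) ⊤ ⊤ φ) := by
      intro x
      rw [inv_mul_eq_iff_eq_mul, ← mul_assoc, h1, MulAut.apply_inv_self, mul_inv_cancel_right]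
    intro j
    induction j using Int.induction_on with
    | zero => intro x; simp
    | succ j ih =>
      intro x
      rw [zpow_add_one, zpow_add_one, mul_assoc, h1, ← mul_assoc, ih, MulAut.mul_apply, mul_assoc]
    | pred j ih =>
      intro x
      rw [zpow_sub_one, zpow_sub_one, mul_assoc, h2, ← mul_assoc, ih, MulAut.mul_apply, mul_assoc]
  -- the constant
  obtain ⟨C, hC⟩ := ha {y 0, (y 0)⁻¹} (by simp)
  obtain ⟨M, hM⟩ := exists_far y hinj (max C 0 * 157 + 1)
  set R : ℝ := max C 0 * 157 + 1 with hR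
  set m : ℕ := M + 1 with hm
  set k : ℕ := 2 * m with hk
  -- the two elements
  set a : Zn n := y k ^ k with hadef
  set b : Zn n := y (-k) ^ k with hbdef
  set Q : HNNExtension (Zn n) ⊤ ⊤ φ → ℝ := fun g =>
    min (nrm (Z (HNNExtension.of a⁻¹ * g))) (nrm (Z (HNNExtension.of b⁻¹ * g))) with hQ
  have hQL : ∀ g, ∀ c ∈ (⊤ : Subgroup (Zn n)), |Q (g * HNNExtension.of c) - Q g| ≤ nrm c := by
    intro g c _
    rw [hQ]
    simp only
    rw [← mul_assoc, ← mul_assoc, hZof, hZof]
    exact (abs_min_sub_min_le_max _ _ _ _).trans (max_le (nrm_lip _ _) (nrm_lip _ _))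
  have hQ0 : ∀ g, 0 ≤ Q g := fun g => le_min (nrm_nonneg _) (nrm_nonneg _)
  have hQat : ∀ (c : Zn n) (j : ℤ), Q (HNNExtension.of c * HNNExtension.t ^ j) =
      min (nrm ((ψ ^ j)⁻¹ (a⁻¹ * c))) (nrm ((ψ ^ j)⁻¹ (b⁻¹ * c))) := by
    intro c j
    rw [hQ]
    simp only
    rw [← mul_assoc, ← mul_assoc, ← map_mul, ← map_mul, hZt, hZt]
  have hQa : ∀ j : ℤ, Q (HNNExtension.of a * HNNExtension.t ^ j) = 0 := by
    intro j
    refine le_antisymm ?_ (hQ0 _)
    rw [hQat, inv_mul_cancel, map_one, nrm_one]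
    exact min_le_left _ _
  have hQb : ∀ j : ℤ, Q (HNNExtension.of b * HNNExtension.t ^ j) = 0 := by
    intro j
    refine le_antisymm ?_ (hQ0 _)
    rw [hQat, inv_mul_cancel, map_one, nrm_one]
    exact min_le_right _ _
  have hQ1 : ∀ j : ℤ, 0 ≤ j → j < m → k * R ≤ Q (HNNExtension.t ^ j) := by
    intro j hj0 hjm
    have h1 := hQat 1 j
    rw [map_one, one_mul, mul_one, mul_one] at h1
    rw [h1, map_inv, map_inv, nrm_inv, nrm_inv, hadef, hbdef, map_pow, map_pow, nrm_pow, nrm_pow,
      ← zpow_neg, hψz, hψz]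
    have hk' : (k : ℤ) = 2 * M + 2 := by rw [hk, hm]; push_cast; ring
    have hm' : (m : ℤ) = M + 1 := by rw [hm]; push_cast; ring
    refine le_min ?_ ?_
    · refine mul_le_mul_of_nonneg_left (hM _ ?_) (Nat.cast_nonneg k)
      rw [abs_of_nonneg (by omega)]
      omega
    · refine mul_le_mul_of_nonneg_left (hM _ ?_) (Nat.cast_nonneg k)
      rw [abs_of_nonpos (by omega)]
      omega
  -- the words
  set U : List (Zn n ⊕ Bool) := tp k ++ List.replicate k (Sum.inl (y 0)) ++ tm k with hU
  set V : List (Zn n ⊕ Bool) := tm k ++ List.replicate k (Sum.inl (y 0)) ++ tp k with hV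
  have heU : hev φ U = HNNExtension.of a := by
    rw [hU, hev_append, hev_append, hev_tp, hev_tm, hev_rep, ← zpow_natCast HNNExtension.t k, htof,
      map_pow, hψz, zero_add, mul_inv_cancel_right]
  have heV : hev φ V = HNNExtension.of b := by
    rw [hV, hev_append, hev_append, hev_tp, hev_tm, hev_rep, ← zpow_natCast HNNExtension.t k,
      ← zpow_neg, htof, map_pow, hψz, zero_add, zpow_neg, inv_mul_cancel_right]
  have hiU : ∀ g, hint Q U g = ∑ j ∈ Finset.range k, (Q (g * HNNExtension.t ^ (j : ℤ)) -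
      Q (g * HNNExtension.of a * HNNExtension.t ^ (j : ℤ))) := by
    intro g
    rw [hU, hint_append, hint_append, hint_tp, hint_rep, hint_tm, hev_append, hev_tp, hev_rep,
      add_zero, Finset.sum_sub_distrib, ← sub_eq_add_neg]
    congr 1
    rw [← Finset.sum_range_reflect]
    refine Finset.sum_congr rfl fun j hj => ?_
    have hj' := Finset.mem_range.1 hj
    congr 1
    rw [← zpow_natCast HNNExtension.t k, htof, map_pow, hψz, zero_add, mul_assoc, mul_assoc,
      ← zpow_add, mul_assoc g]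
    congr 3
    have : ((k - 1 - j : ℕ) : ℤ) = k - 1 - j := by omega
    rw [this]
    ring
  have hiV : ∀ g, hint Q V g = ∑ j ∈ Finset.range k,
      (Q (g * HNNExtension.of b * HNNExtension.t ^ (-((j : ℤ) + 1))) -
        Q (g * HNNExtension.t ^ (-((j : ℤ) + 1)))) := by
    intro g
    rw [hV, hint_append, hint_append, hint_tp, hint_rep, hint_tm, hev_append, hev_tm, hev_rep,
      add_zero, Finset.sum_sub_distrib, add_comm, ← sub_eq_add_neg]
    congr 1
    rw [← Finset.sum_range_reflect]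
    refine Finset.sum_congr rfl fun j hj => ?_
    have hj' := Finset.mem_range.1 hj
    congr 1
    rw [← zpow_natCast HNNExtension.t k, ← zpow_neg, htof, map_pow, hψz, zero_add, mul_assoc,
      mul_assoc, ← zpow_add, mul_assoc g]
    congr 3
    have : ((k - 1 - j : ℕ) : ℤ) = k - 1 - j := by omega
    rw [this]
    ring
  set w := U ++ V ++ winv U ++ winv V with hw
  have hev1 : hev φ w = 1 := by
    rw [hw, hev_append, hev_append, hev_append, hev_winv, hev_winv, heU, heV, ← map_inv, ← map_inv,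
      ← map_mul, ← map_mul, ← map_mul, mul_comm a b, mul_inv_cancel_right, mul_inv_cancel, map_one]
  have hmemrep : ∀ x, Sum.inl x ∈ (List.replicate k (Sum.inl (y 0)) : List (Zn n ⊕ Bool)) →
      x = y 0 := by
    intro x hx
    exact Sum.inl_injective (List.eq_of_mem_replicate hx)
  have htp : ∀ x, Sum.inl x ∉ (tp k : List (Zn n ⊕ Bool)) := by
    intro x hx
    exact absurd (List.eq_of_mem_replicate hx) Sum.inl_ne_inr
  have htm : ∀ x, Sum.inl x ∉ (tm k : List (Zn n ⊕ Bool)) := by
    intro x hx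
    exact absurd (List.eq_of_mem_replicate hx) Sum.inl_ne_inr
  have hmemU : ∀ x, Sum.inl x ∈ U → x = y 0 := by
    intro x hx
    rw [hU, List.mem_append, List.mem_append] at hx
    rcases hx with (hx | hx) | hx
    · exact absurd hx (htp x)
    · exact hmemrep x hx
    · exact absurd hx (htm x)
  have hmemV : ∀ x, Sum.inl x ∈ V → x = y 0 := by
    intro x hx
    rw [hV, List.mem_append, List.mem_append] at hx
    rcases hx with (hx | hx) | hx
    · exact absurd hx (htm x)
    · exact hmemrep x hx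
    · exact absurd hx (htp x)
  have hmem : ∀ x, Sum.inl x ∈ w → x ∈ ({y 0, (y 0)⁻¹} : Set (Zn n)) := by
    intro x hx
    rw [hw, List.mem_append, List.mem_append, List.mem_append] at hx
    rcases hx with ((hx | hx) | hx) | hx
    · exact Or.inl (hmemU x hx)
    · exact Or.inl (hmemV x hx)
    · exact Or.inr (inv_eq_iff_eq_inv.1 (hmemU _ (mem_winv U x hx)))
    · exact Or.inr (inv_eq_iff_eq_inv.1 (hmemV _ (mem_winv V x hx)))
  have hlen : w.length = 12 * k := by
    rw [hw, hU, hV]
    simp only [List.length_append, winv_length, tp, tm, List.length_replicate]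
    ring
  have hmain := hC Q hQL w hmem hev1
  have hval : hint Q w 1 = hint Q U 1 + hint Q V (HNNExtension.of a) -
      hint Q U (HNNExtension.of b) - hint Q V 1 := by
    have hUV : hev φ (U ++ V) = HNNExtension.of (a * b) := by
      rw [hev_append φ U V, heU, heV, map_mul]
    have hUVU : hev φ (U ++ V ++ winv U) = HNNExtension.of b := by
      rw [hev_append φ (U ++ V) (winv U), hUV, hev_winv, heU, ← map_inv, ← map_mul, mul_comm a b,
        mul_inv_cancel_right]
    rw [hw, hint_append, hint_append, hint_append, hint_winv, hint_winv, hUVU, hUV, heU, heV,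
      one_mul, one_mul, one_mul, ← map_inv, ← map_inv, ← map_mul, ← map_mul, mul_inv_cancel, map_one,
      mul_comm a b, mul_inv_cancel_right]
    ring
  have hlow : 2 * ((m : ℝ) * (k * R)) ≤ hint Q w 1 := by
    have e1 : hint Q U 1 = ∑ j ∈ Finset.range k, Q (HNNExtension.t ^ (j : ℤ)) := by
      rw [hiU]
      refine Finset.sum_congr rfl fun j _ => ?_
      rw [one_mul, one_mul, hQa, sub_zero]
    have e2 : hint Q U (HNNExtension.of b) = -∑ j ∈ Finset.range k,
        Q (HNNExtension.of (b * a) * HNNExtension.t ^ (j : ℤ)) := by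
      rw [hiU, ← Finset.sum_neg_distrib]
      refine Finset.sum_congr rfl fun j _ => ?_
      rw [hQb, zero_sub, map_mul]
    have e3 : hint Q V (HNNExtension.of a) = ∑ j ∈ Finset.range k,
        Q (HNNExtension.of (a * b) * HNNExtension.t ^ (-((j : ℤ) + 1))) := by
      rw [hiV]
      refine Finset.sum_congr rfl fun j _ => ?_
      rw [hQa, sub_zero, map_mul]
    have e4 : hint Q V 1 = -∑ j ∈ Finset.range k, Q (HNNExtension.t ^ (-((j : ℤ) + 1))) := by
      rw [hiV, ← Finset.sum_neg_distrib]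
      refine Finset.sum_congr rfl fun j _ => ?_
      rw [one_mul, one_mul, hQb, zero_sub]
    have hmk : Finset.range m ⊆ Finset.range k := by
      intro j hj
      rw [Finset.mem_range] at hj ⊢
      omega
    have s1 : (m : ℝ) * (k * R) ≤ ∑ j ∈ Finset.range k, Q (HNNExtension.t ^ (j : ℤ)) := by
      calc (m : ℝ) * (k * R) = ∑ j ∈ Finset.range m, (k * R) := by
            rw [Finset.sum_const, Finset.card_range, nsmul_eq_mul]
        _ ≤ ∑ j ∈ Finset.range m, Q (HNNExtension.t ^ (j : ℤ)) := by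
            refine Finset.sum_le_sum fun j hj => hQ1 j (Int.natCast_nonneg j) ?_
            exact_mod_cast Finset.mem_range.1 hj
        _ ≤ _ := Finset.sum_le_sum_of_subset_of_nonneg hmk fun _ _ _ => hQ0 _
    have s2 : (m : ℝ) * (k * R) ≤ ∑ j ∈ Finset.range k,
        Q (HNNExtension.of (b * a) * HNNExtension.t ^ (j : ℤ)) := by
      refine s1.trans (le_of_eq (Finset.sum_congr rfl fun j _ => ?_))
      have h1 := hQat 1 j
      rw [map_one, one_mul, mul_one, mul_one] at h1
      rw [h1, hQat, mul_comm b a, inv_mul_cancel_left, mul_comm a b, inv_mul_cancel_left, map_inv,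
        map_inv, nrm_inv, nrm_inv, min_comm]
    have s3 : 0 ≤ ∑ j ∈ Finset.range k,
        Q (HNNExtension.of (a * b) * HNNExtension.t ^ (-((j : ℤ) + 1))) :=
      Finset.sum_nonneg fun _ _ => hQ0 _
    have s4 : 0 ≤ ∑ j ∈ Finset.range k, Q (HNNExtension.t ^ (-((j : ℤ) + 1))) :=
      Finset.sum_nonneg fun _ _ => hQ0 _
    rw [hval, e1, e2, e3, e4]
    linarith
  have hup := (le_abs_self _).trans hmain
  rw [hlen] at hup
  have hm1 : (1 : ℝ) ≤ m := by rw [hm]; push_cast; linarith [(Nat.cast_nonneg M : (0 : ℝ) ≤ M)]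
  have hkm : (k : ℝ) = 2 * m := by rw [hk]; push_cast; ring
  have h1 : C * (((12 * k : ℕ) : ℝ) + 1) ^ 2 ≤ max C 0 * (25 * m) ^ 2 := by
    have h2 : (((12 * k : ℕ) : ℝ) + 1) ≤ 25 * m := by
      push_cast
      rw [hkm]
      linarith
    have h3 : (((12 * k : ℕ) : ℝ) + 1) ^ 2 ≤ (25 * m) ^ 2 :=
      pow_le_pow_left₀ (by positivity) h2 2
    calc C * (((12 * k : ℕ) : ℝ) + 1) ^ 2 ≤ max C 0 * (((12 * k : ℕ) : ℝ) + 1) ^ 2 :=
          mul_le_mul_of_nonneg_right (le_max_left _ _) (sq_nonneg _)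
      _ ≤ _ := mul_le_mul_of_nonneg_left h3 (le_max_right _ _)
  have h4 := hlow.trans (hup.trans h1)
  rw [hkm, hR] at h4
  have h5 : 0 ≤ max C 0 := le_max_right _ _
  nlinarith [mul_pos (lt_of_lt_of_le one_pos hm1) (lt_of_lt_of_le one_pos hm1),
    mul_nonneg h5 (mul_self_nonneg (m : ℝ))]

theorem unbranched {n : ℕ} (A B : Subgroup (Multiplicative (Fin n → ℤ))) (φ : A ≃* B)
    (hA : A = ⊤) (hB : B = ⊤) (y : ℤ → Multiplicative (Fin n → ℤ)) (hinj : Function.Injective y)
    (hy : ∀ j, ∃ h : y j ∈ A, (φ ⟨y j, h⟩ : Multiplicative (Fin n → ℤ)) = y (j + 1))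
    (ha : AreaS φ (fun x => ∑ i, |((Multiplicative.toAdd x i : ℤ) : ℝ)|)) : False := by
  subst hA hB
  exact main φ y hinj hy ha

end Pool.Agent.TH350.J625
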