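import Pool.Agent.TH60.LR.Defs

/-!
Job 561 (LR-11): the base homomorphism (canonical completion by truncated involutions).
-/

set_option autoImplicit false

namespace Pool.Agent.TH350.J561

open Pool.Agent.TH60.LR

section invol

variable {P : Type} (R : P → P → Prop) (hs : ∀ a b, R a b → R b a)
  (hu : ∀ a b c, R a b → R a c → b = c)

open Classical in
/-- the partner of a point, or the point itself -/
noncomputable def partner (a : P) : P := if h : ∃ b, R a b then h.choose else a

include hu in
theorem partner_of {a b : P} (h : R a b) : partner R a = b := by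
  have h' : ∃ b, R a b := ⟨b, h⟩
  unfold partner
  rw [dif_pos h']
  exact hu a _ _ h'.choose_spec h

theorem partner_not {a : P} (h : ¬ ∃ b, R a b) : partner R a = a := by
  unfold partner
  rw [dif_neg h]

include hs hu in
theorem partner_involutive : Function.Involutive (partner R) := by
  intro a
  by_cases h : ∃ b, R a b
  · obtain ⟨b, hb⟩ := h
    rw [partner_of R hu hb, partner_of R hu (hs _ _ hb)]
  · rw [partner_not R h, partner_not R h]

/-- the involution of a partial matching -/
noncomputable def mkInv : Equiv.Perm P := (partner_involutive R hs hu).toPerm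

theorem mkInv_of {a b : P} (h : R a b) : mkInv R hs hu a = b := partner_of R hu h

theorem mkInv_not {a : P} (h : ¬ ∃ b, R a b) : mkInv R hs hu a = a := partner_not R h

theorem mkInv_conj (R' : P → P → Prop) (hs' : ∀ a b, R' a b → R' b a)
    (hu' : ∀ a b c, R' a b → R' a c → b = c) (f : Equiv.Perm P)
    (h : ∀ a b, R a b ↔ R' (f a) (f b)) (a : P) :
    f (mkInv R hs hu a) = mkInv R' hs' hu' (f a) := by
  by_cases h1 : ∃ b, R a b
  · obtain ⟨b, hb⟩ := h1
    rw [mkInv_of R hs hu hb, mkInv_of R' hs' hu' ((h _ _).1 hb)]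
  · rw [mkInv_not R hs hu h1, mkInv_not R' hs' hu']
    rintro ⟨b, hb⟩
    apply h1
    refine ⟨f.symm b, (h _ _).2 ?_⟩
    rwa [Equiv.apply_symm_apply]

end invol

section setup

variable {Γ : Type} [Group Γ] (T : GTree Γ)

/-- vertices and midpoints of edges -/
def Y : Type := T.X ⊕ Sym2 T.E

variable {T} in
/-- a vertex -/
def vx (x : T.X) : Y T := Sum.inl x

variable {T} in
/-- the midpoint of an edge -/
def md (e : T.E) : Y T := Sum.inr s(e, T.inv e)

instance : MulAction Γ (Y T) where
  smul g := Sum.map (fun x => g • x) (Sym2.map (fun e => g • e))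
  one_smul := by
    rintro (x | s)
    · exact congrArg Sum.inl (one_smul Γ x)
    · refine congrArg Sum.inr ?_
      have : (fun e : T.E => (1 : Γ) • e) = id := funext fun e => one_smul Γ e
      rw [this, Sym2.map_id]
      rfl
  mul_smul := by
    rintro g h (x | s)
    · exact congrArg Sum.inl (mul_smul g h x)
    · refine congrArg Sum.inr ?_
      have : (fun e : T.E => (g * h) • e) = (fun e => g • e) ∘ (fun e => h • e) :=
        funext fun e => mul_smul g h e
      rw [this, Sym2.map_comp]
      rfl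

theorem smul_vx (g : Γ) (x : T.X) : g • (vx x : Y T) = vx (g • x) := rfl

theorem smul_md (g : Γ) (e : T.E) : g • (md e : Y T) = md (g • e) := by
  change (Sum.inr (Sym2.map (fun e => g • e) s(e, T.inv e)) : Y T) = Sum.inr s(g • e, T.inv (g • e))
  rw [Sym2.map_mk, T.smul_inv]

theorem md_inv (e : T.E) : (md (T.inv e) : Y T) = md e := by
  unfold md
  rw [T.inv_inv, Sym2.eq_swap]

theorem vx_inj {x y : T.X} (h : (vx x : Y T) = vx y) : x = y := Sum.inl_injective h

theorem md_inj {e f : T.E} (h : (md e : Y T) = md f) : e = f ∨ e = T.inv f := by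
  have h1 : s(e, T.inv e) = s(f, T.inv f) := Sum.inr_injective h
  rw [Sym2.eq_iff] at h1
  rcases h1 with h1 | h1
  · exact Or.inl h1.1
  · exact Or.inr h1.1

theorem vx_ne_md (x : T.X) (e : T.E) : (vx x : Y T) ≠ md e := Sum.inl_ne_inr

variable {Q H : Type} [Group Q] [Group H] (π : Γ →* Q) (j : H →* Γ) (F : Set (Y T))

/-- the set on which everything acts -/
def PP (_π : Γ →* Q) (j : H →* Γ) (F : Set (Y T)) : Type :=
  {p : Y T × Q // ∃ h : H, j h • p.1 ∈ F}

variable {T}

instance : MulAction H (PP T π j F) where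
  smul h p := ⟨(j h • p.1.1, π (j h) * p.1.2), by
    obtain ⟨k, hk⟩ := p.2
    refine ⟨k * h⁻¹, ?_⟩
    rw [map_mul, mul_smul, map_inv, inv_smul_smul]
    exact hk⟩
  one_smul := by
    intro p
    apply Subtype.ext
    change ((j 1 • p.1.1, π (j 1) * p.1.2) : Y T × Q) = p.1
    rw [map_one, map_one, one_smul, one_mul]
  mul_smul := by
    intro g h p
    apply Subtype.ext
    change ((j (g * h) • p.1.1, π (j (g * h)) * p.1.2) : Y T × Q) =
      (j g • j h • p.1.1, π (j g) * (π (j h) * p.1.2))
    rw [map_mul, map_mul, mul_smul, mul_assoc]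

theorem smul_fst (h : H) (p : PP T π j F) : (h • p).1.1 = j h • p.1.1 := rfl

theorem smul_snd (h : H) (p : PP T π j F) : (h • p).1.2 = π (j h) * p.1.2 := rfl

theorem PP_ext {p q : PP T π j F} (h1 : p.1.1 = q.1.1) (h2 : p.1.2 = q.1.2) : p = q :=
  Subtype.ext (Prod.ext h1 h2)

/-- translation in the second factor -/
def trans (q₁ : Q) : Equiv.Perm (PP T π j F) where
  toFun p := ⟨(p.1.1, p.1.2 * q₁⁻¹), p.2⟩
  invFun p := ⟨(p.1.1, p.1.2 * q₁), p.2⟩
  left_inv p := by
    refine PP_ext π j F rfl ?_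
    change p.1.2 * q₁⁻¹ * q₁ = p.1.2
    group
  right_inv p := by
    refine PP_ext π j F rfl ?_
    change p.1.2 * q₁ * q₁⁻¹ = p.1.2
    group

theorem trans_fst (q₁ : Q) (p : PP T π j F) : (trans π j F q₁ p).1.1 = p.1.1 := rfl

theorem trans_snd (q₁ : Q) (p : PP T π j F) : (trans π j F q₁ p).1.2 = p.1.2 * q₁⁻¹ := rfl

/-- the homomorphism `Φ₀` -/
def Phi0 : Q →* Cent H (PP T π j F) where
  toFun q₁ := ⟨trans π j F q₁, fun h p => PP_ext π j F rfl (mul_assoc _ _ _)⟩
  map_one' := by
    apply Subtype.ext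
    apply Equiv.ext
    intro p
    refine PP_ext π j F rfl ?_
    change p.1.2 * 1⁻¹ = p.1.2
    group
  map_mul' a b := by
    apply Subtype.ext
    apply Equiv.ext
    intro p
    refine PP_ext π j F rfl ?_
    change p.1.2 * (a * b)⁻¹ = p.1.2 * b⁻¹ * a⁻¹
    group

/-- the matching attached to an edge -/
def Rel (e : T.E) (p p' : PP T π j F) : Prop :=
  p.1.2 = p'.1.2 ∧ ∃ g : Γ, π g = p.1.2 ∧
    ((p.1.1 = vx (T.t (g • e)) ∧ p'.1.1 = md (g • e)) ∨
      (p'.1.1 = vx (T.t (g • e)) ∧ p.1.1 = md (g • e)))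

theorem Rel_symm (e : T.E) (p p' : PP T π j F) (h : Rel π j F e p p') : Rel π j F e p' p := by
  obtain ⟨h1, g, h2, h3⟩ := h
  exact ⟨h1.symm, g, h2.trans h1, h3.symm⟩

theorem Rel_unique (hX : ∀ n : Γ, π n = 1 → ∀ x : T.X, n • x = x → n = 1)
    (hE : ∀ n : Γ, π n = 1 → ∀ e : T.E, n • e = e → n = 1)
    (htf : ∀ n : Γ, π n = 1 → n * n = 1 → n = 1) (e : T.E) (p p' p'' : PP T π j F)
    (h : Rel π j F e p p') (h' : Rel π j F e p p'') : p' = p'' := by
  obtain ⟨h1, g, h2, h3⟩ := h
  obtain ⟨h1', g', h2', h3'⟩ := h'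
  have hn : π (g' * g⁻¹) = 1 := by rw [map_mul, map_inv, h2, h2', mul_inv_cancel]
  have hfin : g' * g⁻¹ = 1 → g' = g := fun h => mul_inv_eq_one.1 h
  refine PP_ext π j F ?_ (h1.symm.trans h1')
  rcases h3 with ⟨a, b⟩ | ⟨a, b⟩ <;> rcases h3' with ⟨a', b'⟩ | ⟨a', b'⟩
  · have h4 : T.t (g • e) = T.t (g' • e) := vx_inj T (a.symm.trans a')
    have h5 : g' = g := by
      apply hfin
      apply hX _ hn (T.t (g • e))
      rw [T.smul_t, smul_smul, inv_mul_cancel_right]
      exact h4.symm
    rw [b, b', h5]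
  · exact absurd (a.symm.trans b') (vx_ne_md T _ _)
  · exact absurd (a'.symm.trans b) (vx_ne_md T _ _)
  · have h5 : g' = g := by
      apply hfin
      rcases md_inj T (b'.symm.trans b) with h4 | h4
      · apply hE _ hn (g • e)
        rw [smul_smul, inv_mul_cancel_right]
        exact h4
      · apply htf _ hn
        apply hE _ (by rw [map_mul, hn, one_mul]) (g • e)
        rw [mul_smul, smul_smul (g' * g⁻¹) g, inv_mul_cancel_right, h4, T.smul_inv, smul_smul,
          inv_mul_cancel_right, h4, T.inv_inv]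
    rw [a, a', h5]

theorem Rel_smul (e : T.E) (h : H) (p p' : PP T π j F) :
    Rel π j F e p p' ↔ Rel π j F e (h • p) (h • p') := by
  have key : ∀ (h : H) (p p' : PP T π j F), Rel π j F e p p' →
      Rel π j F e (h • p) (h • p') := by
    rintro h p p' ⟨h1, g, h2, h3⟩
    refine ⟨?_, j h * g, ?_, ?_⟩
    · rw [smul_snd, smul_snd, h1]
    · rw [map_mul, smul_snd, h2]
    · rcases h3 with ⟨a, b⟩ | ⟨a, b⟩
      · left
        rw [smul_fst, smul_fst, a, b, mul_smul, smul_vx, smul_md, T.smul_t]
        exact ⟨rfl, rfl⟩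
      · right
        rw [smul_fst, smul_fst, a, b, mul_smul, smul_vx, smul_md, T.smul_t]
        exact ⟨rfl, rfl⟩
  refine ⟨key h p p', fun hh => ?_⟩
  have := key h⁻¹ _ _ hh
  rwa [inv_smul_smul, inv_smul_smul] at this

theorem Rel_trans (e : T.E) (g : Γ) (p p' : PP T π j F) :
    Rel π j F e p p' ↔ Rel π j F (g • e) (trans π j F (π g) p) (trans π j F (π g) p') := by
  constructor
  · rintro ⟨h1, k, h2, h3⟩
    refine ⟨?_, k * g⁻¹, ?_, ?_⟩
    · rw [trans_snd, trans_snd, h1]
    · rw [map_mul, map_inv, h2, trans_snd]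
    · rw [smul_smul, inv_mul_cancel_right]
      exact h3
  · rintro ⟨h1, k, h2, h3⟩
    rw [trans_snd, trans_snd] at h1
    rw [trans_snd] at h2
    refine ⟨mul_right_cancel h1, k * g, ?_, ?_⟩
    · rw [map_mul, h2, inv_mul_cancel_right]
    · rw [mul_smul]
      exact h3

end setup

section paths

variable {Γ : Type} [Group Γ] (T : GTree Γ) (x₀ : T.X)

/-- `x` is connected with `x₀` by an edge path in the set `A` -/
inductive Reach (A : Set (Y T)) : T.X → Prop
  | base : vx x₀ ∈ A → Reach A x₀
  | step (e : T.E) : Reach A (T.t (T.inv e)) → md e ∈ A → vx (T.t e) ∈ A → Reach A (T.t e)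

theorem Reach.mono {A B : Set (Y T)} (h : A ⊆ B) {x : T.X} (hx : Reach T x₀ A x) :
    Reach T x₀ B x := by
  induction hx with
  | base h1 => exact Reach.base (h h1)
  | step e _ h1 h2 ih => exact Reach.step e ih (h h1) (h h2)

theorem Reach.mem {A : Set (Y T)} {x : T.X} (hx : Reach T x₀ A x) : vx x ∈ A := by
  cases hx with
  | base h => exact h
  | step f _ _ h => exact h

theorem exists_reach (h7a : TreeConnected) (x : T.X) : ∃ A : Set (Y T), A.Finite ∧ Reach T x₀ A x := by
  refine h7a Γ T (fun x => ∃ A : Set (Y T), A.Finite ∧ Reach T x₀ A x) x₀ ?_ ?_ x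
  · exact ⟨{vx x₀}, Set.finite_singleton _, Reach.base rfl⟩
  · rintro e ⟨A, hA, hr⟩
    refine ⟨insert (md e) (insert (vx (T.t e)) A), (hA.insert _).insert _, ?_⟩
    refine Reach.step e (hr.mono T x₀ ?_) (Set.mem_insert _ _)
      (Set.mem_insert_of_mem _ (Set.mem_insert _ _))
    exact (Set.subset_insert _ _).trans (Set.subset_insert _ _)

end paths

theorem baseHom (h7a : TreeConnected) (h9 : PathHom) : BaseHom := by
  intro Γ Q H _ _ _ _ π T x₀ hX hE htf j hj hfg
  obtain ⟨S, hS⟩ := hfg.out
  choose A hAf hA using fun h : H => exists_reach T x₀ h7a (j h • x₀)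
  set F : Set (Y T) := insert (vx x₀) (⋃ h ∈ S, A h) with hF
  have hFf : F.Finite := (S.finite_toSet.biUnion fun h _ => hAf h).insert _
  have hreach : ∀ h ∈ S, Reach T x₀ F (j h • x₀) := fun h hh =>
    (hA h).mono T x₀ ((Set.subset_biUnion_of_mem (u := fun h => A h) hh).trans
      (Set.subset_insert _ _))
  have hmem : ∀ {y : Y T}, y ∈ F → ∃ h : H, j h • y ∈ F := fun {y} hy =>
    ⟨1, by rwa [map_one, one_smul]⟩
  refine ⟨PP T π j F, inferInstance, ?_, ?_, ?_⟩
  · -- free
    intro h p hp
    have h1 : π (j h) = 1 := by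
      have := congrArg (fun p : PP T π j F => p.1.2) hp
      simp only [smul_snd] at this
      exact mul_eq_right.1 this
    have h2 : j h • p.1.1 = p.1.1 := congrArg (fun p : PP T π j F => p.1.1) hp
    apply hj
    rw [map_one]
    obtain ⟨⟨y, q⟩, hp'⟩ := p
    simp only at h2
    rcases y with x | s
    · exact hX _ h1 x (Sum.inl_injective h2)
    · have h3 : Sym2.map (fun e => j h • e) s = s := Sum.inr_injective h2
      induction s using Sym2.ind with
      | _ e f =>
        rw [Sym2.map_mk, Sym2.eq_iff] at h3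
        rcases h3 with ⟨h3, -⟩ | ⟨h3, h4⟩
        · exact hE _ h1 e h3
        · apply htf _ h1
          apply hE _ (by rw [map_mul, h1, one_mul]) e
          rw [mul_smul, h3, h4]
  · -- finitely many orbits
    have : Finite {p : Y T × Q // p.1 ∈ F} := by
      have h1 : (F ×ˢ (Set.univ : Set Q)).Finite := hFf.prod Set.finite_univ
      exact (h1.subset (fun p hp => ⟨hp, trivial⟩) : {p : Y T × Q | p.1 ∈ F}.Finite)
    refine Finite.of_surjective (fun p : {p : Y T × Q // p.1 ∈ F} =>
      (Quotient.mk (MulAction.orbitRel H (PP T π j F)) ⟨p.1, hmem p.2⟩)) ?_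
    intro o
    induction o using Quotient.ind with
    | _ p =>
      obtain ⟨h, hh⟩ := p.2
      refine ⟨⟨(h • p).1, hh⟩, ?_⟩
      apply Quotient.sound
      exact ⟨h, rfl⟩
  · -- the homomorphisms
    let α : T.E → Cent H (PP T π j F) := fun e =>
      ⟨mkInv (Rel π j F e) (Rel_symm π j F e) (Rel_unique π j F hX hE htf e), fun h p =>
        (mkInv_conj (Rel π j F e) (Rel_symm π j F e) (Rel_unique π j F hX hE htf e)
          (Rel π j F e) (Rel_symm π j F e) (Rel_unique π j F hX hE htf e)
          (MulAction.toPerm h) (fun a b => Rel_smul π j F e h a b) p).symm⟩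
    have hα : ∀ (e : T.E) (p p' : PP T π j F), Rel π j F e p p' →
        (α e : Equiv.Perm (PP T π j F)) p = p' := fun e p p' h =>
      mkInv_of (Rel π j F e) (Rel_symm π j F e) (Rel_unique π j F hX hE htf e) h
    obtain ⟨Φ, R, hR1, hR2, -, hΦ, hloc⟩ := h9 Γ T (Cent H (PP T π j F)) ((Phi0 π j F).comp π) α
      (fun g _ => Phi0 π j F (π g)) (fun g h x => by rw [map_mul, map_mul]) (fun g e => by
        apply Subtype.ext
        apply Equiv.ext
        intro p
        exact mkInv_conj (Rel π j F e) (Rel_symm π j F e) (Rel_unique π j F hX hE htf e)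
          (Rel π j F (g • e)) (Rel_symm π j F (g • e)) (Rel_unique π j F hX hE htf (g • e))
          (trans π j F (π g)) (fun a b => Rel_trans π j F e g a b) p) x₀
    have hx₀ : vx x₀ ∈ F := Set.mem_insert _ _
    refine ⟨⟨(vx x₀, 1), hmem hx₀⟩, Phi0 π j F, Φ, ?_, ?_⟩
    · intro C hC
      rcases hloc C hC with ⟨a, ha⟩ | ⟨x, a, -, ha⟩
      · exact ⟨a, ha⟩
      · exact ⟨a, ha⟩
    · set y₀ : PP T π j F := ⟨(vx x₀, 1), hmem hx₀⟩ with hy₀
      -- transport along paths
      have hxx : ∀ x, R x x = 1 := fun x => mul_eq_left.1 (hR1 x x x)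
      have key : ∀ x, Reach T x₀ F x → ∀ hx : ∃ h : H, j h • (vx x : Y T) ∈ F,
          (R x₀ x : Equiv.Perm (PP T π j F)) ⟨(vx x, 1), hx⟩ = y₀ := by
        intro x hx
        induction hx with
        | base h => intro hx; rw [hxx]; rfl
        | step e hr h1 h2 ih =>
          intro hx
          have hr' : ∃ h : H, j h • (vx (T.t (T.inv e)) : Y T) ∈ F := hmem (Reach.mem T x₀ hr)
          rw [← hR1 x₀ (T.t (T.inv e)) (T.t e), hR2 e]
          have e1 : (α e : Equiv.Perm (PP T π j F)) ⟨(md e, 1), hmem h1⟩ = ⟨(vx (T.t e), 1), hx⟩ := by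
            apply hα
            refine ⟨rfl, 1, map_one π, Or.inr ?_⟩
            rw [one_smul]
            exact ⟨rfl, rfl⟩
          have e2 : (α (T.inv e) : Equiv.Perm (PP T π j F)) ⟨(md e, 1), hmem h1⟩ =
              ⟨(vx (T.t (T.inv e)), 1), hr'⟩ := by
            apply hα
            refine ⟨rfl, 1, map_one π, Or.inr ?_⟩
            rw [one_smul]
            exact ⟨rfl, (md_inv T e).symm⟩
          have e3 : ((α e)⁻¹ : Cent H (PP T π j F)).1 ⟨(vx (T.t e), 1), hx⟩ =
              ⟨(md e, 1), hmem h1⟩ := by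
            rw [← e1]
            exact (α e).1.symm_apply_apply _
          change (R x₀ (T.t (T.inv e))).1 ((α (T.inv e)).1 (((α e)⁻¹ : Cent H (PP T π j F)).1
            ⟨(vx (T.t e), 1), hx⟩)) = y₀
          rw [e3, e2]
          exact ih hr'
      -- the subgroup
      let K : Subgroup H :=
        { carrier := {h | (Φ (j h) : Equiv.Perm (PP T π j F)) (h • y₀) = y₀}
          one_mem' := by
            change (Φ (j 1) : Equiv.Perm (PP T π j F)) ((1 : H) • y₀) = y₀
            rw [map_one, map_one, one_smul]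
            rfl
          mul_mem' := by
            intro a b ha hb
            change (Φ (j (a * b)) : Equiv.Perm (PP T π j F)) ((a * b) • y₀) = y₀
            rw [map_mul, map_mul, mul_smul]
            change (Φ (j a)).1 ((Φ (j b)).1 (a • b • y₀)) = y₀
            rw [(Φ (j b)).2 a (b • y₀)]
            have hb' : (Φ (j b)).1 (b • y₀) = y₀ := hb
            rw [hb']
            exact ha
          inv_mem' := by
            intro a ha
            change (Φ (j a⁻¹) : Equiv.Perm (PP T π j F)) (a⁻¹ • y₀) = y₀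
            have ha' : (Φ (j a)).1 (a • y₀) = y₀ := ha
            rw [(Φ (j a⁻¹)).2 a⁻¹ y₀, map_inv, map_inv]
            have h1 : ((Φ (j a))⁻¹ : Cent H (PP T π j F)).1 y₀ = a • y₀ := by
              conv_lhs => rw [← ha']
              exact (Φ (j a)).1.symm_apply_apply _
            rw [h1, inv_smul_smul] }
      have hK : K = ⊤ := by
        rw [eq_top_iff, ← hS, Subgroup.closure_le]
        intro h hh
        change (Φ (j h) : Equiv.Perm (PP T π j F)) (h • y₀) = y₀
        rw [hΦ]
        change (R x₀ (j h • x₀)).1 (trans π j F (π (j h)) (h • y₀)) = y₀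
        have hr := hreach h hh
        have hx : ∃ k : H, j k • (vx (j h • x₀) : Y T) ∈ F := by
          rw [← smul_vx]
          exact (h • y₀).2
        refine Eq.trans (congrArg _ ?_) (key _ hr hx)
        refine PP_ext π j F rfl ?_
        rw [trans_snd, smul_snd]
        change π (j h) * 1 * (π (j h))⁻¹ = 1
        group
      intro h
      have : h ∈ K := by rw [hK]; trivial
      exact this

end Pool.Agent.TH350.J561
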