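import Mathlib

/-!
Job 549 (CF-GEO): geodesic packing in a regular connected graph.
-/

set_option autoImplicit false

namespace Pool.Agent.TH350.J549

theorem dist_getVert {V : Type} (G : SimpleGraph V) (hc : G.Connected) {u v : V} (p : G.Walk u v)
    (hp : p.length = G.dist u v) (i : ℕ) (hi : i ≤ p.length) : G.dist u (p.getVert i) = i := by
  have h1 : G.dist u (p.getVert i) ≤ i := by
    have := SimpleGraph.dist_le (p.take i)
    rw [SimpleGraph.Walk.take_length] at this
    omega
  have h2 : G.dist (p.getVert i) v ≤ p.length - i := by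
    have := SimpleGraph.dist_le (p.drop i)
    rwa [SimpleGraph.Walk.drop_length] at this
  have h3 := hc.dist_triangle (u := u) (v := p.getVert i) (w := v)
  omega

theorem geo {V : Type} [Fintype V] [DecidableEq V] (G : SimpleGraph V) [DecidableRel G.Adj]
    (hc : G.Connected) (d : ℕ) (hd : G.IsRegularOfDegree d) (u v : V) (ht : 2 ≤ G.dist u v)
    (S : Finset V) (hS : ∀ w, G.dist u w < G.dist u v → w ∈ S) :
    (d + 1) * G.dist u v ≤ 4 * S.card := by
  obtain ⟨p, hp⟩ := hc.exists_walk_length_eq_dist u v
  set t := G.dist u v with htdef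
  set N : ℕ → Finset V := fun i => insert (p.getVert (3 * i)) (G.neighborFinset (p.getVert (3 * i)))
    with hN
  have hcard : ∀ i, (N i).card = d + 1 := by
    intro i
    rw [hN]
    simp only
    rw [Finset.card_insert_of_notMem (by simp), SimpleGraph.card_neighborFinset_eq_degree, hd]
  have hlev : ∀ i ∈ Finset.range ((t + 1) / 3), ∀ w ∈ N i,
      G.dist u w ≤ 3 * i + 1 ∧ 3 * i ≤ G.dist u w + 1 := by
    intro i hi w hw
    rw [Finset.mem_range] at hi
    have h0 := dist_getVert G hc p hp (3 * i) (by omega)
    rw [hN] at hw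
    simp only [Finset.mem_insert, SimpleGraph.mem_neighborFinset] at hw
    rcases hw with rfl | hw
    · omega
    · have h1 := hc.dist_triangle (u := u) (v := p.getVert (3 * i)) (w := w)
      have h2 := hc.dist_triangle (u := u) (v := w) (w := p.getVert (3 * i))
      have h3 : G.dist (p.getVert (3 * i)) w = 1 := SimpleGraph.dist_eq_one_iff_adj.2 hw
      have h4 : G.dist w (p.getVert (3 * i)) = 1 := SimpleGraph.dist_eq_one_iff_adj.2 hw.symm
      omega
  have hdisj : Set.PairwiseDisjoint (↑(Finset.range ((t + 1) / 3)) : Set ℕ) N := by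
    intro i hi j hj hij
    rw [Function.onFun, Finset.disjoint_left]
    intro w hwi hwj
    have h1 := hlev i hi w hwi
    have h2 := hlev j hj w hwj
    omega
  have hsub : (Finset.range ((t + 1) / 3)).biUnion N ⊆ S := by
    intro w hw
    rw [Finset.mem_biUnion] at hw
    obtain ⟨i, hi, hw⟩ := hw
    have h1 := hlev i hi w hw
    rw [Finset.mem_range] at hi
    exact hS w (by omega)
  have h1 := Finset.card_le_card hsub
  rw [Finset.card_biUnion hdisj, Finset.sum_congr rfl (fun i _ => hcard i), Finset.sum_const,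
    Finset.card_range, smul_eq_mul] at h1
  have h2 : t ≤ 4 * ((t + 1) / 3) := by omega
  calc (d + 1) * t ≤ (d + 1) * (4 * ((t + 1) / 3)) := Nat.mul_le_mul_left _ h2
    _ = 4 * ((t + 1) / 3 * (d + 1)) := by ring
    _ ≤ 4 * S.card := Nat.mul_le_mul_left _ h1

end Pool.Agent.TH350.J549
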