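import Pool.Agent.TH950.FC.Defs

set_option autoImplicit false

namespace Pool.Agent.TH350.J868

open scoped symmDiff
open Pool.Agent.TH950.FC

/-- vectors in `ℓ²` attached to finite sets -/
theorem exists_vec (W : Type) [Countable W] [DecidableEq W] :
    ∃ v : Finset W → lp (fun _ : ℕ => ℝ) 2,
      ∀ A B, ‖v A - v B‖ ^ 2 = ((A ∆ B).card : ℝ) := by
  obtain ⟨ι, hι⟩ := exists_injective_nat W
  let v : Finset ℕ → lp (fun _ : ℕ => ℝ) 2 := fun A => ∑ i ∈ A, lp.single 2 i 1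
  have key : ∀ A B : Finset ℕ, ‖v A - v B‖ ^ 2 = ((A ∆ B).card : ℝ) := by
    intro A B
    let f : ℕ → ℝ := fun i => (if i ∈ A then 1 else 0) - (if i ∈ B then 1 else 0)
    have hsub : ∀ C : Finset ℕ, C ⊆ A ∪ B →
        v C = ∑ i ∈ A ∪ B, lp.single 2 i (if i ∈ C then (1 : ℝ) else 0) := by
      intro C hC
      rw [← Finset.sum_subset hC]
      · refine Finset.sum_congr rfl fun i hi => ?_
        rw [if_pos hi]
      · intro i _ hi
        rw [if_neg hi, lp.single_zero]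
    have hv : v A - v B = ∑ i ∈ A ∪ B, lp.single 2 i (f i) := by
      rw [hsub A Finset.subset_union_left, hsub B Finset.subset_union_right,
        ← Finset.sum_sub_distrib]
      refine Finset.sum_congr rfl fun i _ => ?_
      rw [lp.single_sub]
    have h2 : (2 : ENNReal).toReal = ((2 : ℕ) : ℝ) := by norm_num
    have hn := lp.norm_sum_single (E := fun _ : ℕ => ℝ) (p := 2) (by rw [h2]; norm_num) f (A ∪ B)
    rw [← hv, h2] at hn
    rw [Real.rpow_natCast] at hn
    rw [hn]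
    have hterm : ∀ i ∈ A ∪ B, ‖f i‖ ^ ((2 : ℕ) : ℝ) = if i ∈ A ∆ B then (1 : ℝ) else 0 := by
      intro i _
      rw [Real.rpow_natCast]
      simp only [f, Finset.mem_symmDiff]
      by_cases hA : i ∈ A <;> by_cases hB : i ∈ B <;> simp [hA, hB]
    rw [Finset.sum_congr rfl hterm, Finset.sum_ite_mem, Finset.sum_const, nsmul_eq_mul, mul_one]
    congr 2
    ext i
    simp only [Finset.mem_inter, Finset.mem_union, Finset.mem_symmDiff]
    tauto
  refine ⟨fun A => v (A.image ι), fun A B => ?_⟩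
  rw [key, ← Finset.image_symmDiff _ _ hι, Finset.card_image_of_injective _ hι]

theorem perm_inv_apply {α : Type} (e : Equiv.Perm α) (x : α) : e⁻¹ (e x) = x := by
  rw [← Equiv.Perm.mul_apply, inv_mul_cancel]
  rfl

theorem perm_apply_inv {α : Type} (e : Equiv.Perm α) (x : α) : e (e⁻¹ x) = x := by
  rw [← Equiv.Perm.mul_apply, mul_inv_cancel]
  rfl

/-- the data -/
structure Dat {S V : Type} (X : LG S V) (ω : S → V → ℤ) : Prop where
  total : ∀ s x, ∃ y, X.E s x y
  anti : ∀ s x y, X.E s x y → ω s y = - ω s x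
  homog : ∀ w x m, X.WPath ω x w x m → ∀ y, X.WPath ω y w y m

namespace Dat

variable {S V : Type} {X : LG S V} {ω : S → V → ℤ} (D : Dat X ω)

/-- the neighbour -/
noncomputable def nx (s : S) (x : V) : V := (D.total s x).choose

theorem nx_spec (s : S) (x : V) : X.E s x (D.nx s x) := (D.total s x).choose_spec

theorem nx_eq {s : S} {x y : V} (h : X.E s x y) : D.nx s x = y := X.func (D.nx_spec s x) h

theorem nx_nx (s : S) (x : V) : D.nx s (D.nx s x) = x := D.nx_eq (X.symm (D.nx_spec s x))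

/-- the involution of the vertices -/
noncomputable def sg (s : S) : Equiv.Perm V := ⟨D.nx s, D.nx s, D.nx_nx s, D.nx_nx s⟩

theorem sg_apply (s : S) (x : V) : D.sg s x = D.nx s x := rfl

theorem sh_sh (s : S) (p : V × ℤ) :
    ((D.nx s (D.nx s p.1), p.2 + ω s p.1 + ω s (D.nx s p.1)) : V × ℤ) = p := by
  rw [D.nx_nx, D.anti s _ _ (D.nx_spec s p.1)]
  ext <;> simp

/-- the involution of the cover -/
noncomputable def sh (s : S) : Equiv.Perm (V × ℤ) :=
  ⟨fun p => (D.nx s p.1, p.2 + ω s p.1), fun p => (D.nx s p.1, p.2 + ω s p.1), D.sh_sh s, D.sh_sh s⟩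

theorem sh_apply (s : S) (x : V) (j : ℤ) : D.sh s (x, j) = (D.nx s x, j + ω s x) := rfl

/-- the shift -/
def zz (V : Type) : Equiv.Perm (V × ℤ) :=
  ⟨fun p => (p.1, p.2 + 1), fun p => (p.1, p.2 - 1), fun p => by ext <;> simp,
    fun p => by ext <;> simp⟩

theorem zz_apply (x : V) (j : ℤ) : zz V (x, j) = (x, j + 1) := rfl

theorem zz_zpow (k : ℤ) (x : V) (j : ℤ) : (zz V ^ k) (x, j) = (x, j + k) := by
  induction k using Int.induction_on generalizing j with
  | zero => simp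
  | succ k ih =>
    rw [zpow_add, zpow_one, Equiv.Perm.mul_apply, zz_apply, ih]
    ext
    · rfl
    · simp only; ring
  | pred k ih =>
    rw [zpow_sub, zpow_one, Equiv.Perm.mul_apply]
    have : (zz V)⁻¹ (x, j) = (x, j - 1) := rfl
    rw [this, ih]
    ext
    · rfl
    · simp only; ring

/-- reading a word -/
noncomputable def rd : List S → Equiv.Perm V
  | [] => 1
  | s :: w => rd w * D.sg s

/-- reading a word in the cover -/
noncomputable def rdE : List S → Equiv.Perm (V × ℤ)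
  | [] => 1
  | s :: w => rdE w * D.sh s

theorem sg_inv (s : S) : (D.sg s)⁻¹ = D.sg s := rfl

theorem sh_inv (s : S) : (D.sh s)⁻¹ = D.sh s := rfl

theorem rd_cons (s : S) (w : List S) : D.rd (s :: w) = D.rd w * D.sg s := rfl

theorem rdE_cons (s : S) (w : List S) : D.rdE (s :: w) = D.rdE w * D.sh s := rfl

theorem rd_append (w w' : List S) : D.rd (w ++ w') = D.rd w' * D.rd w := by
  induction w with
  | nil => simp [rd]
  | cons s w ih => rw [List.cons_append, rd_cons, ih, rd_cons, mul_assoc]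

theorem rdE_append (w w' : List S) : D.rdE (w ++ w') = D.rdE w' * D.rdE w := by
  induction w with
  | nil => simp [rdE]
  | cons s w ih => rw [List.cons_append, rdE_cons, ih, rdE_cons, mul_assoc]

theorem rd_single (s : S) : D.rd [s] = D.sg s := by rw [rd_cons]; simp [rd]

theorem rdE_single (s : S) : D.rdE [s] = D.sh s := by rw [rdE_cons]; simp [rdE]

theorem rd_reverse (w : List S) : D.rd w.reverse = (D.rd w)⁻¹ := by
  induction w with
  | nil => simp [rd]
  | cons s w ih =>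
    rw [List.reverse_cons, rd_append, ih, rd_single, rd_cons, mul_inv_rev, sg_inv]

theorem rdE_reverse (w : List S) : D.rdE w.reverse = (D.rdE w)⁻¹ := by
  induction w with
  | nil => simp [rdE]
  | cons s w ih =>
    rw [List.reverse_cons, rdE_append, ih, rdE_single, rdE_cons, mul_inv_rev, sh_inv]

theorem path_iff (w : List S) (x y : V) : X.Path x w y ↔ D.rd w x = y := by
  induction w generalizing x with
  | nil => exact Iff.rfl
  | cons s w ih =>
    rw [rd_cons, Equiv.Perm.mul_apply, sg_apply]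
    constructor
    · rintro ⟨z, h1, h2⟩
      rw [D.nx_eq h1]
      exact (ih z).1 h2
    · intro h
      exact ⟨_, D.nx_spec s x, (ih _).2 h⟩

theorem wpath_iff (w : List S) (x y : V) (m j : ℤ) :
    X.WPath ω x w y m ↔ D.rdE w (x, j) = (y, j + m) := by
  induction w generalizing x m j with
  | nil =>
    change (x = y ∧ m = 0) ↔ (x, j) = (y, j + m)
    rw [Prod.mk.injEq]
    constructor
    · rintro ⟨h1, h2⟩
      exact ⟨h1, by omega⟩
    · rintro ⟨h1, h2⟩
      exact ⟨h1, by omega⟩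
  | cons s w ih =>
    rw [rdE_cons, Equiv.Perm.mul_apply, sh_apply]
    have e : j + m = j + ω s x + (m - ω s x) := by ring
    constructor
    · rintro ⟨z, h1, h2⟩
      rw [D.nx_eq h1, e]
      exact (ih z _ _).1 h2
    · intro h
      rw [e] at h
      exact ⟨_, D.nx_spec s x, (ih _ _ _).2 h⟩

theorem rdE_fst (w : List S) (x : V) (j : ℤ) : (D.rdE w (x, j)).1 = D.rd w x := by
  induction w generalizing x j with
  | nil => rfl
  | cons s w ih =>
    rw [rdE_cons, rd_cons, Equiv.Perm.mul_apply, Equiv.Perm.mul_apply, sh_apply, ih, sg_apply]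

/-- freeness upstairs -/
theorem rdE_eq {w : List S} {x : V} {j m : ℤ} (h : D.rdE w (x, j) = (x, j + m)) :
    D.rdE w = zz V ^ m := by
  have h1 := D.homog w x m ((D.wpath_iff w x x m j).2 h)
  ext1 p
  obtain ⟨y, k⟩ := p
  rw [(D.wpath_iff w y y m k).1 (h1 y), zz_zpow]

/-- freeness downstairs -/
theorem rd_eq {w : List S} {x : V} (h : D.rd w x = x) :
    D.rd w = 1 ∧ ∃ m : ℤ, D.rdE w = zz V ^ m := by
  have h1 : D.rdE w (x, 0) = (x, 0 + (D.rdE w (x, 0)).2) := by
    rw [zero_add]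
    ext
    · rw [D.rdE_fst, h]
    · rfl
  have h2 := D.rdE_eq h1
  refine ⟨?_, _, h2⟩
  ext1 y
  rw [← D.rdE_fst w y 0, h2, zz_zpow]
  rfl

theorem zz_comm_sh (s : S) : Commute (zz V) (D.sh s) := by
  change zz V * D.sh s = D.sh s * zz V
  ext1 p
  obtain ⟨y, k⟩ := p
  rw [Equiv.Perm.mul_apply, Equiv.Perm.mul_apply, zz_apply, sh_apply, sh_apply, zz_apply]
  ext
  · rfl
  · simp only; ring

theorem zz_comm_rdE (w : List S) : Commute (zz V) (D.rdE w) := by
  induction w with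
  | nil => exact Commute.one_right _
  | cons s w ih =>
    rw [rdE_cons]
    exact ih.mul_right (D.zz_comm_sh s)

/-- the group downstairs -/
noncomputable def Gs : Subgroup (Equiv.Perm V) where
  carrier := {e | ∃ w, e = D.rd w}
  one_mem' := ⟨[], rfl⟩
  mul_mem' := by
    rintro _ _ ⟨w, rfl⟩ ⟨w', rfl⟩
    exact ⟨w' ++ w, (D.rd_append _ _).symm⟩
  inv_mem' := by
    rintro _ ⟨w, rfl⟩
    exact ⟨w.reverse, (D.rd_reverse _).symm⟩

/-- the group upstairs -/
noncomputable def Es : Subgroup (Equiv.Perm (V × ℤ)) where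
  carrier := {e | ∃ (w : List S) (k : ℤ), e = D.rdE w * zz V ^ k}
  one_mem' := ⟨[], 0, by simp [rdE]⟩
  mul_mem' := by
    rintro _ _ ⟨w, k, rfl⟩ ⟨w', k', rfl⟩
    refine ⟨w' ++ w, k + k', ?_⟩
    rw [D.rdE_append, zpow_add]
    have := ((D.zz_comm_rdE w').zpow_left k).eq
    calc D.rdE w * zz V ^ k * (D.rdE w' * zz V ^ k') =
        D.rdE w * (zz V ^ k * D.rdE w') * zz V ^ k' := by group
      _ = _ := by rw [this]; group
  inv_mem' := by
    rintro _ ⟨w, k, rfl⟩
    refine ⟨w.reverse, -k, ?_⟩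
    rw [D.rdE_reverse, mul_inv_rev, zpow_neg]
    exact (((D.zz_comm_rdE w).zpow_left k).inv_inv).eq

theorem mem_Gs {e : Equiv.Perm V} : e ∈ D.Gs ↔ ∃ w, e = D.rd w := Iff.rfl

theorem mem_Es {e : Equiv.Perm (V × ℤ)} :
    e ∈ D.Es ↔ ∃ (w : List S) (k : ℤ), e = D.rdE w * zz V ^ k := Iff.rfl

theorem sh_mem (s : S) : D.sh s ∈ D.Es := ⟨[s], 0, by rw [rdE_single]; simp⟩

theorem zz_mem : zz V ∈ D.Es := ⟨[], 1, by simp [rdE]⟩

theorem Es_fst {e : Equiv.Perm (V × ℤ)} (he : e ∈ D.Es) (x : V) (j : ℤ) :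
    (e (x, j)).1 = (e (x, 0)).1 := by
  obtain ⟨w, k, rfl⟩ := he
  rw [Equiv.Perm.mul_apply, Equiv.Perm.mul_apply, zz_zpow, zz_zpow, D.rdE_fst, D.rdE_fst]

theorem Es_fst' {e : Equiv.Perm (V × ℤ)} (he : e ∈ D.Es) (p : V × ℤ) :
    (e p).1 = (e (p.1, 0)).1 := D.Es_fst he p.1 p.2

theorem Es_word {w : List S} {k : ℤ} (x : V) :
    ((D.rdE w * zz V ^ k) (x, 0)).1 = D.rd w x := by
  rw [Equiv.Perm.mul_apply, zz_zpow, D.rdE_fst]

/-- the induced permutation of the vertices -/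
def prPerm (e : D.Es) : Equiv.Perm V where
  toFun x := ((e : Equiv.Perm (V × ℤ)) (x, 0)).1
  invFun x := ((e : Equiv.Perm (V × ℤ))⁻¹ (x, 0)).1
  left_inv x := by
    change ((e : Equiv.Perm (V × ℤ))⁻¹ (((e : Equiv.Perm (V × ℤ)) (x, 0)).1, 0)).1 = x
    rw [← D.Es_fst' (D.Es.inv_mem e.2), perm_inv_apply]
  right_inv x := by
    change ((e : Equiv.Perm (V × ℤ)) (((e : Equiv.Perm (V × ℤ))⁻¹ (x, 0)).1, 0)).1 = x
    rw [← D.Es_fst' e.2, perm_apply_inv]

theorem prPerm_word (e : D.Es) {w : List S} {k : ℤ}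
    (h : (e : Equiv.Perm (V × ℤ)) = D.rdE w * zz V ^ k) : D.prPerm e = D.rd w := by
  ext1 x
  change ((e : Equiv.Perm (V × ℤ)) (x, 0)).1 = _
  rw [h, D.Es_word]

/-- the projection -/
noncomputable def pr : D.Es →* D.Gs where
  toFun e := ⟨D.prPerm e, by
    obtain ⟨w, k, h⟩ := e.2
    exact ⟨w, D.prPerm_word e h⟩⟩
  map_one' := by
    apply Subtype.ext
    ext1 x
    rfl
  map_mul' := by
    intro e e'
    apply Subtype.ext
    ext1 x
    change ((e : Equiv.Perm (V × ℤ)) ((e' : Equiv.Perm (V × ℤ)) (x, 0))).1 =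
      ((e : Equiv.Perm (V × ℤ)) (((e' : Equiv.Perm (V × ℤ)) (x, 0)).1, 0)).1
    rw [← D.Es_fst' e.2]

/-- the central element -/
def zE : D.Es := ⟨zz V, D.zz_mem⟩

theorem zE_zpow (k : ℤ) : ((D.zE ^ k : D.Es) : Equiv.Perm (V × ℤ)) = zz V ^ k := by
  rw [Subgroup.coe_zpow]
  rfl

/-- the embedding of `ℤ` -/
noncomputable def inc : Multiplicative ℤ →* D.Es := zpowersHom D.Es D.zE

theorem inc_apply (n : Multiplicative ℤ) : D.inc n = D.zE ^ (Multiplicative.toAdd n) := rfl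

theorem inc_injective (base : V) : Function.Injective D.inc := by
  intro m n h
  rw [inc_apply, inc_apply] at h
  have h1 := congrArg (fun e : D.Es => ((e : Equiv.Perm (V × ℤ)) (base, 0)).2) h
  simp only [zE_zpow, zz_zpow, zero_add] at h1
  exact h1

theorem pr_surjective : Function.Surjective D.pr := by
  rintro ⟨e, w, rfl⟩
  refine ⟨⟨D.rdE w, w, 0, by simp⟩, ?_⟩
  apply Subtype.ext
  exact D.prPerm_word _ (k := 0) (by simp)

theorem range_inc (base : V) : D.inc.range = D.pr.ker := by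
  ext e
  rw [MonoidHom.mem_range, MonoidHom.mem_ker]
  constructor
  · rintro ⟨n, rfl⟩
    rw [inc_apply]
    apply Subtype.ext
    have := D.prPerm_word (D.zE ^ (Multiplicative.toAdd n)) (w := [])
      (k := Multiplicative.toAdd n) (by rw [zE_zpow]; simp [rdE])
    exact this
  · intro h
    obtain ⟨w, k, hw⟩ := e.2
    have h1 : D.prPerm e = 1 := congrArg Subtype.val h
    rw [D.prPerm_word e hw] at h1
    have h2 : D.rd w base = base := by rw [h1]; rfl
    obtain ⟨m, hm⟩ := (D.rd_eq h2).2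
    refine ⟨Multiplicative.ofAdd (m + k), ?_⟩
    rw [inc_apply]
    apply Subtype.ext
    rw [zE_zpow, hw, hm, ← zpow_add]
    rfl

theorem inc_central : D.inc.range ≤ Subgroup.center D.Es := by
  rintro _ ⟨n, rfl⟩
  rw [inc_apply, Subgroup.mem_center_iff]
  rintro ⟨e, w, k, rfl⟩
  apply Subtype.ext
  rw [Subgroup.coe_mul, Subgroup.coe_mul, zE_zpow]
  have h1 : Commute (zz V ^ (Multiplicative.toAdd n)) (D.rdE w * zz V ^ k) :=
    ((D.zz_comm_rdE w).zpow_left _).mul_right ((Commute.refl (zz V)).zpow_zpow _ _)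
  exact h1.eq.symm

theorem Gs_fg [Finite S] : Group.FG D.Gs := by
  rw [Group.fg_iff_subgroup_fg, Subgroup.fg_iff]
  refine ⟨Set.range D.sg, ?_, Set.finite_range _⟩
  apply le_antisymm
  · rw [Subgroup.closure_le]
    rintro _ ⟨s, rfl⟩
    exact ⟨[s], (D.rd_single s).symm⟩
  · rintro _ ⟨w, rfl⟩
    induction w with
    | nil => exact Subgroup.one_mem _
    | cons s w ih =>
      rw [rd_cons]
      exact Subgroup.mul_mem _ ih (Subgroup.subset_closure ⟨s, rfl⟩)

/-- freeness of the action upstairs -/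
theorem Es_free {e : Equiv.Perm (V × ℤ)} (he : e ∈ D.Es) {p : V × ℤ} (h : e p = p) : e = 1 := by
  obtain ⟨w, k, rfl⟩ := he
  obtain ⟨x, j⟩ := p
  rw [Equiv.Perm.mul_apply, zz_zpow] at h
  have h1 : D.rdE w (x, j + k) = (x, (j + k) + (-k)) := by
    rw [h]; ext
    · rfl
    · simp
  rw [D.rdE_eq h1, ← zpow_add]
  simp

/-- freeness of the action downstairs -/
theorem Gs_free {e : Equiv.Perm V} (he : e ∈ D.Gs) {x : V} (h : e x = x) : e = 1 := by
  obtain ⟨w, rfl⟩ := he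
  exact (D.rd_eq h).1

theorem Es_trans {base : V} (conn : ∀ x, X.Reach base x) (p : V × ℤ) :
    ∃ e ∈ D.Es, e (base, 0) = p := by
  obtain ⟨x, j⟩ := p
  obtain ⟨w, hw⟩ := conn x
  rw [D.path_iff] at hw
  refine ⟨D.rdE w * zz V ^ (j - (D.rdE w (base, 0)).2), ⟨w, _, rfl⟩, ?_⟩
  rw [← ((D.zz_comm_rdE w).zpow_left _).eq, Equiv.Perm.mul_apply]
  have : D.rdE w (base, 0) = (x, (D.rdE w (base, 0)).2) := by
    ext
    · rw [D.rdE_fst, hw]
    · rfl
  rw [this, zz_zpow]
  simp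

end Dat

/-- From a graph with walls and a homogeneous cochain whose `ℤ`-cover is not coarsely embeddable
to the negation of the conjecture (the conclusion is literally frozen S03540). -/
theorem negation_of_graph {S V W : Type} [Fintype S] [Countable W] [DecidableEq W] (X : LG S V)
    (β : V → Finset W) (ω : S → V → ℤ) (base : V)
    (total : ∀ s x, ∃ y, X.E s x y) (conn : ∀ x, X.Reach base x)
    (color : ∀ s x y, X.E s x y → (β x ∆ β y).card = 1)
    (anti : ∀ s x y, X.E s x y → ω s y = - ω s x)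
    (homog : ∀ w x m, X.WPath ω x w x m → ∀ y, X.WPath ω y w y m)
    (proper : ∀ N : ℕ, ∃ L : ℕ, ∀ x y, (β x ∆ β y).card ≤ N →
      ∃ w : List S, w.length ≤ L ∧ X.Path x w y)
    (noemb : ∀ (F : V × ℤ → lp (fun _ : ℕ => ℝ) 2) (C : ℝ),
      (∀ s x y j, X.E s x y → ‖F (y, j + ω s x) - F (x, j)‖ ≤ C) →
      (∀ R : ℝ, ∃ k₀ : ℤ, ∀ k ≥ k₀, ∀ x j, R < ‖F (x, j + k) - F (x, j)‖) → False) :
    ¬ (∀ (G E : Type) [Group G] [Group E], Group.FG G →
      (∃ f : G → lp (fun _ : ℕ => ℝ) 2,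
        (∀ g : G, ∃ C : ℝ, ∀ x : G, ‖f (x * g) - f x‖ ≤ C) ∧
        (∀ R : ℝ, {g : G | ∃ x : G, ‖f (x * g) - f x‖ ≤ R}.Finite)) →
      ∀ (i : Multiplicative ℤ →* E) (π : E →* G),
        Function.Injective i → Function.Surjective π →
        i.range = π.ker → i.range ≤ Subgroup.center E →
        ∃ f : E → lp (fun _ : ℕ => ℝ) 2,
          (∀ g : E, ∃ C : ℝ, ∀ x : E, ‖f (x * g) - f x‖ ≤ C) ∧
          (∀ R : ℝ, {g : E | ∃ x : E, ‖f (x * g) - f x‖ ≤ R}.Finite)) := by
  classical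
  intro hconj
  have D : Dat X ω := ⟨total, anti, homog⟩
  obtain ⟨v, hv⟩ := exists_vec W
  have hcard : ∀ (w : List S) (x : V), (β x ∆ β (D.rd w x)).card ≤ w.length := by
    intro w
    induction w with
    | nil =>
      intro x
      change (β x ∆ β x).card ≤ 0
      rw [symmDiff_self]
      exact le_rfl
    | cons s w ih =>
      intro x
      have h1 := color s x _ (D.nx_spec s x)
      have h2 := ih (D.nx s x)
      have h3 : β x ∆ β (D.rd (s :: w) x) ⊆
          (β x ∆ β (D.nx s x)) ∪ (β (D.nx s x) ∆ β (D.rd w (D.nx s x))) :=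
        symmDiff_triangle _ _ _
      have h4 := (Finset.card_le_card h3).trans (Finset.card_union_le _ _)
      rw [List.length_cons]
      omega
  have hG : ∃ f : D.Gs → lp (fun _ : ℕ => ℝ) 2,
      (∀ g : D.Gs, ∃ C : ℝ, ∀ x : D.Gs, ‖f (x * g) - f x‖ ≤ C) ∧
      (∀ R : ℝ, {g : D.Gs | ∃ x : D.Gs, ‖f (x * g) - f x‖ ≤ R}.Finite) := by
    refine ⟨fun g => v (β ((g : Equiv.Perm V)⁻¹ base)), ?_, ?_⟩
    · intro g
      obtain ⟨w, hw⟩ := D.Gs.inv_mem g.2
      refine ⟨(w.length : ℝ) + 1, fun x => ?_⟩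
      have h1 : ((x * g : D.Gs) : Equiv.Perm V)⁻¹ base =
          D.rd w ((x : Equiv.Perm V)⁻¹ base) := by
        rw [Subgroup.coe_mul, mul_inv_rev, Equiv.Perm.mul_apply, ← hw]
      have h2 := hv (β (((x * g : D.Gs) : Equiv.Perm V)⁻¹ base))
        (β ((x : Equiv.Perm V)⁻¹ base))
      have h3 := hcard w ((x : Equiv.Perm V)⁻¹ base)
      rw [h1, symmDiff_comm] at h2
      have h4 : ((β ((x : Equiv.Perm V)⁻¹ base) ∆
        β (D.rd w ((x : Equiv.Perm V)⁻¹ base))).card : ℝ) ≤ w.length := by exact_mod_cast h3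
      simp only
      rw [h1]
      rw [← h2] at h4
      have h5 := norm_nonneg (v (β (D.rd w ((x : Equiv.Perm V)⁻¹ base))) -
        v (β ((x : Equiv.Perm V)⁻¹ base)))
      nlinarith
    · intro R
      obtain ⟨L, hL⟩ := proper ⌊R ^ 2⌋₊
      refine ((List.finite_length_le S L).image (fun w : List S =>
        (⟨D.rd w, w, rfl⟩ : D.Gs)⁻¹)).subset ?_
      rintro g ⟨x, hx⟩
      obtain ⟨u, hu⟩ := D.Gs.inv_mem g.2
      set y := (x : Equiv.Perm V)⁻¹ base with hy
      have h1 : ((x * g : D.Gs) : Equiv.Perm V)⁻¹ base = D.rd u y := by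
        rw [Subgroup.coe_mul, mul_inv_rev, Equiv.Perm.mul_apply, ← hu]
      have h2 := hv (β (D.rd u y)) (β y)
      simp only at hx
      rw [h1] at hx
      have h3 : ((β y ∆ β (D.rd u y)).card : ℝ) ≤ R ^ 2 := by
        rw [symmDiff_comm, ← h2]
        exact pow_le_pow_left₀ (norm_nonneg _) hx 2
      obtain ⟨w, hw1, hw2⟩ := hL y (D.rd u y) (Nat.le_floor h3)
      rw [D.path_iff] at hw2
      refine ⟨w, hw1, ?_⟩
      have h4 : (D.rd w)⁻¹ * D.rd u = 1 := by
        apply D.Gs_free (D.Gs.mul_mem (D.Gs.inv_mem ⟨w, rfl⟩) ⟨u, rfl⟩) (x := y)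
        rw [Equiv.Perm.mul_apply, ← hw2, perm_inv_apply]
      have h5 : D.rd w = D.rd u := by rwa [inv_mul_eq_one] at h4
      apply Subtype.ext
      change (D.rd w)⁻¹ = (g : Equiv.Perm V)
      rw [h5, ← hu, inv_inv]
  obtain ⟨f, hf1, hf2⟩ := hconj D.Gs D.Es D.Gs_fg hG D.inc D.pr (D.inc_injective base)
    D.pr_surjective (D.range_inc base) D.inc_central
  have htr : ∀ p : V × ℤ, ∃ e : D.Es, (e : Equiv.Perm (V × ℤ))⁻¹ (base, 0) = p := by
    intro p
    obtain ⟨e, he, hp⟩ := D.Es_trans conn p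
    exact ⟨⟨e⁻¹, D.Es.inv_mem he⟩, by rw [inv_inv]; exact hp⟩
  choose e he using htr
  have huniq : ∀ (u : D.Es) (p : V × ℤ), (u : Equiv.Perm (V × ℤ))⁻¹ (base, 0) = p → e p = u := by
    intro u p hu
    have h1 : ((e p : D.Es) : Equiv.Perm (V × ℤ)) * (u : Equiv.Perm (V × ℤ))⁻¹ = 1 := by
      apply D.Es_free (D.Es.mul_mem (e p).2 (D.Es.inv_mem u.2)) (p := (base, 0))
      rw [Equiv.Perm.mul_apply, hu]
      nth_rewrite 2 [← he p]
      rw [perm_apply_inv]
    apply Subtype.ext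
    rwa [mul_inv_eq_one] at h1
  have hsh : ∀ s x j, e (D.nx s x, j + ω s x) = e (x, j) * ⟨D.sh s, D.sh_mem s⟩ := by
    intro s x j
    apply huniq
    rw [Subgroup.coe_mul, mul_inv_rev, Equiv.Perm.mul_apply, he]
    rfl
  have hzz : ∀ x j k, e (x, j + k) = e (x, j) * D.zE ^ (-k) := by
    intro x j k
    apply huniq
    rw [Subgroup.coe_mul, mul_inv_rev, Equiv.Perm.mul_apply, he, D.zE_zpow, ← zpow_neg, neg_neg,
      Dat.zz_zpow]
  choose c hc using fun s : S => hf1 ⟨D.sh s, D.sh_mem s⟩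
  refine noemb (fun p => f (e p)) (∑ s, |c s|) ?_ ?_
  · intro s x y j hE
    rw [← D.nx_eq hE, hsh]
    refine (hc s (e (x, j))).trans ((le_abs_self _).trans ?_)
    exact Finset.single_le_sum (f := fun s => |c s|) (fun _ _ => abs_nonneg _) (Finset.mem_univ s)
  · intro R
    have hfin := hf2 R
    have hinj : Set.InjOn (fun k : ℤ => D.zE ^ (-k)) Set.univ := by
      intro k _ k' _ hkk
      have h1 := congrArg (fun e : D.Es => ((e : Equiv.Perm (V × ℤ)) (base, 0)).2) hkk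
      simp only [Dat.zE_zpow, Dat.zz_zpow, zero_add] at h1
      omega
    have hfin2 : {k : ℤ | D.zE ^ (-k) ∈ {g : D.Es | ∃ x : D.Es, ‖f (x * g) - f x‖ ≤ R}}.Finite :=
      hfin.preimage (hinj.mono (Set.subset_univ _))
    obtain ⟨b, hb⟩ := hfin2.bddAbove
    refine ⟨b + 1, fun k hk x j => ?_⟩
    by_contra hcon
    have h1 : k ∈ {k : ℤ | D.zE ^ (-k) ∈ {g : D.Es | ∃ x : D.Es, ‖f (x * g) - f x‖ ≤ R}} := by
      refine ⟨e (x, j), ?_⟩
      rw [← hzz]
      exact not_lt.1 hcon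
    have := hb h1
    omega

end Pool.Agent.TH350.J868
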