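import Mathlib

set_option autoImplicit false
set_option linter.all false

namespace Pool.Agent.TH350.Segre

open scoped Pointwise

variable {F : Type} [Field F]

/-- the 34 directions: `none` is `(0,0,1)`, `some none` is `(0,1,0)`, `some (some t)` is
`(1,t,t^6)`. -/
abbrev Dir (F : Type) := Option (Option F)

/-- direction vectors -/
def vec : Dir F → F × F × F
  | none => (0, 0, 1)
  | some none => (0, 1, 0)
  | some (some t) => (1, t, t ^ 6)

/-- the projection with kernel the direction `d` -/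
def pr : Dir F → F × F × F → F × F
  | none, p => (p.1, p.2.1)
  | some none, p => (p.1, p.2.2)
  | some (some t), p => (p.2.1 - t * p.1, p.2.2 - t ^ 6 * p.1)

/-- a section of `pr d` -/
def sec : Dir F → F × F → F × F × F
  | none, w => (w.1, w.2, 0)
  | some none, w => (w.1, 0, w.2)
  | some (some _), w => (0, w.1, w.2)

theorem pr_sec (d : Dir F) (w : F × F) : pr d (sec d w) = w := by
  rcases d with _ | _ | t <;> simp [pr, sec]

theorem pr_sub (d : Dir F) (p q : F × F × F) : pr d (p - q) = pr d p - pr d q := by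
  rcases d with _ | _ | t
  · simp [pr]
  · simp [pr]
  · ext <;> simp [pr] <;> ring

theorem pr_add (d : Dir F) (p q : F × F × F) : pr d (p + q) = pr d p + pr d q := by
  rcases d with _ | _ | t
  · simp [pr]
  · simp [pr]
  · ext <;> simp [pr] <;> ring

theorem pr_smul (d : Dir F) (c : F) (p : F × F × F) : pr d (c • p) = c • pr d p := by
  rcases d with _ | _ | t
  · simp [pr]
  · simp [pr]
  · ext <;> simp [pr] <;> ring

theorem pr_zero (d : Dir F) : pr d 0 = 0 := by
  rcases d with _ | _ | t <;> simp [pr]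

theorem pr_vec (d : Dir F) : pr d (vec d) = 0 := by
  rcases d with _ | _ | t <;> simp [pr, vec]

theorem vec_ne_zero (d : Dir F) : vec d ≠ 0 := by
  rcases d with _ | _ | t <;> simp [vec]

/-- the kernel of `pr d` is spanned by `vec d` -/
theorem ker_pr (d : Dir F) (u : F × F × F) (h : pr d u = 0) : ∃ r : F, u = r • vec d := by
  obtain ⟨x, y, z⟩ := u
  rcases d with _ | _ | t
  · simp [pr] at h
    exact ⟨z, by simp [vec, h.1, h.2]⟩
  · simp [pr] at h
    exact ⟨y, by simp [vec, h.1, h.2]⟩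
  · simp [pr] at h
    refine ⟨x, ?_⟩
    have h1 : y = x * t := by linear_combination h.1
    have h2 : z = x * t ^ 6 := by linear_combination h.2
    simp [vec, h1, h2]

/-- distinct directions are independent -/
theorem pr_two {d e : Dir F} (hde : d ≠ e) (u : F × F × F) (h1 : pr d u = 0) (h2 : pr e u = 0) :
    u = 0 := by
  obtain ⟨x, y, z⟩ := u
  rcases d with _ | _ | s <;> rcases e with _ | _ | t <;> simp [pr] at h1 h2 hde ⊢
  · exact ⟨h1.1, h1.2, h2.2⟩
  · rw [h1.1, h1.2] at h2; simp at h2; exact ⟨h1.1, h1.2, h2⟩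
  · exact ⟨h1.1, h2.2, h1.2⟩
  · rw [h1.1, h1.2] at h2; simp at h2; exact ⟨h1.1, h2, h1.2⟩
  · rw [h2.1, h2.2] at h1; simp at h1; exact ⟨h2.1, h2.2, h1⟩
  · rw [h2.1, h2.2] at h1; simp at h1; exact ⟨h2.1, h1, h2.2⟩
  · have h3 : (s - t) * x = 0 := by linear_combination h2.1 - h1.1
    rcases mul_eq_zero.mp h3 with h4 | h4
    · exact absurd (sub_eq_zero.mp h4) hde
    · subst h4; simp at h1; exact ⟨rfl, h1.1, h1.2⟩

theorem pow31 [Fintype F] (hc : Fintype.card F = 32) {a : F} (ha : a ≠ 0) : a ^ 31 = 1 := by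
  have h := FiniteField.pow_card_sub_one_eq_one a ha
  rwa [hc] at h

theorem pow6_inj [Fintype F] (hc : Fintype.card F = 32) {s t : F} (h : s ^ 6 = t ^ 6) :
    s = t := by
  by_cases ht : t = 0
  · subst ht
    simpa using h
  have hs : s ≠ 0 := by
    rintro rfl
    apply ht
    simpa using h.symm
  have h1 := pow31 hc hs
  have h2 := pow31 hc ht
  have h3 : s ^ 31 = t ^ 30 * s := by
    calc s ^ 31 = (s ^ 6) ^ 5 * s := by ring
      _ = t ^ 30 * s := by rw [h]; ring
  have h4 : t ^ 30 ≠ 0 := pow_ne_zero _ ht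
  apply mul_left_cancel₀ h4
  rw [← h3, h1, ← h2]; ring

theorem pow5_inj [Fintype F] (hc : Fintype.card F = 32) {s t : F} (h : s ^ 5 = t ^ 5) :
    s = t := by
  by_cases ht : t = 0
  · subst ht
    simpa using h
  have hs : s ≠ 0 := by
    rintro rfl
    apply ht
    simpa using h.symm
  have h1 := pow31 hc hs
  have h2 := pow31 hc ht
  have h3 : s ^ 31 = t ^ 30 * s := by
    calc s ^ 31 = (s ^ 5) ^ 6 * s := by ring
      _ = t ^ 30 * s := by rw [h]; ring
  have h4 : t ^ 30 ≠ 0 := pow_ne_zero _ ht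
  apply mul_left_cancel₀ h4
  rw [← h3, h1, ← h2]; ring

/-- the form `x^2+xy+y^2` is anisotropic over the field with 32 elements -/
theorem aniso [Fintype F] (hc : Fintype.card F = 32) [CharP F 2] {x y : F}
    (h : x ^ 2 + x * y + y ^ 2 = 0) : x = 0 ∧ y = 0 := by
  have h2 : (2 : F) = 0 := CharTwo.two_eq_zero
  by_cases hy : y = 0
  · subst hy
    simp at h
    exact ⟨h, rfl⟩
  exfalso
  have hx : x ≠ 0 := by
    rintro rfl
    simp at h
    exact hy h
  have h3 : x ^ 3 = y ^ 3 := by linear_combination (x - y) * h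
  have h4 := pow31 hc hx
  have h5 := pow31 hc hy
  have h6 : x ^ 31 = y ^ 30 * x := by
    calc x ^ 31 = (x ^ 3) ^ 10 * x := by ring
      _ = y ^ 30 * x := by rw [h3]; ring
  have h7 : y ^ 30 ≠ 0 := pow_ne_zero _ hy
  have h8 : x = y := by
    apply mul_left_cancel₀ h7
    rw [← h6, h4, ← h5]; ring
  subst h8
  have h9 : x ^ 2 = 0 := by linear_combination h - x ^ 2 * h2
  exact hx (by simpa using h9)

/-- the main property of the Segre hyperoval -/
theorem segre [Fintype F] (hc : Fintype.card F = 32) [CharP F 2] {s t t' : F}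
    (h1 : t ≠ s) (h2 : t' ≠ s) (h3 : t ≠ t') :
    (t ^ 6 - s ^ 6) * (t' - s) ≠ (t' ^ 6 - s ^ 6) * (t - s) := by
  have hh : (2 : F) = 0 := CharTwo.two_eq_zero
  intro h
  obtain ⟨a, ha⟩ : ∃ a, t = s + a := ⟨t - s, by ring⟩
  obtain ⟨b, hb⟩ : ∃ b, t' = s + b := ⟨t' - s, by ring⟩
  subst ha hb
  have ha : a ≠ 0 := by rintro rfl; simp at h1
  have hb : b ≠ 0 := by rintro rfl; simp at h2
  have hab : a - b ≠ 0 := by
    intro hab
    apply h3
    rw [sub_eq_zero.mp hab]
  have e1 : ∀ x : F, (s + x) ^ 6 - s ^ 6 = x ^ 2 * (s ^ 4 + s ^ 2 * x ^ 2 + x ^ 4) := by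
    intro x
    linear_combination (3 * s ^ 5 * x + 7 * s ^ 4 * x ^ 2 + 10 * s ^ 3 * x ^ 3 +
      7 * s ^ 2 * x ^ 4 + 3 * s * x ^ 5) * hh
  rw [e1, e1] at h
  have h4 : a * b * (a - b) * (s ^ 4 + s ^ 2 * (a ^ 2 + a * b + b ^ 2) +
      (a ^ 4 + a ^ 3 * b + a ^ 2 * b ^ 2 + a * b ^ 3 + b ^ 4)) = 0 := by
    linear_combination h
  have h5 : s ^ 4 + s ^ 2 * (a ^ 2 + a * b + b ^ 2) +
      (a ^ 4 + a ^ 3 * b + a ^ 2 * b ^ 2 + a * b ^ 3 + b ^ 4) = 0 := by
    rcases mul_eq_zero.mp h4 with h6 | h6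
    · exact absurd h6 (mul_ne_zero (mul_ne_zero ha hb) hab)
    · exact h6
  have h6 : (a ^ 2 + b ^ 2 + s ^ 2) ^ 2 + (a ^ 2 + b ^ 2 + s ^ 2) * (a * b + s ^ 2) +
      (a * b + s ^ 2) ^ 2 = 0 := by
    linear_combination h5 + (a ^ 2 * b ^ 2 + a ^ 2 * s ^ 2 + b ^ 2 * s ^ 2 + s ^ 4 +
      a * b * s ^ 2) * hh
  obtain ⟨h7, h8⟩ := aniso hc h6
  have h9 : a ^ 2 + a * b + b ^ 2 = 0 := by
    linear_combination h7 + h8 - s ^ 2 * hh
  exact ha (aniso hc h9).1

/-- three distinct directions are independent -/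
theorem hyper [Fintype F] (hc : Fintype.card F = 32) [CharP F 2] {d e e' : Dir F} (h1 : e ≠ d)
    (h2 : e' ≠ d) (h3 : e ≠ e') {r r' : F} (hr : r ≠ 0) (hr' : r' ≠ 0) :
    pr d (r • vec e) ≠ pr d (r' • vec e') := by
  have key : ∀ (s t : F), t ≠ s → t ^ 6 - s ^ 6 ≠ 0 := by
    intro s t hst h
    exact hst (pow6_inj hc (sub_eq_zero.mp h))
  intro h
  rcases d with _ | _ | s <;> rcases e with _ | _ | t <;> rcases e' with _ | _ | t' <;>
    simp [pr, vec] at h h1 h2 h3
  · exact hr' h.1.symm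
  · exact hr h.1
  · obtain ⟨h4, h5⟩ := h
    subst h4
    exact h3 (mul_left_cancel₀ hr h5)
  · exact hr' h.1.symm
  · exact hr h.1
  · obtain ⟨h4, h5⟩ := h
    subst h4
    exact h3 (pow6_inj hc (mul_left_cancel₀ hr h5))
  · exact hr' h.1.symm
  · obtain ⟨h4, h5⟩ := h
    have h6 : (t' - s) * r' = 0 := by linear_combination -h4
    rcases mul_eq_zero.mp h6 with h7 | h7
    · exact h2 (sub_eq_zero.mp h7)
    · exact hr' h7
  · exact hr h.1
  · obtain ⟨h4, h5⟩ := h
    have h6 : (t' ^ 6 - s ^ 6) * r' = 0 := by linear_combination -h5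
    rcases mul_eq_zero.mp h6 with h7 | h7
    · exact key s t' h2 h7
    · exact hr' h7
  · obtain ⟨h4, h5⟩ := h
    have h6 : (t - s) * r = 0 := by linear_combination h4
    rcases mul_eq_zero.mp h6 with h7 | h7
    · exact h1 (sub_eq_zero.mp h7)
    · exact hr h7
  · obtain ⟨h4, h5⟩ := h
    have h6 : (t ^ 6 - s ^ 6) * r = 0 := by linear_combination h5
    rcases mul_eq_zero.mp h6 with h7 | h7
    · exact key s t h1 h7
    · exact hr h7
  · obtain ⟨h4, h5⟩ := h
    have h6 : r * r' * ((t ^ 6 - s ^ 6) * (t' - s) - (t' ^ 6 - s ^ 6) * (t - s)) = 0 := by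
      linear_combination (r' * (t' - s)) * h5 - (r' * (t' ^ 6 - s ^ 6)) * h4
    rcases mul_eq_zero.mp h6 with h7 | h7
    · exact mul_ne_zero hr hr' h7
    · exact segre hc h1 h2 h3 (sub_eq_zero.mp h7)

/-! ### the geometry -/

/-- the lines of the geometry: a direction and the common value of the projection -/
abbrev Line (F : Type) := Dir F × (F × F)

/-- incidence -/
def Inc (p : F × F × F) (l : Line F) : Prop := pr l.1 p = l.2

theorem card_dir [Fintype F] (hc : Fintype.card F = 32) : Nat.card (Dir F) = 34 := by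
  simp [Dir, hc]

theorem ncard_line (l : Line F) [Fintype F] (hc : Fintype.card F = 32) :
    Set.ncard {p : F × F × F | Inc p l} = 31 + 1 := by
  have h1 : {p : F × F × F | Inc p l} = Set.range (fun r : F => sec l.1 l.2 + r • vec l.1) := by
    ext p
    simp only [Set.mem_setOf_eq, Set.mem_range, Inc]
    constructor
    · intro h
      obtain ⟨r, hr⟩ := ker_pr l.1 (p - sec l.1 l.2) (by rw [pr_sub, pr_sec, h, sub_self])
      exact ⟨r, by rw [← hr]; abel⟩
    · rintro ⟨r, rfl⟩
      rw [pr_add, pr_sec, pr_smul, pr_vec]; simp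
  rw [h1, Set.ncard_range_of_injective, Nat.card_eq_fintype_card, hc]
  intro r r' h
  simp only [add_right_inj] at h
  exact smul_left_injective F (vec_ne_zero l.1) h

theorem ncard_point (p : F × F × F) [Fintype F] (hc : Fintype.card F = 32) :
    Set.ncard {l : Line F | Inc p l} = 33 + 1 := by
  have h1 : {l : Line F | Inc p l} = Set.range (fun d : Dir F => (d, pr d p)) := by
    ext l
    simp only [Set.mem_setOf_eq, Set.mem_range, Inc]
    constructor
    · intro h
      exact ⟨l.1, by rw [h]⟩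
    · rintro ⟨d, rfl⟩
      rfl
  rw [h1, Set.ncard_range_of_injective, card_dir hc]
  intro d d' h
  exact congrArg Prod.fst h

theorem linear_space (p q : F × F × F) (l m : Line F) (h1 : Inc p l) (h2 : Inc q l)
    (h3 : Inc p m) (h4 : Inc q m) : p = q ∨ l = m := by
  unfold Inc at h1 h2 h3 h4
  by_cases h : l.1 = m.1
  · right
    apply Prod.ext h
    rw [← h1, ← h3, h]
  · left
    rw [← sub_eq_zero]
    apply pr_two h
    · rw [pr_sub, h1, h2, sub_self]
    · rw [pr_sub, h3, h4, sub_self]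

/-- solving for the point and direction -/
theorem solve [Fintype F] (hc : Fintype.card F = 32) [CharP F 2] (d : Dir F) (c : F × F)
    (hcc : c ≠ 0) : ∃! x : (F × F × F) × Dir F, pr x.2 x.1 = 0 ∧ pr d x.1 = c := by
  classical
  -- the parametrised map
  let X := {e : Dir F // e ≠ d} × {r : F // r ≠ 0}
  let Y := {c : F × F // c ≠ 0}
  have hne : ∀ x : X, pr d (x.2.1 • vec x.1.1) ≠ 0 := by
    rintro ⟨⟨e, he⟩, ⟨r, hr⟩⟩ h
    have := pr_two (Ne.symm he) (r • vec e) h (by rw [pr_smul, pr_vec, smul_zero])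
    rcases smul_eq_zero.mp this with h1 | h1
    · exact hr h1
    · exact vec_ne_zero e h1
  let f : X → Y := fun x => ⟨pr d (x.2.1 • vec x.1.1), hne x⟩
  have hf : Function.Injective f := by
    rintro ⟨⟨e, he⟩, ⟨r, hr⟩⟩ ⟨⟨e', he'⟩, ⟨r', hr'⟩⟩ h
    have h1 : pr d (r • vec e) = pr d (r' • vec e') := congrArg Subtype.val h
    by_cases hee : e = e'
    · subst hee
      have h2 : pr d ((r - r') • vec e) = 0 := by
        rw [sub_smul, pr_sub, h1, sub_self]
      have := pr_two (Ne.symm he) ((r - r') • vec e) h2 (by rw [pr_smul, pr_vec, smul_zero])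
      rcases smul_eq_zero.mp this with h3 | h3
      · rw [sub_eq_zero] at h3
        subst h3
        rfl
      · exact absurd h3 (vec_ne_zero e)
    · exact absurd h1 (hyper hc he he' hee hr hr')
  have hX : Fintype.card X = 1023 := by
    simp only [X, Fintype.card_prod, Fintype.card_subtype_compl, Fintype.card_subtype_eq, ne_eq]
    simp [hc]
  have hY : Fintype.card Y = 1023 := by
    simp only [Y, Fintype.card_subtype_compl, Fintype.card_subtype_eq, ne_eq]
    simp [hc]
  have hb : Function.Bijective f :=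
    (Fintype.bijective_iff_injective_and_card f).mpr ⟨hf, by rw [hX, hY]⟩
  obtain ⟨⟨⟨e, he⟩, ⟨r, hr⟩⟩, hx⟩ := hb.2 ⟨c, hcc⟩
  have hx1 : pr d (r • vec e) = c := congrArg Subtype.val hx
  refine ⟨(r • vec e, e), ⟨by simp only [pr_smul, pr_vec, smul_zero], hx1⟩, ?_⟩
  rintro ⟨u, e'⟩ ⟨h1, h2⟩
  change pr e' u = 0 at h1
  change pr d u = c at h2
  obtain ⟨r', rfl⟩ := ker_pr e' u h1
  have hr' : r' ≠ 0 := by
    rintro rfl
    apply hcc
    rw [← h2, zero_smul, pr_zero]
  have he' : e' ≠ d := by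
    rintro rfl
    apply hcc
    rw [← h2, h1]
  have h3 : f (⟨e', he'⟩, ⟨r', hr'⟩) = f (⟨e, he⟩, ⟨r, hr⟩) := by
    apply Subtype.ext
    change pr d (r' • vec e') = pr d (r • vec e)
    rw [h2, hx1]
  have h4 := hf h3
  have h5 : e' = e := congrArg (fun x : X => x.1.1) h4
  have h6 : r' = r := congrArg (fun x : X => x.2.1) h4
  rw [h5, h6]

theorem antiflag [Fintype F] (hc : Fintype.card F = 32) [CharP F 2] (p : F × F × F) (l : Line F)
    (h : ¬ Inc p l) :
    ∃! x : (F × F × F) × Line F, Inc p x.2 ∧ Inc x.1 x.2 ∧ Inc x.1 l := by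
  unfold Inc at h ⊢
  have hcc : l.2 - pr l.1 p ≠ 0 := by
    intro h1
    exact h (sub_eq_zero.mp h1).symm
  obtain ⟨⟨u, e⟩, ⟨h1, h2⟩, h3⟩ := solve hc l.1 _ hcc
  change pr e u = 0 at h1
  change pr l.1 u = l.2 - pr l.1 p at h2
  refine ⟨(p + u, (e, pr e p)), ⟨rfl, ?_, ?_⟩, ?_⟩
  · change pr e (p + u) = pr e p
    rw [pr_add, h1, add_zero]
  · change pr l.1 (p + u) = l.2
    rw [pr_add, h2]; abel
  · rintro ⟨q, ⟨e', w⟩⟩ ⟨h4, h5, h6⟩
    change pr e' p = w at h4
    change pr e' q = w at h5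
    change pr l.1 q = l.2 at h6
    have h7 := h3 (q - p, e') ⟨by
      change pr e' (q - p) = 0
      rw [pr_sub, h4, h5, sub_self], by
      change pr l.1 (q - p) = l.2 - pr l.1 p
      rw [pr_sub, h6]⟩
    simp only [Prod.mk.injEq] at h7
    obtain ⟨h8, h9⟩ := h7
    subst h9
    have h10 : q = p + u := by rw [← h8]; abel
    rw [h10, h4]

/-! ### the group -/

/-- the special type of directions: the three coordinate directions -/
def TA : Dir F → Prop
  | none => True
  | some none => True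
  | some (some t) => t = 0

/-- the group of all collineations preserving the type of the lines -/
def Gam (F : Type) [Field F] : Subgroup (Equiv.Perm (F × F × F) × Equiv.Perm (Line F)) where
  carrier := {e | (∀ p l, Inc (e.1 p) (e.2 l) ↔ Inc p l) ∧ ∀ l, TA (e.2 l).1 ↔ TA l.1}
  one_mem' := ⟨fun _ _ => Iff.rfl, fun _ => Iff.rfl⟩
  mul_mem' := fun {e f} he hf => ⟨fun p l => (he.1 (f.1 p) (f.2 l)).trans (hf.1 p l),
    fun l => (he.2 (f.2 l)).trans (hf.2 l)⟩
  inv_mem' := fun {e} he => ⟨fun p l => by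
      have := he.1 (e.1⁻¹ p) (e.2⁻¹ l)
      simpa using this.symm, fun l => by
      have := he.2 (e.2⁻¹ l)
      simpa using this.symm⟩

instance actP : MulAction (Gam F) (F × F × F) where
  smul g p := g.1.1 p
  one_smul _ := rfl
  mul_smul _ _ _ := rfl

instance actL : MulAction (Gam F) (Line F) where
  smul g l := g.1.2 l
  one_smul _ := rfl
  mul_smul _ _ _ := rfl

theorem smulP_def (g : Gam F) (p : F × F × F) : g • p = g.1.1 p := rfl

theorem smulL_def (g : Gam F) (l : Line F) : g • l = g.1.2 l := rfl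

/-- lifting a permutation of the points to a collineation -/
theorem lift [Finite F] (g : Equiv.Perm (F × F × F)) (τ : Dir F → Dir F)
    (hτ : Function.Injective τ) (hT : ∀ d, TA (τ d) ↔ TA d)
    (h : ∀ d p q, pr d p = pr d q → pr (τ d) (g p) = pr (τ d) (g q)) :
    ∃ x : Gam F, ∀ p, x • p = g p := by
  let k : Line F → Line F := fun l => (τ l.1, pr (τ l.1) (g (sec l.1 l.2)))
  have hτs : Function.Surjective τ := Finite.surjective_of_injective hτ
  have hks : Function.Surjective k := by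
    rintro ⟨e, w⟩
    obtain ⟨d, rfl⟩ := hτs e
    refine ⟨(d, pr d (g.symm (sec (τ d) w))), ?_⟩
    simp only [k, Prod.mk.injEq, true_and]
    rw [h d (sec d (pr d (g.symm (sec (τ d) w)))) (g.symm (sec (τ d) w)) (pr_sec _ _)]
    rw [Equiv.apply_symm_apply, pr_sec]
  have hkb : Function.Bijective k := Finite.surjective_iff_bijective.mp hks
  refine ⟨⟨(g, Equiv.ofBijective k hkb), ?_, ?_⟩, fun p => rfl⟩
  · rintro p ⟨d, w⟩
    change pr (τ d) (g p) = pr (τ d) (g (sec d w)) ↔ pr d p = w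
    constructor
    · intro h1
      have h2 : k (d, pr d p) = k (d, w) := by
        simp only [k, Prod.mk.injEq, true_and]
        rw [h d (sec d (pr d p)) p (pr_sec _ _), h1]
      have h3 := hkb.1 h2
      simpa using h3
    · rintro rfl
      rw [h d (sec d (pr d p)) p (pr_sec _ _)]
  · intro l
    exact hT l.1

theorem exists_translation [Finite F] (v : F × F × F) :
    ∃ x : Gam F, ∀ p : F × F × F, x • p = p + v := by
  refine lift (Equiv.addRight v) id Function.injective_id (fun d => Iff.rfl) ?_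
  intro d p q h
  change pr d (p + v) = pr d (q + v)
  rw [pr_add, pr_add, h]

theorem exists_scalar [Finite F] (c : F) (hc : c ≠ 0) :
    ∃ x : Gam F, ∀ p : F × F × F, x • p = c • p := by
  refine lift (MulAction.toPerm (Units.mk0 c hc)) id Function.injective_id (fun d => Iff.rfl) ?_
  intro d p q h
  change pr d (c • p) = pr d (c • q)
  rw [pr_smul, pr_smul, h]

/-- the diagonal collineations -/
theorem exists_diag [Finite F] (a : F) (ha : a ≠ 0) :
    ∃ x : Gam F, ∀ p : F × F × F, x • p = (p.1, a * p.2.1, a ^ 6 * p.2.2) := by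
  have ha6 : a ^ 6 ≠ 0 := pow_ne_zero _ ha
  refine lift ⟨fun p => (p.1, a * p.2.1, a ^ 6 * p.2.2),
    fun p => (p.1, a⁻¹ * p.2.1, (a ^ 6)⁻¹ * p.2.2), ?_, ?_⟩
    (Option.map (Option.map (fun t => a * t))) ?_ ?_ ?_
  · rintro ⟨x, y, z⟩
    simp [ha]
  · rintro ⟨x, y, z⟩
    simp [ha]
  · apply Option.map_injective
    apply Option.map_injective
    intro s t h
    exact mul_left_cancel₀ ha h
  · intro d
    rcases d with _ | _ | t <;> simp [TA, ha]
  · intro d p q h
    rcases d with _ | _ | t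
    · simp [pr] at h ⊢
      exact ⟨h.1, Or.inl h.2⟩
    · simp [pr] at h ⊢
      exact ⟨h.1, Or.inl h.2⟩
    · simp only [pr, Prod.mk.injEq, Option.map_some, Equiv.coe_fn_mk] at h ⊢
      constructor
      · linear_combination a * h.1
      · linear_combination a ^ 6 * h.2

/-- the cyclic permutation of the coordinates -/
theorem exists_cyc [Fintype F] (hc : Fintype.card F = 32) :
    ∃ x : Gam F, ∀ p : F × F × F, x • p = (p.2.1, p.2.2, p.1) := by
  classical
  let τ : Dir F → Dir F := fun d => match d with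
    | none => some none
    | some none => some (some 0)
    | some (some t) => if t = 0 then none else some (some (t ^ 5))
  refine lift ⟨fun p => (p.2.1, p.2.2, p.1), fun p => (p.2.2, p.1, p.2.1), ?_, ?_⟩ τ ?_ ?_ ?_
  · rintro ⟨x, y, z⟩; rfl
  · rintro ⟨x, y, z⟩; rfl
  · intro d e h
    have h5 : ∀ t : F, t ≠ 0 → t ^ 5 ≠ 0 := fun t ht => pow_ne_zero _ ht
    rcases d with _ | _ | s <;> rcases e with _ | _ | t
    · rfl
    · simp [τ] at h
    · by_cases ht : t = 0 <;> simp [τ, ht] at h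
    · simp [τ] at h
    · rfl
    · by_cases ht : t = 0
      · simp [τ, ht] at h
      · simp [τ, ht] at h
        exact absurd h.symm (h5 t ht)
    · by_cases ht : s = 0 <;> simp [τ, ht] at h
    · by_cases ht : s = 0
      · simp [τ, ht] at h
      · simp [τ, ht] at h
    · by_cases hs : s = 0 <;> by_cases ht : t = 0
      · rw [hs, ht]
      · simp [τ, hs, ht] at h
      · simp [τ, hs, ht] at h
      · simp [τ, hs, ht] at h
        rw [pow5_inj hc h]
  · intro d
    rcases d with _ | _ | t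
    · simp [τ, TA]
    · simp [τ, TA]
    · by_cases ht : t = 0
      · simp [τ, TA, ht]
      · simp [τ, TA, ht]
  · rintro d ⟨x, y, z⟩ ⟨x', y', z'⟩ h
    rcases d with _ | _ | t
    · simp [pr, τ] at h ⊢
      exact ⟨h.2, h.1⟩
    · simp [pr, τ] at h ⊢
      exact ⟨h.2, h.1⟩
    · by_cases ht : t = 0
      · subst ht
        simp [pr, τ] at h ⊢
        exact h
      · have h31 := pow31 hc ht
        simp [pr, τ, ht] at h ⊢
        obtain ⟨h1, h2⟩ := h
        constructor
        · linear_combination h2 - t ^ 5 * h1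
        · linear_combination (-(t ^ 30)) * h1 - (x - x') * h31

/-- the group acts primitively on the points -/
theorem primitive [Fintype F] (hc : Fintype.card F = 32) :
    MulAction.IsPreprimitive (Gam F) (F × F × F) := by
  haveI : MulAction.IsPretransitive (Gam F) (F × F × F) := by
    constructor
    intro p q
    obtain ⟨x, hx⟩ := exists_translation (q - p)
    exact ⟨x, by rw [hx]; abel⟩
  refine MulAction.IsPreprimitive.of_isTrivialBlock_base (0 : F × F × F) ?_
  intro B h0 hB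
  have hst : ∀ x : Gam F, (∃ b ∈ B, x • b ∈ B) → ∀ b ∈ B, x • b ∈ B := by
    rintro x ⟨b, hb, hb'⟩ b' hb''
    have h1 : x • B = B := (MulAction.isBlock_iff_smul_eq_of_nonempty.mp hB)
      ⟨x • b, Set.smul_mem_smul_set hb, hb'⟩
    rw [← h1]
    exact Set.smul_mem_smul_set hb''
  have hsub : ∀ b ∈ B, ∀ b' ∈ B, b' - b ∈ B := by
    intro b hb b' hb'
    obtain ⟨x, hx⟩ := exists_translation (-b)
    have := hst x ⟨b, hb, by rw [hx, add_neg_cancel]; exact h0⟩ b' hb'
    rwa [hx, ← sub_eq_add_neg] at this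
  have hneg : ∀ b ∈ B, -b ∈ B := by
    intro b hb
    have := hsub b hb 0 h0
    rwa [zero_sub] at this
  have hadd : ∀ b ∈ B, ∀ b' ∈ B, b' + b ∈ B := by
    intro b hb b' hb'
    have := hsub (-b) (hneg b hb) b' hb'
    rwa [sub_neg_eq_add] at this
  have hsmul : ∀ c : F, ∀ b ∈ B, c • b ∈ B := by
    intro c b hb
    by_cases hc0 : c = 0
    · rw [hc0, zero_smul]; exact h0
    obtain ⟨x, hx⟩ := exists_scalar c hc0
    have := hst x ⟨0, h0, by rw [hx, smul_zero]; exact h0⟩ b hb
    rwa [hx] at this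
  have hdiag : ∀ a : F, a ≠ 0 → ∀ b ∈ B, (b.1, a * b.2.1, a ^ 6 * b.2.2) ∈ B := by
    intro a ha b hb
    obtain ⟨x, hx⟩ := exists_diag a ha
    have := hst x ⟨0, h0, by rw [hx]; simp; exact h0⟩ b hb
    rwa [hx] at this
  have hcyc : ∀ b ∈ B, (b.2.1, b.2.2, b.1) ∈ B := by
    intro b hb
    obtain ⟨x, hx⟩ := exists_cyc hc
    have := hst x ⟨0, h0, by rw [hx]; simp; exact h0⟩ b hb
    rwa [hx] at this
  by_cases hs : ∀ b ∈ B, b = 0
  · left
    intro b hb b' hb'
    rw [hs b hb, hs b' hb']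
  right
  push Not at hs
  obtain ⟨v, hv, hv0⟩ := hs
  -- an element with nonzero last coordinate
  have hw : ∃ w ∈ B, w.2.2 ≠ 0 := by
    by_cases h3 : v.2.2 = 0
    · by_cases h1 : v.1 = 0
      · by_cases h2 : v.2.1 = 0
        · exfalso
          apply hv0
          ext
          · exact h1
          · exact h2
          · exact h3
        · exact ⟨_, hcyc _ (hcyc v hv), h2⟩
      · exact ⟨_, hcyc v hv, h1⟩
    · exact ⟨v, hv, h3⟩
  obtain ⟨w, hw, hw3⟩ := hw
  -- choose `a` different from `0` and `1`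
  obtain ⟨a, ha⟩ : ∃ a : F, a ≠ 0 ∧ a ≠ 1 := by
    classical
    by_contra hcon
    push Not at hcon
    have : (Finset.univ : Finset F) ⊆ {0, 1} := by
      intro a _
      by_cases ha : a = 0
      · simp [ha]
      · simp [hcon a ha]
    have h2 := Finset.card_le_card this
    rw [Finset.card_univ, hc] at h2
    have h3 : ({0, 1} : Finset F).card ≤ 2 := Finset.card_le_two
    omega
  obtain ⟨ha0, ha1⟩ := ha
  have ha6 : a ^ 6 ≠ 1 := by
    intro h
    exact ha1 (pow6_inj hc (by rw [h, one_pow]))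
  have ha5 : a ^ 5 ≠ 1 := by
    intro h
    exact ha1 (pow5_inj hc (by rw [h, one_pow]))
  -- `(0,0,1)` lies in `B`
  have hz : ((0, 0, 1) : F × F × F) ∈ B := by
    have e1 := hsub w hw _ (hdiag a ha0 w hw)
    have e2 := hsub _ (hsmul a _ e1) _ (hdiag a ha0 _ e1)
    have e3 : a * (a ^ 5 - 1) * ((a ^ 6 - 1) * w.2.2) ≠ 0 :=
      mul_ne_zero (mul_ne_zero ha0 (sub_ne_zero.mpr ha5))
        (mul_ne_zero (sub_ne_zero.mpr ha6) hw3)
    have e4 := hsmul (a * (a ^ 5 - 1) * ((a ^ 6 - 1) * w.2.2))⁻¹ _ e2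
    convert e4 using 1
    ext
    · simp
    · simp
    · simp only [Prod.smul_mk, Prod.mk_sub_mk, Prod.fst_sub, Prod.snd_sub, smul_eq_mul,
        Prod.smul_fst, Prod.smul_snd]
      rw [eq_comm, inv_mul_eq_iff_eq_mul₀ e3]
      ring
  have hy : ((0, 1, 0) : F × F × F) ∈ B := hcyc _ hz
  have hx : ((1, 0, 0) : F × F × F) ∈ B := hcyc _ hy
  rw [Set.eq_univ_iff_forall]
  rintro ⟨x, y, z⟩
  have := hadd _ (hsmul x _ hx) _ (hadd _ (hsmul y _ hy) _ (hsmul z _ hz))
  simpa using this

/-! ### the two types of lines -/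

theorem ncard_TA [Fintype F] (hc : Fintype.card F = 32) :
    Set.ncard {l : Line F | TA l.1} = 3 * 1024 := by
  classical
  have h1 : {l : Line F | TA l.1} =
      ((({none, some none, some (some 0)} : Finset (Dir F)) ×ˢ (Finset.univ : Finset (F × F)) :
        Finset (Line F)) : Set (Line F)) := by
    ext ⟨d, w⟩
    rcases d with _ | _ | t <;> simp [TA]
  rw [h1, Set.ncard_coe_finset, Finset.card_product]
  simp [hc]

theorem ncard_not_TA [Fintype F] (hc : Fintype.card F = 32) :
    Set.ncard {l : Line F | ¬ TA l.1} = 31 * 1024 := by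
  have h2 := ncard_TA hc
  have h3 : {l : Line F | ¬ TA l.1} = {l : Line F | TA l.1}ᶜ := rfl
  rw [h3, Set.ncard_compl, h2]
  simp [hc]

theorem orbit_type {l l' : Line F} (h : l' ∈ MulAction.orbit (Gam F) l) : TA l'.1 ↔ TA l.1 := by
  obtain ⟨g, rfl⟩ := h
  exact g.2.2 l

end Pool.Agent.TH350.Segre
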