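import Pool.Agent.TH719.ED.Defs

set_option autoImplicit false

namespace Pool.Agent.TH719.ED.H350

open scoped Pointwise
open Real

variable {G : Type} [Group G] (S : Finset G)

open Classical in
/-- the law of the random walk -/
noncomputable def P : ℕ → G → ℝ
  | 0 => fun y => if y = 1 then 1 else 0
  | n + 1 => fun y => (∑ s ∈ S, P n (s⁻¹ * y)) / S.card

open Classical in
/-- a finite set carrying the law -/
noncomputable def B (n : ℕ) : Finset G := S ^ n

theorem coe_B (n : ℕ) : (B S n : Set G) = (S : Set G) ^ n := by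
  classical
  unfold B
  exact Finset.coe_pow S n

theorem card_B (n : ℕ) : (B S n).card = ((S : Set G) ^ n).ncard := by
  rw [← coe_B, Set.ncard_coe_finset]

theorem P_nonneg (n : ℕ) (y : G) : 0 ≤ P S n y := by
  induction n generalizing y with
  | zero => unfold P; split_ifs <;> norm_num
  | succ n ih =>
    unfold P
    exact div_nonneg (Finset.sum_nonneg fun s _ => ih _) (Nat.cast_nonneg _)

theorem mem_B_succ {n : ℕ} {s y : G} (hs : s ∈ S) (hy : s⁻¹ * y ∈ B S n) : y ∈ B S (n + 1) := by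
  have h1 : s⁻¹ * y ∈ (S : Set G) ^ n := by rw [← coe_B]; exact hy
  have h2 : y ∈ (S : Set G) ^ (n + 1) := by
    rw [pow_succ']
    exact ⟨s, hs, s⁻¹ * y, h1, by group⟩
  rw [← coe_B] at h2
  exact h2

theorem P_supp (n : ℕ) {y : G} (h : y ∉ B S n) : P S n y = 0 := by
  induction n generalizing y with
  | zero =>
    unfold P
    rw [if_neg]
    rintro rfl
    apply h
    have : (1 : G) ∈ (S : Set G) ^ 0 := by rw [pow_zero]; exact Set.mem_one.2 rfl
    rw [← coe_B] at this
    exact this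
  | succ n ih =>
    unfold P
    rw [Finset.sum_eq_zero, zero_div]
    intro s hs
    exact ih fun hc => h (mem_B_succ S hs hc)

/-- the shifted law -/
noncomputable def Q (n : ℕ) (s : G) (y : G) : ℝ := P S n (s⁻¹ * y)

theorem Q_nonneg (n : ℕ) (s y : G) : 0 ≤ Q S n s y := P_nonneg S n _

theorem Q_supp (n : ℕ) {s y : G} (hs : s ∈ S) (h : y ∉ B S (n + 1)) : Q S n s y = 0 :=
  P_supp S n fun hc => h (mem_B_succ S hs hc)

theorem P_succ (n : ℕ) (y : G) : P S (n + 1) y = (∑ s ∈ S, Q S n s y) / S.card := rfl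

omit [Group G] in
theorem ts {f : G → ℝ} {A : Finset G} (h : ∀ y ∉ A, f y = 0) : ∑ y ∈ A, f y = ∑' y, f y :=
  (tsum_eq_sum fun y hy => h y hy).symm

theorem sum_shift (n : ℕ) {s : G} (hs : s ∈ S) (φ : ℝ → ℝ) (h0 : φ 0 = 0) (F : G → ℝ) :
    ∑ y ∈ B S n, φ (P S n y) * F (s * y) = ∑ y ∈ B S (n + 1), φ (Q S n s y) * F y := by
  rw [ts (f := fun y => φ (P S n y) * F (s * y)) (A := B S n),
    ts (f := fun y => φ (Q S n s y) * F y) (A := B S (n + 1))]
  · rw [← Equiv.tsum_eq (Equiv.mulLeft s) (fun y => φ (Q S n s y) * F y)]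
    refine tsum_congr fun y => ?_
    simp only [Equiv.coe_mulLeft, Q, inv_mul_cancel_left]
  · intro y hy
    rw [Q_supp S n hs hy, h0, zero_mul]
  · intro y hy
    rw [P_supp S n hy, h0, zero_mul]

theorem Ex_eq (n : ℕ) (F : G → ℝ) : Ex S n F = ∑ y ∈ B S n, P S n y * F y := by
  induction n generalizing F with
  | zero =>
    have h1 : (1 : G) ∈ B S 0 := by
      have : (1 : G) ∈ (S : Set G) ^ 0 := by rw [pow_zero]; exact Set.mem_one.2 rfl
      rw [← coe_B] at this
      exact this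
    rw [Finset.sum_eq_single_of_mem 1 h1]
    · simp [Ex, P]
    · intro y _ hy
      simp [P, hy]
  | succ n ih =>
    have h1 : Ex S (n + 1) F = (∑ s ∈ S, Ex S n (fun y => F (s * y))) / S.card := rfl
    rw [h1]
    have h2 : ∀ s ∈ S, Ex S n (fun y => F (s * y)) = ∑ y ∈ B S (n + 1), Q S n s y * F y := by
      intro s hs
      rw [ih]
      exact sum_shift S n hs id rfl F
    rw [Finset.sum_congr rfl h2, Finset.sum_comm, Finset.sum_div]
    refine Finset.sum_congr rfl fun y _ => ?_
    rw [P_succ, ← Finset.sum_mul]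
    ring

theorem Ex_shift (n : ℕ) {s : G} (hs : s ∈ S) (F : G → ℝ) :
    Ex S n (fun y => F (s * y)) = ∑ y ∈ B S (n + 1), Q S n s y * F y := by
  rw [Ex_eq]
  exact sum_shift S n hs id rfl F

theorem Ex_one (hne : S.Nonempty) (n : ℕ) : Ex S n (fun _ => (1 : ℝ)) = 1 := by
  have hN : (S.card : ℝ) ≠ 0 := by
    have := hne.card_pos
    exact_mod_cast this.ne'
  induction n with
  | zero => rfl
  | succ n ih =>
    have h1 : Ex S (n + 1) (fun _ => (1 : ℝ)) = (∑ s ∈ S, Ex S n (fun _ => (1 : ℝ))) / S.card := rfl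
    rw [h1, ih, Finset.sum_const, nsmul_eq_mul, mul_one, div_self hN]

theorem sum_P (hne : S.Nonempty) (n : ℕ) : ∑ y ∈ B S n, P S n y = 1 := by
  have := Ex_one S hne n
  rw [Ex_eq] at this
  simpa using this

theorem sum_Q (hne : S.Nonempty) (n : ℕ) {s : G} (hs : s ∈ S) :
    ∑ y ∈ B S (n + 1), Q S n s y = 1 := by
  have h1 := sum_shift S n hs id rfl (fun _ => 1)
  simp only [id, mul_one] at h1
  rw [← h1, sum_P S hne]

theorem P_le_one (hne : S.Nonempty) (n : ℕ) (y : G) : P S n y ≤ 1 := by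
  by_cases hy : y ∈ B S n
  · rw [← sum_P S hne n]
    exact Finset.single_le_sum (f := P S n) (fun y _ => P_nonneg S n y) hy
  · rw [P_supp S n hy]
    norm_num

theorem Q_le (n : ℕ) {s : G} (hs : s ∈ S) (y : G) : Q S n s y ≤ S.card * P S (n + 1) y := by
  have hN : (0 : ℝ) < S.card := by
    have : 0 < S.card := Finset.card_pos.2 ⟨s, hs⟩
    exact_mod_cast this
  rw [P_succ, mul_div_cancel₀ _ hN.ne']
  exact Finset.single_le_sum (f := fun s => Q S n s y) (fun s _ => Q_nonneg S n s y) hs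

/-- entropy -/
noncomputable def H (n : ℕ) : ℝ := ∑ y ∈ B S n, negMulLog (P S n y)

theorem H_nonneg (hne : S.Nonempty) (n : ℕ) : 0 ≤ H S n :=
  Finset.sum_nonneg fun y _ => negMulLog_nonneg (P_nonneg S n y) (P_le_one S hne n y)

theorem H_le (hne : S.Nonempty) (n : ℕ) : H S n ≤ log ((B S n).card) := by
  have hB : (B S n).Nonempty := by
    rw [Finset.nonempty_iff_ne_empty]
    intro h
    have := sum_P S hne n
    rw [h, Finset.sum_empty] at this
    norm_num at this
  have hM : (0 : ℝ) < (B S n).card := by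
    have := hB.card_pos
    exact_mod_cast this
  have hpt : ∀ y ∈ B S n, negMulLog (P S n y) ≤
      P S n y * log ((B S n).card) + 1 / (B S n).card - P S n y := by
    intro y _
    rcases (P_nonneg S n y).eq_or_lt with h | h
    · rw [← h, negMulLog_zero]
      have : (0 : ℝ) ≤ 1 / (B S n).card := by positivity
      linarith
    · have h1 := log_le_sub_one_of_pos (show (0 : ℝ) < 1 / ((B S n).card * P S n y) by positivity)
      rw [log_div one_ne_zero (by positivity), log_one, log_mul hM.ne' h.ne'] at h1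
      have h2 := mul_le_mul_of_nonneg_left h1 h.le
      have h3 : P S n y * (1 / ((B S n).card * P S n y) - 1) = 1 / (B S n).card - P S n y := by
        field_simp
      rw [h3] at h2
      unfold negMulLog
      linarith
  refine (Finset.sum_le_sum hpt).trans ?_
  rw [Finset.sum_sub_distrib, Finset.sum_add_distrib, ← Finset.sum_mul, sum_P S hne,
    Finset.sum_const, nsmul_eq_mul]
  have : ((B S n).card : ℝ) * (1 / (B S n).card) = 1 := by field_simp
  rw [this]
  linarith

/-- relative entropy -/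
noncomputable def K (n : ℕ) (s : G) : ℝ :=
  ∑ y ∈ B S (n + 1), Q S n s y * log (Q S n s y / P S (n + 1) y)

theorem sum_K (hne : S.Nonempty) (n : ℕ) :
    ∑ s ∈ S, K S n s = S.card * (H S (n + 1) - H S n) := by
  have hN : (0 : ℝ) < S.card := by
    have := hne.card_pos
    exact_mod_cast this
  have h1 : ∀ s ∈ S, K S n s = -H S n - ∑ y ∈ B S (n + 1), Q S n s y * log (P S (n + 1) y) := by
    intro s hs
    have h2 : H S n = ∑ y ∈ B S (n + 1), negMulLog (Q S n s y) := by
      have := sum_shift S n hs negMulLog negMulLog_zero (fun _ => 1)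
      simpa [H] using this
    rw [h2, ← Finset.sum_neg_distrib, ← Finset.sum_sub_distrib]
    refine Finset.sum_congr rfl fun y _ => ?_
    rcases (Q_nonneg S n s y).eq_or_lt with h | h
    · rw [← h]; simp
    · have hP : 0 < P S (n + 1) y := by
        have := Q_le S n hs y
        by_contra hc
        have h3 := P_nonneg S (n + 1) y
        have h4 : P S (n + 1) y = 0 := le_antisymm (not_lt.1 hc) h3
        rw [h4] at this
        linarith
      rw [log_div h.ne' hP.ne']
      unfold negMulLog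
      ring
  rw [Finset.sum_congr rfl h1, Finset.sum_sub_distrib, Finset.sum_const, nsmul_eq_mul,
    Finset.sum_comm]
  have h5 : ∑ y ∈ B S (n + 1), ∑ s ∈ S, Q S n s y * log (P S (n + 1) y) =
      -(S.card * H S (n + 1)) := by
    unfold H
    rw [Finset.mul_sum, ← Finset.sum_neg_distrib]
    refine Finset.sum_congr rfl fun y _ => ?_
    rw [← Finset.sum_mul]
    have : ∑ s ∈ S, Q S n s y = S.card * P S (n + 1) y := by
      rw [P_succ, mul_div_cancel₀ _ hN.ne']
    rw [this]
    unfold negMulLog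
    ring
  rw [h5]
  ring

theorem pointwise {a b N : ℝ} (ha : 0 ≤ a) (hb : 0 ≤ b) (hN : 1 ≤ N) (hab : a ≤ N * b) :
    (a - b) ^ 2 / b ≤ 2 * (N + 1) * (a * log (a / b) - a + b) := by
  rcases hb.eq_or_lt with h | h
  · rw [← h] at hab ⊢
    have : a = 0 := by linarith
    rw [this]
    simp
  set u := a / b with hu
  have hau : a = u * b := by rw [hu]; field_simp
  have hu0 : 0 ≤ u := div_nonneg ha hb
  have huN : u ≤ N := by rw [hu, div_le_iff₀ h]; exact hab
  set t := sqrt u with ht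
  have ht0 : 0 ≤ t := sqrt_nonneg u
  have htt : t ^ 2 = u := sq_sqrt hu0
  have key : (t - 1) ^ 2 ≤ u * log u - u + 1 := by
    rcases hu0.eq_or_lt with h1 | h1
    · rw [← h1] at htt ⊢
      have : t = 0 := by nlinarith
      rw [this]
      simp
    · have htpos : 0 < t := sqrt_pos.2 h1
      have h2 := one_sub_inv_le_log_of_pos htpos
      have h3 : log u = 2 * log t := by
        rw [← htt, log_pow]; norm_num
      rw [h3]
      have h4 : u * (2 * (1 - t⁻¹)) ≤ u * (2 * log t) :=
        mul_le_mul_of_nonneg_left (by linarith) hu0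
      have h5 : u * (2 * (1 - t⁻¹)) = 2 * u - 2 * t := by
        rw [← htt]; field_simp
      nlinarith
  have h6 : (a - b) ^ 2 / b = b * (u - 1) ^ 2 := by
    rw [hau]; field_simp
  have h7 : a * log u - a + b = b * (u * log u - u + 1) := by rw [hau]; ring
  rw [h6, h7]
  have h8 : (u - 1) ^ 2 ≤ 2 * (N + 1) * (t - 1) ^ 2 := by
    have h9 : (u - 1) ^ 2 = (t + 1) ^ 2 * (t - 1) ^ 2 := by rw [← htt]; ring
    rw [h9]
    refine mul_le_mul_of_nonneg_right ?_ (sq_nonneg _)
    nlinarith [sq_nonneg (t - 1)]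
  have h10 : (u - 1) ^ 2 ≤ 2 * (N + 1) * (u * log u - u + 1) :=
    h8.trans (mul_le_mul_of_nonneg_left key (by linarith))
  calc b * (u - 1) ^ 2 ≤ b * (2 * (N + 1) * (u * log u - u + 1)) :=
        mul_le_mul_of_nonneg_left h10 h.le
    _ = _ := by ring

/-- chi square distance -/
noncomputable def X2 (n : ℕ) (s : G) : ℝ :=
  ∑ y ∈ B S (n + 1), (Q S n s y - P S (n + 1) y) ^ 2 / P S (n + 1) y

theorem X2_nonneg (n : ℕ) (s : G) : 0 ≤ X2 S n s :=
  Finset.sum_nonneg fun y _ => div_nonneg (sq_nonneg _) (P_nonneg S _ y)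

theorem X2_le (hne : S.Nonempty) (n : ℕ) {s : G} (hs : s ∈ S) :
    X2 S n s ≤ 2 * (S.card + 1) * K S n s := by
  have hN : (1 : ℝ) ≤ S.card := by
    have := hne.card_pos
    exact_mod_cast this
  have h1 : X2 S n s ≤ ∑ y ∈ B S (n + 1), 2 * ((S.card : ℝ) + 1) *
      (Q S n s y * log (Q S n s y / P S (n + 1) y) - Q S n s y + P S (n + 1) y) :=
    Finset.sum_le_sum fun y _ => pointwise (Q_nonneg S n s y) (P_nonneg S _ y) hN (Q_le S n hs y)
  refine h1.trans ?_
  rw [← Finset.mul_sum, Finset.sum_add_distrib, Finset.sum_sub_distrib, sum_Q S hne n hs,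
    sum_P S hne]
  unfold K
  apply le_of_eq
  ring

theorem K_nonneg (hne : S.Nonempty) (n : ℕ) {s : G} (hs : s ∈ S) : 0 ≤ K S n s := by
  have h1 := (X2_nonneg S n s).trans (X2_le S hne n hs)
  have h2 : (0 : ℝ) < 2 * (S.card + 1) := by positivity
  exact nonneg_of_mul_nonneg_right h1 h2

theorem h_nonneg (hne : S.Nonempty) (n : ℕ) : 0 ≤ H S (n + 1) - H S n := by
  have hN : (0 : ℝ) < S.card := by
    have := hne.card_pos
    exact_mod_cast this
  have h1 := sum_K S hne n
  have h2 : 0 ≤ ∑ s ∈ S, K S n s := Finset.sum_nonneg fun s hs => K_nonneg S hne n hs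
  rw [h1] at h2
  exact nonneg_of_mul_nonneg_right h2 hN

theorem X2_le' (hne : S.Nonempty) (n : ℕ) {s : G} (hs : s ∈ S) :
    X2 S n s ≤ 2 * S.card * (S.card + 1) * (H S (n + 1) - H S n) := by
  have h1 : K S n s ≤ ∑ s ∈ S, K S n s :=
    Finset.single_le_sum (f := K S n) (fun s hs => K_nonneg S hne n hs) hs
  rw [sum_K S hne] at h1
  calc X2 S n s ≤ 2 * (S.card + 1) * K S n s := X2_le S hne n hs
    _ ≤ 2 * (S.card + 1) * (S.card * (H S (n + 1) - H S n)) :=
        mul_le_mul_of_nonneg_left h1 (by positivity)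
    _ = _ := by ring

theorem diff_sq (hne : S.Nonempty) (n : ℕ) {s : G} (hs : s ∈ S) (f : G → ℝ) :
    (Ex S n (fun y => f (s * y)) - Ex S (n + 1) f) ^ 2 ≤
      (2 * S.card * (S.card + 1) * (H S (n + 1) - H S n)) * Ex S (n + 1) (fun y => f y ^ 2) := by
  have h1 : Ex S n (fun y => f (s * y)) - Ex S (n + 1) f =
      ∑ y ∈ B S (n + 1), (Q S n s y - P S (n + 1) y) * f y := by
    rw [Ex_shift S n hs, Ex_eq, ← Finset.sum_sub_distrib]
    refine Finset.sum_congr rfl fun y _ => ?_
    ring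
  have h2 : Ex S (n + 1) (fun y => f y ^ 2) = ∑ y ∈ B S (n + 1), P S (n + 1) y * f y ^ 2 :=
    Ex_eq S (n + 1) _
  have h3 : 0 ≤ Ex S (n + 1) (fun y => f y ^ 2) := by
    rw [h2]
    exact Finset.sum_nonneg fun y _ => mul_nonneg (P_nonneg S _ y) (sq_nonneg _)
  have h4 : (∑ y ∈ B S (n + 1), (Q S n s y - P S (n + 1) y) * f y) ^ 2 ≤
      X2 S n s * ∑ y ∈ B S (n + 1), P S (n + 1) y * f y ^ 2 := by
    refine Finset.sum_sq_le_sum_mul_sum_of_sq_le_mul _
      (fun y _ => div_nonneg (sq_nonneg _) (P_nonneg S _ y))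
      (fun y _ => mul_nonneg (P_nonneg S _ y) (sq_nonneg _)) ?_
    intro y _
    rcases (P_nonneg S (n + 1) y).eq_or_lt with h | h
    · have hQ : Q S n s y = 0 := by
        have := Q_le S n hs y
        rw [← h, mul_zero] at this
        exact le_antisymm this (Q_nonneg S n s y)
      rw [← h, hQ]
      simp
    · field_simp
      exact le_rfl
  rw [h1]
  refine h4.trans ?_
  rw [← h2]
  exact mul_le_mul_of_nonneg_right (X2_le' S hne n hs) h3

theorem H_le' (hne : S.Nonempty) {C d : ℕ}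
    (hpoly : ∀ n : ℕ, ((S : Set G) ^ n).ncard ≤ C * (n + 1) ^ d) (n : ℕ) :
    H S n ≤ log C + d * log (n + 1) := by
  have h1 := hpoly n
  rw [← card_B] at h1
  have hB : 0 < (B S n).card := by
    rw [Finset.card_pos, Finset.nonempty_iff_ne_empty]
    intro h
    have := sum_P S hne n
    rw [h, Finset.sum_empty] at this
    norm_num at this
  have hC : C ≠ 0 := by
    rintro rfl
    omega
  have h2 : ((B S n).card : ℝ) ≤ C * ((n : ℝ) + 1) ^ d := by exact_mod_cast h1
  have h3 := log_le_log (by exact_mod_cast hB) h2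
  rw [log_mul (by exact_mod_cast hC) (by positivity), log_pow] at h3
  exact (H_le S hne n).trans h3

theorem small_step (hne : S.Nonempty) {C d : ℕ}
    (hpoly : ∀ n : ℕ, ((S : Set G) ^ n).ncard ≤ C * (n + 1) ^ d) (N0 : ℕ) :
    ∃ n ≥ N0, (n + 1 : ℝ) * (H S (n + 1) - H S n) ≤ d + 1 := by
  by_contra hcon
  push Not at hcon
  have hind : ∀ M ≥ N0, ((d : ℝ) + 1) * (log (M + 1) - log (N0 + 1)) ≤ H S M := by
    intro M hM
    induction M, hM using Nat.le_induction with
    | base =>
      rw [sub_self, mul_zero]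
      exact H_nonneg S hne N0
    | succ n hn ih =>
      have h1 := hcon n hn
      have hpos : (0 : ℝ) < n + 1 := by positivity
      have h2 : ((d : ℝ) + 1) / (n + 1) ≤ H S (n + 1) - H S n := by
        rw [div_le_iff₀ hpos, mul_comm]
        exact h1.le
      have h3 : log ((n : ℝ) + 1 + 1) - log (n + 1) ≤ 1 / (n + 1) := by
        rw [← log_div (by positivity) (by positivity)]
        have := log_le_sub_one_of_pos (show (0 : ℝ) < ((n : ℝ) + 1 + 1) / (n + 1) by positivity)
        have e : ((n : ℝ) + 1 + 1) / (n + 1) - 1 = 1 / (n + 1) := by field_simp; ring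
        rwa [e] at this
      have h4 : ((d : ℝ) + 1) * (log ((n : ℝ) + 1 + 1) - log (n + 1)) ≤ (d + 1) / (n + 1) := by
        calc ((d : ℝ) + 1) * (log ((n : ℝ) + 1 + 1) - log (n + 1)) ≤ (d + 1) * (1 / (n + 1)) :=
              mul_le_mul_of_nonneg_left h3 (by positivity)
          _ = _ := by ring
      push_cast
      linarith
  have hlim : Filter.Tendsto (fun M : ℕ => log ((M : ℝ) + 1)) Filter.atTop Filter.atTop :=
    tendsto_log_atTop.comp (Filter.tendsto_atTop_add_const_right _ _ tendsto_natCast_atTop_atTop)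
  obtain ⟨M, hM1, hM2⟩ := ((hlim.eventually_gt_atTop
    (log C + ((d : ℝ) + 1) * log (N0 + 1))).and (Filter.eventually_ge_atTop N0)).exists
  have h1 := hind M hM2
  have h2 := H_le' S hne hpoly M
  nlinarith

end Pool.Agent.TH719.ED.H350

namespace Pool.Agent.TH719.ED

open scoped Pointwise
open H350 Real

theorem entropy_facts {G : Type} [Group G] (S : Finset G) (hne : S.Nonempty)
    (hpoly : ∃ C d : ℕ, ∀ n : ℕ, ((S : Set G) ^ n).ncard ≤ C * (n + 1) ^ d) :
    ∃ C0 : ℝ, (∀ N : ℕ, ∃ n ≥ N, ∀ s ∈ S, ∀ f : G → ℝ,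
        (Ex S n (fun y => f (s * y)) - Ex S (n + 1) f) ^ 2 ≤
          C0 / (n + 1) * Ex S (n + 1) (fun y => f y ^ 2)) ∧
      (∀ ε > 0, ∃ N : ℕ, ∀ n ≥ N, ∀ s ∈ S, ∀ f : G → ℝ, (∀ y, |f y| ≤ 1) →
        |∑ k ∈ Finset.range (n + 1), (Ex S k (fun y => f (s * y)) - Ex S k f)| ≤ ε * (n + 1)) := by
  obtain ⟨C, d, hpoly⟩ := hpoly
  set C1 : ℝ := 2 * S.card * (S.card + 1) with hC1
  have hC1' : 0 ≤ C1 := by positivity
  refine ⟨C1 * (d + 1), ?_, ?_⟩
  · intro N
    obtain ⟨n, hn, h1⟩ := small_step S hne hpoly N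
    refine ⟨n, hn, fun s hs f => (diff_sq S hne n hs f).trans ?_⟩
    refine mul_le_mul_of_nonneg_right ?_ ?_
    · rw [le_div_iff₀ (by positivity)]
      calc 2 * (S.card : ℝ) * (S.card + 1) * (H S (n + 1) - H S n) * (n + 1) =
          C1 * ((n + 1) * (H S (n + 1) - H S n)) := by rw [hC1]; ring
        _ ≤ C1 * (d + 1) := mul_le_mul_of_nonneg_left h1 hC1'
    · rw [Ex_eq]
      exact Finset.sum_nonneg fun y _ => mul_nonneg (P_nonneg S _ y) (sq_nonneg _)
  · intro ε hε
    -- eventually `C1 * H (n+1) ≤ (ε/2)^2 (n+1)` and `2 ≤ (ε/2) (n+1)`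
    have hev : ∀ᶠ n : ℕ in Filter.atTop, C1 * H S (n + 1) ≤ (ε / 2) ^ 2 * (n + 1) ∧
        2 ≤ ε / 2 * ((n : ℝ) + 1) := by
      have ht : Filter.Tendsto (fun n : ℕ => ((n + 1 : ℕ) : ℝ) + 1) Filter.atTop Filter.atTop :=
        Filter.tendsto_atTop_add_const_right _ _
          (tendsto_natCast_atTop_atTop.comp (Filter.tendsto_add_atTop_nat 1))
      have hc : (0 : ℝ) < (ε / 2) ^ 2 / (4 * (C1 * d + 1)) := by positivity
      have h1 := ht.eventually ((isLittleO_log_id_atTop.def hc))
      have h2 : Filter.Tendsto (fun n : ℕ => (n : ℝ) + 1) Filter.atTop Filter.atTop :=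
        Filter.tendsto_atTop_add_const_right _ _ tendsto_natCast_atTop_atTop
      filter_upwards [h1, h2.eventually_ge_atTop (2 / (ε / 2)),
        h2.eventually_ge_atTop ((C1 * log C) / ((ε / 2) ^ 2 / 2))] with n hn1 hn2 hn3
      constructor
      · have h3 := H_le' S hne hpoly (n + 1)
        simp only [id, norm_eq_abs] at hn1
        have h4 : log (((n + 1 : ℕ) : ℝ) + 1) ≤
            (ε / 2) ^ 2 / (4 * (C1 * d + 1)) * (((n + 1 : ℕ) : ℝ) + 1) := by
          refine (le_abs_self _).trans (hn1.trans ?_)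
          rw [abs_of_nonneg (by positivity)]
        have h5 : (C1 * log C) ≤ ((n : ℝ) + 1) * ((ε / 2) ^ 2 / 2) := by
          rw [div_le_iff₀ (by positivity)] at hn3
          exact hn3
        have h6 : C1 * (d * log (((n + 1 : ℕ) : ℝ) + 1)) ≤ (ε / 2) ^ 2 / 2 * (n + 1) := by
          have h7 : C1 * (d * log (((n + 1 : ℕ) : ℝ) + 1)) ≤
              (C1 * d) * ((ε / 2) ^ 2 / (4 * (C1 * d + 1)) * (((n + 1 : ℕ) : ℝ) + 1)) := by
            rw [← mul_assoc]
            exact mul_le_mul_of_nonneg_left h4 (by positivity)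
          refine h7.trans ?_
          have h8 : (C1 * d) * ((ε / 2) ^ 2 / (4 * (C1 * d + 1)) * (((n + 1 : ℕ) : ℝ) + 1)) =
              ((C1 * d) / (C1 * d + 1)) * ((ε / 2) ^ 2 / 4 * (((n + 1 : ℕ) : ℝ) + 1)) := by
            field_simp
          rw [h8]
          have h9 : (C1 * d) / (C1 * d + 1) ≤ 1 := by
            rw [div_le_one (by positivity)]
            linarith
          calc ((C1 * d) / (C1 * d + 1)) * ((ε / 2) ^ 2 / 4 * (((n + 1 : ℕ) : ℝ) + 1)) ≤
              1 * ((ε / 2) ^ 2 / 4 * (((n + 1 : ℕ) : ℝ) + 1)) :=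
                mul_le_mul_of_nonneg_right h9 (by positivity)
            _ ≤ (ε / 2) ^ 2 / 2 * (n + 1) := by
              push_cast
              have : 0 ≤ (ε / 2) ^ 2 := sq_nonneg _
              have hn0 : (0 : ℝ) ≤ n := Nat.cast_nonneg n
              nlinarith
        calc C1 * H S (n + 1) ≤ C1 * (log C + d * log (((n + 1 : ℕ) : ℝ) + 1)) :=
              mul_le_mul_of_nonneg_left h3 hC1'
          _ = C1 * log C + C1 * (d * log (((n + 1 : ℕ) : ℝ) + 1)) := by ring
          _ ≤ _ := by linarith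
      · rw [div_le_iff₀ (by positivity)] at hn2
        linarith
    obtain ⟨N, hN⟩ := Filter.eventually_atTop.1 hev
    refine ⟨N, fun n hn s hs f hf => ?_⟩
    obtain ⟨hn1, hn2⟩ := hN n hn
    have hEx : ∀ k, |Ex S k f| ≤ 1 := by
      intro k
      rw [Ex_eq]
      refine (Finset.abs_sum_le_sum_abs _ _).trans ?_
      rw [← sum_P S hne k]
      refine Finset.sum_le_sum fun y _ => ?_
      rw [abs_mul, abs_of_nonneg (P_nonneg S k y)]
      exact mul_le_of_le_one_right (P_nonneg S k y) (hf y)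
    have hEx2 : ∀ k, Ex S k (fun y => f y ^ 2) ≤ 1 := by
      intro k
      rw [Ex_eq, ← sum_P S hne k]
      refine Finset.sum_le_sum fun y _ => ?_
      refine mul_le_of_le_one_right (P_nonneg S k y) ?_
      rw [← sq_abs]
      exact pow_le_one₀ (abs_nonneg _) (hf y)
    have hsplit : ∑ k ∈ Finset.range (n + 1), (Ex S k (fun y => f (s * y)) - Ex S k f) =
        ∑ k ∈ Finset.range (n + 1), (Ex S k (fun y => f (s * y)) - Ex S (k + 1) f) +
          (Ex S (n + 1) f - Ex S 0 f) := by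
      rw [← Finset.sum_range_sub (fun k => Ex S k f) (n + 1), ← Finset.sum_add_distrib]
      refine Finset.sum_congr rfl fun k _ => ?_
      ring
    have hA : |Ex S (n + 1) f - Ex S 0 f| ≤ 2 := by
      have h1 := hEx (n + 1)
      have h2 := hEx 0
      rw [abs_le] at h1 h2 ⊢
      constructor <;> linarith
    have hB : (∑ k ∈ Finset.range (n + 1), (Ex S k (fun y => f (s * y)) - Ex S (k + 1) f)) ^ 2 ≤
        (ε / 2 * (n + 1)) ^ 2 := by
      have h1 := Finset.sum_mul_sq_le_sq_mul_sq (Finset.range (n + 1)) (fun _ => (1 : ℝ))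
        (fun k => Ex S k (fun y => f (s * y)) - Ex S (k + 1) f)
      simp only [one_mul, one_pow, Finset.sum_const, Finset.card_range, nsmul_eq_mul,
        mul_one] at h1
      have h2 : ∑ k ∈ Finset.range (n + 1),
          (Ex S k (fun y => f (s * y)) - Ex S (k + 1) f) ^ 2 ≤ C1 * H S (n + 1) := by
        calc ∑ k ∈ Finset.range (n + 1), (Ex S k (fun y => f (s * y)) - Ex S (k + 1) f) ^ 2 ≤
            ∑ k ∈ Finset.range (n + 1), C1 * (H S (k + 1) - H S k) := by
              refine Finset.sum_le_sum fun k _ => (diff_sq S hne k hs f).trans ?_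
              exact mul_le_of_le_one_right (mul_nonneg hC1' (h_nonneg S hne k)) (hEx2 (k + 1))
          _ = C1 * (H S (n + 1) - H S 0) := by rw [← Finset.mul_sum, Finset.sum_range_sub]
          _ ≤ C1 * H S (n + 1) :=
              mul_le_mul_of_nonneg_left (by linarith [H_nonneg S hne 0]) hC1'
      refine h1.trans ?_
      have h3 : (0 : ℝ) ≤ ((n + 1 : ℕ) : ℝ) := Nat.cast_nonneg _
      calc ((n + 1 : ℕ) : ℝ) * ∑ k ∈ Finset.range (n + 1),
          (Ex S k (fun y => f (s * y)) - Ex S (k + 1) f) ^ 2 ≤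
          ((n + 1 : ℕ) : ℝ) * ((ε / 2) ^ 2 * (n + 1)) :=
            mul_le_mul_of_nonneg_left (h2.trans hn1) h3
        _ = _ := by push_cast; ring
    have hB' := abs_le_of_sq_le_sq hB (by positivity)
    have hB'' : |∑ k ∈ Finset.range (n + 1),
        (Ex S k (fun y => f (s * y)) - Ex S (k + 1) f)| ≤ ε / 2 * (n + 1) := hB'
    rw [hsplit]
    refine (abs_add_le _ _).trans ?_
    linarith

end Pool.Agent.TH719.ED
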