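import Mathlib

set_option autoImplicit false

open Filter Topology Metric

namespace Pool.Agent.TH350.J243

section

variable (A G : (Fin 3 → ℂ) → ℂ)

/-- the pencil over the sphere -/
def W1 : Set ((Fin 2 → ℂ) × (Fin 3 → ℂ)) :=
  {q | ‖q.1‖ = 1 ∧ ‖q.2‖ = 1 ∧ q.1 0 * A q.2 + 2 * q.1 1 * G q.2 = 0}

/-- the normalised cone -/
def X1 : Set ((Fin 3 → ℂ) × (Fin 3 → ℂ)) :=
  {p | ‖(![p.1 0, p.1 1] : Fin 2 → ℂ)‖ = 1 ∧ ‖p.2‖ = 1 ∧
    p.1 0 ^ 4 + p.1 1 ^ 4 + p.1 2 ^ 4 = 0 ∧ p.1 0 * A p.2 + 2 * p.1 1 * G p.2 = 0}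

variable {A G}

theorem W1_compact (hA : Continuous A) (hG : Continuous G) : IsCompact (W1 A G) := by
  have hcl : IsClosed (W1 A G) := by
    refine IsClosed.inter ?_ (IsClosed.inter ?_ ?_)
    · exact isClosed_eq (by fun_prop) continuous_const
    · exact isClosed_eq (by fun_prop) continuous_const
    · exact isClosed_eq (by fun_prop) continuous_const
  refine Metric.isCompact_of_isClosed_isBounded hcl ?_
  refine (Metric.isBounded_closedBall (x := (0 : (Fin 2 → ℂ) × (Fin 3 → ℂ))) (r := 1)).subset ?_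
  rintro ⟨u, x⟩ ⟨h1, h2, _⟩
  rw [mem_closedBall_zero_iff, Prod.norm_def]
  exact max_le h1.le h2.le

theorem X1_compact (hA : Continuous A) (hG : Continuous G) : IsCompact (X1 A G) := by
  have hc : Continuous fun p : (Fin 3 → ℂ) × (Fin 3 → ℂ) => (![p.1 0, p.1 1] : Fin 2 → ℂ) := by
    refine continuous_pi fun i => ?_
    fin_cases i
    · change Continuous fun p : (Fin 3 → ℂ) × (Fin 3 → ℂ) => p.1 0
      fun_prop
    · change Continuous fun p : (Fin 3 → ℂ) × (Fin 3 → ℂ) => p.1 1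
      fun_prop
  have hcl : IsClosed (X1 A G) := by
    refine IsClosed.inter ?_ (IsClosed.inter ?_ (IsClosed.inter ?_ ?_))
    · exact isClosed_eq hc.norm continuous_const
    · exact isClosed_eq (by fun_prop) continuous_const
    · exact isClosed_eq (by fun_prop) continuous_const
    · exact isClosed_eq (by fun_prop) continuous_const
  refine Metric.isCompact_of_isClosed_isBounded hcl ?_
  refine (Metric.isBounded_closedBall (x := (0 : (Fin 3 → ℂ) × (Fin 3 → ℂ))) (r := 2)).subset ?_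
  rintro ⟨b, x⟩ ⟨h1, h2, h3, _⟩
  rw [mem_closedBall_zero_iff, Prod.norm_def]
  simp only at h1 h2 h3
  have hb0 : ‖b 0‖ ≤ 1 := by
    have := norm_le_pi_norm (![b 0, b 1] : Fin 2 → ℂ) 0
    rw [h1] at this
    exact this
  have hb1 : ‖b 1‖ ≤ 1 := by
    have := norm_le_pi_norm (![b 0, b 1] : Fin 2 → ℂ) 1
    rw [h1] at this
    exact this
  have hb2 : ‖b 2‖ ≤ 2 := by
    by_contra hcon
    push Not at hcon
    have h4 : b 2 ^ 4 = -(b 0 ^ 4 + b 1 ^ 4) := by linear_combination h3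
    have h5 : ‖b 2‖ ^ 4 ≤ 2 := by
      rw [← norm_pow, h4, norm_neg]
      refine (norm_add_le _ _).trans ?_
      rw [norm_pow, norm_pow]
      have := pow_le_one₀ (n := 4) (norm_nonneg _) hb0
      have := pow_le_one₀ (n := 4) (norm_nonneg _) hb1
      linarith
    have h6 : (2 : ℝ) ^ 4 < ‖b 2‖ ^ 4 := pow_lt_pow_left₀ hcon (by norm_num) (by norm_num)
    linarith
  refine max_le ?_ (by rw [h2]; norm_num)
  rw [pi_norm_le_iff_of_nonneg (by norm_num)]
  intro i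
  fin_cases i
  · exact hb0.trans (by norm_num)
  · exact hb1.trans (by norm_num)
  · exact hb2

/-- unit vectors in a nonzero complex subspace -/
theorem sphere_sub (E : Submodule ℂ (Fin 2 → ℂ)) (hE : E ≠ ⊥) :
    IsConnected {u : Fin 2 → ℂ | u ∈ E ∧ ‖u‖ = 1} := by
  have hnt : Nontrivial E := by rwa [Submodule.nontrivial_iff_ne_bot]
  have hr : 1 < Module.rank ℝ E := by
    have h1 : Module.finrank ℝ E = 2 * Module.finrank ℂ E := by
      rw [← Module.finrank_mul_finrank ℝ ℂ E, Complex.finrank_real_complex]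
    have h2 : 0 < Module.finrank ℂ E := Module.finrank_pos
    have h3 : FiniteDimensional ℝ E := inferInstance
    rw [← Module.finrank_eq_rank]
    exact_mod_cast (by omega : 1 < Module.finrank ℝ E)
  have h1 := isConnected_sphere hr (0 : E) (zero_le_one)
  have h2 := h1.image _ (continuous_subtype_val.continuousOn)
  have h3 : {u : Fin 2 → ℂ | u ∈ E ∧ ‖u‖ = 1} = Subtype.val '' sphere (0 : E) 1 := by
    ext u
    constructor
    · rintro ⟨hu, h⟩
      exact ⟨⟨u, hu⟩, by simpa using h, rfl⟩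
    · rintro ⟨⟨u, hu⟩, h, rfl⟩
      exact ⟨hu, by simpa using h⟩
  rw [h3]
  exact h2

/-- the complex subspace over `x` -/
def Ex (A G : (Fin 3 → ℂ) → ℂ) (x : Fin 3 → ℂ) : Submodule ℂ (Fin 2 → ℂ) where
  carrier := {u | u 0 * A x + 2 * u 1 * G x = 0}
  add_mem' := by
    intro u v hu hv
    simp only [Set.mem_ofPred_eq, Pi.add_apply] at hu hv ⊢
    linear_combination hu + hv
  zero_mem' := by simp
  smul_mem' := by
    intro c u hu
    simp only [Set.mem_ofPred_eq, Pi.smul_apply, smul_eq_mul] at hu ⊢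
    linear_combination c * hu

theorem Ex_ne (x : Fin 3 → ℂ) : Ex A G x ≠ ⊥ := by
  intro h
  by_cases h0 : A x = 0 ∧ G x = 0
  · have h1 : (![1, 0] : Fin 2 → ℂ) ∈ Ex A G x := by
      change (1 : ℂ) * A x + 2 * 0 * G x = 0
      rw [h0.1]
      ring
    rw [h, Submodule.mem_bot] at h1
    have h2 := congrFun h1 0
    simp at h2
  · have h1 : (![2 * G x, -A x] : Fin 2 → ℂ) ∈ Ex A G x := by
      change (2 * G x) * A x + 2 * (-A x) * G x = 0
      ring
    rw [h, Submodule.mem_bot] at h1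
    have h2 := congrFun h1 0
    have h3 := congrFun h1 1
    simp only [Matrix.cons_val_zero, Matrix.cons_val_one, Pi.zero_apply, neg_eq_zero] at h2 h3
    exact h0 ⟨h3, by simpa using h2⟩

theorem W1_connected (hA : Continuous A) (hG : Continuous G) : ConnectedSpace (W1 A G) := by
  have hcomp : CompactSpace (W1 A G) := isCompact_iff_compactSpace.1 (W1_compact hA hG)
  let f : W1 A G → sphere (0 : Fin 3 → ℂ) 1 := fun q => ⟨q.1.2, by
    rw [mem_sphere_zero_iff_norm]; exact q.2.2.1⟩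
  have hf : Continuous f := by
    apply Continuous.subtype_mk
    exact continuous_snd.comp continuous_subtype_val
  have hr : 1 < Module.rank ℝ (Fin 3 → ℂ) := by
    rw [← Module.finrank_eq_rank]
    have : Module.finrank ℝ (Fin 3 → ℂ) = 6 := by
      rw [Module.finrank_pi_fintype]
      simp [Complex.finrank_real_complex]
    rw [this]
    norm_num
  have hS : ConnectedSpace (sphere (0 : Fin 3 → ℂ) 1) :=
    Subtype.connectedSpace (isConnected_sphere hr 0 zero_le_one)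
  have hfib : ∀ t, IsConnected (f ⁻¹' {t}) := by
    intro t
    have h1 := sphere_sub (Ex A G t.1) (Ex_ne t.1)
    have h2 := h1.image (fun u : Fin 2 → ℂ => (u, t.1)) (by fun_prop)
    have h3 : Subtype.val '' (f ⁻¹' {t}) = (fun u : Fin 2 → ℂ => (u, t.1)) ''
        {u : Fin 2 → ℂ | u ∈ Ex A G t.1 ∧ ‖u‖ = 1} := by
      ext q
      constructor
      · rintro ⟨⟨q, hq⟩, h, rfl⟩
        have h4 : q.2 = t.1 := congrArg Subtype.val h
        refine ⟨q.1, ⟨?_, hq.1⟩, ?_⟩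
        · change q.1 0 * A t.1 + 2 * q.1 1 * G t.1 = 0
          rw [← h4]
          exact hq.2.2
        · exact Prod.ext rfl h4.symm
      · rintro ⟨u, ⟨hu, hn⟩, rfl⟩
        have ht := t.2
        rw [mem_sphere_zero_iff_norm] at ht
        exact ⟨⟨(u, t.1), hn, ht, hu⟩, rfl, rfl⟩
    rw [← h3] at h2
    refine ⟨Set.image_nonempty.1 h2.nonempty, ?_⟩
    exact (Topology.IsInducing.subtypeVal.isPreconnected_image).1 h2.isPreconnected
  have hsurj : Function.Surjective f := by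
    intro t
    obtain ⟨q, hq⟩ := (hfib t).nonempty
    exact ⟨q, hq⟩
  have hq : Topology.IsQuotientMap f := hf.isClosedMap.isQuotientMap hf hsurj
  have h1 := hq.isCoinducing.isConnected_preimage_of_isClosed hfib isClosed_univ isConnected_univ
  rw [Set.preimage_univ] at h1
  exact connectedSpace_iff_univ.2 h1

/-- multiplication of the third coordinate by a fourth root of unity -/
def rot (z : ℂ) (p : (Fin 3 → ℂ) × (Fin 3 → ℂ)) : (Fin 3 → ℂ) × (Fin 3 → ℂ) :=
  (![p.1 0, p.1 1, z * p.1 2], p.2)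

theorem rot_mem {z : ℂ} (hz : z ^ 4 = 1) {p : (Fin 3 → ℂ) × (Fin 3 → ℂ)} (hp : p ∈ X1 A G) :
    rot z p ∈ X1 A G := by
  obtain ⟨h1, h2, h3, h4⟩ := hp
  refine ⟨h1, h2, ?_, h4⟩
  change p.1 0 ^ 4 + p.1 1 ^ 4 + (z * p.1 2) ^ 4 = 0
  rw [mul_pow, hz, one_mul]
  exact h3

theorem rot_continuous (z : ℂ) : Continuous (rot z) := by
  refine Continuous.prodMk ?_ continuous_snd
  refine continuous_pi fun i => ?_
  fin_cases i
  · change Continuous fun p : (Fin 3 → ℂ) × (Fin 3 → ℂ) => p.1 0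
    fun_prop
  · change Continuous fun p : (Fin 3 → ℂ) × (Fin 3 → ℂ) => p.1 1
    fun_prop
  · change Continuous fun p : (Fin 3 → ℂ) × (Fin 3 → ℂ) => z * p.1 2
    fun_prop

/-- `y ^ 4 = x ^ 4` -/
theorem exists_rot {x y : ℂ} (h : y ^ 4 = x ^ 4) :
    ∃ z ∈ ({1, -1, Complex.I, -Complex.I} : Finset ℂ), y = z * x := by
  have h1 : (y - x) * (y + x) * ((y - Complex.I * x) * (y + Complex.I * x)) = 0 := by
    linear_combination h + (x ^ 4 - y ^ 2 * x ^ 2) * Complex.I_sq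
  rcases mul_eq_zero.1 h1 with h1 | h1
  · rcases mul_eq_zero.1 h1 with h1 | h1
    · exact ⟨1, by simp, by linear_combination h1⟩
    · exact ⟨-1, by simp, by linear_combination h1⟩
  · rcases mul_eq_zero.1 h1 with h1 | h1
    · exact ⟨Complex.I, by simp, by linear_combination h1⟩
    · exact ⟨-Complex.I, by simp, by linear_combination h1⟩

theorem fourth {z : ℂ} (hz : z ∈ ({1, -1, Complex.I, -Complex.I} : Finset ℂ)) : z ^ 4 = 1 := by
  simp only [Finset.mem_insert, Finset.mem_singleton] at hz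
  rcases hz with rfl | rfl | rfl | rfl
  · norm_num
  · norm_num
  · exact Complex.I_pow_four
  · rw [neg_pow, Complex.I_pow_four]
    norm_num

theorem X1_connected (hA : Continuous A) (hG : Continuous G)
    (h0 : ∃ p : (Fin 3 → ℂ) × (Fin 3 → ℂ), p ∈ X1 A G ∧ p.1 2 = 0) : IsConnected (X1 A G) := by
  have hW := W1_connected hA hG
  have hcomp : CompactSpace (X1 A G) := isCompact_iff_compactSpace.1 (X1_compact hA hG)
  let f : X1 A G → W1 A G := fun p => ⟨(![p.1.1 0, p.1.1 1], p.1.2), p.2.1, p.2.2.1, p.2.2.2.2⟩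
  have hf : Continuous f := by
    apply Continuous.subtype_mk
    refine Continuous.prodMk ?_ (continuous_snd.comp continuous_subtype_val)
    refine continuous_pi fun i => ?_
    fin_cases i
    · change Continuous fun p : X1 A G => p.1.1 0
      exact (continuous_apply 0).comp (continuous_fst.comp continuous_subtype_val)
    · change Continuous fun p : X1 A G => p.1.1 1
      exact (continuous_apply 1).comp (continuous_fst.comp continuous_subtype_val)
  have hsurj : Function.Surjective f := by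
    rintro ⟨⟨u, x⟩, h1, h2, h3⟩
    obtain ⟨z, hz⟩ := IsAlgClosed.exists_pow_nat_eq (-(u 0 ^ 4 + u 1 ^ 4)) (n := 4) (by norm_num)
    have hu : (![u 0, u 1] : Fin 2 → ℂ) = u := by
      funext i
      fin_cases i <;> rfl
    refine ⟨⟨(![u 0, u 1, z], x), ?_, h2, ?_, h3⟩, ?_⟩
    · change ‖(![u 0, u 1] : Fin 2 → ℂ)‖ = 1
      rw [hu]
      exact h1
    · change u 0 ^ 4 + u 1 ^ 4 + z ^ 4 = 0
      rw [hz]
      ring
    · apply Subtype.ext
      exact Prod.ext hu rfl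
  have hq : Topology.IsQuotientMap f := hf.isClosedMap.isQuotientMap hf hsurj
  have hfib : ∀ p p' : X1 A G, f p = f p' → ∃ z ∈ ({1, -1, Complex.I, -Complex.I} : Finset ℂ),
      p'.1 = rot z p.1 := by
    rintro ⟨⟨b, x⟩, h1, h2, h3, h4⟩ ⟨⟨b', x'⟩, h1', h2', h3', h4'⟩ h
    have e1 := congrArg Subtype.val h
    have e2 : (![b 0, b 1] : Fin 2 → ℂ) = ![b' 0, b' 1] := congrArg Prod.fst e1
    have e3 : x = x' := congrArg Prod.snd e1
    have e4 : b 0 = b' 0 := congrFun e2 0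
    have e5 : b 1 = b' 1 := congrFun e2 1
    simp only at h3 h3'
    obtain ⟨z, hz, hzz⟩ := exists_rot (x := b 2) (y := b' 2) (by
      rw [e4, e5] at h3
      linear_combination h3' - h3)
    refine ⟨z, hz, ?_⟩
    refine Prod.ext ?_ e3.symm
    funext i
    fin_cases i
    · exact e4.symm
    · exact e5.symm
    · exact hzz
  have hopen : ∀ C : Set (X1 A G), IsOpen C → IsOpen (f '' C) := by
    intro C hC
    rw [← hq.isOpen_preimage]
    have h1 : f ⁻¹' (f '' C) = ⋃ z : ({1, -1, Complex.I, -Complex.I} : Finset ℂ),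
        (fun p : X1 A G => (⟨rot z p.1, rot_mem (fourth z.2) p.2⟩ : X1 A G)) ⁻¹' C := by
      ext p
      simp only [Set.mem_preimage, Set.mem_image, Set.mem_iUnion]
      constructor
      · rintro ⟨c, hc, hcp⟩
        obtain ⟨z, hz, h⟩ := hfib p c hcp.symm
        refine ⟨⟨z, hz⟩, ?_⟩
        have : (⟨rot z p.1, rot_mem (fourth hz) p.2⟩ : X1 A G) = c := Subtype.ext h.symm
        rw [this]
        exact hc
      · rintro ⟨z, hz⟩
        exact ⟨_, hz, rfl⟩
    rw [h1]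
    refine isOpen_iUnion fun z => ?_
    exact hC.preimage (Continuous.subtype_mk ((rot_continuous z.1).comp continuous_subtype_val) _)
  have himg : ∀ C : Set (X1 A G), IsClopen C → C.Nonempty → f '' C = Set.univ := fun C hC hne =>
    IsClopen.eq_univ ⟨hf.isClosedMap C hC.1, hopen C hC.2⟩ (hne.image f)
  obtain ⟨p0, hp0, hp00⟩ := h0
  rw [isConnected_iff_connectedSpace]
  have hpre : PreconnectedSpace (X1 A G) := by
    rw [preconnectedSpace_iff_clopen]
    intro C hC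
    by_contra hcon
    push Not at hcon
    obtain ⟨hc1, hc2⟩ := hcon
    have e1 := himg C hC hc1
    have e2 := himg Cᶜ hC.compl (by rwa [Set.nonempty_compl])
    have key : ∀ c : X1 A G, f c = f ⟨p0, hp0⟩ → c = ⟨p0, hp0⟩ := by
      intro c hc
      obtain ⟨z, _, h⟩ := hfib ⟨p0, hp0⟩ c hc.symm
      apply Subtype.ext
      rw [h]
      refine Prod.ext ?_ rfl
      funext i
      fin_cases i
      · rfl
      · rfl
      · change z * p0.1 2 = p0.1 2
        rw [hp00, mul_zero]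
    have h1 : f ⟨p0, hp0⟩ ∈ f '' C := by rw [e1]; trivial
    have h2 : f ⟨p0, hp0⟩ ∈ f '' Cᶜ := by rw [e2]; trivial
    obtain ⟨c, hc, hcc⟩ := h1
    obtain ⟨c', hc', hcc'⟩ := h2
    rw [key c hcc] at hc
    rw [key c' hcc'] at hc'
    exact hc' hc
  exact ⟨⟨⟨p0, hp0⟩⟩⟩

end

/-- Connectedness of the cone over a pencil pulled back to the Fermat quartic. -/
theorem connected_cone {A G : (Fin 3 → ℂ) → ℂ} (hA : Continuous A) (hG : Continuous G) {d : ℕ}
    (hA' : ∀ (t : ℂ) (x : Fin 3 → ℂ), A (t • x) = t ^ d * A x)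
    (hG' : ∀ (t : ℂ) (x : Fin 3 → ℂ), G (t • x) = t ^ d * G x)
    (h0 : ∃ (x : Fin 3 → ℂ) (ω : ℂ), x ≠ 0 ∧ ω ^ 4 = -1 ∧ A x + 2 * ω * G x = 0) :
    IsConnected {p : (Fin 3 → ℂ) × (Fin 3 → ℂ) | p.1 ≠ 0 ∧ p.2 ≠ 0 ∧
      p.1 0 ^ 4 + p.1 1 ^ 4 + p.1 2 ^ 4 = 0 ∧ p.1 0 * A p.2 + 2 * p.1 1 * G p.2 = 0} := by
  have hX : IsConnected (X1 A G) := by
    apply X1_connected hA hG
    obtain ⟨x, ω, hx, hω, h⟩ := h0
    have hx' : ‖x‖ ≠ 0 := norm_ne_zero_iff.2 hx
    have hωn : ‖ω‖ = 1 := by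
      have h1 : ‖ω‖ ^ 4 = 1 := by rw [← norm_pow, hω]; simp
      exact (pow_eq_one_iff_of_nonneg (norm_nonneg _) (by norm_num)).1 h1
    refine ⟨(![1, ω, 0], ((‖x‖ : ℂ)⁻¹) • x), ⟨?_, ?_, ?_, ?_⟩, rfl⟩
    · change ‖(![1, ω] : Fin 2 → ℂ)‖ = 1
      apply le_antisymm
      · rw [pi_norm_le_iff_of_nonneg zero_le_one]
        intro i
        fin_cases i
        · simp
        · exact hωn.le
      · have := norm_le_pi_norm (![1, ω] : Fin 2 → ℂ) 0
        simpa using this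
    · rw [norm_smul, norm_inv, Complex.norm_real, norm_norm, inv_mul_cancel₀ hx']
    · change (1 : ℂ) ^ 4 + ω ^ 4 + 0 ^ 4 = 0
      rw [hω]
      norm_num
    · change (1 : ℂ) * A (((‖x‖ : ℂ)⁻¹) • x) + 2 * ω * G (((‖x‖ : ℂ)⁻¹) • x) = 0
      rw [hA', hG']
      linear_combination ((‖x‖ : ℂ)⁻¹) ^ d * h
  have hI : IsConnected (Set.Ioi (0 : ℝ)) := ⟨⟨1, by norm_num⟩, isPreconnected_Ioi⟩
  have h1 := ((hX.prod hI).prod hI).image
    (fun q : (((Fin 3 → ℂ) × (Fin 3 → ℂ)) × ℝ) × ℝ =>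
      (((q.1.2 : ℂ) • q.1.1.1, (q.2 : ℂ) • q.1.1.2) : (Fin 3 → ℂ) × (Fin 3 → ℂ)))
    (by
      apply Continuous.continuousOn
      fun_prop)
  convert h1 using 1
  ext ⟨b, x⟩
  simp only [Set.mem_ofPred_eq, Set.mem_image, Set.mem_prod, Set.mem_Ioi, Prod.exists,
    Prod.mk.injEq]
  constructor
  · rintro ⟨hb, hx, h3, h4⟩
    have hu : (![b 0, b 1] : Fin 2 → ℂ) ≠ 0 := by
      intro hu
      have e0 : b 0 = 0 := congrFun hu 0
      have e1 : b 1 = 0 := congrFun hu 1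
      rw [e0, e1] at h3
      have e2 : b 2 = 0 := by
        have : b 2 ^ 4 = 0 := by linear_combination h3
        exact pow_eq_zero_iff (by norm_num) |>.1 this
      apply hb
      funext i
      fin_cases i
      · exact e0
      · exact e1
      · exact e2
    have hr : ‖(![b 0, b 1] : Fin 2 → ℂ)‖ ≠ 0 := norm_ne_zero_iff.2 hu
    have hs : ‖x‖ ≠ 0 := norm_ne_zero_iff.2 hx
    set r := ‖(![b 0, b 1] : Fin 2 → ℂ)‖ with hrdef
    have hrc : (r : ℂ) ≠ 0 := by exact_mod_cast hr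
    have hsc : ((‖x‖ : ℝ) : ℂ) ≠ 0 := by exact_mod_cast hs
    refine ⟨(r : ℂ)⁻¹ • b, ((‖x‖ : ℝ) : ℂ)⁻¹ • x, r, ‖x‖, ⟨⟨⟨?_, ?_, ?_, ?_⟩, ?_⟩, ?_⟩, ?_, ?_⟩
    · change ‖(![(r : ℂ)⁻¹ * b 0, (r : ℂ)⁻¹ * b 1] : Fin 2 → ℂ)‖ = 1
      have : (![(r : ℂ)⁻¹ * b 0, (r : ℂ)⁻¹ * b 1] : Fin 2 → ℂ) = (r : ℂ)⁻¹ • ![b 0, b 1] := by
        funext i
        fin_cases i <;> rfl
      rw [this, norm_smul, norm_inv, Complex.norm_real, hrdef, norm_norm, inv_mul_cancel₀ hr]
    · change ‖((‖x‖ : ℝ) : ℂ)⁻¹ • x‖ = 1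
      rw [norm_smul, norm_inv, Complex.norm_real, norm_norm, inv_mul_cancel₀ hs]
    · change ((r : ℂ)⁻¹ * b 0) ^ 4 + ((r : ℂ)⁻¹ * b 1) ^ 4 + ((r : ℂ)⁻¹ * b 2) ^ 4 = 0
      linear_combination ((r : ℂ)⁻¹) ^ 4 * h3
    · change ((r : ℂ)⁻¹ * b 0) * A (((‖x‖ : ℝ) : ℂ)⁻¹ • x) +
        2 * ((r : ℂ)⁻¹ * b 1) * G (((‖x‖ : ℝ) : ℂ)⁻¹ • x) = 0
      rw [hA', hG']
      linear_combination ((r : ℂ)⁻¹) * (((‖x‖ : ℝ) : ℂ)⁻¹) ^ d * h4
    · exact lt_of_le_of_ne (norm_nonneg _) (Ne.symm hr)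
    · exact lt_of_le_of_ne (norm_nonneg _) (Ne.symm hs)
    · rw [smul_smul, mul_inv_cancel₀ hrc, one_smul]
    · rw [smul_smul, mul_inv_cancel₀ hsc, one_smul]
  · rintro ⟨b', x', r, s, ⟨⟨⟨h1, h2, h3, h4⟩, hr⟩, hs⟩, rfl, rfl⟩
    simp only at h1 h2 h3 h4
    have hrc : (r : ℂ) ≠ 0 := by exact_mod_cast hr.ne'
    have hsc : (s : ℂ) ≠ 0 := by exact_mod_cast hs.ne'
    refine ⟨?_, ?_, ?_, ?_⟩
    · rw [smul_ne_zero_iff]
      refine ⟨hrc, ?_⟩
      rintro rfl
      have : (![(0 : Fin 3 → ℂ) 0, (0 : Fin 3 → ℂ) 1] : Fin 2 → ℂ) = 0 := by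
        funext i
        fin_cases i <;> rfl
      rw [this, norm_zero] at h1
      exact zero_ne_one h1
    · rw [smul_ne_zero_iff]
      refine ⟨hsc, ?_⟩
      rintro rfl
      rw [norm_zero] at h2
      exact zero_ne_one h2
    · simp only [Pi.smul_apply, smul_eq_mul]
      linear_combination (r : ℂ) ^ 4 * h3
    · rw [hA', hG']
      simp only [Pi.smul_apply, smul_eq_mul]
      linear_combination (r : ℂ) * (s : ℂ) ^ d * h4

end Pool.Agent.TH350.J243
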