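import Pool.Agent.TH171.EN.Defs

/-!
Job 600 (EN1): radical lemma for the normality of `E_n`.
-/

set_option autoImplicit false

namespace Pool.Agent.TH350.J600

open Pool.Agent.TH171.EN Matrix
open scoped commutatorElement

section diag

variable {n : ℕ} {R : Type} [Ring R]

/-- the invertible diagonal matrices -/
def dg : (Fin n → Rˣ) →* GLn n R where
  toFun u :=
    { val := Matrix.diagonal (fun i => (u i : R))
      inv := Matrix.diagonal (fun i => ((u i)⁻¹ : Rˣ))
      val_inv := by
        rw [Matrix.diagonal_mul_diagonal]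
        simp
      inv_val := by
        rw [Matrix.diagonal_mul_diagonal]
        simp }
  map_one' := by
    apply Units.ext
    simp
  map_mul' u v := by
    apply Units.ext
    simp [Matrix.diagonal_mul_diagonal]

theorem dg_val (u : Fin n → Rˣ) : (dg u : GLn n R).val = Matrix.diagonal (fun i => (u i : R)) := rfl

theorem dg_conj (u : Fin n → Rˣ) (i j : Fin n) (h : i ≠ j) (r : R) :
    dg u * tv i j h r * (dg u)⁻¹ = tv i j h (u i * r * ((u j)⁻¹ : Rˣ)) := by
  rw [← map_inv]
  apply Units.ext
  rw [Units.val_mul, Units.val_mul, dg_val, dg_val, tv_val, tv_val]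
  refine Matrix.ext fun a b => ?_
  rw [Matrix.mul_diagonal, Matrix.diagonal_mul, Matrix.add_apply, Matrix.add_apply,
    Matrix.one_apply, Matrix.single_apply, Matrix.single_apply]
  by_cases hab : a = b
  · subst hab
    have h1 : ¬ (i = a ∧ j = a) := fun hh => h (hh.1.trans hh.2.symm)
    simp [h1]
  · by_cases h1 : i = a ∧ j = b
    · obtain ⟨rfl, rfl⟩ := h1
      simp [hab]
    · simp [hab, h1]

theorem dg_normalize (u : Fin n → Rˣ) {g : GLn n R} (hg : g ∈ E n R) :
    dg u * g * (dg u)⁻¹ ∈ E n R := by
  have h1 : E n R ≤ (E n R).comap (MulAut.conj (dg u)).toMonoidHom := E_le fun i j hij r => by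
    rw [Subgroup.mem_comap]
    change dg u * tv i j hij r * (dg u)⁻¹ ∈ E n R
    rw [dg_conj]
    exact tv_mem _ _ _ _
  exact h1 hg

theorem sneg (i j : Fin n) (r : R) : Matrix.single i j (-r) = -Matrix.single i j r := by
  refine Matrix.ext fun a b => ?_
  rw [Matrix.neg_apply, Matrix.single_apply, Matrix.single_apply]
  split <;> simp

theorem w_val (i j : Fin n) (h : i ≠ j) (u : Rˣ) :
    (tv i j h (u : R) * tv j i h.symm (-(u⁻¹ : Rˣ) : R) * tv i j h (u : R)).val =
      1 - Matrix.single i i 1 - Matrix.single j j 1 + Matrix.single i j (u : R) -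
        Matrix.single j i ((u⁻¹ : Rˣ) : R) := by
  have e1 : ∀ r s : R, Matrix.single i j r * Matrix.single j i s = Matrix.single i i (r * s) :=
    fun r s => by simp
  have e2 : ∀ r s : R, Matrix.single j i r * Matrix.single i j s = Matrix.single j j (r * s) :=
    fun r s => by simp
  have e3 : ∀ r s : R, Matrix.single i j r * Matrix.single i j s = 0 := fun r s =>
    Matrix.single_mul_single_of_ne _ _ _ _ h.symm _
  have e4 : ∀ r s : R, Matrix.single i i r * Matrix.single i j s = Matrix.single i j (r * s) :=
    fun r s => by simp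
  simp only [Units.val_mul, tv_val, mul_add, add_mul, mul_one, one_mul, e1, e2, e3, e4, mul_neg,
    neg_mul, Units.mul_inv, Units.inv_mul, sneg]
  abel

theorem h_mem (i j : Fin n) (h : i ≠ j) (u : Rˣ) :
    dg (Pi.mulSingle i u * Pi.mulSingle j u⁻¹) ∈ E n R := by
  have key : dg (Pi.mulSingle i u * Pi.mulSingle j u⁻¹) =
      (tv i j h (u : R) * tv j i h.symm (-(u⁻¹ : Rˣ) : R) * tv i j h (u : R)) *
      (tv i j h ((-1 : Rˣ) : R) * tv j i h.symm (-((-1 : Rˣ)⁻¹ : Rˣ) : R) *
        tv i j h ((-1 : Rˣ) : R)) := by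
    apply Units.ext
    rw [Units.val_mul, w_val, w_val]
    have e1 : ∀ r s : R, Matrix.single i j r * Matrix.single j i s = Matrix.single i i (r * s) :=
      fun r s => by simp
    have e2 : ∀ r s : R, Matrix.single j i r * Matrix.single i j s = Matrix.single j j (r * s) :=
      fun r s => by simp
    have e3 : ∀ r s : R, Matrix.single i j r * Matrix.single i j s = 0 := fun r s =>
      Matrix.single_mul_single_of_ne _ _ _ _ h.symm _
    have e4 : ∀ r s : R, Matrix.single i i r * Matrix.single i j s = Matrix.single i j (r * s) :=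
      fun r s => by simp
    have e5 : ∀ r s : R, Matrix.single j i r * Matrix.single j i s = 0 := fun r s =>
      Matrix.single_mul_single_of_ne _ _ _ _ h _
    have e6 : ∀ r s : R, Matrix.single j j r * Matrix.single j i s = Matrix.single j i (r * s) :=
      fun r s => by simp
    have e7 : ∀ r s : R, Matrix.single i i r * Matrix.single j i s = 0 := fun r s =>
      Matrix.single_mul_single_of_ne _ _ _ _ h _
    have e8 : ∀ r s : R, Matrix.single j j r * Matrix.single i j s = 0 := fun r s =>
      Matrix.single_mul_single_of_ne _ _ _ _ h.symm _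
    have e9 : ∀ r s : R, Matrix.single i i r * Matrix.single i i s = Matrix.single i i (r * s) :=
      fun r s => by simp
    have e10 : ∀ r s : R, Matrix.single j j r * Matrix.single j j s = Matrix.single j j (r * s) :=
      fun r s => by simp
    have e11 : ∀ r s : R, Matrix.single i i r * Matrix.single j j s = 0 := fun r s =>
      Matrix.single_mul_single_of_ne _ _ _ _ h _
    have e12 : ∀ r s : R, Matrix.single j j r * Matrix.single i i s = 0 := fun r s =>
      Matrix.single_mul_single_of_ne _ _ _ _ h.symm _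
    have e13 : ∀ r s : R, Matrix.single i j r * Matrix.single j j s = Matrix.single i j (r * s) :=
      fun r s => by simp
    have e14 : ∀ r s : R, Matrix.single i j r * Matrix.single i i s = 0 := fun r s =>
      Matrix.single_mul_single_of_ne _ _ _ _ h.symm _
    have e15 : ∀ r s : R, Matrix.single j i r * Matrix.single i i s = Matrix.single j i (r * s) :=
      fun r s => by simp
    have e16 : ∀ r s : R, Matrix.single j i r * Matrix.single j j s = 0 := fun r s =>
      Matrix.single_mul_single_of_ne _ _ _ _ h _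
    have e0 : (((-1 : Rˣ)⁻¹ : Rˣ) : R) = -1 := by simp
    have e0' : ((-1 : Rˣ) : R) = -1 := by simp
    rw [e0, e0']
    simp only [mul_add, add_mul, mul_sub, sub_mul, mul_one, one_mul, e1, e2, e3, e4, e5, e6, e7,
      e8, e9, e10, e11, e12, e13, e14, e15, e16, mul_neg, neg_mul, sneg]
    have h3 : (dg (Pi.mulSingle i u * Pi.mulSingle j u⁻¹) : GLn n R).val =
        1 - Matrix.single i i 1 - Matrix.single j j 1 + Matrix.single i i (u : R) +
          Matrix.single j j ((u⁻¹ : Rˣ) : R) := by
      rw [dg_val]
      refine Matrix.ext fun a b => ?_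
      simp only [Matrix.diagonal_apply, Matrix.add_apply, Matrix.sub_apply, Matrix.one_apply,
        Matrix.single_apply, Pi.mul_apply, Pi.mulSingle_apply]
      by_cases hab : a = b
      · subst hab
        by_cases ha : a = i
        · subst ha
          simp [h, h.symm]
        · by_cases hb : a = j
          · subst hb
            simp [h, h.symm]
          · simp [ha, hb, Ne.symm ha, Ne.symm hb]
      · have h1 : ¬ (i = a ∧ i = b) := fun hh => hab (hh.1.symm.trans hh.2)
        have h2 : ¬ (j = a ∧ j = b) := fun hh => hab (hh.1.symm.trans hh.2)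
        simp [hab, h1, h2]
    rw [h3]
    abel
  rw [key]
  exact mul_mem (mul_mem (mul_mem (tv_mem _ _ _ _) (tv_mem _ _ _ _)) (tv_mem _ _ _ _))
    (mul_mem (mul_mem (tv_mem _ _ _ _) (tv_mem _ _ _ _)) (tv_mem _ _ _ _))

theorem dg_single_comm (hn : 2 ≤ n) (i : Fin n) (a b : Rˣ) :
    dg (Pi.mulSingle i ⁅a, b⁆) ∈ E n R := by
  obtain ⟨j, hj⟩ : ∃ j : Fin n, i ≠ j := by
    have : Nontrivial (Fin n) := Fin.nontrivial_iff_two_le.2 hn
    obtain ⟨j, hj⟩ := exists_ne i
    exact ⟨j, hj.symm⟩
  have key : (Pi.mulSingle i ⁅a, b⁆ : Fin n → Rˣ) =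
      (Pi.mulSingle i a * Pi.mulSingle j a⁻¹) * (Pi.mulSingle i b * Pi.mulSingle j b⁻¹) *
      (Pi.mulSingle i (b * a)⁻¹ * Pi.mulSingle j ((b * a)⁻¹)⁻¹) := by
    funext k
    simp only [Pi.mul_apply, Pi.mulSingle_apply]
    by_cases hk : k = i
    · subst hk
      simp [hj, commutatorElement_def, mul_assoc]
    · by_cases hk' : k = j
      · subst hk'
        simp [hk]
      · simp [hk, hk']
  rw [key, map_mul, map_mul]
  exact mul_mem (mul_mem (h_mem i j hj a) (h_mem i j hj b)) (h_mem i j hj _)

theorem dg_mem_of (hn : 2 ≤ n) (w : Fin n → Rˣ) (h : ∀ i, ∃ a b : Rˣ, w i = ⁅a, b⁆) :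
    dg w ∈ E n R := by
  have h1 : ∀ s : Finset (Fin n), ∀ w : Fin n → Rˣ, (∀ i, ∃ a b : Rˣ, w i = ⁅a, b⁆) →
      (∀ i, i ∉ s → w i = 1) → dg w ∈ E n R := by
    intro s
    induction s using Finset.induction_on with
    | empty =>
      intro w _ hw
      have : w = 1 := funext fun i => hw i (Finset.notMem_empty i)
      rw [this, map_one]
      exact one_mem _
    | insert i s his ih =>
      intro w hc hw
      have e : w = Pi.mulSingle i (w i) * Function.update w i 1 := by
        funext k
        by_cases hk : k = i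
        · subst hk
          simp
        · simp [hk]
      rw [e, map_mul]
      refine mul_mem ?_ (ih _ ?_ ?_)
      · obtain ⟨a, b, hab⟩ := hc i
        rw [hab]
        exact dg_single_comm hn i a b
      · intro k
        by_cases hk : k = i
        · subst hk
          exact ⟨1, 1, by simp⟩
        · simpa [hk] using hc k
      · intro k hk
        by_cases hk' : k = i
        · subst hk'
          simp
        · rw [Function.update_of_ne hk']
          exact hw k (by simp [hk', hk])
  exact h1 Finset.univ w h fun i hi => absurd (Finset.mem_univ i) hi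

theorem dg_comm (hn : 2 ≤ n) (u v : Fin n → Rˣ) : ⁅dg u, dg v⁆ ∈ E n R := by
  have h1 : ⁅dg u, dg v⁆ = dg (n := n) (R := R) (fun i => ⁅u i, v i⁆) := by
    rw [← map_commutatorElement]
    rfl
  rw [h1]
  exact dg_mem_of hn _ fun i => ⟨u i, v i, rfl⟩

/-- commutators of elements of `E D` -/
theorem comm_mem (hn : 2 ≤ n) {e e' : GLn n R} (he : e ∈ E n R) (he' : e' ∈ E n R)
    (u v : Fin n → Rˣ) : ⁅e * dg u, e' * dg v⁆ ∈ E n R := by
  have key : ⁅e * dg u, e' * dg v⁆ = e * (dg u * e' * (dg u)⁻¹) *
      (dg (u * v * u⁻¹) * e⁻¹ * (dg (u * v * u⁻¹))⁻¹) * ⁅dg u, dg v⁆ * e'⁻¹ := by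
    rw [commutatorElement_def, commutatorElement_def]
    simp only [map_mul, map_inv]
    group
  rw [key]
  exact mul_mem (mul_mem (mul_mem (mul_mem he (dg_normalize u he'))
    (dg_normalize _ (inv_mem he))) (dg_comm hn u v)) (inv_mem he')

end diag

section gauss

variable {n : ℕ} {R S : Type} [Ring R] [Ring S]

theorem tv_mul_apply (i j : Fin n) (h : i ≠ j) (r : R) (g : Matrix (Fin n) (Fin n) R)
    (a b : Fin n) : ((tv i j h r : GLn n R).val * g) a b = g a b + if a = i then r * g j b else 0 := by
  rw [tv_val, add_mul, one_mul, Matrix.add_apply]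
  congr 1
  by_cases ha : a = i
  · subst ha
    rw [if_pos rfl, Matrix.single_mul_apply_same]
  · rw [if_neg ha, Matrix.single_mul_apply_of_ne _ _ _ _ _ ha]

theorem gauss (f : R →+* S) (hrad : ∀ x : R, f x = 0 → IsUnit (1 + x)) (k : GLn n R)
    (hk : GLmap n f k = 1) (t : ℕ) : ∃ e ∈ E n R, GLmap n f (e * k) = 1 ∧
      ∀ i c : Fin n, i ≠ c → (c : ℕ) * n + i < t → (e * k).val i c = 0 := by
  induction t with
  | zero => exact ⟨1, one_mem _, by rwa [one_mul], fun i c _ h => absurd h (Nat.not_lt_zero _)⟩
  | succ t ih =>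
    obtain ⟨e, he, h1, h2⟩ := ih
    by_cases ht : ∃ i c : Fin n, i ≠ c ∧ (c : ℕ) * n + i = t
    · obtain ⟨i, c, hic, hict⟩ := ht
      set g := e * k with hg
      have hfg : ∀ a b, f (g.val a b) = (1 : Matrix (Fin n) (Fin n) S) a b := by
        intro a b
        rw [← GLmap_val_apply, h1]
        rfl
      have hu : IsUnit (g.val c c) := by
        have := hrad (g.val c c - 1) (by rw [map_sub, hfg, map_one, Matrix.one_apply_eq, sub_self])
        rwa [add_sub_cancel] at this
      obtain ⟨u, hu⟩ := hu
      refine ⟨tv i c hic (-(g.val i c * (u⁻¹ : Rˣ))) * e, mul_mem (tv_mem _ _ _ _) he, ?_, ?_⟩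
      · rw [mul_assoc, map_mul, ← hg, h1, mul_one, GLmap_tv, map_neg, map_mul, hfg,
          Matrix.one_apply_ne hic, zero_mul, neg_zero, tv_zero]
      · intro a b hab hlt
        rw [mul_assoc, ← hg, Units.val_mul, tv_mul_apply]
        by_cases ha : a = i
        · subst ha
          rw [if_pos rfl]
          by_cases hb : b = c
          · subst hb
            rw [← hu, neg_mul, mul_assoc, Units.inv_mul, mul_one, add_neg_cancel]
          · -- b < c
            have hlt' : (b : ℕ) * n + a < t + 1 := hlt
            have hbc : (b : ℕ) < c := by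
              by_contra hcon
              have h3 : (c : ℕ) + 1 ≤ b := by
                have : (b : ℕ) ≠ c := fun hh => hb (Fin.ext hh)
                omega
              have h4 : ((c : ℕ) + 1) * n ≤ b * n := Nat.mul_le_mul_right _ h3
              have h5 := a.2
              rw [add_mul] at h4
              omega
            have h6 : ((b : ℕ) + 1) * n ≤ c * n := Nat.mul_le_mul_right _ hbc
            rw [add_mul] at h6
            have h7 : g.val a b = 0 := h2 a b hab (by have := a.2; omega)
            have h8 : g.val c b = 0 := h2 c b (Ne.symm hb) (by have := c.2; omega)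
            rw [h7, h8, mul_zero, add_zero]
        · rw [if_neg ha, add_zero]
          apply h2 a b hab
          have : (b : ℕ) * n + a ≠ t := by
            intro hh
            -- uniqueness of the representation
            have hn : 0 < n := Nat.pos_of_ne_zero (by rintro rfl; exact a.elim0)
            have h3 : ((b : ℕ) * n + a) % n = ((c : ℕ) * n + i) % n := by rw [hh, hict]
            rw [Nat.mul_comm _ n, Nat.mul_comm _ n, Nat.mul_add_mod, Nat.mul_add_mod,
              Nat.mod_eq_of_lt a.2, Nat.mod_eq_of_lt i.2] at h3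
            exact ha (Fin.ext h3)
          omega
    · refine ⟨e, he, h1, fun i c hic hlt => ?_⟩
      rcases Nat.lt_succ_iff_lt_or_eq.1 hlt with h | h
      · exact h2 i c hic h
      · exact absurd ⟨i, c, hic, h⟩ ht

theorem kernel_eq (f : R →+* S) (hrad : ∀ x : R, f x = 0 → IsUnit (1 + x)) (k : GLn n R)
    (hk : GLmap n f k = 1) : ∃ e ∈ E n R, ∃ u : Fin n → Rˣ, k = e * dg u := by
  obtain ⟨e, he, h1, h2⟩ := gauss f hrad k hk (n * n)
  set g := e * k with hg
  have hu : ∀ c : Fin n, IsUnit (g.val c c) := by
    intro c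
    have h3 : f (g.val c c) = 1 := by
      rw [← GLmap_val_apply, h1]
      exact Matrix.one_apply_eq c
    have := hrad (g.val c c - 1) (by rw [map_sub, h3, map_one, sub_self])
    rwa [add_sub_cancel] at this
  choose u hu using hu
  refine ⟨e⁻¹, inv_mem he, u, ?_⟩
  rw [eq_inv_mul_iff_mul_eq, ← hg]
  apply Units.ext
  rw [dg_val]
  refine Matrix.ext fun a b => ?_
  by_cases hab : a = b
  · subst hab
    rw [Matrix.diagonal_apply_eq, hu]
  · rw [Matrix.diagonal_apply_ne _ hab]
    apply h2 a b hab
    have h3 : ((b : ℕ) + 1) * n ≤ n * n := Nat.mul_le_mul_right _ b.2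
    have := a.2
    rw [add_mul] at h3
    omega

end gauss

theorem normal_of_radical {R S : Type} [Ring R] [Ring S] {n : ℕ} (hn : 3 ≤ n) (f : R →+* S)
    (hf : Function.Surjective f) (hrad : ∀ x : R, f x = 0 → IsUnit (1 + x))
    (hS : (E n S).Normal) : (E n R).Normal := by
  set P : Subgroup (GLn n R) := (E n S).comap (GLmap n f) with hP
  have hPn : P.Normal := hS.comap _
  have hE : E n R ≤ P := fun g hg => GLmap_mem f hg
  have hdec : ∀ p ∈ P, ∃ e ∈ E n R, ∃ u : Fin n → Rˣ, p = e * dg u := by
    intro p hp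
    obtain ⟨e, he, h1⟩ := exists_lift f hf (Subgroup.mem_comap.1 hp)
    obtain ⟨e', he', u, h2⟩ := kernel_eq f hrad (e⁻¹ * p) (by
      rw [map_mul, map_inv, h1, inv_mul_cancel])
    refine ⟨e * e', mul_mem he he', u, ?_⟩
    rw [mul_assoc, ← h2, mul_inv_cancel_left]
  have hcomm : ⁅P, P⁆ = E n R := by
    apply le_antisymm
    · rw [Subgroup.commutator_le]
      intro p hp q hq
      obtain ⟨e, he, u, rfl⟩ := hdec p hp
      obtain ⟨e', he', v, rfl⟩ := hdec q hq
      exact comm_mem (by omega) he he' u v
    · rw [← E_perfect hn]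
      exact Subgroup.commutator_mono hE hE
  rw [← hcomm]
  exact Subgroup.commutator_normal P P

end Pool.Agent.TH350.J600
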