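import Mathlib

/-!
Connections on projective modules, and the trace identity `∑ φ^i c φ^(n-1-i) = D h` for an
endomorphism with `φ^n = -h`.
-/

set_option autoImplicit false

namespace Pool.Agent.TH350.Conn

universe u v w

/-- a projective module has a connection along each derivation -/
theorem exists_connection {k : Type u} {S : Type v} [CommRing k] [CommRing S] [Algebra k S]
    (D : Derivation k S S) (F : Type w) [AddCommGroup F] [Module S F] [Module.Projective S F] :
    ∃ N : F →+ F, ∀ (s : S) (x : F), N (s • x) = D s • x + s • N x := by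
  obtain ⟨j, hj⟩ := Module.projective_def'.1 (inferInstance : Module.Projective S F)
  refine ⟨(Finsupp.linearCombination S id : (F →₀ S) →ₗ[S] F).toAddMonoidHom.comp
    ((Finsupp.mapRange.addMonoidHom (D : S →+ S)).comp j.toAddMonoidHom), ?_⟩
  intro s x
  have h1 : Finsupp.mapRange.addMonoidHom (D : S →+ S) (s • j x) =
      D s • j x + s • Finsupp.mapRange.addMonoidHom (D : S →+ S) (j x) := by
    ext i
    simp only [Finsupp.mapRange.addMonoidHom_apply, Finsupp.mapRange_apply, Finsupp.smul_apply,
      Finsupp.add_apply, smul_eq_mul]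
    change D (s * j x i) = D s * j x i + s * D (j x i)
    rw [D.leibniz, smul_eq_mul, smul_eq_mul]
    ring
  change (Finsupp.linearCombination S id : (F →₀ S) →ₗ[S] F)
    (Finsupp.mapRange.addMonoidHom (D : S →+ S) (j (s • x))) = _
  rw [map_smul, h1, map_add, map_smul, map_smul]
  have h2 : (Finsupp.linearCombination S id : (F →₀ S) →ₗ[S] F) (j x) = x :=
    LinearMap.congr_fun hj x
  rw [h2]
  rfl

theorem telescope {A : Type u} [Ring A] (N Φ : A) (n : ℕ) :
    ∑ i ∈ Finset.range n, Φ ^ i * (N * Φ - Φ * N) * Φ ^ (n - 1 - i) = N * Φ ^ n - Φ ^ n * N := by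
  have h := Finset.sum_range_sub' (fun i => Φ ^ i * N * Φ ^ (n - i)) n
  simp only [pow_zero, one_mul, Nat.sub_zero, Nat.sub_self, mul_one] at h
  rw [← h]
  refine Finset.sum_congr rfl fun i hi => ?_
  have hi' := Finset.mem_range.1 hi
  have e : n - i = (n - 1 - i) + 1 := by omega
  have e2 : n - (i + 1) = n - 1 - i := by omega
  rw [e2, e, pow_succ' Φ (n - 1 - i), pow_succ Φ i]
  noncomm_ring

/-- the commutator of a connection with an endomorphism, as an endomorphism -/
def comm {S : Type v} [CommRing S] {F : Type w} [AddCommGroup F] [Module S F] (D : S → S)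
    (N : F →+ F) (hN : ∀ (s : S) (x : F), N (s • x) = D s • x + s • N x) (φ : Module.End S F) :
    Module.End S F where
  toFun x := N (φ x) - φ (N x)
  map_add' x y := by simp only [map_add]; abel
  map_smul' s x := by
    simp only [map_smul, hN, map_add, RingHom.id_apply, smul_sub]
    abel

theorem comm_trace {S : Type v} [CommRing S] {F : Type w} [AddCommGroup F] [Module S F] (D : S → S)
    (N : F →+ F) (hN : ∀ (s : S) (x : F), N (s • x) = D s • x + s • N x) (φ : Module.End S F)
    (n : ℕ) (h : S) (hφ : φ ^ n = -(h • (1 : Module.End S F))) :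
    ∑ i ∈ Finset.range n, φ ^ i * comm D N hN φ * φ ^ (n - 1 - i) =
      -(D h • (1 : Module.End S F)) := by
  set ι := Module.toAddMonoidEnd (Module.End S F) F with hι
  have hinj : ∀ a b : Module.End S F, ι a = ι b → a = b := by
    intro a b hab
    ext x
    exact DFunLike.congr_fun hab x
  apply hinj
  let N' : AddMonoid.End F := N
  have h1 : ι (comm D N hN φ) = N' * ι φ - ι φ * N' := rfl
  rw [map_sum]
  simp only [map_mul, map_pow, h1]
  rw [telescope N' (ι φ) n, ← map_pow, hφ]
  ext x
  change N (-(h • x)) - -(h • N x) = -(D h • x)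
  rw [map_neg, hN]
  abel

theorem exists_trace {k : Type u} {S : Type v} [CommRing k] [CommRing S] [Algebra k S]
    (D : Derivation k S S) (F : Type w) [AddCommGroup F] [Module S F] [Module.Projective S F]
    (φ : Module.End S F) (n : ℕ) (h : S) (hφ : φ ^ n = -(h • (1 : Module.End S F))) :
    ∃ c : Module.End S F, ∑ i ∈ Finset.range n, φ ^ i * c * φ ^ (n - 1 - i) =
      D h • (1 : Module.End S F) := by
  obtain ⟨N, hN⟩ := exists_connection D F
  refine ⟨-comm D N hN φ, ?_⟩
  have := comm_trace D N hN φ n h hφ
  simp only [mul_neg, neg_mul, Finset.sum_neg_distrib, this, neg_neg]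

end Pool.Agent.TH350.Conn
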