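import Pool.Agent.TH215.TM.Defs3
import Pool.Agent.TH350.Conn

/-!
Job 289 (TM-RIGID): the rigidity lemma: the kernel of `tr4 φ` is the image of `ad φ`.
-/

set_option autoImplicit false

namespace Pool.Agent.TH350.J289

open Pool.Agent.TH215.TM MvPolynomial

theorem trace_X2 (F : Type) [AddCommGroup F] [Module S3 F]
    [Module.Projective S3 F] (φ : Module.End S3 F) (hφ : φ ^ 4 = - (g3 • (1 : Module.End S3 F)))
    (i : Fin 3) : ∃ c : Module.End S3 F, tr4 φ c = (MvPolynomial.X i ^ 2 : S3) • 1 := by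
  obtain ⟨c, hc⟩ := Pool.Agent.TH350.Conn.exists_trace (k := ℂ) (MvPolynomial.pderiv i) F φ 4 g3 hφ
  have hD : (MvPolynomial.pderiv i) g3 = (C 3 : S3) * MvPolynomial.X i ^ 2 := by
    unfold g3
    fin_cases i <;> simp [Derivation.leibniz_pow, pderiv_X] <;> rfl
  refine ⟨(C (1 / 3) : S3) • c, ?_⟩
  have h1 : tr4 φ ((C (1 / 3) : S3) • c) = (C (1 / 3) : S3) • tr4 φ c := by
    simp only [tr4, Finset.smul_sum, mul_smul_comm, smul_mul_assoc]
  have h2 : tr4 φ c = (MvPolynomial.pderiv i) g3 • (1 : Module.End S3 F) := hc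
  rw [h1, h2, hD, smul_smul, ← mul_assoc, ← C_mul]
  norm_num

theorem mem01 {a : S3} (h : ∃ r s : S3, X 2 ^ 2 * a = X 0 ^ 2 * r + X 1 ^ 2 * s) :
    ∃ r s : S3, a = X 0 ^ 2 * r + X 1 ^ 2 * s := by
  have key : ∀ b : S3, (∃ r s : S3, b = X 0 ^ 2 * r + X 1 ^ 2 * s) ↔
      ∀ ξ ∈ b.support, ∃ t ∈ ({Finsupp.single 0 2, Finsupp.single 1 2} : Set (Fin 3 →₀ ℕ)), t ≤ ξ := by
    intro b
    rw [← mem_ideal_span_monomial_image, Set.image_pair, Ideal.mem_span_pair]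
    constructor
    · rintro ⟨r, s, h⟩
      refine ⟨r, s, ?_⟩
      rw [h, X_pow_eq_monomial, X_pow_eq_monomial]
      ring
    · rintro ⟨r, s, h⟩
      refine ⟨r, s, ?_⟩
      rw [← h, X_pow_eq_monomial, X_pow_eq_monomial]
      ring
  rw [key] at h ⊢
  intro ξ hξ
  have h1 : ξ + Finsupp.single 2 2 ∈ (X 2 ^ 2 * a).support := by
    rw [mem_support_iff, mul_comm, X_pow_eq_monomial, coeff_mul_monomial, mul_one]
    exact mem_support_iff.1 hξ
  obtain ⟨t, ht, h2⟩ := h _ h1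
  refine ⟨t, ht, ?_⟩
  intro j
  have h3 := h2 j
  rcases ht with rfl | rfl
  · fin_cases j <;> simp_all
  · fin_cases j <;> simp_all

theorem mem0 {a : S3} (h : ∃ r : S3, X 1 ^ 2 * a = X 0 ^ 2 * r) :
    ∃ r : S3, a = X 0 ^ 2 * r := by
  have key : ∀ b : S3, (∃ r : S3, b = X 0 ^ 2 * r) ↔
      ∀ ξ ∈ b.support, ∃ t ∈ ({Finsupp.single 0 2} : Set (Fin 3 →₀ ℕ)), t ≤ ξ := by
    intro b
    rw [← mem_ideal_span_monomial_image, Set.image_singleton, Ideal.mem_span_singleton]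
    constructor
    · rintro ⟨r, h⟩
      refine ⟨r, ?_⟩
      rw [h, X_pow_eq_monomial]
    · rintro ⟨r, h⟩
      refine ⟨r, ?_⟩
      rw [h, X_pow_eq_monomial]
  rw [key] at h ⊢
  intro ξ hξ
  have h1 : ξ + Finsupp.single 1 2 ∈ (X 1 ^ 2 * a).support := by
    rw [mem_support_iff, mul_comm, X_pow_eq_monomial, coeff_mul_monomial, mul_one]
    exact mem_support_iff.1 hξ
  obtain ⟨t, ht, h2⟩ := h _ h1
  refine ⟨t, ht, ?_⟩
  intro j
  have h3 := h2 j
  rcases ht with rfl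
  fin_cases j <;> simp_all

theorem flat_koszul3 {K : Type} [AddCommGroup K] [Module S3 K] [Module.Flat S3 K]
    (c01 c02 c12 : K) (h : (X 2 ^ 2 : S3) • c01 + (-X 1 ^ 2 : S3) • c02 + (X 0 ^ 2 : S3) • c12 = 0) :
    ∃ k0 k1 : K, c01 = (X 1 ^ 2 : S3) • k0 - (X 0 ^ 2 : S3) • k1 := by
  have h1 : ∑ i, (![X 2 ^ 2, -X 1 ^ 2, X 0 ^ 2] : Fin 3 → S3) i • (![c01, c02, c12] : Fin 3 → K) i = 0 := by
    rw [Fin.sum_univ_three]
    exact h
  obtain ⟨k, a, y, h2, h3⟩ := Module.Flat.isTrivialRelation_of_sum_smul_eq_zero h1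
  have h4 : ∀ j, ∃ r s : S3, a 0 j = X 0 ^ 2 * r + X 1 ^ 2 * s := by
    intro j
    apply mem01
    have h5 := h3 j
    rw [Fin.sum_univ_three] at h5
    simp only [Matrix.cons_val_zero, Matrix.cons_val_one, Matrix.cons_val] at h5
    exact ⟨-a 2 j, a 1 j, by linear_combination h5⟩
  choose r s hrs using h4
  refine ⟨∑ j, s j • y j, -∑ j, r j • y j, ?_⟩
  have h6 := h2 0
  simp only [Matrix.cons_val_zero] at h6
  rw [h6, smul_neg, sub_neg_eq_add, Finset.smul_sum, Finset.smul_sum, ← Finset.sum_add_distrib]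
  refine Finset.sum_congr rfl fun j _ => ?_
  rw [hrs j, smul_smul, smul_smul, ← add_smul, add_comm]

theorem flat_koszul2 {K : Type} [AddCommGroup K] [Module S3 K] [Module.Flat S3 K]
    (b0 b1 : K) (h : (X 1 ^ 2 : S3) • b0 + (-X 0 ^ 2 : S3) • b1 = 0) :
    ∃ b : K, b0 = (X 0 ^ 2 : S3) • b := by
  have h1 : ∑ i, (![X 1 ^ 2, -X 0 ^ 2] : Fin 2 → S3) i • (![b0, b1] : Fin 2 → K) i = 0 := by
    rw [Fin.sum_univ_two]
    exact h
  obtain ⟨k, a, y, h2, h3⟩ := Module.Flat.isTrivialRelation_of_sum_smul_eq_zero h1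
  have h4 : ∀ j, ∃ r : S3, a 0 j = X 0 ^ 2 * r := by
    intro j
    apply mem0
    have h5 := h3 j
    rw [Fin.sum_univ_two] at h5
    simp only [Matrix.cons_val_zero, Matrix.cons_val_one] at h5
    exact ⟨a 1 j, by linear_combination h5⟩
  choose r hr using h4
  refine ⟨∑ j, r j • y j, ?_⟩
  have h6 := h2 0
  simp only [Matrix.cons_val_zero] at h6
  rw [h6, Finset.smul_sum]
  refine Finset.sum_congr rfl fun j _ => ?_
  rw [hr j, smul_smul]

theorem flat_nzd {K : Type} [AddCommGroup K] [Module S3 K] [Module.Flat S3 K]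
    (b0 : K) (h : (X 0 ^ 2 : S3) • b0 = 0) : b0 = 0 := by
  have h1 : ∑ i, (![X 0 ^ 2] : Fin 1 → S3) i • (![b0] : Fin 1 → K) i = 0 := by
    rw [Fin.sum_univ_one]
    exact h
  obtain ⟨k, a, y, h2, h3⟩ := Module.Flat.isTrivialRelation_of_sum_smul_eq_zero h1
  have h6 := h2 0
  simp only [Matrix.cons_val_fin_one] at h6
  rw [h6]
  refine Finset.sum_eq_zero fun j _ => ?_
  have h5 := h3 j
  rw [Fin.sum_univ_one] at h5
  simp only [Matrix.cons_val_fin_one, mul_eq_zero, pow_eq_zero_iff, ne_eq, OfNat.ofNat_ne_zero,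
    not_false_eq_true, X_ne_zero, false_or] at h5
  rw [h5, zero_smul]

theorem flat_end {S : Type} [CommRing S] (F : Type) [AddCommGroup F] [Module S F]
    [Module.Finite S F] [Module.Projective S F] : Module.Flat S (Module.End S F) := by
  obtain ⟨n, f, g, -, -, hfg⟩ := Module.Finite.exists_comp_eq_id_of_projective S F
  let i : Module.End S F →ₗ[S] Module.End S (Fin n → S) :=
    { toFun := fun a => g ∘ₗ a ∘ₗ f
      map_add' := by intro a b; ext; simp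
      map_smul' := by intro a b; ext; simp }
  let r : Module.End S (Fin n → S) →ₗ[S] Module.End S F :=
    { toFun := fun a => f ∘ₗ a ∘ₗ g
      map_add' := by intro a b; ext; simp
      map_smul' := by intro a b; ext; simp }
  refine Module.Flat.of_retract i r ?_
  ext a x
  have := fun x => LinearMap.congr_fun hfg x
  simp only [LinearMap.comp_apply, LinearMap.id_apply] at this
  simp [i, r, this]

theorem rigid (F : Type) [AddCommGroup F] [Module S3 F] [Module.Finite S3 F]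
    [Module.Projective S3 F] (φ : Module.End S3 F) (hφ : φ ^ 4 = - (g3 • (1 : Module.End S3 F)))
    (hK : Module.Flat S3 (Subalgebra.centralizer S3 ({φ} : Set (Module.End S3 F))))
    (a : Module.End S3 F) (ha : tr4 φ a = 0) : ∃ b : Module.End S3 F, a = φ * b - b * φ := by
  have hA : Module.Flat S3 (Module.End S3 F) := flat_end F
  have h1 : ∀ i : Fin 3, ∃ b : Module.End S3 F, (X i ^ 2 : S3) • a = φ * b - b * φ := by
    intro i
    obtain ⟨c, hc⟩ := trace_X2 F φ hφ i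
    refine ⟨c * (φ ^ 2 * a + φ * a * φ + a * φ ^ 2) + φ * c * (φ * a + a * φ) + φ ^ 2 * c * a, ?_⟩
    have e : tr4 φ c * a = c * tr4 φ a + (φ * (c * (φ ^ 2 * a + φ * a * φ + a * φ ^ 2) +
        φ * c * (φ * a + a * φ) + φ ^ 2 * c * a) - (c * (φ ^ 2 * a + φ * a * φ + a * φ ^ 2) +
        φ * c * (φ * a + a * φ) + φ ^ 2 * c * a) * φ) := by
      simp only [tr4, Finset.sum_range_succ, Finset.sum_range_zero, pow_zero, one_mul, mul_one,
        pow_one, zero_add, Nat.sub_zero, Nat.sub_self, show 3 - 1 = 2 from rfl,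
        show 3 - 2 = 1 from rfl]
      noncomm_ring
    rw [ha, mul_zero, zero_add, hc, smul_mul_assoc, one_mul] at e
    exact e
  obtain ⟨b0, hb0⟩ := h1 0
  obtain ⟨b1, hb1⟩ := h1 1
  obtain ⟨b2, hb2⟩ := h1 2
  set K := Subalgebra.centralizer S3 ({φ} : Set (Module.End S3 F)) with hKdef
  have hmem : ∀ c : Module.End S3 F, φ * c - c * φ = 0 → c ∈ K := by
    intro c hc
    rw [hKdef, Subalgebra.mem_centralizer_iff]
    intro g hg
    rw [Set.mem_singleton_iff] at hg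
    rw [hg]
    exact sub_eq_zero.1 hc
  have m01 : (X 1 ^ 2 : S3) • b0 - (X 0 ^ 2 : S3) • b1 ∈ K := by
    apply hmem
    rw [mul_sub, sub_mul, mul_smul_comm, mul_smul_comm, smul_mul_assoc, smul_mul_assoc,
      sub_sub_sub_comm, ← smul_sub, ← smul_sub, ← hb0, ← hb1, smul_smul, smul_smul, mul_comm, sub_self]
  have m02 : (X 2 ^ 2 : S3) • b0 - (X 0 ^ 2 : S3) • b2 ∈ K := by
    apply hmem
    rw [mul_sub, sub_mul, mul_smul_comm, mul_smul_comm, smul_mul_assoc, smul_mul_assoc,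
      sub_sub_sub_comm, ← smul_sub, ← smul_sub, ← hb0, ← hb2, smul_smul, smul_smul, mul_comm, sub_self]
  have m12 : (X 2 ^ 2 : S3) • b1 - (X 1 ^ 2 : S3) • b2 ∈ K := by
    apply hmem
    rw [mul_sub, sub_mul, mul_smul_comm, mul_smul_comm, smul_mul_assoc, smul_mul_assoc,
      sub_sub_sub_comm, ← smul_sub, ← smul_sub, ← hb1, ← hb2, smul_smul, smul_smul, mul_comm, sub_self]
  obtain ⟨k0, k1, hk⟩ := flat_koszul3 (K := K) ⟨_, m01⟩ ⟨_, m02⟩ ⟨_, m12⟩ (by
    apply Subtype.ext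
    change (X 2 ^ 2 : S3) • ((X 1 ^ 2 : S3) • b0 - (X 0 ^ 2 : S3) • b1) +
      (-X 1 ^ 2 : S3) • ((X 2 ^ 2 : S3) • b0 - (X 0 ^ 2 : S3) • b2) +
      (X 0 ^ 2 : S3) • ((X 2 ^ 2 : S3) • b1 - (X 1 ^ 2 : S3) • b2) = 0
    module)
  have hk' : (X 1 ^ 2 : S3) • b0 - (X 0 ^ 2 : S3) • b1 =
      (X 1 ^ 2 : S3) • (k0 : Module.End S3 F) - (X 0 ^ 2 : S3) • (k1 : Module.End S3 F) :=
    congrArg Subtype.val hk
  obtain ⟨b, hb⟩ := flat_koszul2 (b0 - (k0 : Module.End S3 F)) (b1 - (k1 : Module.End S3 F)) (by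
    have : (X 1 ^ 2 : S3) • (b0 - (k0 : Module.End S3 F)) + (-X 0 ^ 2 : S3) •
        (b1 - (k1 : Module.End S3 F)) = ((X 1 ^ 2 : S3) • b0 - (X 0 ^ 2 : S3) • b1) -
        ((X 1 ^ 2 : S3) • (k0 : Module.End S3 F) - (X 0 ^ 2 : S3) • (k1 : Module.End S3 F)) := by
      module
    rw [this, hk', sub_self])
  refine ⟨b, ?_⟩
  rw [← sub_eq_zero]
  apply flat_nzd
  have hc : φ * (k0 : Module.End S3 F) - k0 * φ = 0 := by
    have := (Subalgebra.mem_centralizer_iff S3).1 k0.2 φ rfl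
    rw [this, sub_self]
  have hb' : b0 = (X 0 ^ 2 : S3) • b + k0 := by rw [← hb]; abel
  have e : (X 0 ^ 2 : S3) • a = (X 0 ^ 2 : S3) • (φ * b - b * φ) + (φ * (k0 : Module.End S3 F) - k0 * φ) := by
    rw [hb0, hb', mul_add, add_mul, mul_smul_comm, smul_mul_assoc, smul_sub]
    abel
  rw [smul_sub, e, hc, add_zero, sub_self]

end Pool.Agent.TH350.J289
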