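import Mathlib

/-!
The exponential of endomorphisms of finite dimensional complex vector spaces.
-/

set_option autoImplicit false

namespace Pool.Agent.TH350.Expo

section banach

variable {B : Type} [NormedRing B] [NormedAlgebra ℂ B] [CompleteSpace B]

theorem exp_semiconj {A A' X : B} (h : A * X = X * A') :
    NormedSpace.exp A * X = X * NormedSpace.exp A' := by
  have h1 := (NormedSpace.exp_series_hasSum_exp' (𝕂 := ℂ) A).mul_right X
  have h2 := (NormedSpace.exp_series_hasSum_exp' (𝕂 := ℂ) A').mul_left X
  refine h1.unique ?_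
  convert h2 using 2 with n
  have h3 : ∀ n : ℕ, A ^ n * X = X * A' ^ n := by
    intro n
    induction n with
    | zero => simp
    | succ n ih => rw [pow_succ', mul_assoc, ih, ← mul_assoc, h, mul_assoc, ← pow_succ']
  rw [smul_mul_assoc, h3, mul_smul_comm]

theorem exp_shift (A : B) (c : ℂ) : NormedSpace.exp (A + c • (1 : B)) =
    Complex.exp c • NormedSpace.exp A := by
  let _ : NormedAlgebra ℚ B := NormedAlgebra.restrictScalars ℚ ℂ B
  have h : Commute A (c • (1 : B)) := (Commute.one_right A).smul_right c
  rw [NormedSpace.exp_add_of_commute h, ← Algebra.algebraMap_eq_smul_one,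
    ← NormedSpace.algebraMap_exp_comm, Algebra.algebraMap_eq_smul_one, mul_smul_comm, mul_one,
    Complex.exp_eq_exp_ℂ]

theorem exp_mul_neg (A : B) : NormedSpace.exp A * NormedSpace.exp (-A) = 1 := by
  let _ : NormedAlgebra ℚ B := NormedAlgebra.restrictScalars ℚ ℂ B
  rw [← NormedSpace.exp_add_of_commute (Commute.neg_right (Commute.refl A)), add_neg_cancel,
    NormedSpace.exp_zero]

end banach

attribute [local instance] Matrix.linftyOpNormedRing Matrix.linftyOpNormedAlgebra

theorem exists_exp (V : Type) [AddCommGroup V] [Module ℂ V] [Module.Finite ℂ V] :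
    ∃ e : Module.End ℂ V → Module.End ℂ V, (∀ A B X : Module.End ℂ V, A * X = X * B →
      e A * X = X * e B) ∧ (∀ (A : Module.End ℂ V) (c : ℂ), e (A + c • 1) = Complex.exp c • e A) ∧
      (∀ A : Module.End ℂ V, e A * e (-A) = 1) := by
  let ψ := LinearMap.toMatrixAlgEquiv (Module.finBasis ℂ V)
  refine ⟨fun A => ψ.symm (NormedSpace.exp (ψ A)), ?_, ?_, ?_⟩
  · intro A B X h
    apply ψ.injective
    rw [map_mul, map_mul, AlgEquiv.apply_symm_apply, AlgEquiv.apply_symm_apply]
    apply exp_semiconj
    rw [← map_mul, h, map_mul]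
  · intro A c
    apply ψ.injective
    rw [map_smul, AlgEquiv.apply_symm_apply, AlgEquiv.apply_symm_apply, map_add, map_smul, map_one]
    exact exp_shift (ψ A) c
  · intro A
    apply ψ.injective
    rw [map_mul, AlgEquiv.apply_symm_apply, AlgEquiv.apply_symm_apply, map_neg, map_one]
    exact exp_mul_neg (ψ A)

end Pool.Agent.TH350.Expo
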