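import Pool.Agent.TH215.TM.Defs3
import Pool.Agent.TH350.Conn
import Pool.Agent.TH350.Expo

/-!
Job 290 (TM-TAU): approximate symmetries `τ` via `exp (2 π i ∇)` (Euler field argument).
-/

set_option autoImplicit false

namespace Pool.Agent.TH350.J290

open Pool.Agent.TH215.TM MvPolynomial

/-- The Euler derivation. -/
noncomputable def E : Derivation ℂ S3 S3 :=
  (X 0 : S3) • pderiv 0 + (X 1 : S3) • pderiv 1 + (X 2 : S3) • pderiv 2

theorem E_X (i : Fin 3) : E (X i) = X i := by
  simp only [E, Derivation.add_apply, Derivation.smul_apply, pderiv_X, smul_eq_mul]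
  fin_cases i <;> simp

theorem E_g3 : E g3 = 3 * g3 := by
  unfold g3
  simp only [map_add, Derivation.leibniz_pow, E_X, smul_eq_mul, nsmul_eq_mul]
  push_cast
  ring

theorem E_mem {k : ℕ} {s : S3} (hs : s ∈ mS ^ k) : E s ∈ mS ^ k := by
  induction k generalizing s with
  | zero => simp
  | succ k ih =>
    rw [pow_succ] at hs ⊢
    refine Submodule.mul_induction_on hs ?_ ?_
    · intro a ha b hb
      rw [E.leibniz, smul_eq_mul, smul_eq_mul]
      have hb' : E b ∈ mS := by
        clear ha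
        unfold mS at hb ⊢
        refine Submodule.span_induction ?_ ?_ ?_ ?_ hb
        · rintro _ ⟨i, rfl⟩
          rw [E_X]
          exact Ideal.subset_span ⟨i, rfl⟩
        · simp
        · intro x y _ _ hx hy
          rw [map_add]
          exact Ideal.add_mem _ hx hy
        · intro r x hx' hx
          rw [smul_eq_mul, E.leibniz, smul_eq_mul, smul_eq_mul]
          exact Ideal.add_mem _ (Ideal.mul_mem_left _ _ hx) (Ideal.mul_mem_right _ _ hx')
      refine Ideal.add_mem _ (Ideal.mul_mem_mul ha hb') ?_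
      rw [mul_comm b]
      exact Ideal.mul_mem_mul (ih ha) hb
    · intro x y hx hy
      rw [map_add]
      exact Ideal.add_mem _ hx hy

theorem finite_quot (F : Type) [AddCommGroup F] [Module S3 F] [Module ℂ F] [IsScalarTower ℂ S3 F]
    [Module.Finite S3 F] (k : ℕ) : Module.Finite ℂ (F ⧸ (mS ^ k • ⊤ : Submodule S3 F)) := by
  obtain ⟨s, hs⟩ := (inferInstance : Module.Finite S3 F).fg_top
  set π := (mS ^ k • ⊤ : Submodule S3 F).mkQ with hπ
  set G : Set (F ⧸ (mS ^ k • ⊤ : Submodule S3 F)) :=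
    Set.image2 (fun (α : Fin 3 →₀ ℕ) e => (monomial α (1 : ℂ) : S3) • π e)
      {α : Fin 3 →₀ ℕ | Finsupp.degree α < k} s with hG
  have hGf : G.Finite := by
    refine Set.Finite.image2 _ ?_ s.finite_toSet
    refine (Finsupp.finite_of_degree_le k).subset fun α hα => ?_
    exact le_of_lt (Set.mem_ofPred.1 hα)
  refine ⟨Submodule.fg_def.2 ⟨G, hGf, ?_⟩⟩
  rw [eq_top_iff]
  intro v _
  obtain ⟨w, rfl⟩ := Submodule.mkQ_surjective _ v
  have hw : w ∈ Submodule.span S3 (s : Set F) := by rw [hs]; trivial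
  have key : ∀ p : S3, π (p • w) ∈ Submodule.span ℂ G := by
    refine Submodule.span_induction (p := fun w _ => ∀ p : S3, π (p • w) ∈ Submodule.span ℂ G)
      ?_ ?_ ?_ ?_ hw
    · intro e he p
      induction p using MvPolynomial.induction_on' with
      | monomial α c =>
        by_cases hα : Finsupp.degree α < k
        · have : π ((monomial α c : S3) • e) = c • ((monomial α (1 : ℂ) : S3) • π e) := by
            rw [map_smul, ← smul_assoc, smul_monomial, smul_eq_mul, mul_one]
          rw [this]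
          exact Submodule.smul_mem _ _ (Submodule.subset_span ⟨α, hα, e, he, rfl⟩)
        · have h0 : π ((monomial α c : S3) • e) = 0 := by
            rw [hπ, Submodule.mkQ_apply, Submodule.Quotient.mk_eq_zero]
            refine Submodule.smul_mem_smul ?_ trivial
            rcases eq_or_ne c 0 with rfl | hc
            · simp
            · exact (monomial_mem_pow_idealOfVars_iff k α hc).2 (not_lt.1 hα)
          rw [h0]
          exact Submodule.zero_mem _
      | add p q hp hq =>
        rw [add_smul, map_add]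
        exact Submodule.add_mem _ hp hq
    · intro p
      rw [smul_zero, map_zero]
      exact Submodule.zero_mem _
    · intro x y _ _ hx hy p
      rw [smul_add, map_add]
      exact Submodule.add_mem _ (hx p) (hy p)
    · intro r x _ hx p
      rw [smul_smul]
      exact hx _
  have := key 1
  rwa [one_smul] at this

/-- `w ↦ (v ↦ l v • w)` -/
noncomputable def rankOne {F : Type} [AddCommGroup F] [Module S3 F] (l : F →ₗ[S3] S3) :
    F →ₗ[S3] Module.End S3 F where
  toFun w := LinearMap.smulRight l w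
  map_add' a b := by ext; simp
  map_smul' a b := by ext v; exact smul_comm _ _ _

theorem mE_of_range (F : Type) [AddCommGroup F] [Module S3 F] [Module.Finite S3 F]
    [Module.Projective S3 F] (k : ℕ) (δ : Module.End S3 F)
    (h : ∀ v, δ v ∈ (mS ^ k • ⊤ : Submodule S3 F)) : δ ∈ mE F k := by
  obtain ⟨n, f, g, -, -, hfg⟩ := Module.Finite.exists_comp_eq_id_of_projective S3 F
  have e : δ = ∑ l : Fin n, rankOne ((LinearMap.proj l) ∘ₗ g) (δ (f (Pi.single l 1))) := by
    ext v
    have h1 : v = f (g v) := (LinearMap.congr_fun hfg v).symm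
    have h2 : g v = ∑ l : Fin n, (g v l) • (Pi.single l (1 : S3) : Fin n → S3) :=
      ((Pi.basisFun S3 (Fin n)).sum_repr (g v)).symm.trans (by simp)
    conv_lhs => rw [h1, h2]
    simp only [map_sum, map_smul, LinearMap.sum_apply]
    rfl
  rw [e]
  refine Submodule.sum_mem _ fun l _ => ?_
  have h1 : (mS ^ k • ⊤ : Submodule S3 F).map (rankOne ((LinearMap.proj l) ∘ₗ g)) ≤ mE F k := by
    rw [Submodule.map_smul'']
    exact Submodule.smul_mono le_rfl le_top
  exact h1 ⟨_, h _, rfl⟩

theorem exists_TS (V : Type) [AddCommGroup V] [Module S3 V] [Module ℂ V] [IsScalarTower ℂ S3 V]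
    [Module.Finite ℂ V] (Nk : Module.End ℂ V) (φk : Module.End S3 V)
    (hN : ∀ (i : Fin 3) (v : V), Nk ((X i : S3) • v) = (X i : S3) • Nk v + (X i : S3) • v)
    (hφ : ∀ v : V, Nk (φk v) = φk (Nk v) + (3 / 4 : ℂ) • φk v) :
    ∃ T T' : Module.End S3 V, (∀ v, T (T' v) = v) ∧ (∀ v, T' (T v) = v) ∧
      ∀ v, T (φk v) = (C (-Complex.I) : S3) • φk (T v) := by
  obtain ⟨e, he1, he2, he3⟩ := Pool.Agent.TH350.Expo.exists_exp V
  set T : Module.End ℂ V := e ((2 * Real.pi * Complex.I : ℂ) • Nk) with hT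
  set T' : Module.End ℂ V := e (-((2 * Real.pi * Complex.I : ℂ) • Nk)) with hT'
  have hTT' : T * T' = 1 := he3 _
  have hT'T : T' * T = 1 := by
    have := he3 (-((2 * Real.pi * Complex.I : ℂ) • Nk))
    rwa [neg_neg] at this
  have hshift : ∀ (X : Module.End ℂ V) (c : ℂ), Nk * X = X * (Nk + c • 1) →
      T * X = Complex.exp (2 * Real.pi * Complex.I * c) • (X * T) := by
    intro X c h
    have h2 : ((2 * Real.pi * Complex.I : ℂ) • Nk) * X =
        X * ((2 * Real.pi * Complex.I : ℂ) • Nk + (2 * Real.pi * Complex.I * c) • 1) := by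
      rw [smul_mul_assoc, h, mul_smul (2 * Real.pi * Complex.I : ℂ) c, ← smul_add, mul_smul_comm]
    rw [hT, he1 _ _ _ h2, he2, mul_smul_comm]
  have hTX : ∀ (i : Fin 3) (v : V), T ((X i : S3) • v) = (X i : S3) • T v := by
    intro i v
    let L : Module.End ℂ V := (LinearMap.lsmul S3 V (X i)).restrictScalars ℂ
    have h2 : Nk * L = L * (Nk + (1 : ℂ) • 1) := by
      ext v
      change Nk ((X i : S3) • v) = (X i : S3) • (Nk v + (1 : ℂ) • v)
      rw [one_smul, hN, smul_add]
    have h3 := LinearMap.congr_fun (hshift L 1 h2) v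
    rw [mul_one, Complex.exp_two_pi_mul_I, one_smul] at h3
    exact h3
  have hTS : ∀ (s : S3) (v : V), T (s • v) = s • T v := by
    intro s
    induction s using MvPolynomial.induction_on with
    | C c =>
      intro v
      have hC : ∀ v : V, (C c : S3) • v = c • v := fun v => by
        rw [← mul_one (C c), ← smul_eq_C_mul, smul_assoc, one_smul]
      rw [hC, hC, map_smul]
    | add p q hp hq =>
      intro v
      rw [add_smul, add_smul, map_add, hp, hq]
    | mul_X p i hp =>
      intro v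
      rw [mul_smul, mul_smul, hp, hTX]
  have h2 : ∀ v, T' (T v) = v := fun v => LinearMap.congr_fun hT'T v
  have h3 : ∀ v, T (T' v) = v := fun v => LinearMap.congr_fun hTT' v
  have hT'S : ∀ (s : S3) (v : V), T' (s • v) = s • T' v := by
    intro s v
    rw [← h2 (s • T' v), hTS, h3]
  have hTφ : ∀ v, T (φk v) = (C (-Complex.I) : S3) • φk (T v) := by
    intro v
    let L : Module.End ℂ V := φk.restrictScalars ℂ
    have h2 : Nk * L = L * (Nk + (3 / 4 : ℂ) • 1) := by
      ext v
      change Nk (φk v) = φk (Nk v + (3 / 4 : ℂ) • v)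
      rw [hφ, map_add]
      congr 1
      exact (L.map_smul (3 / 4 : ℂ) v).symm
    have h3 := LinearMap.congr_fun (hshift L (3 / 4) h2) v
    have h4 : Complex.exp (2 * Real.pi * Complex.I * (3 / 4)) = -Complex.I := by
      rw [show (2 * Real.pi * Complex.I * (3 / 4) : ℂ) =
        Real.pi * Complex.I + Real.pi / 2 * Complex.I by ring,
        Complex.exp_add, Complex.exp_pi_mul_I, Complex.exp_pi_div_two_mul_I]
      ring
    rw [h4] at h3
    have hC : ∀ (c : ℂ) (v : V), (C c : S3) • v = c • v := fun c v => by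
      rw [← mul_one (C c), ← smul_eq_C_mul, smul_assoc, one_smul]
    rw [hC]
    exact h3
  exact ⟨{ toFun := T, map_add' := map_add T, map_smul' := hTS },
    { toFun := T', map_add' := map_add T', map_smul' := hT'S }, h3, h2, hTφ⟩

theorem exists_N (F : Type) [AddCommGroup F] [Module S3 F]
    [Module.Projective S3 F] (φ : Module.End S3 F) (hφ : φ ^ 4 = - (g3 • (1 : Module.End S3 F)))
    (hrig : ∀ a : Module.End S3 F, tr4 φ a = 0 → ∃ b : Module.End S3 F, a = φ * b - b * φ) :
    ∃ N : F →+ F, (∀ (s : S3) (x : F), N (s • x) = E s • x + s • N x) ∧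
      ∀ x, N (φ x) = φ (N x) + (C (3 / 4 : ℂ) : S3) • φ x := by
  obtain ⟨N0, hN0⟩ := Pool.Agent.TH350.Conn.exists_connection (k := ℂ) E F
  set eps := Pool.Agent.TH350.Conn.comm E N0 hN0 φ with heps
  have htr := Pool.Agent.TH350.Conn.comm_trace E N0 hN0 φ 4 g3 hφ
  have h1 : tr4 φ (eps - (C (3 / 4) : S3) • φ) = 0 := by
    have h2 : tr4 φ eps = -(E g3 • (1 : Module.End S3 F)) := htr
    have h3 : tr4 φ (eps - (C (3 / 4) : S3) • φ) = tr4 φ eps - ((C (3 / 4) : S3) * 4) • φ ^ 4 := by
      simp only [tr4, Finset.sum_range_succ, Finset.sum_range_zero, pow_zero, one_mul, mul_one,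
        pow_one, zero_add, Nat.sub_zero, Nat.sub_self, show 3 - 1 = 2 from rfl,
        show 3 - 2 = 1 from rfl, mul_sub, sub_mul, mul_smul_comm, smul_mul_assoc]
      have a1 : φ * φ ^ 3 = φ ^ 4 := by noncomm_ring
      have a2 : φ * φ * φ ^ 2 = φ ^ 4 := by noncomm_ring
      have a3 : φ ^ 2 * φ * φ = φ ^ 4 := by noncomm_ring
      have a4 : φ ^ 3 * φ = φ ^ 4 := by noncomm_ring
      rw [a1, a2, a3, a4]
      module
    have h4 : (C (3 / 4) : S3) * 4 = 3 := by
      rw [← map_ofNat (C : ℂ →+* S3) 4, ← C_mul, ← map_ofNat (C : ℂ →+* S3) 3]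
      norm_num
    rw [h3, h2, hφ, E_g3, h4]
    module
  obtain ⟨b, hb⟩ := hrig _ h1
  refine ⟨N0 + b.toAddMonoidHom, ?_, ?_⟩
  · intro s x
    change N0 (s • x) + b (s • x) = _ + s • (N0 x + b x)
    rw [hN0, map_smul, smul_add]
    abel
  · intro x
    change N0 (φ x) + b (φ x) = φ (N0 x + b x) + (C (3 / 4 : ℂ) : S3) • φ x
    have h2 := LinearMap.congr_fun hb x
    change (N0 (φ x) - φ (N0 x)) - (C (3 / 4 : ℂ) : S3) • φ x = φ (b x) - b (φ x) at h2
    rw [map_add, ← sub_eq_zero]
    rw [← sub_eq_zero] at h2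
    rw [← h2]
    abel

theorem exists_tau (F : Type) [AddCommGroup F] [Module S3 F] [Module.Finite S3 F]
    [Module.Projective S3 F] (φ : Module.End S3 F) (hφ : φ ^ 4 = - (g3 • (1 : Module.End S3 F)))
    (hrig : ∀ a : Module.End S3 F, tr4 φ a = 0 → ∃ b : Module.End S3 F, a = φ * b - b * φ)
    (k : ℕ) : ∃ τ σ : Module.End S3 F,
      τ * φ - (MvPolynomial.C (-Complex.I) : S3) • (φ * τ) ∈ mE F k ∧
      τ * σ - 1 ∈ mE F k ∧ σ * τ - 1 ∈ mE F k := by
  let _ : Module ℂ F := Module.compHom F (algebraMap ℂ S3)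
  have hC : ∀ (c : ℂ) (v : F), c • v = (C c : S3) • v := fun c v => rfl
  have _ : IsScalarTower ℂ S3 F := ⟨fun c s v => by
    rw [hC, MvPolynomial.smul_eq_C_mul, mul_smul]⟩
  have hfin := finite_quot F k
  obtain ⟨N, hN, hNφ⟩ := exists_N F φ hφ hrig
  set W := (mS ^ k • ⊤ : Submodule S3 F) with hW
  have hNW : ∀ x ∈ W, N x ∈ W := by
    intro x hx
    refine Submodule.smul_induction_on hx ?_ ?_
    · intro r hr n _
      rw [hN]
      exact Submodule.add_mem _ (Submodule.smul_mem_smul (E_mem hr) trivial)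
        (Submodule.smul_mem_smul hr trivial)
    · intro x y hx hy
      rw [map_add]
      exact Submodule.add_mem _ hx hy
  have hEC : ∀ c : ℂ, E (C c : S3) = 0 := fun c => E.map_algebraMap c
  -- the operator on the quotient
  let NC : F →ₗ[ℂ] F :=
    { toFun := N
      map_add' := map_add N
      map_smul' := fun c x => by
        rw [hC, hN, hEC, zero_smul, zero_add]
        rfl }
  let Nq0 : (F ⧸ W.restrictScalars ℂ) →ₗ[ℂ] (F ⧸ W.restrictScalars ℂ) :=
    Submodule.mapQ _ _ NC hNW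
  let Nk : (F ⧸ W) →ₗ[ℂ] (F ⧸ W) := (Submodule.Quotient.restrictScalarsEquiv ℂ W).toLinearMap ∘ₗ
    Nq0 ∘ₗ (Submodule.Quotient.restrictScalarsEquiv ℂ W).symm.toLinearMap
  have hNk : ∀ x : F, Nk (W.mkQ x) = W.mkQ (N x) := fun x => rfl
  have hφW : ∀ x ∈ W, φ x ∈ W := by
    intro x hx
    have : W.map φ ≤ W := by
      rw [hW, Submodule.map_smul'']
      exact Submodule.smul_mono le_rfl le_top
    exact this ⟨x, hx, rfl⟩
  let φk : Module.End S3 (F ⧸ W) := Submodule.mapQ W W φ hφW
  have hφk : ∀ x, φk (W.mkQ x) = W.mkQ (φ x) := fun x => rfl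
  obtain ⟨T, T', hTT', hT'T, hTφ⟩ := exists_TS (F ⧸ W) Nk φk (by
      intro i v
      obtain ⟨w, rfl⟩ := W.mkQ_surjective v
      rw [← map_smul, hNk, hNk, hN, E_X, map_add, map_smul, map_smul, add_comm])
    (by
      intro v
      obtain ⟨w, rfl⟩ := W.mkQ_surjective v
      rw [hφk, hNk, hNk, hNφ, map_add, map_smul, hφk]
      rfl)
  obtain ⟨τ, hτ⟩ := Module.projective_lifting_property W.mkQ (T ∘ₗ W.mkQ) W.mkQ_surjective
  obtain ⟨σ, hσ⟩ := Module.projective_lifting_property W.mkQ (T' ∘ₗ W.mkQ) W.mkQ_surjective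
  have hτ' : ∀ x, W.mkQ (τ x) = T (W.mkQ x) := fun x => LinearMap.congr_fun hτ x
  have hσ' : ∀ x, W.mkQ (σ x) = T' (W.mkQ x) := fun x => LinearMap.congr_fun hσ x
  have hmem : ∀ δ : Module.End S3 F, (∀ x, W.mkQ (δ x) = 0) → δ ∈ mE F k := by
    intro δ h
    apply mE_of_range
    intro v
    have := h v
    rwa [Submodule.mkQ_apply, Submodule.Quotient.mk_eq_zero] at this
  refine ⟨τ, σ, hmem _ fun x => ?_, hmem _ fun x => ?_, hmem _ fun x => ?_⟩
  · change W.mkQ (τ (φ x) - (C (-Complex.I) : S3) • φ (τ x)) = 0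
    rw [map_sub, map_smul, hτ', ← hφk, ← hφk, hTφ, hτ', sub_self]
  · change W.mkQ (τ (σ x) - x) = 0
    rw [map_sub, hτ', hσ', hTT', sub_self]
  · change W.mkQ (σ (τ x) - x) = 0
    rw [map_sub, hσ', hτ', hT'T, sub_self]

end Pool.Agent.TH350.J290
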