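import Pool.Agent.TH215.TM.Defs3

/-!
Job 291 (TM-CHAIN): Artin-Rees and Krull argument: `1` is in the image of `tr4 φ`.
-/

set_option autoImplicit false

namespace Pool.Agent.TH350.J291

open Pool.Agent.TH215.TM

section general

variable {S A : Type} [CommRing S] [Ring A] [Algebra S A]

/-- the twisted commutator `a ↦ φ a - u a φ` -/
def T (φ : A) (u : S) (a : A) : A := φ * a - u • (a * φ)

/-- the twisted trace. -/
def Q (φ : A) (u : S) (a : A) : A :=
  φ ^ 3 * a + u • (φ ^ 2 * a * φ) + u ^ 2 • (φ * a * φ ^ 2) + u ^ 3 • (a * φ ^ 3)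

/-- the trace as a linear map -/
def TrL (φ : A) : A →ₗ[S] A where
  toFun a := φ ^ 3 * a + φ ^ 2 * a * φ + φ * a * φ ^ 2 + a * φ ^ 3
  map_add' a b := by noncomm_ring
  map_smul' s a := by simp [mul_smul_comm, smul_mul_assoc, smul_add]

variable (m : Ideal S)

/-- `m^k A` -/
def M (A : Type) [Ring A] [Algebra S A] (m : Ideal S) (k : ℕ) : Submodule S A := (m ^ k) • (⊤ : Submodule S A)

theorem M_anti {k l : ℕ} (h : k ≤ l) : M A m l ≤ M A m k :=
  Submodule.smul_mono_left (Ideal.pow_le_pow_right h)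

variable {m}

theorem mul_left_mem {k : ℕ} {a : A} (b : A) (ha : a ∈ M A m k) : b * a ∈ M A m k := by
  have h1 : (M A m k).map (LinearMap.mulLeft S b) ≤ M A m k := by
    unfold M
    rw [Submodule.map_smul'']
    exact Submodule.smul_mono le_rfl le_top
  exact h1 ⟨a, ha, rfl⟩

theorem mul_right_mem {k : ℕ} {a : A} (b : A) (ha : a ∈ M A m k) : a * b ∈ M A m k := by
  have h1 : (M A m k).map (LinearMap.mulRight S b) ≤ M A m k := by
    unfold M
    rw [Submodule.map_smul'']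
    exact Submodule.smul_mono le_rfl le_top
  exact h1 ⟨a, ha, rfl⟩

theorem T_mem {k : ℕ} {a : A} (φ : A) (u : S) (ha : a ∈ M A m k) : T φ u a ∈ M A m k :=
  Submodule.sub_mem _ (mul_left_mem _ ha) (Submodule.smul_mem _ _ (mul_right_mem _ ha))

/-- the key claim -/
theorem claim {φ : A} {c : ℕ}
    (hAR : ∀ k, ∀ x : A, TrL (S := S) φ x ∈ M A m k → ∃ y ∈ M A m (k - c), TrL (S := S) φ y = TrL (S := S) φ x)
    (hrig : ∀ a : A, TrL (S := S) φ a = 0 → ∃ b : A, a = φ * b - b * φ)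
    {k k' : ℕ} (hk : k' ≤ k) {u : S} {τ σ : A} (h1 : τ * φ - u • (φ * τ) ∈ M A m k)
    (h2 : φ * σ - u • (σ * φ) ∈ M A m k) (h3 : τ * σ - 1 ∈ M A m k) {a : A}
    (ha : Q φ u a ∈ M A m k') : ∃ b : A, a - T φ u b ∈ M A m (k' - c) := by
  replace h1 := M_anti m hk h1
  replace h2 := M_anti m hk h2
  replace h3 := M_anti m hk h3
  have e1 : τ * φ ^ 2 - u ^ 2 • (φ ^ 2 * τ) ∈ M A m k' := by
    have : τ * φ ^ 2 - u ^ 2 • (φ ^ 2 * τ) =
        (τ * φ - u • (φ * τ)) * φ + u • (φ * (τ * φ - u • (φ * τ))) := by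
      simp only [sub_mul, mul_sub, smul_mul_assoc, mul_smul_comm, smul_sub, smul_smul, pow_two,
        mul_assoc]
      abel
    rw [this]
    exact Submodule.add_mem _ (mul_right_mem _ h1) (Submodule.smul_mem _ _ (mul_left_mem _ h1))
  have e2 : τ * φ ^ 3 - u ^ 3 • (φ ^ 3 * τ) ∈ M A m k' := by
    have : τ * φ ^ 3 - u ^ 3 • (φ ^ 3 * τ) =
        (τ * φ ^ 2 - u ^ 2 • (φ ^ 2 * τ)) * φ + u ^ 2 • (φ ^ 2 * (τ * φ - u • (φ * τ))) := by
      simp only [sub_mul, mul_sub, smul_mul_assoc, mul_smul_comm, smul_sub, smul_smul, pow_succ,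
        pow_zero, one_mul, mul_assoc]
      abel
    rw [this]
    exact Submodule.add_mem _ (mul_right_mem _ e1) (Submodule.smul_mem _ _ (mul_left_mem _ h1))
  have e3 : TrL (S := S) φ (a * τ) ∈ M A m k' := by
    have : TrL (S := S) φ (a * τ) = Q φ u a * τ + (φ ^ 2 * a * (τ * φ - u • (φ * τ)) +
        φ * a * (τ * φ ^ 2 - u ^ 2 • (φ ^ 2 * τ)) + a * (τ * φ ^ 3 - u ^ 3 • (φ ^ 3 * τ))) := by
      simp only [TrL, Q, LinearMap.coe_mk, AddHom.coe_mk, add_mul, mul_sub, smul_mul_assoc,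
        mul_smul_comm, smul_sub, smul_smul, mul_assoc]
      abel
    rw [this]
    exact Submodule.add_mem _ (mul_right_mem _ ha) (Submodule.add_mem _ (Submodule.add_mem _
      (mul_left_mem _ h1) (mul_left_mem _ e1)) (mul_left_mem _ e2))
  obtain ⟨y, hy, hyy⟩ := hAR k' _ e3
  obtain ⟨b, hb⟩ := hrig (a * τ - y) (by rw [map_sub, hyy, sub_self])
  refine ⟨b * σ, ?_⟩
  have e4 : a - T φ u (b * σ) = -(a * (τ * σ - 1)) + y * σ - b * (φ * σ - u • (σ * φ)) := by
    have hb' : a * τ * σ = y * σ + (φ * b - b * φ) * σ := by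
      rw [← hb]; noncomm_ring
    have : T φ u (b * σ) = (φ * b - b * φ) * σ + b * (φ * σ - u • (σ * φ)) := by
      simp only [T, sub_mul, mul_sub, mul_smul_comm, mul_assoc]
      abel
    rw [this, mul_sub a, ← mul_assoc a τ σ, hb', mul_one]
    abel
  rw [e4]
  exact Submodule.sub_mem _ (Submodule.add_mem _ (Submodule.neg_mem _ (mul_left_mem _
    (M_anti m (Nat.sub_le _ _) h3))) (mul_right_mem _ hy))
    (mul_left_mem _ (M_anti m (Nat.sub_le _ _) h2))

theorem near [IsNoetherianRing S] [Module.Finite S A] {φ : A} {z : S} (hz : z ^ 2 = -1)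
    (hrig : ∀ a : A, TrL (S := S) φ a = 0 → ∃ b : A, a = φ * b - b * φ)
    (htau : ∀ k : ℕ, ∃ τ σ : A, τ * φ - z • (φ * τ) ∈ M A m k ∧
      τ * σ - 1 ∈ M A m k ∧ σ * τ - 1 ∈ M A m k) (K : ℕ) :
    ∃ a : A, 1 - TrL (S := S) φ a ∈ M A m K := by
  obtain ⟨c, hc⟩ := Ideal.exists_pow_inf_eq_pow_smul m (LinearMap.range (TrL (S := S) φ))
  have hAR : ∀ k, ∀ x : A, TrL (S := S) φ x ∈ M A m k →
      ∃ y ∈ M A m (k - c), TrL (S := S) φ y = TrL (S := S) φ x := by
    intro k x hx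
    rcases le_total c k with hck | hck
    · have h1 : TrL (S := S) φ x ∈ m ^ k • (⊤ : Submodule S A) ⊓ LinearMap.range (TrL (S := S) φ) :=
        ⟨hx, x, rfl⟩
      rw [hc k hck] at h1
      have h2 : m ^ (k - c) • (m ^ c • (⊤ : Submodule S A) ⊓ LinearMap.range (TrL (S := S) φ)) ≤
          (M A m (k - c)).map (TrL (S := S) φ) := by
        unfold M
        rw [Submodule.map_smul'', Submodule.map_top]
        exact Submodule.smul_mono le_rfl inf_le_right
      exact h2 h1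
    · refine ⟨x, ?_, rfl⟩
      rw [Nat.sub_eq_zero_of_le hck]
      simp [M]
  obtain ⟨τ, σ, h1, h2, h3⟩ := htau (K + 3 * c)
  set k := K + 3 * c with hk
  have h4 : φ * σ - z • (σ * φ) ∈ M A m k := by
    have : φ * σ - z • (σ * φ) = -((σ * τ - 1) * (φ * σ)) + σ * (τ * φ - z • (φ * τ)) * σ
        + z • (σ * φ * (τ * σ - 1)) := by
      simp only [sub_mul, mul_sub, smul_mul_assoc, mul_smul_comm, smul_sub, mul_one, one_mul,
        mul_assoc]
      abel
    rw [this]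
    exact Submodule.add_mem _ (Submodule.add_mem _ (Submodule.neg_mem _ (mul_right_mem _ h3))
      (mul_right_mem _ (mul_left_mem _ h1))) (Submodule.smul_mem _ _ (mul_left_mem _ h2))
  -- powers
  have p1 : ∀ j : ℕ, τ ^ j * φ - z ^ j • (φ * τ ^ j) ∈ M A m k := by
    intro j
    induction j with
    | zero => simp
    | succ j ih =>
      have : τ ^ (j + 1) * φ - z ^ (j + 1) • (φ * τ ^ (j + 1)) =
          τ ^ j * (τ * φ - z • (φ * τ)) + z • ((τ ^ j * φ - z ^ j • (φ * τ ^ j)) * τ) := by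
        simp only [sub_mul, mul_sub, smul_mul_assoc, mul_smul_comm, smul_sub, smul_smul, pow_succ,
          mul_assoc, mul_comm z]
        abel
      rw [this]
      exact Submodule.add_mem _ (mul_left_mem _ h1) (Submodule.smul_mem _ _ (mul_right_mem _ ih))
  have p2 : ∀ j : ℕ, φ * σ ^ j - z ^ j • (σ ^ j * φ) ∈ M A m k := by
    intro j
    induction j with
    | zero => simp
    | succ j ih =>
      have : φ * σ ^ (j + 1) - z ^ (j + 1) • (σ ^ (j + 1) * φ) =
          (φ * σ ^ j - z ^ j • (σ ^ j * φ)) * σ + z ^ j • (σ ^ j * (φ * σ - z • (σ * φ))) := by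
        simp only [sub_mul, mul_sub, smul_mul_assoc, mul_smul_comm, smul_sub, smul_smul, pow_succ,
          mul_assoc]
        abel
      rw [this]
      exact Submodule.add_mem _ (mul_right_mem _ ih) (Submodule.smul_mem _ _ (mul_left_mem _ h4))
  have p3 : ∀ j : ℕ, τ ^ j * σ ^ j - 1 ∈ M A m k := by
    intro j
    induction j with
    | zero => simp
    | succ j ih =>
      have : τ ^ (j + 1) * σ ^ (j + 1) - 1 =
          τ ^ j * (τ * σ - 1) * σ ^ j + (τ ^ j * σ ^ j - 1) := by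
        rw [pow_succ τ, pow_succ' σ]
        noncomm_ring
      rw [this]
      exact Submodule.add_mem _ (mul_right_mem _ (mul_left_mem _ h2)) ih
  have z3 : z ^ 3 = -z := by rw [pow_succ, hz]; ring
  have z4' : z ^ 4 = 1 := by rw [show z ^ 4 = (z ^ 2) ^ 2 by ring, hz]; ring
  have z5 : z ^ 5 = z := by rw [show z ^ 5 = z ^ 4 * z by ring, z4']; ring
  have z6 : z ^ 6 = -1 := by rw [show z ^ 6 = z ^ 4 * z ^ 2 by ring, z4', hz]; ring
  have z9 : z ^ 9 = z := by rw [show z ^ 9 = z ^ 4 * z ^ 5 by ring, z4', z5]; ring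
  -- step 1
  have q1 : Q φ (z ^ 1) (1 : A) ∈ M A m k := by
    have : Q φ (z ^ 1) (1 : A) = 0 := by
      simp only [Q, pow_one, mul_one, one_mul, hz, z3, ← pow_succ, ← pow_succ']
      simp
    rw [this]
    exact Submodule.zero_mem _
  obtain ⟨a1, ha1⟩ := claim hAR hrig le_rfl (p1 1) (p2 1) (p3 1) q1
  have q2 : Q φ (z ^ 2) a1 ∈ M A m (k - c) := by
    have : Q φ (z ^ 2) a1 = -T φ (1 : S) (T φ (-z) (1 - T φ (z ^ 1) a1)) := by
      simp only [Q, T, mul_sub, sub_mul, mul_one, one_mul, smul_sub, smul_mul_assoc,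
        mul_smul_comm, pow_succ φ, pow_zero, mul_assoc]
      match_scalars <;> ring_nf <;> simp only [hz, z3, z4', z5, z6, z9] <;> ring
    rw [this]
    exact Submodule.neg_mem _ (T_mem _ _ (T_mem _ _ ha1))
  obtain ⟨a2, ha2⟩ := claim hAR hrig (by omega) (p1 2) (p2 2) (p3 2) q2
  have q3 : Q φ (z ^ 3) a2 ∈ M A m (k - c - c) := by
    have : Q φ (z ^ 3) a2 = -T φ (1 : S) (1 - T φ (z ^ 1) a1) - T φ (1 : S) (T φ (z ^ 1) (a1 - T φ (z ^ 2) a2)) := by
      simp only [Q, T, mul_sub, sub_mul, mul_one, one_mul, smul_sub, smul_mul_assoc,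
        mul_smul_comm, pow_succ φ, pow_zero, mul_assoc]
      match_scalars <;> ring_nf <;> simp only [hz, z3, z4', z5, z6, z9] <;> ring
    rw [this]
    exact Submodule.sub_mem _ (Submodule.neg_mem _ (T_mem _ _ (M_anti m (Nat.sub_le _ _) ha1)))
      (T_mem _ _ (T_mem _ _ ha2))
  obtain ⟨a3, ha3⟩ := claim hAR hrig (by omega) (p1 3) (p2 3) (p3 3) q3
  refine ⟨a3, ?_⟩
  have e : 1 - TrL (S := S) φ a3 = (1 - T φ (z ^ 1) a1) + T φ (z ^ 1) (a1 - T φ (z ^ 2) a2) +
      T φ (z ^ 1) (T φ (z ^ 2) (a2 - T φ (z ^ 3) a3)) := by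
    simp only [TrL, LinearMap.coe_mk, AddHom.coe_mk, T, mul_sub, sub_mul, mul_one, one_mul,
      smul_sub, smul_mul_assoc, mul_smul_comm, pow_succ φ, pow_zero, mul_assoc]
    match_scalars <;> ring_nf <;> simp only [hz, z3, z4', z5, z6, z9] <;> ring
  rw [e]
  have hK : K ≤ k - c - c - c := by omega
  refine Submodule.add_mem _ (Submodule.add_mem _ (M_anti m (by omega) ha1)
    (T_mem _ _ (M_anti m (by omega) ha2))) (T_mem _ _ (T_mem _ _ (M_anti m hK ha3)))

end general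

theorem TrL_eq (F : Type) [AddCommGroup F] [Module S3 F] (φ a : Module.End S3 F) :
    TrL (S := S3) φ a = tr4 φ a := by
  simp only [TrL, LinearMap.coe_mk, AddHom.coe_mk, tr4, Finset.sum_range_succ,
    Finset.sum_range_zero]
  simp only [pow_zero, one_mul, mul_one, pow_one, zero_add, Nat.sub_zero, Nat.sub_self,
    show 3 - 1 = 2 from rfl, show 3 - 2 = 1 from rfl]
  abel

theorem chain (F : Type) [AddCommGroup F] [Module S3 F] [Module.Finite S3 F]
    [Module.Projective S3 F] (φ : Module.End S3 F) (_hφ : φ ^ 4 = - (g3 • (1 : Module.End S3 F)))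
    (hrig : ∀ a : Module.End S3 F, tr4 φ a = 0 → ∃ b : Module.End S3 F, a = φ * b - b * φ)
    (htr : ∀ i : Fin 3, ∃ c : Module.End S3 F, tr4 φ c = (MvPolynomial.X i ^ 2 : S3) • 1)
    (htau : ∀ k : ℕ, ∃ τ σ : Module.End S3 F,
      τ * φ - (MvPolynomial.C (-Complex.I) : S3) • (φ * τ) ∈ mE F k ∧
      τ * σ - 1 ∈ mE F k ∧ σ * τ - 1 ∈ mE F k) :
    ∃ a : Module.End S3 F, tr4 φ a = 1 := by
  have hfin : Module.Finite S3 (Module.End S3 F) := inferInstance
  have hnear := near (S := S3) (A := Module.End S3 F) (m := mS) (φ := φ)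
    (z := MvPolynomial.C (-Complex.I)) (by
      rw [← map_pow, neg_sq, Complex.I_sq, map_neg, map_one])
    (fun a ha => hrig a (by rwa [TrL_eq] at ha)) htau
  set N := LinearMap.range (TrL (S := S3) φ) with hN
  have h1 : N.mkQ 1 ∈ (⨅ i : ℕ, mS ^ i • (⊤ : Submodule S3 (Module.End S3 F ⧸ N))) := by
    rw [Submodule.mem_iInf]
    intro K
    obtain ⟨a, ha⟩ := hnear K
    have e1 : N.mkQ 1 = N.mkQ (1 - TrL (S := S3) φ a) := by
      rw [map_sub]
      have : N.mkQ (TrL (S := S3) φ a) = 0 := by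
        rw [Submodule.mkQ_apply, Submodule.Quotient.mk_eq_zero]
        exact ⟨a, rfl⟩
      rw [this, sub_zero]
    rw [e1]
    have h2 : (M (Module.End S3 F) mS K).map N.mkQ ≤
        mS ^ K • (⊤ : Submodule S3 (Module.End S3 F ⧸ N)) := by
      unfold M
      rw [Submodule.map_smul'']
      exact Submodule.smul_mono le_rfl le_top
    exact h2 ⟨_, ha, rfl⟩
  rw [Ideal.mem_iInf_smul_pow_eq_bot_iff] at h1
  obtain ⟨⟨r, hr⟩, hr1⟩ := h1
  simp only at hr1
  have h4 : r ^ 4 • N.mkQ 1 = N.mkQ 1 := by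
    have : r ^ 4 • N.mkQ (1 : Module.End S3 F) = r • r • r • r • N.mkQ 1 := by
      simp only [smul_smul]; congr 1; ring
    rw [this, hr1, hr1, hr1, hr1]
  have hsq : ∀ i : Fin 3, (MvPolynomial.X i ^ 2 : S3) • N.mkQ (1 : Module.End S3 F) = 0 := by
    intro i
    obtain ⟨c, hc⟩ := htr i
    rw [← map_smul, ← hc, Submodule.mkQ_apply, Submodule.Quotient.mk_eq_zero]
    exact ⟨c, TrL_eq F φ c⟩
  have h0 : N.mkQ (1 : Module.End S3 F) = 0 := by
    rw [← h4]
    rw [mS, Ideal.mem_span_range_iff_exists_fun] at hr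
    obtain ⟨s, hs⟩ := hr
    rw [Fin.sum_univ_three] at hs
    have e : r ^ 4 = (((s 0 * MvPolynomial.X 0) ^ 2 + 4 * (s 0 * MvPolynomial.X 0) *
        (s 1 * MvPolynomial.X 1) + 4 * (s 0 * MvPolynomial.X 0) * (s 2 * MvPolynomial.X 2) +
        6 * (s 1 * MvPolynomial.X 1) ^ 2 + 12 * (s 1 * MvPolynomial.X 1) *
        (s 2 * MvPolynomial.X 2) + 6 * (s 2 * MvPolynomial.X 2) ^ 2) * s 0 ^ 2) *
        MvPolynomial.X 0 ^ 2 +
        ((4 * (s 0 * MvPolynomial.X 0) * (s 1 * MvPolynomial.X 1) +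
        12 * (s 0 * MvPolynomial.X 0) * (s 2 * MvPolynomial.X 2) + (s 1 * MvPolynomial.X 1) ^ 2 +
        4 * (s 1 * MvPolynomial.X 1) * (s 2 * MvPolynomial.X 2) +
        6 * (s 2 * MvPolynomial.X 2) ^ 2) * s 1 ^ 2) * MvPolynomial.X 1 ^ 2 +
        ((12 * (s 0 * MvPolynomial.X 0) * (s 1 * MvPolynomial.X 1) +
        4 * (s 0 * MvPolynomial.X 0) * (s 2 * MvPolynomial.X 2) +
        4 * (s 1 * MvPolynomial.X 1) * (s 2 * MvPolynomial.X 2) +
        (s 2 * MvPolynomial.X 2) ^ 2) * s 2 ^ 2) * MvPolynomial.X 2 ^ 2 := by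
      rw [← hs]; ring
    rw [e, add_smul, add_smul, mul_smul _ (MvPolynomial.X 0 ^ 2 : S3),
      mul_smul _ (MvPolynomial.X 1 ^ 2 : S3), mul_smul _ (MvPolynomial.X 2 ^ 2 : S3),
      hsq, hsq, hsq]
    simp
  rw [Submodule.mkQ_apply, Submodule.Quotient.mk_eq_zero] at h0
  obtain ⟨a, ha⟩ := h0
  exact ⟨a, by rw [← TrL_eq, ha]⟩

end Pool.Agent.TH350.J291
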