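import Pool.Agent.Helper395.CS.Diff
import Pool.Agent.Helper395.BC.Residue

/-! # Unramified points -/

set_option autoImplicit false
set_option linter.unusedSectionVars false

open scoped WithZero Polynomial IntermediateField
open WithZero IsDedekindDomain

namespace Pool.Agent.TH350.J203

open Pool.Agent.Helper395.CS hiding genus
open Pool.Agent.Helper395.BC

variable {K : Type} [Field K] [Algebra ℂ K]

theorem exists_derivation (hK : IsCurve K) {f : K} (hf : Transcendental ℂ f) :
    ∃ D : Derivation ℂ K K, D f = 1 := by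
  have h0 := D_ne_zero hK hf
  obtain ⟨φ, hφ⟩ : ∃ φ : Module.Dual K (Ω[K⁄ℂ]), φ (KaehlerDifferential.D ℂ K f) ≠ 0 := by
    by_contra hcon
    push Not at hcon
    exact h0 ((Module.forall_dual_apply_eq_zero_iff K _).1 hcon)
  refine ⟨((φ (KaehlerDifferential.D ℂ K f))⁻¹ • φ).compDer (KaehlerDifferential.D ℂ K), ?_⟩
  simp [hφ]

theorem unram (hK : IsCurve K) {f : K} (hf : Transcendental ℂ f) :
    ∃ S : Finset ℂ, ∀ c, c ∉ S → ∀ v : Point K, v.val (f - algebraMap ℂ K c) < 1 →
      v.val (f - algebraMap ℂ K c) = exp (-1) := by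
  classical
  obtain ⟨D, hD⟩ := exists_derivation hK hf
  refine setup hK hf _ ?_
  intro i1 i2 hX hae i3 i4 i5 i6 i7 i8 i9
  have hfd := hK.finiteDimensional hf
  have hDp : ∀ p : ℂ[X], D (algebraMap ℂ[X] K p) = algebraMap ℂ[X] K (Polynomial.derivative p) := by
    intro p
    rw [hae, hae, Derivation.map_aeval, hD, smul_eq_mul, mul_one]
  -- generators
  obtain ⟨W, hW⟩ := i8.fg_top
  obtain ⟨h, hh0, hh⟩ := exists_integral_multiples ℂ[X] ℂ⟮f⟯
    (W.image (fun w : BB K => D (w : K)))
  have key : ∀ w : BB K, h • D (w : K) ∈ BB K := by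
    intro w
    have hw : w ∈ Submodule.span ℂ[X] (W : Set (BB K)) := by rw [hW]; trivial
    induction hw using Submodule.span_induction with
    | mem x hx => exact hh _ (Finset.mem_image_of_mem _ hx)
    | zero => simp
    | add x y _ _ hx hy =>
      have : h • D ((x + y : BB K) : K) = h • D (x : K) + h • D (y : K) := by
        rw [← smul_add, ← map_add]
        rfl
      rw [this]
      exact (BB K).add_mem hx hy
    | smul a x _ hx =>
      have : h • D ((a • x : BB K) : K) = a • (h • D (x : K)) +
          (h * Polynomial.derivative a) • (x : K) := by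
        have e1 : ((a • x : BB K) : K) = algebraMap ℂ[X] K a * (x : K) := by
          rw [← Algebra.smul_def]
          rfl
        rw [e1, Derivation.leibniz, hDp, smul_eq_mul, smul_eq_mul]
        simp only [Algebra.smul_def, map_mul]
        ring
      rw [this]
      exact (BB K).add_mem ((BB K).smul_mem hx a) ((BB K).smul_mem x.2 _)
  refine ⟨h.roots.toFinset, fun c hc v hv => ?_⟩
  have hc' : h.eval c ≠ 0 := by
    intro h0
    apply hc
    rw [Multiset.mem_toFinset, Polynomial.mem_roots hh0]
    exact h0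
  have hvf : v.val f ≤ 1 := by
    have h1 : f = (f - algebraMap ℂ K c) + algebraMap ℂ K c := by ring
    rw [h1]
    exact Valuation.map_add_le _ hv.le (v.const_le c)
  have hvX : v.val (algebraMap ℂ[X] K Polynomial.X) ≤ 1 := by rw [hX]; exact hvf
  have hvh : v.val (algebraMap ℂ[X] K h) = 1 := by
    obtain ⟨q, hq⟩ := Polynomial.X_sub_C_dvd_sub_C_eval (a := c) (p := h)
    have h1 : algebraMap ℂ[X] K h = algebraMap ℂ K (h.eval c) +
        (f - algebraMap ℂ K c) * algebraMap ℂ[X] K q := by
      have h2 : h = Polynomial.C (h.eval c) + (Polynomial.X - Polynomial.C c) * q := by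
        rw [← hq]; ring
      conv_lhs => rw [h2]
      rw [map_add, map_mul, map_sub, hX, hae, hae (Polynomial.C c), Polynomial.aeval_C,
        Polynomial.aeval_C]
    have h2 : v.val (algebraMap ℂ K (h.eval c)) = 1 := v.const _ hc'
    have h3 : v.val ((f - algebraMap ℂ K c) * algebraMap ℂ[X] K q) < 1 := by
      rw [map_mul]
      exact mul_lt_one_of_lt_of_le hv (poly_mem v hvX q)
    rw [h1, Valuation.map_add_eq_of_lt_left _ (by rw [h2]; exact h3), h2]
  have hBB : ∀ w : BB K, v.val (D (w : K)) ≤ 1 := by
    intro w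
    have h1 := int_mem v hvX ⟨_, key w⟩
    change v.val (h • D (w : K)) ≤ 1 at h1
    rwa [Algebra.smul_def, map_mul, hvh, one_mul] at h1
  have hO : ∀ z : K, v.val z ≤ 1 → v.val (D z) ≤ 1 := by
    intro z hz
    obtain ⟨n, d, hnd⟩ := HeightOneSpectrum.exists_primeCompl_mul_eq_of_integer (under v hvX) z (by
      rw [under_valuation]; exact hz)
    have hd : v.val (d : K) = 1 := le_antisymm (int_mem v hvX d) (not_lt.1 d.2)
    have h1 : D z * (d : K) = D (n : K) - z * D (d : K) := by
      have h2 : D (z * (d : K)) = D (n : K) := congrArg D hnd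
      rw [Derivation.leibniz, smul_eq_mul, smul_eq_mul] at h2
      rw [← h2]
      ring
    have h2 : v.val (D z * (d : K)) ≤ 1 := by
      rw [h1]
      refine Valuation.map_sub_le _ (hBB _) ?_
      rw [map_mul]
      exact mul_le_one' hz (hBB _)
    rwa [map_mul, hd, mul_one] at h2
  -- conclusion
  have hu0 := unif_ne_zero v
  by_contra hcon
  have h1 : v.val ((f - algebraMap ℂ K c) / unif v) < 1 := by
    rw [map_div₀, val_unif, div_lt_one₀ (by rw [← val_unif v]; exact zero_lt_iff.2 (v.val_ne_zero hu0))]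
    exact lt_of_le_of_ne (by rw [← val_unif v]; exact (val_lt_one_iff v _).1 hv) hcon
  have h2 : v.val ((f - algebraMap ℂ K c) / unif v / unif v) ≤ 1 := by
    rw [map_div₀, div_le_one₀ (zero_lt_iff.2 (v.val_ne_zero hu0))]
    exact (val_lt_one_iff v _).1 h1
  set z := (f - algebraMap ℂ K c) / unif v / unif v with hz
  have h3 : f - algebraMap ℂ K c = unif v * (unif v * z) := by
    rw [hz]
    field_simp
  have h4 : (1 : K) = unif v * (unif v * D z) + unif v * (z * D (unif v)) +
      unif v * (z * D (unif v)) := by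
    have h5 := congrArg D h3
    rw [map_sub, hD, Derivation.map_algebraMap, sub_zero, Derivation.leibniz, Derivation.leibniz]
      at h5
    simp only [smul_eq_mul] at h5
    rw [h5]
    ring
  have hu1 := val_unif_lt v
  have h5 : ∀ a : K, v.val a ≤ 1 → v.val (unif v * a) < 1 := by
    intro a ha
    rw [map_mul]
    exact mul_lt_one_of_lt_of_le hu1 ha
  have h6 : v.val (1 : K) < 1 := by
    have ha : v.val (unif v * D z) ≤ 1 := by
      rw [map_mul]; exact mul_le_one' hu1.le (hO z h2)
    have hb : v.val (z * D (unif v)) ≤ 1 := by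
      rw [map_mul]; exact mul_le_one' h2 (hO _ hu1.le)
    rw [h4]
    exact Valuation.map_add_lt _ (Valuation.map_add_lt _ (h5 _ ha) (h5 _ hb)) (h5 _ hb)
  rw [map_one] at h6
  exact lt_irrefl _ h6

end Pool.Agent.TH350.J203
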