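import Pool.Agent.TH186.Defs
import Pool.Agent.W525.Cliff
import Pool.Agent.TH350.J203a

set_option autoImplicit false
set_option linter.unusedSectionVars false

open scoped WithZero Matrix
open WithZero
open Pool.Agent.Helper395.CS hiding genus
open Pool.Agent.Helper395.BC
open Pool.Agent.W525.BA
open Pool.Agent.TH186

namespace Pool.Agent.TH350.J203

variable {K : Type} [Field K] [Algebra ℂ K]

theorem mem_lsub_iff (L : LineBundle K) (v w : Point K) (s : K) :
    s ∈ (lsub L v).stalk w ↔ s ∈ L.stalk w ∧ (w = v → w.val s < w.val (L.frame w : K)) := by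
  rcases eq_or_ne w v with rfl | h
  · rw [mem_lsub_self]
    constructor
    · intro h
      exact ⟨h.le, fun _ => h⟩
    · rintro ⟨_, h⟩
      exact h rfl
  · rw [mem_lsub_ne L h]
    constructor
    · intro h1
      exact ⟨h1, fun h2 => absurd h2 h⟩
    · exact fun h => h.1

open Classical in
theorem val_lsub (L : LineBundle K) (v w : Point K) :
    w.val ((lsub L v).frame w : K) = w.val (L.frame w : K) * (if w = v then exp (-1) else 1) := by
  change w.val ((L.frame w * ((lpt v).frame w)⁻¹ : Kˣ) : K) = _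
  rw [Units.val_mul, map_mul]
  split_ifs with h
  · subst h
    rw [Units.val_inv_eq_inv_val, lpt_frame_self, inv_inv, val_unif]
  · rw [lpt_frame_ne h]
    simp

theorem H0_lsub_comm (L : LineBundle K) (v w : Point K) :
    H0 (lsub (lsub L v) w) = H0 (lsub (lsub L w) v) := by
  apply H0_congr_val
  intro u
  rw [val_lsub, val_lsub, val_lsub, val_lsub]
  exact mul_right_comm _ _ _

theorem H0_lsub_le (L : LineBundle K) (v : Point K) : H0 (lsub L v) ≤ H0 L := by
  intro s hs w
  exact ((mem_lsub_iff L v w s).1 (hs w)).1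

theorem mem_H0_lsub (L : LineBundle K) (v : Point K) (s : K) :
    s ∈ H0 (lsub L v) ↔ s ∈ H0 L ∧ v.val s < v.val (L.frame v : K) := by
  constructor
  · intro h
    exact ⟨H0_lsub_le L v h, ((mem_lsub_iff L v v s).1 (h v)).2 rfl⟩
  · rintro ⟨h1, h2⟩ w
    refine (mem_lsub_iff L v w s).2 ⟨h1 w, ?_⟩
    rintro rfl
    exact h2

theorem degree_eq (hK : IsCurve K) (L : LineBundle K) (l : K) :
    L.degree = ∑ᶠ v : Point K, (v.ord l + -v.ord (L.frame v : K)) := by
  rw [finsum_add_distrib (f := fun v : Point K => v.ord l)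
    ((finite_ord hK l).subset (fun v hv => hv)) (ldegree_finite L), sum_ord hK, zero_add]
  rfl

theorem ord_eq_of_val (v : Point K) {a b : K} (h : v.val a = v.val b) :
    v.ord a = v.ord b := by
  unfold Point.ord
  rw [h]

theorem ord_eq_of_val' (v : Point K) {a b : K} (hb : b ≠ 0)
    (h : v.val a = v.val b * exp (-1)) : v.ord a = v.ord b + 1 := by
  unfold Point.ord
  rw [h, WithZero.log_mul (v.val_ne_zero hb) (by simp), WithZero.log_exp]
  ring

/-- A `g²₇` has a simple point. -/
theorem exists_simple {K : Type} [Field K] [Algebra ℂ K] (hK : IsCurve K) (hg : 9 ≤ genus K)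
    (hLB : LB K) (L : LineBundle K) (hL : L.degree = 7)
    (hL3 : 3 ≤ Module.finrank ℂ (H0 L)) :
    ∃ p : Point K, ∀ q : Point K, Module.finrank ℂ (H0 (lsub (lsub L p) q)) ≤ 1 := by
  classical
  have hg0 : genus K ≠ 0 := by omega
  have hfin : ∀ M : LineBundle K, FiniteDimensional ℂ (H0 M) := fun M => H0_finite hK hg0 M
  by_contra hcon
  push Not at hcon
  choose q hq using hcon
  have hL3' : Module.finrank ℂ (H0 L) = 3 := by
    have h1 := hLB L
    rw [hL] at h1
    omega
  have hp2 : ∀ p, Module.finrank ℂ (H0 (lsub L p)) = 2 := by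
    intro p
    have h1 := hLB (lsub L p)
    have h2 := h0_lsub hK hg0 L p
    rw [lsub_degree, hL] at h1
    omega
  have hinc : ∀ a b, 1 < Module.finrank ℂ (H0 (lsub (lsub L a) b)) →
      H0 (lsub (lsub L a) b) = H0 (lsub L a) := by
    intro a b hab
    have h1 := hfin (lsub L a)
    refine Submodule.eq_of_le_of_finrank_le (H0_lsub_le _ _) ?_
    rw [hp2]
    exact hab
  have huniq : ∀ a b b', 1 < Module.finrank ℂ (H0 (lsub (lsub L a) b)) →
      1 < Module.finrank ℂ (H0 (lsub (lsub L a) b')) → b = b' := by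
    intro a b b' h1 h2
    by_contra hne
    have h3 : H0 (lsub L a) ≤ H0 (lsub (lsub (lsub L a) b) b') := by
      intro s hs
      have h4 : s ∈ H0 (lsub (lsub L a) b) := by rw [hinc a b h1]; exact hs
      have h5 : s ∈ H0 (lsub (lsub L a) b') := by rw [hinc a b' h2]; exact hs
      rw [mem_H0_lsub] at h5 ⊢
      refine ⟨h4, ?_⟩
      have h6 := h5.2
      rw [val_lsub (lsub L a) b b', if_neg (Ne.symm hne), mul_one]
      exact h6
    have h4 := hfin (lsub (lsub (lsub L a) b) b')
    have h5 := Submodule.finrank_mono h3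
    rw [hp2] at h5
    have h6 := hLB (lsub (lsub (lsub L a) b) b')
    rw [lsub_degree, lsub_degree, lsub_degree, hL] at h6
    omega
  have hqq : ∀ a, q (q a) = a := by
    intro a
    refine huniq (q a) (q (q a)) a (hq (q a)) ?_
    rw [H0_lsub_comm]
    exact hq a
  -- two sections without common zeros
  have hnt : Nontrivial (H0 L) := Module.nontrivial_of_finrank_pos (R := ℂ) (by omega)
  obtain ⟨x0', hx0'⟩ := exists_ne (0 : H0 L)
  obtain ⟨x0, hx0V⟩ := x0'
  have hx0 : x0 ≠ 0 := fun h => hx0' (Subtype.ext h)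
  have hZ0 : {v : Point K | v.val x0 < v.val (L.frame v : K)}.Finite := by
    refine (L.finite.union (finite_ord hK x0)).subset fun v hv => ?_
    by_contra h
    simp only [Set.mem_union, Set.mem_ofPred_eq, not_or, not_not] at h
    have h2 := (v.val_eq_one_iff hx0).2 h.2
    have hv' : v.val x0 < v.val (L.frame v : K) := hv
    rw [h2, h.1] at hv'
    exact lt_irrefl _ hv'
  obtain ⟨x1, hx1V, hx1⟩ : ∃ x1 ∈ H0 L, ∀ v : Point K, v.val x0 < v.val (L.frame v : K) →
      v.val x1 = v.val (L.frame v : K) := by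
    have h1 := Subspace.biUnion_ne_univ_of_top_notMem (k := ℂ) (E := H0 L)
      (s := hZ0.toFinset.image (fun v => (H0 (lsub L v)).comap (H0 L).subtype)) (by
        intro h
        rw [Finset.mem_image] at h
        obtain ⟨v, _, hv⟩ := h
        have h2 : H0 L ≤ H0 (lsub L v) := by
          intro s hs
          have h3 : (⟨s, hs⟩ : H0 L) ∈ (H0 (lsub L v)).comap (H0 L).subtype := by
            rw [hv]; trivial
          exact h3
        have h4 := hfin (lsub L v)
        have h3 := Submodule.finrank_mono h2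
        rw [hp2, hL3'] at h3
        omega)
    obtain ⟨⟨x1, hx1V⟩, hx1⟩ := (Set.ne_univ_iff_exists_notMem _).1 h1
    refine ⟨x1, hx1V, fun v hv => ?_⟩
    simp only [Set.mem_iUnion, not_exists] at hx1
    have h2 := hx1 _ (Finset.mem_image_of_mem _ (hZ0.mem_toFinset.2 hv))
    refine le_antisymm (hx1V v) ?_
    by_contra h3
    apply h2
    change x1 ∈ H0 (lsub L v)
    rw [mem_H0_lsub]
    exact ⟨hx1V, not_le.1 h3⟩
  set f := x1 / x0 with hfdef
  have hfx : f * x0 = x1 := div_mul_cancel₀ _ hx0
  have hf : Transcendental ℂ f := by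
    by_contra hcon
    obtain ⟨c, hc⟩ := exists_const hcon
    have h1 : ∀ v : Point K, v.val x0 = v.val (L.frame v : K) := by
      intro v
      refine le_antisymm (hx0V v) ?_
      by_contra h2
      have h3 := hx1 v (not_le.1 h2)
      rw [← hfx, hc, map_mul] at h3
      have h4 : v.val (algebraMap ℂ K c) * v.val x0 ≤ v.val x0 := mul_le_of_le_one_left' (v.const_le c)
      rw [h3] at h4
      exact h2 h4
    have h2 := degree_eq hK L x0
    rw [hL, finsum_eq_zero_of_forall_eq_zero] at h2
    · norm_num at h2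
    · intro v
      rw [ord_eq_of_val v (h1 v)]
      ring
  obtain ⟨S, hS⟩ := unram hK hf
  obtain ⟨c, hc⟩ := Infinite.exists_notMem_finset S
  set l := x1 - algebraMap ℂ K c * x0 with hl
  have hlf : l = (f - algebraMap ℂ K c) * x0 := by rw [hl, sub_mul, hfx]
  have hfc : f - algebraMap ℂ K c ≠ 0 := by
    intro h
    rw [sub_eq_zero] at h
    exact hf (h ▸ isAlgebraic_algebraMap c)
  have hl0 : l ≠ 0 := by
    rw [hlf]
    exact mul_ne_zero hfc hx0
  have hlV : l ∈ H0 L := by
    have h1 := (H0 L).sub_mem hx1V ((H0 L).smul_mem c hx0V)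
    rwa [Algebra.smul_def] at h1
  have hsimple : ∀ v : Point K, v.val l = v.val (L.frame v : K) ∨
      v.val l = v.val (L.frame v : K) * exp (-1) := by
    intro v
    by_cases hv : v.val x0 < v.val (L.frame v : K)
    · left
      have h1 := hx1 v hv
      rw [hl, Valuation.map_sub_eq_of_lt_left, h1]
      rw [h1, map_mul]
      exact lt_of_le_of_lt (mul_le_of_le_one_left' (v.const_le c)) hv
    · have h1 : v.val x0 = v.val (L.frame v : K) := le_antisymm (hx0V v) (not_lt.1 hv)
      have h2 : v.val f ≤ 1 := by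
        rw [hfdef, map_div₀, div_le_one₀ (zero_lt_iff.2 (v.val_ne_zero hx0)), h1]
        exact hx1V v
      have h3 : v.val (f - algebraMap ℂ K c) ≤ 1 := Valuation.map_sub_le _ h2 (v.const_le c)
      rcases h3.lt_or_eq with h4 | h4
      · right
        rw [hlf, map_mul, hS c hc v h4, h1, mul_comm]
      · left
        rw [hlf, map_mul, h4, h1, one_mul]
  have hexp : (exp (-1) : ℤᵐ⁰) < 1 := by
    obtain ⟨v⟩ := point_nonempty hK
    rw [← val_unif v]
    exact val_unif_lt v
  have hZ : {v : Point K | v.val l < v.val (L.frame v : K)}.Finite := by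
    refine (L.finite.union (finite_ord hK l)).subset fun v hv => ?_
    by_contra h
    simp only [Set.mem_union, Set.mem_ofPred_eq, not_or, not_not] at h
    have h2 := (v.val_eq_one_iff hl0).2 h.2
    have hv' : v.val l < v.val (L.frame v : K) := hv
    rw [h2, h.1] at hv'
    exact lt_irrefl _ hv'
  set Z := hZ.toFinset with hZdef
  have hmem : ∀ v, v ∈ Z ↔ v.val l < v.val (L.frame v : K) := fun v => hZ.mem_toFinset
  have hcard : (Z.card : ℤ) = 7 := by
    rw [← hL, degree_eq hK L l, finsum_eq_sum_of_support_subset (s := Z)]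
    · rw [Finset.sum_congr rfl (g := fun _ => (1 : ℤ))]
      · simp
      · intro v hv
        rw [hmem] at hv
        have h1 := (hsimple v).resolve_left hv.ne
        rw [ord_eq_of_val' v (L.frame v).ne_zero h1]
        ring
    · intro v hv
      rw [Finset.mem_coe, hmem]
      by_contra h
      apply hv
      have h1 := le_antisymm (hlV v) (not_lt.1 h)
      change v.ord l + -v.ord (L.frame v : K) = 0
      rw [ord_eq_of_val v h1]
      ring
  have hqZ : ∀ v ∈ Z, q v ≠ v ∧ q v ∈ Z := by
    intro v hv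
    rw [hmem] at hv
    have h1 : l ∈ H0 (lsub L v) := (mem_H0_lsub L v l).2 ⟨hlV, hv⟩
    rw [← hinc v (q v) (hq v), mem_H0_lsub] at h1
    have h2 := h1.2
    rw [val_lsub] at h2
    split_ifs at h2 with h3
    · exfalso
      rw [h3] at h2
      have h4 := (hsimple v).resolve_left hv.ne
      rw [h4] at h2
      exact lt_irrefl _ h2
    · refine ⟨h3, ?_⟩
      rw [hmem]
      rwa [mul_one] at h2
  have hprod : ∏ _v ∈ Z, (-1 : ℤ) = 1 := by
    refine Finset.prod_involution (fun v _ => q v) ?_ ?_ ?_ ?_
    · intro v hv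
      norm_num
    · intro v hv _
      exact (hqZ v hv).1
    · intro v hv
      exact (hqZ v hv).2
    · intro v hv
      exact hqq v
  have hc7 : Z.card = 7 := by exact_mod_cast hcard
  rw [Finset.prod_const, hc7] at hprod
  norm_num at hprod

end Pool.Agent.TH350.J203
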