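import Pool.Agent.TH554.J92

set_option autoImplicit false

namespace Pool.Agent.TH350.CA

open MvPolynomial Pool.Agent.TH554.J92

section scale

variable {R S : Type*} [CommRing R] [CommRing S] {σ : Type*}

theorem eval₂_scale (φ : R →+* S) (v : σ → S) (c : S) {g : MvPolynomial σ R} {d : ℕ}
    (hg : g.IsHomogeneous d) :
    eval₂ φ (fun l => c * v l) g = c ^ d * eval₂ φ v g := by
  rw [eval₂_eq, eval₂_eq, Finset.mul_sum]
  refine Finset.sum_congr rfl fun m hm => ?_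
  have h1 : m.degree = d := by
    by_contra h
    exact mem_support_iff.1 hm (hg.coeff_eq_zero h)
  have h2 : ∑ l ∈ m.support, m l = d := by
    rw [← h1, Finsupp.degree_apply]
  simp_rw [mul_pow]
  rw [Finset.prod_mul_distrib, Finset.prod_pow_eq_pow_sum, h2]
  ring

theorem ideal_scale {I : Ideal (MvPolynomial σ R)}
    (hI : ∃ G : Set (MvPolynomial σ R), G.Finite ∧ (∀ g ∈ G, ∃ d, g.IsHomogeneous d) ∧
      I = Ideal.span G) (φ : R →+* S) (v : σ → S) (h : ∀ P ∈ I, eval₂ φ v P = 0) (c : S) :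
    ∀ P ∈ I, eval₂ φ (fun l => c * v l) P = 0 := by
  obtain ⟨G, _, hG, rfl⟩ := hI
  have h1 : Ideal.span G ≤ RingHom.ker (eval₂Hom φ (fun l => c * v l)) := by
    rw [Ideal.span_le]
    intro g hg
    obtain ⟨d, hd⟩ := hG g hg
    rw [SetLike.mem_coe, RingHom.mem_ker, coe_eval₂Hom, eval₂_scale φ v c hd,
      h g (Ideal.subset_span hg), mul_zero]
  intro P hP
  have := h1 hP
  rwa [RingHom.mem_ker, coe_eval₂Hom] at this

theorem eval₂_bind (φ : R →+* S) (v : σ → S) {τ : Type*} (F : τ → MvPolynomial σ R)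
    (P : MvPolynomial τ R) :
    eval₂ φ v (bind₁ F P) = eval₂ φ (fun a => eval₂ φ v (F a)) P := by
  rw [← coe_eval₂Hom, eval₂Hom_bind₁]
  rfl

theorem eval₂_map_pt (φ : R →+* S) (v : σ → R) (P : MvPolynomial σ R) :
    eval₂ φ (fun a => φ (v a)) P = φ (eval v P) := by
  exact (eval₂_comp φ v P).symm

theorem eval_bind (v : σ → R) {τ : Type*} (F : τ → MvPolynomial σ R)
    (P : MvPolynomial τ R) :
    eval v (bind₁ F P) = eval (fun a => eval v (F a)) P := by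
  have := eval₂_bind (RingHom.id R) v F P
  exact this

end scale

section comp

variable {R : Type} [CommRing R] {N : ℕ} {I : Ideal (MvPolynomial (Fin (N + 1)) R)}
  {𝓕 : Set (Fin (N + 1) → MvPolynomial (Fin (N + 1)) R)} {x : Fin (N + 1) → R}

theorem comp_hom (hD : CData R N I 𝓕 x) : ∀ n, ∀ F ∈ Comp 𝓕 n, ∃ d, ∀ a, (F a).IsHomogeneous d
  | 0 => by
    rintro F rfl
    exact ⟨1, fun a => isHomogeneous_X _ a⟩
  | n + 1 => by
    rintro _ ⟨F, hF, F', hF', rfl⟩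
    obtain ⟨d, hd⟩ := hD.tup F hF
    obtain ⟨d', hd'⟩ := comp_hom hD n F' hF'
    exact ⟨d * d', fun a => (hd' a).aeval _ hd⟩

theorem comp_stab (hD : CData R N I 𝓕 x) : ∀ n, ∀ F ∈ Comp 𝓕 n, ∀ P ∈ I, bind₁ F P ∈ I
  | 0 => by
    rintro F rfl P hP
    rwa [bind₁_X_left, AlgHom.id_apply]
  | n + 1 => by
    rintro _ ⟨F, hF, F', hF', rfl⟩ P hP
    rw [← bind₁_bind₁]
    exact hD.stab _ (comp_stab hD n F' hF' P hP) F hF

/-- composition of the tuples `F n, …, F (n + r - 1)` -/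
noncomputable def cmp (F : ℕ → Fin (N + 1) → MvPolynomial (Fin (N + 1)) R) :
    ℕ → ℕ → Fin (N + 1) → MvPolynomial (Fin (N + 1)) R
  | _, 0 => fun a => X a
  | n, r + 1 => fun a => bind₁ (F n) (cmp F (n + 1) r a)

theorem cmp_mem {F : ℕ → Fin (N + 1) → MvPolynomial (Fin (N + 1)) R} (hF : ∀ n, F n ∈ 𝓕) :
    ∀ n r, cmp F n r ∈ Comp 𝓕 r
  | _, 0 => rfl
  | n, r + 1 => ⟨F n, hF n, cmp F (n + 1) r, cmp_mem hF (n + 1) r, rfl⟩

theorem cmp_eval {F : ℕ → Fin (N + 1) → MvPolynomial (Fin (N + 1)) R}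
    {y : ℕ → Fin (N + 1) → R} (hy : ∀ n a, y (n + 1) a = eval (y n) (F n a)) :
    ∀ n r a, eval (y n) (cmp F n r a) = y (n + r) a
  | n, 0, a => by simp [cmp]
  | n, r + 1, a => by
    have h1 : (fun a => eval (y n) (F n a)) = y (n + 1) := by
      funext a
      rw [hy]
    have h2 : n + 1 + r = n + (r + 1) := by ring
    rw [cmp, eval_bind, h1, cmp_eval hy (n + 1) r a, h2]

theorem cmp_periodic {F : ℕ → Fin (N + 1) → MvPolynomial (Fin (N + 1)) R} {n0 k : ℕ}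
    (hF : ∀ n, n0 ≤ n → F (n + k) = F n) :
    ∀ r n, n0 ≤ n → cmp F (n + k) r = cmp F n r
  | 0, _, _ => rfl
  | r + 1, n, hn => by
    funext a
    rw [cmp, cmp, hF n hn]
    have h1 : n + k + 1 = n + 1 + k := by ring
    rw [h1, cmp_periodic hF r (n + 1) (by omega)]

theorem cmp_periodic' {F : ℕ → Fin (N + 1) → MvPolynomial (Fin (N + 1)) R} {n0 k : ℕ}
    (hF : ∀ n, n0 ≤ n → F (n + k) = F n) (r n : ℕ) (hn : n0 ≤ n) (j : ℕ) :
    cmp F (n + j * k) r = cmp F n r := by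
  induction j with
  | zero => simp
  | succ j ih =>
    have h1 : n + (j + 1) * k = n + j * k + k := by ring
    rw [h1, cmp_periodic hF r _ (by omega), ih]

/-- The step lemma over a local ring. -/
theorem good_step {Q : Type*} [CommRing Q] [IsLocalRing Q] (τ : R →+* Q) (hD : CData R N I 𝓕 x)
    (u : Fin (N + 1) → Q) (h1 : ∀ P ∈ I, eval₂ τ u P = 0) (h2 : ∃ i, IsUnit (u i)) :
    ∃ F ∈ 𝓕, (∀ P ∈ I, eval₂ τ (fun a => eval₂ τ u (F a)) P = 0) ∧
      ∃ i, IsUnit (eval₂ τ u (F i)) := by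
  obtain ⟨i, hi⟩ := h2
  obtain ⟨M, hM⟩ := hD.uni i
  by_contra hcon
  push Not at hcon
  have h3 : ∀ F ∈ 𝓕, ∀ a, eval₂ τ u (F a) ∈ IsLocalRing.maximalIdeal Q := by
    intro F hF a
    rw [IsLocalRing.mem_maximalIdeal, mem_nonunits_iff]
    refine hcon F hF ?_ a
    intro P hP
    rw [← eval₂_bind]
    exact h1 _ (hD.stab P hP F hF)
  have h4 : I ⊔ Ideal.span {P | ∃ F ∈ 𝓕, ∃ a, P = F a} ≤
      Ideal.comap (eval₂Hom τ u) (IsLocalRing.maximalIdeal Q) := by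
    rw [sup_le_iff]
    constructor
    · intro P hP
      rw [Ideal.mem_comap, coe_eval₂Hom, h1 P hP]
      exact Ideal.zero_mem _
    · rw [Ideal.span_le]
      rintro _ ⟨F, hF, a, rfl⟩
      exact h3 F hF a
  have h5 := h4 hM
  rw [Ideal.mem_comap, coe_eval₂Hom, eval₂_pow, eval₂_X, IsLocalRing.mem_maximalIdeal,
    mem_nonunits_iff] at h5
  exact h5 (hi.pow M)

theorem exists_seq {Q : Type*} [CommRing Q] [IsLocalRing Q] [Finite Q] (τ : R →+* Q)
    (hD : CData R N I 𝓕 x) :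
    ∃ (y : ℕ → Fin (N + 1) → R) (F : ℕ → Fin (N + 1) → MvPolynomial (Fin (N + 1)) R),
      y 0 = x ∧ (∀ n, F n ∈ 𝓕) ∧ (∀ n a, y (n + 1) a = eval (y n) (F n a)) ∧
      (∀ n, ∀ P ∈ I, eval (y n) P = 0) ∧ (∀ n, ∃ i, IsUnit (τ (y n i))) ∧
      ∃ n0 k, 0 < k ∧ ∀ n, n0 ≤ n → F (n + k) = F n ∧ ∀ a, τ (y (n + k) a) = τ (y n a) := by
  classical
  let GU := {u : Fin (N + 1) → Q // (∀ P ∈ I, eval₂ τ u P = 0) ∧ ∃ i, IsUnit (u i)}
  have hstep : ∀ u : GU, ∃ F ∈ 𝓕, (∀ P ∈ I, eval₂ τ (fun a => eval₂ τ u.1 (F a)) P = 0) ∧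
      ∃ i, IsUnit (eval₂ τ u.1 (F i)) := fun u => good_step τ hD u.1 u.2.1 u.2.2
  choose H hH1 hH2 using hstep
  let f : GU → GU := fun u => ⟨fun a => eval₂ τ u.1 (H u a), hH2 u⟩
  let u0 : GU := ⟨fun a => τ (x a), by
    refine ⟨fun P hP => ?_, ?_⟩
    · rw [eval₂_map_pt, hD.xI P hP, map_zero]
    · obtain ⟨i, hi⟩ := hD.x1
      refine ⟨i, ?_⟩
      change IsUnit (τ (x i))
      rw [hi, map_one]
      exact isUnit_one⟩
  let F : ℕ → Fin (N + 1) → MvPolynomial (Fin (N + 1)) R := fun n => H (f^[n] u0)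
  let y : ℕ → Fin (N + 1) → R := fun n => Nat.rec x (fun n v => fun a => eval v (F n a)) n
  have hy0 : y 0 = x := rfl
  have hy1 : ∀ n a, y (n + 1) a = eval (y n) (F n a) := fun n a => rfl
  have hτ : ∀ n, (fun a => τ (y n a)) = (f^[n] u0).1 := by
    intro n
    induction n with
    | zero => rfl
    | succ n ih =>
      rw [Function.iterate_succ_apply']
      change _ = fun a => eval₂ τ (f^[n] u0).1 (H (f^[n] u0) a)
      funext a
      rw [hy1, ← eval₂_map_pt τ (y n), ih]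
  have hfin : Finite GU := inferInstance
  have hinj : ¬ Function.Injective (fun n : ℕ => f^[n] u0) := not_injective_infinite_finite _
  simp only [Function.Injective, not_forall] at hinj
  obtain ⟨a, b, hab, hne⟩ := hinj
  obtain ⟨n0, k, hk, hper⟩ : ∃ n0 k, 0 < k ∧ f^[n0 + k] u0 = f^[n0] u0 := by
    rcases lt_or_gt_of_ne hne with h | h
    · obtain ⟨d, rfl⟩ := Nat.exists_eq_add_of_lt h
      exact ⟨a, d + 1, by omega, hab.symm⟩
    · obtain ⟨d, rfl⟩ := Nat.exists_eq_add_of_lt h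
      exact ⟨b, d + 1, by omega, hab⟩
  have hper' : ∀ n, n0 ≤ n → f^[n + k] u0 = f^[n] u0 := by
    intro n hn
    obtain ⟨c, rfl⟩ := Nat.exists_eq_add_of_le hn
    have e1 : n0 + c + k = c + (n0 + k) := by ring
    rw [e1, Function.iterate_add_apply, hper, ← Function.iterate_add_apply, add_comm c]
  refine ⟨y, F, hy0, fun n => hH1 _, hy1, ?_, ?_, n0, k, hk, fun n hn => ⟨?_, ?_⟩⟩
  · intro n
    induction n with
    | zero => exact hD.xI
    | succ n ih =>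
      intro P hP
      have h1 : y (n + 1) = fun a => eval (y n) (F n a) := rfl
      rw [h1, ← eval_bind]
      exact ih _ (hD.stab P hP _ (hH1 _))
  · intro n
    obtain ⟨i, hi⟩ := (f^[n] u0).2.2
    refine ⟨i, ?_⟩
    rw [← hτ n] at hi
    exact hi
  · change H (f^[n + k] u0) = H (f^[n] u0)
    rw [hper' n hn]
  · intro a
    have h1 := congrFun (hτ (n + k)) a
    have h2 := congrFun (hτ n) a
    rw [hper' n hn] at h1
    exact h1.trans h2.symm

end comp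

end Pool.Agent.TH350.CA
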