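import Pool.Agent.TH350.CA1

set_option autoImplicit false

namespace Pool.Agent.TH350.CA

open MvPolynomial Pool.Agent.TH554.J92

section ev

variable {R : Type} [CommRing R] {N : ℕ} {I : Ideal (MvPolynomial (Fin (N + 1)) R)}
  {i : Fin (N + 1)}

/-- the ideal of the chart `X i = 1` -/
noncomputable abbrev JJ (I : Ideal (MvPolynomial (Fin (N + 1)) R)) (i : Fin (N + 1)) :
    Ideal (MvPolynomial (Fin (N + 1)) R) := I ⊔ Ideal.span {X i - 1}

/-- the coordinate ring of the chart `X i = 1` -/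
abbrev CC (I : Ideal (MvPolynomial (Fin (N + 1)) R)) (i : Fin (N + 1)) : Type :=
  MvPolynomial (Fin (N + 1)) R ⧸ JJ I i

/-- class of a polynomial -/
noncomputable abbrev mk (I : Ideal (MvPolynomial (Fin (N + 1)) R)) (i : Fin (N + 1)) :
    MvPolynomial (Fin (N + 1)) R →+* CC I i := Ideal.Quotient.mk (JJ I i)

/-- evaluation at a point -/
noncomputable def ev {S : Type*} [CommRing S] (β : R →+* S) (z : Fin (N + 1) → S)
    (hz : ∀ P ∈ I, eval₂ β z P = 0) (hi : z i = 1) : CC I i →+* S :=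
  Ideal.Quotient.lift (JJ I i) (eval₂Hom β z) (by
    have h1 : JJ I i ≤ RingHom.ker (eval₂Hom β z) := by
      refine sup_le (fun P hP => hz P hP) ?_
      rw [Ideal.span_le]
      rintro _ rfl
      rw [SetLike.mem_coe, RingHom.mem_ker, map_sub, map_one, coe_eval₂Hom, eval₂_X, hi, sub_self]
    intro P hP
    exact h1 hP)

theorem ev_mk {S : Type*} [CommRing S] (β : R →+* S) (z : Fin (N + 1) → S)
    (hz : ∀ P ∈ I, eval₂ β z P = 0) (hi : z i = 1) (P : MvPolynomial (Fin (N + 1)) R) :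
    ev β z hz hi (mk I i P) = eval₂ β z P := rfl

theorem ev_C {S : Type*} [CommRing S] (β : R →+* S) (z : Fin (N + 1) → S)
    (hz : ∀ P ∈ I, eval₂ β z P = 0) (hi : z i = 1) (r : R) :
    ev β z hz hi (mk I i (C r)) = β r := by
  rw [ev_mk, eval₂_C]

theorem ev_X {S : Type*} [CommRing S] (β : R →+* S) (z : Fin (N + 1) → S)
    (hz : ∀ P ∈ I, eval₂ β z P = 0) (hi : z i = 1) (l : Fin (N + 1)) :
    ev β z hz hi (mk I i (X l)) = z l := by
  rw [ev_mk, eval₂_X]

theorem hom_ext {S : Type*} [CommRing S] {χ χ' : CC I i →+* S}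
    (h1 : ∀ r, χ (mk I i (C r)) = χ' (mk I i (C r)))
    (h2 : ∀ l, χ (mk I i (X l)) = χ' (mk I i (X l))) : χ = χ' := by
  apply Ideal.Quotient.ringHom_ext
  apply MvPolynomial.ringHom_ext
  · exact h1
  · exact h2

/-- Homogeneous generators -/
def Hom (I : Ideal (MvPolynomial (Fin (N + 1)) R)) : Prop :=
  ∃ G : Set (MvPolynomial (Fin (N + 1)) R), G.Finite ∧ (∀ g ∈ G, ∃ d, g.IsHomogeneous d) ∧
      I = Ideal.span G

theorem gam_aux (hI : Hom I) (Φ : Fin (N + 1) → MvPolynomial (Fin (N + 1)) R)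
    (hΦ : ∀ P ∈ I, bind₁ Φ P ∈ I) : ∀ P ∈ I, eval₂ ((algebraMap (CC I i)
      (Localization.Away (mk I i (Φ i)))).comp ((mk I i).comp C))
      (fun l => IsLocalization.Away.invSelf (mk I i (Φ i)) * algebraMap (CC I i)
      (Localization.Away (mk I i (Φ i))) (mk I i (Φ l))) P = 0 := by
  apply ideal_scale hI
  intro P hP
  have h1 := hom_bind₁ ((algebraMap (CC I i)
      (Localization.Away (mk I i (Φ i)))).comp (mk I i)) Φ P
  rw [coe_eval₂Hom] at h1
  have h2 : mk I i (bind₁ Φ P) = 0 :=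
    Ideal.Quotient.eq_zero_iff_mem.2 (Ideal.mem_sup_left (hΦ P hP))
  rw [RingHom.comp_apply, h2, map_zero] at h1
  exact h1.symm

/-- the map `X l ↦ Φ l / Φ i` -/
noncomputable def gam (hI : Hom I) (i : Fin (N + 1))
    (Φ : Fin (N + 1) → MvPolynomial (Fin (N + 1)) R)
    (hΦ : ∀ P ∈ I, bind₁ Φ P ∈ I) : CC I i →+* Localization.Away (mk I i (Φ i)) :=
  ev ((algebraMap (CC I i) (Localization.Away (mk I i (Φ i)))).comp ((mk I i).comp C))
    (fun l => IsLocalization.Away.invSelf (mk I i (Φ i)) * algebraMap (CC I i)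
      (Localization.Away (mk I i (Φ i))) (mk I i (Φ l))) (gam_aux hI Φ hΦ)
    (by rw [mul_comm]; exact IsLocalization.Away.mul_invSelf _)

theorem gam_C (hI : Hom I) (Φ : Fin (N + 1) → MvPolynomial (Fin (N + 1)) R)
    (hΦ : ∀ P ∈ I, bind₁ Φ P ∈ I) (r : R) :
    gam hI i Φ hΦ (mk I i (C r)) = algebraMap (CC I i) _ (mk I i (C r)) := by
  rw [gam, ev_C]
  rfl

theorem gam_X (hI : Hom I) (Φ : Fin (N + 1) → MvPolynomial (Fin (N + 1)) R)
    (hΦ : ∀ P ∈ I, bind₁ Φ P ∈ I) (l : Fin (N + 1)) :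
    gam hI i Φ hΦ (mk I i (X l)) = IsLocalization.Away.invSelf (mk I i (Φ i)) *
      algebraMap (CC I i) (Localization.Away (mk I i (Φ i))) (mk I i (Φ l)) := by
  rw [gam, ev_X]

theorem gam_X' (hI : Hom I) (Φ : Fin (N + 1) → MvPolynomial (Fin (N + 1)) R)
    (hΦ : ∀ P ∈ I, bind₁ Φ P ∈ I) (l : Fin (N + 1)) :
    gam hI i Φ hΦ (mk I i (X l)) * algebraMap (CC I i) _ (mk I i (Φ i)) =
      algebraMap (CC I i) (Localization.Away (mk I i (Φ i))) (mk I i (Φ l)) := by
  have h1 := IsLocalization.Away.mul_invSelf (S := Localization.Away (mk I i (Φ i)))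
    (mk I i (Φ i))
  rw [gam_X, mul_assoc, mul_comm (algebraMap _ _ (mk I i (Φ l))), ← mul_assoc, mul_comm
    (IsLocalization.Away.invSelf _), h1, one_mul]

/-- the point of the chart given by homogeneous coordinates `β (y l)` -/
noncomputable def pt {S : Type*} [CommRing S] (hI : Hom I) (i : Fin (N + 1)) (β : R →+* S)
    (y : Fin (N + 1) → R) (hy : ∀ P ∈ I, eval y P = 0) (c : S) (hc : c * β (y i) = 1) :
    CC I i →+* S :=
  ev β (fun l => c * β (y l)) (ideal_scale hI β (fun l => β (y l)) (fun P hP => by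
    rw [eval₂_map_pt, hy P hP, map_zero]) c) hc

section

variable {S : Type*} [CommRing S] (hI : Hom I) (β : R →+* S)
    (y : Fin (N + 1) → R) (hy : ∀ P ∈ I, eval y P = 0) (c : S) (hc : c * β (y i) = 1)

theorem pt_C (r : R) : pt hI i β y hy c hc (mk I i (C r)) = β r := ev_C _ _ _ _ _

theorem pt_X (l : Fin (N + 1)) : pt hI i β y hy c hc (mk I i (X l)) = c * β (y l) :=
  ev_X _ _ _ _ _

theorem pt_mk (P : MvPolynomial (Fin (N + 1)) R) :
    pt hI i β y hy c hc (mk I i P) = eval₂ β (fun l => c * β (y l)) P := rfl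

theorem pt_hom {P : MvPolynomial (Fin (N + 1)) R} {d : ℕ} (hP : P.IsHomogeneous d) :
    pt hI i β y hy c hc (mk I i P) = c ^ d * β (eval y P) := by
  rw [pt_mk, eval₂_scale β (fun l => β (y l)) c hP, eval₂_map_pt]

theorem pt_unit {P : MvPolynomial (Fin (N + 1)) R} {d : ℕ} (hP : P.IsHomogeneous d)
    (hu : IsUnit (β (eval y P))) : IsUnit (pt hI i β y hy c hc (mk I i P)) := by
  rw [pt_hom hI β y hy c hc hP]
  exact ((IsUnit.of_mul_eq_one _ hc).pow d).mul hu

theorem pt_rec (Φ : Fin (N + 1) → MvPolynomial (Fin (N + 1)) R)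
    (hΦ : ∀ P ∈ I, bind₁ Φ P ∈ I) {d : ℕ} (hd : ∀ a, (Φ a).IsHomogeneous d)
    (y' : Fin (N + 1) → R) (hyy' : ∀ a, y' a = eval y (Φ a)) (hy' : ∀ P ∈ I, eval y' P = 0)
    (c' : S) (hc' : c' * β (y' i) = 1)
    (hu : IsUnit (pt hI i β y hy c hc (mk I i (Φ i)))) (q : CC I i) :
    pt hI i β y' hy' c' hc' q = IsLocalization.Away.lift _ hu (gam hI i Φ hΦ q) := by
  have key : pt hI i β y' hy' c' hc' =
      (IsLocalization.Away.lift (S := Localization.Away (mk I i (Φ i))) _ hu).comp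
        (gam hI i Φ hΦ) := by
    apply hom_ext
    · intro r
      rw [pt_C, RingHom.comp_apply, gam_C, IsLocalization.Away.lift_eq, pt_C]
    · intro l
      rw [pt_X, RingHom.comp_apply, gam_X, map_mul, IsLocalization.Away.lift_eq,
        pt_hom hI β y hy c hc (hd l), ← hyy']
      set t := IsLocalization.Away.lift (S := Localization.Away (mk I i (Φ i))) (mk I i (Φ i)) hu
        (IsLocalization.Away.invSelf (mk I i (Φ i))) with ht
      have h1 : (c ^ d * β (y' i)) * t = 1 := by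
        have h2 := congrArg (IsLocalization.Away.lift (S := Localization.Away (mk I i (Φ i)))
          (mk I i (Φ i)) hu) (IsLocalization.Away.mul_invSelf
            (S := Localization.Away (mk I i (Φ i))) (mk I i (Φ i)))
        rw [map_mul, IsLocalization.Away.lift_eq, map_one, pt_hom hI β y hy c hc (hd i),
          ← hyy'] at h2
        exact h2
      have h3 : c' = t * c ^ d := by
        calc c' = c' * ((c ^ d * β (y' i)) * t) := by rw [h1, mul_one]
          _ = (c' * β (y' i)) * (t * c ^ d) := by ring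
          _ = t * c ^ d := by rw [hc', one_mul]
      rw [h3]
      ring
  rw [key]
  rfl

end

end ev

end Pool.Agent.TH350.CA
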