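import Mathlib

set_option autoImplicit false

namespace Pool.Agent.TH350.J63

open PadicInt

section basics

variable {p : ℕ} [hp : Fact p.Prime]

theorem pow_dvd_iff (z : ℤ_[p]) (t : ℕ) : (p : ℤ_[p]) ^ t ∣ z ↔ toZModPow t z = 0 := by
  rw [← RingHom.mem_ker, ker_toZModPow, Ideal.mem_span_singleton]

open Classical in
/-- division by `p ^ t` -/
noncomputable def dv (t : ℕ) (z : ℤ_[p]) : ℤ_[p] :=
  if h : (p : ℤ_[p]) ^ t ∣ z then h.choose else 0

theorem dv_spec {t : ℕ} {z : ℤ_[p]} (h : (p : ℤ_[p]) ^ t ∣ z) : z = (p : ℤ_[p]) ^ t * dv t z := by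
  rw [dv, dif_pos h]
  exact h.choose_spec

theorem ppow_ne_zero (t : ℕ) : ((p : ℤ_[p]) ^ t) ≠ 0 := by
  apply pow_ne_zero
  exact_mod_cast hp.out.ne_zero

theorem dv_eq {t : ℕ} {z q : ℤ_[p]} (h : z = (p : ℤ_[p]) ^ t * q) : dv t z = q := by
  have h1 : (p : ℤ_[p]) ^ t ∣ z := ⟨q, h⟩
  have h2 := dv_spec h1
  exact mul_left_cancel₀ (ppow_ne_zero t) (h2.symm.trans h)

variable {D : Type*} [CommRing D]

/-- the dual number valued homomorphism attached to a pair of congruent homomorphisms -/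
noncomputable def del (t : ℕ) (ht : 2 ≤ t) (a b : D →+* ℤ_[p])
    (h : ∀ x, (p : ℤ_[p]) ^ t ∣ b x - a x) : D →+* TrivSqZeroExt (ZMod (p ^ 2)) (ZMod (p ^ 2)) where
  toFun x := TrivSqZeroExt.inl (toZModPow 2 (a x)) +
    TrivSqZeroExt.inr (toZModPow 2 (dv t (b x - a x)))
  map_one' := by
    have h1 : dv t (b 1 - a 1) = 0 := dv_eq (by simp)
    rw [h1, map_one, map_one, map_zero]
    simp
  map_zero' := by
    have h1 : dv t (b 0 - a 0) = 0 := dv_eq (by simp)
    rw [h1, map_zero, map_zero]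
    simp
  map_add' x y := by
    have h1 : dv t (b (x + y) - a (x + y)) = dv t (b x - a x) + dv t (b y - a y) := by
      apply dv_eq
      have hx := dv_spec (h x)
      have hy := dv_spec (h y)
      rw [map_add, map_add, mul_add, ← hx, ← hy]
      ring
    rw [h1, map_add, map_add, map_add]
    apply TrivSqZeroExt.ext <;> simp
  map_mul' x y := by
    have h1 : dv t (b (x * y) - a (x * y)) = a x * dv t (b y - a y) + a y * dv t (b x - a x) +
        (p : ℤ_[p]) ^ t * (dv t (b x - a x) * dv t (b y - a y)) := by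
      apply dv_eq
      have hx : b x = a x + (p : ℤ_[p]) ^ t * dv t (b x - a x) := by
        rw [← dv_spec (h x)]; ring
      have hy : b y = a y + (p : ℤ_[p]) ^ t * dv t (b y - a y) := by
        rw [← dv_spec (h y)]; ring
      generalize dv t (b x - a x) = X at hx ⊢
      generalize dv t (b y - a y) = Y at hy ⊢
      rw [map_mul, map_mul, hx, hy]
      ring
    have h2 : toZModPow 2 ((p : ℤ_[p]) ^ t * (dv t (b x - a x) * dv t (b y - a y))) = 0 := by
      rw [← pow_dvd_iff]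
      exact Dvd.dvd.mul_right (pow_dvd_pow _ ht) _
    apply TrivSqZeroExt.ext
    · simp
    · rw [h1, map_add, map_add, map_mul, map_mul, h2, add_zero]
      simp [mul_comm]

theorem fst_del (t : ℕ) (ht : 2 ≤ t) (a b : D →+* ℤ_[p])
    (h : ∀ x, (p : ℤ_[p]) ^ t ∣ b x - a x) (x : D) :
    (del t ht a b h x).fst = toZModPow 2 (a x) := by
  simp [del]

theorem snd_del (t : ℕ) (ht : 2 ≤ t) (a b : D →+* ℤ_[p])
    (h : ∀ x, (p : ℤ_[p]) ^ t ∣ b x - a x) (x : D) :
    (del t ht a b h x).snd = toZModPow 2 (dv t (b x - a x)) := by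
  simp [del]

end basics

section dyn

variable {p : ℕ} [hp : Fact p.Prime]
variable {C : Type*} [CommRing C] (s : C) (γ : C →+* Localization.Away s)

open Classical in
/-- the operator on dual number valued points -/
noncomputable def AA (R : Type*) [CommRing R] (χ : C →+* R) : C →+* R :=
  if h : IsUnit (χ s) then (IsLocalization.Away.lift s h).comp γ else χ

theorem AA_of_unit {R : Type*} [CommRing R] (χ : C →+* R) (h : IsUnit (χ s)) :
    AA s γ R χ = (IsLocalization.Away.lift s h).comp γ := by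
  rw [AA, dif_pos h]

theorem dvd_lift (t : ℕ) (a b : C →+* ℤ_[p]) (h : ∀ x, (p : ℤ_[p]) ^ t ∣ b x - a x)
    (ha : IsUnit (a s)) (hb : IsUnit (b s)) (y : Localization.Away s) :
    (p : ℤ_[p]) ^ t ∣ IsLocalization.Away.lift s hb y - IsLocalization.Away.lift s ha y := by
  have h1 : (toZModPow t).comp (IsLocalization.Away.lift s hb : Localization.Away s →+* ℤ_[p]) =
      (toZModPow t).comp (IsLocalization.Away.lift s ha) := by
    apply IsLocalization.ringHom_ext (Submonoid.powers s)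
    ext c
    simp only [RingHom.coe_comp, Function.comp_apply, IsLocalization.Away.lift_eq]
    rw [← sub_eq_zero, ← map_sub, ← pow_dvd_iff]
    exact h c
  rw [pow_dvd_iff, map_sub, sub_eq_zero]
  exact DFunLike.congr_fun h1 y

theorem star (t : ℕ) (ht : 2 ≤ t) (a b : C →+* ℤ_[p]) (h : ∀ x, (p : ℤ_[p]) ^ t ∣ b x - a x)
    (ha : IsUnit (a s)) (hb : IsUnit (b s)) :
    ∃ h' : ∀ x, (p : ℤ_[p]) ^ t ∣ AA s γ _ b x - AA s γ _ a x,
      del t ht (AA s γ _ a) (AA s γ _ b) h' = AA s γ _ (del t ht a b h) := by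
  rw [AA_of_unit s γ a ha, AA_of_unit s γ b hb]
  have h1 := dvd_lift s t a b h ha hb
  refine ⟨fun x => h1 (γ x), ?_⟩
  have h2 : ∀ y, del t ht _ _ h1 (algebraMap C _ y) = del t ht a b h y := by
    intro y
    apply TrivSqZeroExt.ext
    · rw [fst_del, fst_del, IsLocalization.Away.lift_eq]
    · rw [snd_del, snd_del, IsLocalization.Away.lift_eq, IsLocalization.Away.lift_eq]
  have h3 : IsUnit (del t ht a b h s) := by
    rw [← h2]
    exact (IsLocalization.Away.algebraMap_isUnit s).map _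
  rw [AA_of_unit s γ _ h3]
  have h4 : IsLocalization.Away.lift s h3 = del t ht _ _ h1 := by
    apply IsLocalization.ringHom_ext (Submonoid.powers s)
    ext1 c
    rw [RingHom.comp_apply, RingHom.comp_apply, IsLocalization.Away.lift_eq, h2]
  rw [h4]
  ext1 x
  apply TrivSqZeroExt.ext
  · rw [fst_del, RingHom.comp_apply, RingHom.comp_apply, fst_del]
  · rw [snd_del, RingHom.comp_apply, RingHom.comp_apply, RingHom.comp_apply, snd_del]

theorem star_iter (t : ℕ) (ht : 2 ≤ t) (φ : ℕ → C →+* ℤ_[p]) (hu : ∀ j, IsUnit (φ j s))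
    (hstep : ∀ j, φ (j + 1) = AA s γ _ (φ j)) (i j : ℕ)
    (h : ∀ x, (p : ℤ_[p]) ^ t ∣ φ j x - φ i x) (r : ℕ) :
    ∃ h' : ∀ x, (p : ℤ_[p]) ^ t ∣ φ (j + r) x - φ (i + r) x,
      del t ht (φ (i + r)) (φ (j + r)) h' = (AA s γ _)^[r] (del t ht (φ i) (φ j) h) := by
  induction r with
  | zero => exact ⟨h, rfl⟩
  | succ r ih =>
    obtain ⟨h', h1⟩ := ih
    obtain ⟨h'', h2⟩ := star s γ t ht _ _ h' (hu _) (hu _)
    rw [Function.iterate_succ_apply', ← h1, ← h2]
    have e1 : φ (i + (r + 1)) = AA s γ _ (φ (i + r)) := hstep _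
    have e2 : φ (j + (r + 1)) = AA s γ _ (φ (j + r)) := hstep _
    simp only [e1, e2]
    exact ⟨h'', trivial⟩

theorem exists_idem {X : Type*} [Finite X] (f : X → X) :
    ∃ e : ℕ, 0 < e ∧ ∀ x, f^[e] (f^[e] x) = f^[e] x := by
  have hfin : Finite (X → X) := inferInstance
  have h : ¬ Function.Injective (fun n : ℕ => f^[n]) := not_injective_infinite_finite _
  simp only [Function.Injective, not_forall] at h
  obtain ⟨a, b, hab, hne⟩ := h
  wlog hlt : a < b generalizing a b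
  · exact this b a hab.symm (Ne.symm hne) (lt_of_le_of_ne (not_lt.mp hlt) (Ne.symm hne))
  obtain ⟨d, rfl⟩ := Nat.exists_eq_add_of_lt hlt
  -- period `d + 1` from `a` on
  have hper : ∀ n, a ≤ n → ∀ k, f^[n + k * (d + 1)] = f^[n] := by
    intro n hn k
    induction k with
    | zero => simp
    | succ k ih =>
      obtain ⟨c, rfl⟩ := Nat.exists_eq_add_of_le hn
      have e1 : a + c + (k + 1) * (d + 1) = (c + k * (d + 1)) + (a + d + 1) := by ring
      have e2 : a + c + k * (d + 1) = (c + k * (d + 1)) + a := by ring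
      have e3 : f^[a + c + (k + 1) * (d + 1)] = f^[c + k * (d + 1)] ∘ f^[a + d + 1] := by
        rw [e1]; exact Function.iterate_add f _ _
      have e4 : f^[a + c + k * (d + 1)] = f^[c + k * (d + 1)] ∘ f^[a] := by
        rw [e2]; exact Function.iterate_add f _ _
      rw [← ih, e3, e4]
      change f^[a] = f^[a + d + 1] at hab
      rw [hab]
  refine ⟨(a + 1) * (d + 1), by positivity, fun x => ?_⟩
  rw [← Function.iterate_add_apply, hper _ (by nlinarith)]

theorem finite_hom [Algebra.FiniteType ℤ C] (R : Type*) [CommRing R] [Finite R] :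
    Finite (C →+* R) := by
  obtain ⟨S, hS⟩ := (Algebra.FiniteType.out : (⊤ : Subalgebra ℤ C).FG)
  refine Finite.of_injective (fun (χ : C →+* R) (c : S) => χ c) ?_
  intro χ χ' h
  have h1 : χ.toIntAlgHom = χ'.toIntAlgHom := by
    apply AlgHom.ext_of_adjoin_eq_top hS
    intro c hc
    exact congrFun h ⟨c, hc⟩
  ext x
  exact DFunLike.congr_fun h1 x

theorem const (φ : ℕ → C →+* ℤ_[p]) (hu : ∀ j, IsUnit (φ j s))
    (hstep : ∀ j, φ (j + 1) = AA s γ _ (φ j)) (e : ℕ)
    (he : ∀ χ : C →+* TrivSqZeroExt (ZMod (p ^ 2)) (ZMod (p ^ 2)),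
      (AA s γ _)^[e] ((AA s γ _)^[e] χ) = (AA s γ _)^[e] χ)
    (m j t : ℕ) (ht : 2 ≤ t) (h : ∀ x, (p : ℤ_[p]) ^ t ∣ φ (e * (j + m)) x - φ (e * j) x) :
    (∀ i, j ≤ i → ∀ x, (p : ℤ_[p]) ^ t ∣ φ (e * (i + m)) x - φ (e * i) x) ∧
    (∀ i, j + 1 ≤ i → ∀ x, (p : ℤ_[p]) ^ (t + 2) ∣ (φ (e * (i + m)) x - φ (e * i) x) -
      (φ (e * (j + 1 + m)) x - φ (e * (j + 1)) x)) := by
  set χ := del t ht (φ (e * j)) (φ (e * (j + m))) h with hχ
  have key : ∀ k, ∃ h' : ∀ x, (p : ℤ_[p]) ^ t ∣ φ (e * (j + k + m)) x - φ (e * (j + k)) x,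
      del t ht (φ (e * (j + k))) (φ (e * (j + k + m))) h' = ((AA s γ _)^[e])^[k] χ := by
    intro k
    obtain ⟨h', h1⟩ := star_iter s γ t ht φ hu hstep (e * j) (e * (j + m)) h (e * k)
    have e1 : e * j + e * k = e * (j + k) := by ring
    have e2 : e * (j + m) + e * k = e * (j + k + m) := by ring
    rw [← Function.iterate_mul, ← h1]
    simp only [e1, e2] at h' ⊢
    exact ⟨h', trivial⟩
  have hB : ∀ k, ((AA s γ _)^[e])^[k + 1] χ = (AA s γ _)^[e] χ := by
    intro k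
    induction k with
    | zero => rfl
    | succ k ih => rw [Function.iterate_succ_apply', ih, he]
  refine ⟨?_, ?_⟩
  · intro i hi
    obtain ⟨k, rfl⟩ := Nat.exists_eq_add_of_le hi
    exact (key k).1
  · intro i hi x
    obtain ⟨k, rfl⟩ := Nat.exists_eq_add_of_le hi
    obtain ⟨h1, h2⟩ := key (k + 1)
    obtain ⟨h3, h4⟩ := key 1
    rw [hB] at h2
    rw [hB 0, ← h2] at h4
    have h5 := congrArg (fun (χ : C →+* _) => TrivSqZeroExt.snd (χ x)) h4
    simp only [snd_del] at h5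
    have e1 : j + (k + 1) = j + 1 + k := by ring
    simp only [e1] at h1 h5
    rw [← sub_eq_zero, ← map_sub, ← pow_dvd_iff] at h5
    have h6 := mul_dvd_mul_left ((p : ℤ_[p]) ^ t) h5
    rw [mul_sub, ← dv_spec (h3 x), ← dv_spec (h1 x), ← pow_add] at h6
    rw [← dvd_neg]
    convert h6 using 1
    ring

/-- a difference of exact valuation -/
def PP (w : ℕ → C →+* ℤ_[p]) (m t : ℕ) : Prop :=
  ∃ j x, (∀ y, (p : ℤ_[p]) ^ t ∣ w (j + m) y - w j y) ∧
    ¬ (p : ℤ_[p]) ^ (t + 1) ∣ w (j + 1 + m) x - w (j + 1) x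

theorem PP_step (w : ℕ → C →+* ℤ_[p])
    (hw : ∀ m j t : ℕ, 2 ≤ t → (∀ x, (p : ℤ_[p]) ^ t ∣ w (j + m) x - w j x) →
      (∀ i, j ≤ i → ∀ x, (p : ℤ_[p]) ^ t ∣ w (i + m) x - w i x) ∧
      (∀ i, j + 1 ≤ i → ∀ x, (p : ℤ_[p]) ^ (t + 2) ∣ (w (i + m) x - w i x) -
        (w (j + 1 + m) x - w (j + 1) x))) {m t : ℕ} (ht : 2 ≤ t) (h : PP w m t) :
    PP w (p * m) (t + 1) ∧ ∀ k, ¬ p ∣ k → ∃ j, ∀ i, j ≤ i → w (i + k * m) ≠ w i := by
  obtain ⟨j, x, h1, h2⟩ := h
  obtain ⟨h3, h4⟩ := hw m j t ht h1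
  have hsum : ∀ i, j + 1 ≤ i → ∀ y, ∀ k : ℕ, (p : ℤ_[p]) ^ (t + 2) ∣
      (w (i + k * m) y - w i y) - k * (w (j + 1 + m) y - w (j + 1) y) := by
    intro i hi y k
    induction k with
    | zero => simp
    | succ k ih =>
      have h5 := h4 (i + k * m) (by omega) y
      have h6 := dvd_add ih h5
      convert h6 using 1
      have e1 : i + (k + 1) * m = i + k * m + m := by ring
      rw [e1]
      push_cast
      ring
  obtain ⟨q, hq⟩ := h3 (j + 1) (by omega) x
  have hpq : ¬ (p : ℤ_[p]) ∣ q := by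
    intro h5
    apply h2
    rw [hq, pow_succ]
    exact mul_dvd_mul_left _ h5
  have hprime : Prime (p : ℤ_[p]) := PadicInt.prime_p
  refine ⟨⟨j + 1, x, ?_, ?_⟩, ?_⟩
  · intro y
    have h5 := hsum (j + 1) le_rfl y p
    have h6 : (p : ℤ_[p]) ^ (t + 1) ∣ (p : ℤ_[p]) * (w (j + 1 + m) y - w (j + 1) y) := by
      rw [pow_succ, mul_comm]
      exact mul_dvd_mul_left _ (h3 (j + 1) (by omega) y)
    have h7 := dvd_add (dvd_trans (pow_dvd_pow _ (by omega : t + 1 ≤ t + 2)) h5) h6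
    convert h7 using 1
    ring
  · intro h5
    have h6 := hsum (j + 1 + 1) (by omega) x p
    have h7 : (p : ℤ_[p]) ^ (t + 2) ∣ (p : ℤ_[p]) * (w (j + 1 + m) x - w (j + 1) x) := by
      have := dvd_sub (show (p : ℤ_[p]) ^ (t + 2) ∣ _ from h5) h6
      convert this using 1
      ring
    rw [hq, show (p : ℤ_[p]) ^ (t + 2) = p * p ^ t * p by ring,
      show (p : ℤ_[p]) * ((p : ℤ_[p]) ^ t * q) = p * p ^ t * q by ring] at h7
    exact hpq ((mul_dvd_mul_iff_left (mul_ne_zero hprime.ne_zero (ppow_ne_zero t))).1 h7)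
  · intro k hk
    refine ⟨j + 1, fun i hi heq => ?_⟩
    have h5 := hsum i hi x k
    rw [heq, sub_self, zero_sub, dvd_neg, hq,
      show (p : ℤ_[p]) ^ (t + 2) = p ^ t * (p * p) by ring,
      show (k : ℤ_[p]) * ((p : ℤ_[p]) ^ t * q) = p ^ t * (k * q) by ring] at h5
    have h6 := (mul_dvd_mul_iff_left (ppow_ne_zero t)).1 h5
    rcases hprime.dvd_or_dvd (dvd_trans (dvd_mul_right _ _) h6) with h7 | h7
    · apply hk
      have h8 : (toZModPow 1 (k : ℤ_[p])) = 0 := by
        rw [← pow_dvd_iff, pow_one]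
        exact h7
      rw [map_natCast, ZMod.natCast_eq_zero_iff, pow_one] at h8
      exact h8
    · exact hpq h7

end dyn

/-- P1 (dichotomy). `C` is a finitely generated ring, `γ : C → C[1/s]`. A sequence of ring homs
`φ j : C → ℤ_p`, all congruent mod `p ^ 2` to a fixed `φ₀`, with `φ (j+1) = (φ j extended to C[1/s]) ∘ γ`.
Then, for some `e ≥ 1` depending only on `C, s, γ, φ₀`, the subsequence `φ (e * j)` either converges
geometrically or is injective. -/
theorem P1 (p : ℕ) [Fact p.Prime] (C : Type) [CommRing C] [Algebra.FiniteType ℤ C] (s : C)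
    (γ : C →+* Localization.Away s) (φ₀ : C →+* ℤ_[p]) :
    ∃ e : ℕ, 0 < e ∧ ∀ (φ : ℕ → (C →+* ℤ_[p])) (hs : ∀ j, IsUnit (φ j s)),
      (∀ j c, ‖φ j c - φ₀ c‖ ≤ (p : ℝ) ^ (-2 : ℤ)) →
      (∀ j c, φ (j + 1) c = IsLocalization.Away.lift s (hs j) (γ c)) →
      (∀ j c, ‖φ (e * (j + 1)) c - φ (e * j) c‖ ≤ (p : ℝ) ^ (-(j : ℤ))) ∨
        Function.Injective (fun j => φ (e * j)) := by
  have hf1 : Finite (TrivSqZeroExt (ZMod (p ^ 2)) (ZMod (p ^ 2))) :=
    inferInstanceAs (Finite (ZMod (p ^ 2) × ZMod (p ^ 2)))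
  have hf2 := finite_hom (C := C) (TrivSqZeroExt (ZMod (p ^ 2)) (ZMod (p ^ 2)))
  obtain ⟨e, he0, he⟩ := exists_idem
    (AA s γ (TrivSqZeroExt (ZMod (p ^ 2)) (ZMod (p ^ 2))))
  refine ⟨e, he0, ?_⟩
  intro φ hs hφ₀ hstep'
  have hstep : ∀ j, φ (j + 1) = AA s γ _ (φ j) := by
    intro j
    rw [AA_of_unit s γ _ (hs j)]
    ext1 c
    exact hstep' j c
  have hconst := const s γ φ hs hstep e he
  set w : ℕ → C →+* ℤ_[p] := fun j => φ (e * j) with hwdef
  have hw : ∀ m j t : ℕ, 2 ≤ t → (∀ x, (p : ℤ_[p]) ^ t ∣ w (j + m) x - w j x) →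
      (∀ i, j ≤ i → ∀ x, (p : ℤ_[p]) ^ t ∣ w (i + m) x - w i x) ∧
      (∀ i, j + 1 ≤ i → ∀ x, (p : ℤ_[p]) ^ (t + 2) ∣ (w (i + m) x - w i x) -
        (w (j + 1 + m) x - w (j + 1) x)) := fun m j t ht h => hconst m j t ht h
  by_cases hA : ∀ j, ∀ c, (p : ℤ_[p]) ^ (j + 2) ∣ w (j + 1) c - w j c
  · left
    intro j c
    rw [norm_le_pow_iff_mem_span_pow, Ideal.mem_span_singleton]
    exact dvd_trans (pow_dvd_pow _ (by omega)) (hA j c)
  · right
    push Not at hA
    classical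
    have hfind := Nat.find_spec hA
    set j := Nat.find hA with hj
    obtain ⟨x, hx⟩ := hfind
    have hj0 : j ≠ 0 := by
      intro h0
      rw [h0] at hx
      apply hx
      have h1 : ∀ i, (p : ℤ_[p]) ^ 2 ∣ w i x - φ₀ x := by
        intro i
        have h2 := hφ₀ (e * i) x
        have h3 := (norm_le_pow_iff_mem_span_pow (w i x - φ₀ x) 2).1 h2
        rwa [Ideal.mem_span_singleton] at h3
      have h2 := dvd_sub (h1 (0 + 1)) (h1 0)
      convert h2 using 1
      ring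
    obtain ⟨i, hi⟩ := Nat.exists_eq_succ_of_ne_zero hj0
    have hmin : ∀ c, (p : ℤ_[p]) ^ (i + 2) ∣ w (i + 1) c - w i c := by
      have h1 := Nat.find_min hA (m := i) (by omega)
      push Not at h1
      exact h1
    have hPP : ∀ a : ℕ, PP w (p ^ a) (i + 2 + a) := by
      intro a
      induction a with
      | zero =>
        refine ⟨i, x, ?_, ?_⟩
        · simpa using hmin
        · rw [hi] at hx
          simpa using hx
      | succ a ih =>
        have h1 := (PP_step w hw (by omega) ih).1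
        rw [pow_succ, mul_comm]
        exact h1
    have hadd : ∀ a b, φ a = φ b → ∀ r, φ (a + r) = φ (b + r) := by
      intro a b hab r
      induction r with
      | zero => exact hab
      | succ r ih =>
        rw [← add_assoc, ← add_assoc, hstep, hstep, ih]
    have hlt : ∀ a b, a < b → w a ≠ w b := by
      intro a b hab heq
      obtain ⟨n, rfl⟩ := Nat.exists_eq_add_of_lt hab
      obtain ⟨r, k, hk, hn⟩ := Nat.exists_eq_pow_mul_and_not_dvd (n := n + 1) (by omega) p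
        (Fact.out : p.Prime).ne_one
      obtain ⟨j', hj'⟩ := (PP_step w hw (by omega) (hPP r)).2 k hk
      apply hj' (a + j') (by omega)
      have h1 : e * (a + j' + k * p ^ r) = e * (a + n + 1) + e * j' := by
        rw [mul_comm k, ← hn]
        ring
      have h2 : e * (a + j') = e * a + e * j' := by ring
      change φ (e * (a + j' + k * p ^ r)) = φ (e * (a + j'))
      rw [h1, h2]
      exact hadd _ _ heq.symm _
    intro a b hab
    rcases lt_trichotomy a b with h | h | h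
    · exact absurd hab (hlt a b h)
    · exact h
    · exact absurd hab.symm (hlt b a h)

end Pool.Agent.TH350.J63
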