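import Pool.Agent.TH350.CA2
import Pool.Agent.TH350.J63
import Pool.Agent.TH554.J64

set_option autoImplicit false

namespace Pool.Agent.TH350.CA

open MvPolynomial Pool.Agent.TH554.J92 PadicInt

theorem ft_int {R : Type} [CommRing R] (hR : Algebra.FiniteType ℤ R)
    {S : Type} [CommRing S] [Algebra R S] (h : Algebra.FiniteType R S) :
    Algebra.FiniteType ℤ S := Algebra.FiniteType.trans hR h

theorem ft_CC {R : Type} [CommRing R] {N : ℕ}
    (I : Ideal (MvPolynomial (Fin (N + 1)) R)) (i : Fin (N + 1)) :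
    Algebra.FiniteType R (CC I i) := by
  have : Algebra.FiniteType R (MvPolynomial (Fin (N + 1)) R) := inferInstance
  exact this.of_surjective (Ideal.Quotient.mkₐ R (JJ I i)) (Ideal.Quotient.mkₐ_surjective _ _)

section padic

variable {p : ℕ} [hp : Fact p.Prime]

theorem nontriv : Nontrivial (ZMod (p ^ 2)) := by
  have : Fact (1 < p ^ 2) := ⟨Nat.one_lt_pow (by norm_num) hp.out.one_lt⟩
  infer_instance

theorem isLocalHom_toZModPow : IsLocalHom (toZModPow 2 : ℤ_[p] →+* ZMod (p ^ 2)) := by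
  have := nontriv (p := p)
  exact IsLocalHom.of_surjective (toZModPow 2) (ZMod.ringHom_surjective _)

theorem isLocalRing_zmod : IsLocalRing (ZMod (p ^ 2)) := by
  have := nontriv (p := p)
  exact IsLocalRing.of_surjective' (toZModPow 2 : ℤ_[p] →+* ZMod (p ^ 2))
    (ZMod.ringHom_surjective _)

theorem norm_iff (z : ℤ_[p]) : ‖z‖ ≤ (p : ℝ) ^ (-2 : ℤ) ↔ toZModPow 2 z = 0 := by
  have h := norm_le_pow_iff_mem_span_pow z 2
  rw [← RingHom.mem_ker, ker_toZModPow]
  exact h

end padic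

theorem CA_core (R : Type) [CommRing R] [Algebra.FiniteType ℤ R] (N : ℕ)
    (I : Ideal (MvPolynomial (Fin (N + 1)) R))
    (𝓕 : Set (Fin (N + 1) → MvPolynomial (Fin (N + 1)) R)) (x : Fin (N + 1) → R)
    (hD : CData R N I 𝓕 x) (p : ℕ) [hp : Fact p.Prime] (m : ℕ)
    (b : (Fin m → ℤ_[p]) → (R →+* ℤ_[p]))
    (hb1 : ∀ β β' r, ‖b β r - b β' r‖ ≤ (p : ℝ) ^ (-2 : ℤ))
    (hb2 : ∀ r, Continuous fun β => b β r)
    (hb3 : ∀ r, r ≠ 0 → ∀ U : Set (Fin m → ℤ_[p]), IsOpen U → U.Nonempty → ∃ β ∈ U, b β r ≠ 0)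
    (y : ℕ → Fin (N + 1) → R) (F : ℕ → Fin (N + 1) → MvPolynomial (Fin (N + 1)) R)
    (hF : ∀ n, F n ∈ 𝓕) (hyF : ∀ n a, y (n + 1) a = eval (y n) (F n a))
    (hyI : ∀ n, ∀ P ∈ I, eval (y n) P = 0)
    (hunit : ∀ n, ∃ i, IsUnit (toZModPow 2 (b 0 (y n i))))
    (n0 k : ℕ) (hk : 0 < k)
    (hper : ∀ n, n0 ≤ n → F (n + k) = F n ∧
      ∀ a, toZModPow 2 (b 0 (y (n + k) a)) = toZModPow 2 (b 0 (y n a)))
    (hDD : ∀ n n', n ≠ n' → ∃ a c, y n a * y n' c ≠ y n c * y n' a)
    (hPP : ∀ n : Fin m → ℤ, ∃ n1 t, 0 < t ∧ ∀ n', n1 ≤ n' → ∀ q a c,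
      b (fun i => (n i : ℤ_[p])) (y n' a * y (n' + q * t) c) =
        b (fun i => (n i : ℤ_[p])) (y n' c * y (n' + q * t) a)) :
    ∃ (K : ℕ) (Φ : Fin (N + 1) → MvPolynomial (Fin (N + 1)) R) (_ : Φ ∈ Comp 𝓕 K)
      (i : Fin (N + 1))
      (γ : CC I i →+* Localization.Away (mk I i (Φ i)))
      (𝔮 : ℕ → Ideal (CC I i)),
      (∀ r : R, γ (mk I i (MvPolynomial.C r)) =
        algebraMap _ _ (mk I i (MvPolynomial.C r))) ∧
      (∀ l, γ (mk I i (X l)) * algebraMap _ _ (mk I i (Φ i)) =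
        algebraMap _ _ (mk I i (Φ l))) ∧
      (∀ m, (𝔮 m).IsPrime) ∧ (∀ m, mk I i (Φ i) ∉ 𝔮 m) ∧
      (∀ m, Ideal.comap γ (Ideal.map (algebraMap _ _) (𝔮 (m + 1))) = 𝔮 m) ∧
      (∀ c, γ c - algebraMap _ _ c ∈
        Ideal.map (algebraMap _ (Localization.Away (mk I i (Φ i)))) (𝔮 0)) ∧
      (∀ r : R, mk I i (MvPolynomial.C r) ∈ 𝔮 0 → r = 0) ∧ 𝔮 1 < 𝔮 0 := by
  have hloc := isLocalHom_toZModPow (p := p)
  have hI : Hom I := hD.hom
  obtain ⟨i, hi⟩ := hunit n0
  have hbτ : ∀ β r, toZModPow 2 (b β r) = toZModPow 2 (b 0 r) := by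
    intro β r
    have h1 := hb1 β 0 r
    rw [norm_iff, map_sub, sub_eq_zero] at h1
    exact h1
  have hτ : ∀ j a, toZModPow 2 (b 0 (y (n0 + k * j) a)) = toZModPow 2 (b 0 (y n0 a)) := by
    intro j a
    induction j with
    | zero => simp
    | succ j ih =>
      have h1 : n0 + k * (j + 1) = n0 + k * j + k := by ring
      rw [h1, (hper _ (by omega)).2, ih]
  have hu : ∀ j β, IsUnit (b β (y (n0 + k * j) i)) := by
    intro j β
    apply hloc.map_nonunit
    rw [hbτ, hτ]
    exact hi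
  have hcc : ∀ j β, Ring.inverse (b β (y (n0 + k * j) i)) * b β (y (n0 + k * j) i) = 1 :=
    fun j β => Ring.inverse_mul_cancel _ (hu j β)
  let φ : ℕ → (Fin m → ℤ_[p]) → (CC I i →+* ℤ_[p]) := fun j β =>
    pt hI i (b β) (y (n0 + k * j)) (hyI _) (Ring.inverse (b β (y (n0 + k * j) i))) (hcc j β)
  have hφC : ∀ j β r, φ j β (mk I i (C r)) = b β r := fun j β r => pt_C _ _ _ _ _ _ _
  have hφX : ∀ j β l, φ j β (mk I i (X l)) =
      Ring.inverse (b β (y (n0 + k * j) i)) * b β (y (n0 + k * j) l) :=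
    fun j β l => pt_X _ _ _ _ _ _ _
  -- continuity
  have hcinv : ∀ j, Continuous fun β => Ring.inverse (b β (y (n0 + k * j) i)) := by
    intro j
    rw [continuous_iff_continuousAt]
    intro β
    obtain ⟨v, hv⟩ := hu j β
    have h1 : ContinuousAt Ring.inverse (b β (y (n0 + k * j) i)) := by
      rw [← hv]
      exact NormedRing.inverse_continuousAt v
    exact ContinuousAt.comp (f := fun β => b β (y (n0 + k * j) i)) h1 (hb2 _).continuousAt
  have hcont : ∀ j q, Continuous fun β => φ j β q := by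
    intro j q
    obtain ⟨P, rfl⟩ := Ideal.Quotient.mk_surjective q
    induction P using MvPolynomial.induction_on with
    | C r =>
      have h1 : (fun β => φ j β (mk I i (C r))) = fun β => b β r := by
        funext β
        exact hφC j β r
      exact h1 ▸ hb2 r
    | add P Q h1 h2 =>
      simp only [map_add]
      exact h1.add h2
    | mul_X P l h1 =>
      simp only [map_mul]
      refine h1.mul ?_
      have h2 : (fun β => φ j β (mk I i (X l))) = fun β =>
        Ring.inverse (b β (y (n0 + k * j) i)) * b β (y (n0 + k * j) l) := by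
        funext β
        exact hφX j β l
      exact h2 ▸ ((hcinv j).mul (hb2 _))
  -- compositions
  have hPhi : ∀ e, cmp F n0 (k * e) ∈ Comp 𝓕 (k * e) := fun e => cmp_mem hF n0 (k * e)
  have hstab : ∀ e, ∀ P ∈ I, bind₁ (cmp F n0 (k * e)) P ∈ I := fun e =>
    comp_stab hD _ _ (hPhi e)
  have hyy : ∀ e j a, y (n0 + k * (j + e)) a = eval (y (n0 + k * j)) (cmp F n0 (k * e) a) := by
    intro e j a
    have h1 := cmp_periodic' (F := F) (fun n hn => (hper n hn).1) (k * e) n0 le_rfl j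
    have h2 : n0 + k * (j + e) = n0 + k * j + k * e := by ring
    rw [← h1, mul_comm j k, cmp_eval hyF, h2]
  have hφu : ∀ e j β, IsUnit (φ j β (mk I i (cmp F n0 (k * e) i))) := by
    intro e j β
    obtain ⟨d, hd⟩ := comp_hom hD _ _ (hPhi e)
    refine pt_unit _ _ _ _ _ _ (hd i) ?_
    rw [← hyy]
    exact hu _ _
  have hφrec : ∀ e j β q, φ (j + e) β q =
      IsLocalization.Away.lift _ (hφu e j β) (gam hI i (cmp F n0 (k * e)) (hstab e) q) := by
    intro e j β q
    obtain ⟨d, hd⟩ := comp_hom hD _ _ (hPhi e)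
    exact pt_rec hI (b β) (y (n0 + k * j)) (hyI _) _ (hcc j β) (cmp F n0 (k * e)) (hstab e) hd
      (y (n0 + k * (j + e))) (hyy e j) (hyI _) _ (hcc (j + e) β) (hφu e j β) q
  have hφmod : ∀ j β q, ‖φ j β q - φ 0 0 q‖ ≤ (p : ℝ) ^ (-2 : ℤ) := by
    intro j β q
    rw [norm_iff, map_sub, sub_eq_zero]
    have h1 : (toZModPow 2).comp (φ j β) = (toZModPow 2).comp (φ 0 0) := by
      apply hom_ext
      · intro r
        rw [RingHom.comp_apply, RingHom.comp_apply, hφC, hφC, hbτ]
      · intro l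
        rw [RingHom.comp_apply, RingHom.comp_apply, hφX, hφX, map_mul, map_mul,
          hbτ β (y (n0 + k * j) l), hτ j l, hτ 0 l]
        congr 1
        have e1 : ∀ j β, toZModPow 2 (Ring.inverse (b β (y (n0 + k * j) i))) *
            toZModPow 2 (b 0 (y n0 i)) = 1 := by
          intro j β
          rw [← hτ j i, ← hbτ β, ← map_mul, hcc, map_one]
        calc toZModPow 2 (Ring.inverse (b β (y (n0 + k * j) i)))
            = toZModPow 2 (Ring.inverse (b β (y (n0 + k * j) i))) *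
              (toZModPow 2 (Ring.inverse (b 0 (y (n0 + k * 0) i))) *
                toZModPow 2 (b 0 (y n0 i))) := by rw [e1 0 0, mul_one]
          _ = (toZModPow 2 (Ring.inverse (b β (y (n0 + k * j) i))) *
                toZModPow 2 (b 0 (y n0 i))) *
                toZModPow 2 (Ring.inverse (b 0 (y (n0 + k * 0) i))) := by ring
          _ = _ := by rw [e1 j β, one_mul]
    exact DFunLike.congr_fun h1 q
  have hft := ft_int (R := R) inferInstance (ft_CC I i)
  obtain ⟨e, he, hP1⟩ := Pool.Agent.TH350.J63.P1 p (CC I i) (mk I i (cmp F n0 (k * 1) i))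
    (gam hI i (cmp F n0 (k * 1)) (hstab 1)) (φ 0 0)
  have hdich : ∀ β, (∀ j c, ‖φ (e * (j + 1)) β c - φ (e * j) β c‖ ≤ (p : ℝ) ^ (-(j : ℤ))) ∨
      Function.Injective (fun j => φ (e * j) β) := fun β =>
    hP1 (fun j => φ j β) (fun j => hφu 1 j β) (fun j c => hφmod j β c)
      (fun j c => hφrec 1 j β c)
  -- equality of points
  have heq : ∀ j j' β, (∀ a c, b β (y (n0 + k * j) a * y (n0 + k * j') c) =
      b β (y (n0 + k * j) c * y (n0 + k * j') a)) ↔ φ j β = φ j' β := by
    intro j j' β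
    constructor
    · intro h
      apply hom_ext
      · intro r
        rw [hφC, hφC]
      · intro l
        rw [hφX, hφX]
        have h1 := h l i
        rw [map_mul, map_mul] at h1
        have e1 := hcc j β
        have e2 := hcc j' β
        set c1 := Ring.inverse (b β (y (n0 + k * j) i))
        set c2 := Ring.inverse (b β (y (n0 + k * j') i))
        calc c1 * b β (y (n0 + k * j) l)
            = c1 * c2 * (b β (y (n0 + k * j) l) * b β (y (n0 + k * j') i)) := by
              rw [show c1 * c2 * (b β (y (n0 + k * j) l) * b β (y (n0 + k * j') i)) =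
                c1 * b β (y (n0 + k * j) l) * (c2 * b β (y (n0 + k * j') i)) by ring, e2, mul_one]
          _ = c2 * b β (y (n0 + k * j') l) * (c1 * b β (y (n0 + k * j) i)) := by
              rw [h1]; ring
          _ = _ := by rw [e1, mul_one]
    · intro h a c
      have h1 := fun l => DFunLike.congr_fun h (mk I i (X l))
      simp only [hφX] at h1
      have e1 := hcc j β
      have e2 := hcc j' β
      have h2 : ∀ l, b β (y (n0 + k * j) l) = b β (y (n0 + k * j) i) *
          (Ring.inverse (b β (y (n0 + k * j') i)) * b β (y (n0 + k * j') l)) := by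
        intro l
        rw [← h1 l, ← mul_assoc, mul_comm (b β (y (n0 + k * j) i)), e1, one_mul]
      rw [map_mul, map_mul, h2 a, h2 c]
      ring
  obtain ⟨𝔮, h1, h2, h3, h4, h5, h6⟩ := Pool.Agent.TH554.J64.P2 p (R := R) (C := CC I i)
    (mk I i (cmp F n0 (k * e) i)) (gam hI i (cmp F n0 (k * e)) (hstab e))
    (fun r => gam_C hI _ (hstab e) r) (Set.range (fun (n : Fin m → ℤ) (i : Fin m) => (n i : ℤ_[p])))
    (DenseRange.piMap (f := fun _ => (Int.cast : ℤ → ℤ_[p]))
      (fun _ => PadicInt.denseRange_intCast)) (fun j β => φ (e * j) β) (fun j c => hcont _ c) (fun j β => hφu e _ β)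
    (fun j β c => hφrec e (e * j) β c) (by
      intro r hr U hU hUn
      obtain ⟨β, hβ, h⟩ := hb3 r hr U hU hUn
      refine ⟨β, hβ, ?_⟩
      have h1 := hφC (e * 0) β r
      intro h2
      exact h (h1.symm.trans h2)) (by
      intro j U hU hUn
      obtain ⟨a, c, hac⟩ := hDD (n0 + k * (e * j)) (n0 + k * (e * (j + 1))) (by
        have : 0 < k * e := Nat.mul_pos hk he
        nlinarith)
      obtain ⟨β, hβ, h⟩ := hb3 _ (sub_ne_zero.2 hac) U hU hUn
      refine ⟨β, hβ, fun h2 => h ?_⟩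
      have h3 := (heq _ _ β).2 h2.symm a c
      rw [map_sub, h3, sub_self]) hdich (by
      rintro _ ⟨n, rfl⟩ hinj
      obtain ⟨n1, t, ht, h⟩ := hPP n
      have h1 := (heq (e * n1) (e * (n1 + t)) (fun i => (n i : ℤ_[p]))).1 (by
        intro a c
        have h2 := h (n0 + k * (e * n1)) (by
          have : 0 < k * e := Nat.mul_pos hk he
          nlinarith) (k * e) a c
        have h3 : n0 + k * (e * n1) + k * e * t = n0 + k * (e * (n1 + t)) := by ring
        rw [h3] at h2
        exact h2)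
      have h2 := hinj h1
      omega)
  refine ⟨k * e, cmp F n0 (k * e), hPhi e, i, gam hI i (cmp F n0 (k * e)) (hstab e), 𝔮,
    gam_C hI _ _, gam_X' hI _ _, h1, h2, h3, h4, ?_, h6⟩
  intro r hr
  have : r ∈ Ideal.comap (algebraMap R (CC I i)) (𝔮 0) := hr
  rw [h5] at this
  exact this

end Pool.Agent.TH350.CA
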