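import Mathlib

set_option autoImplicit false

noncomputable section

namespace Pool.Agent.TH350.Fox

section fox
variable {α G : Type} [DecidableEq α] [Group G]

def foxWord (lab : α → G) (x : α) : List (α × Bool) → MonoidAlgebra ℤ G
  | [] => 0
  | (y, true) :: w => (if y = x then 1 else 0) + MonoidAlgebra.single (lab y) 1 * foxWord lab x w
  | (y, false) :: w => (if y = x then -MonoidAlgebra.single (lab y)⁻¹ 1 else 0)
      + MonoidAlgebra.single (lab y)⁻¹ 1 * foxWord lab x w

/-- The Fox derivative of an element `w` of a free group, evaluated through a homomorphism. -/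
def fox (φ : FreeGroup α →* G) (x : α) (w : FreeGroup α) : MonoidAlgebra ℤ G :=
  foxWord (fun y => φ (FreeGroup.of y)) x w.toWord

/-- the value of a word -/
def val (lab : α → G) : List (α × Bool) → G
  | [] => 1
  | (y, true) :: w => lab y * val lab w
  | (y, false) :: w => (lab y)⁻¹ * val lab w

theorem ss (a b : G) : (MonoidAlgebra.single a 1 * MonoidAlgebra.single b 1 : MonoidAlgebra ℤ G) =
    MonoidAlgebra.single (a * b) 1 := by
  rw [MonoidAlgebra.single_mul_single, mul_one]

theorem s1 : (MonoidAlgebra.single (1 : G) 1 : MonoidAlgebra ℤ G) = 1 :=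
  (MonoidAlgebra.one_def).symm

theorem foxWord_append (lab : α → G) (x : α) (L L' : List (α × Bool)) :
    foxWord lab x (L ++ L') =
      foxWord lab x L + MonoidAlgebra.single (val lab L) 1 * foxWord lab x L' := by
  induction L with
  | nil => simp [foxWord, val, s1]
  | cons p L ih =>
    obtain ⟨y, b⟩ := p
    cases b
    · simp only [List.cons_append, foxWord, val, ih, mul_add, ← mul_assoc, ss, add_assoc]
    · simp only [List.cons_append, foxWord, val, ih, mul_add, ← mul_assoc, ss, add_assoc]

theorem foxWord_cancel (lab : α → G) (x y : α) (b : Bool) (L : List (α × Bool)) :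
    foxWord lab x ((y, b) :: (y, !b) :: L) = foxWord lab x L := by
  cases b
  · simp only [Bool.not_false, foxWord, mul_add, ← mul_assoc, ss, inv_mul_cancel, s1, one_mul]
    split_ifs <;> simp
  · simp only [Bool.not_true, foxWord, mul_add, ← mul_assoc, ss, mul_inv_cancel, s1, one_mul]
    split_ifs <;> simp [s1]

theorem foxWord_step (lab : α → G) (x : α) {L L' : List (α × Bool)}
    (h : FreeGroup.Red.Step L L') : foxWord lab x L = foxWord lab x L' := by
  cases h with
  | not =>
    rw [foxWord_append, foxWord_append, foxWord_cancel]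

theorem foxWord_red (lab : α → G) (x : α) {L L' : List (α × Bool)}
    (h : FreeGroup.Red L L') : foxWord lab x L = foxWord lab x L' := by
  induction h with
  | refl => rfl
  | tail _ h ih => rw [ih, foxWord_step lab x h]

variable (φ : FreeGroup α →* G)

omit [DecidableEq α] in
theorem val_mk (L : List (α × Bool)) :
    val (fun y => φ (FreeGroup.of y)) L = φ (FreeGroup.mk L) := by
  induction L with
  | nil =>
    have : (FreeGroup.mk [] : FreeGroup α) = 1 := rfl
    rw [this, map_one]
    rfl
  | cons p L ih =>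
    obtain ⟨y, b⟩ := p
    have h1 : (FreeGroup.mk ((y, b) :: L) : FreeGroup α) =
        FreeGroup.mk [(y, b)] * FreeGroup.mk L := by
      rw [FreeGroup.mul_mk]; rfl
    rw [h1, map_mul, ← ih]
    cases b
    · have h2 : (FreeGroup.mk [(y, false)] : FreeGroup α) = (FreeGroup.of y)⁻¹ := rfl
      rw [h2, map_inv]
      rfl
    · rfl

theorem fox_mk (x : α) (L : List (α × Bool)) :
    fox φ x (FreeGroup.mk L) = foxWord (fun y => φ (FreeGroup.of y)) x L := by
  unfold fox
  rw [FreeGroup.toWord_mk]
  exact (foxWord_red _ x FreeGroup.reduce.red).symm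

theorem fox_one (x : α) : fox φ x 1 = 0 := by
  have : (1 : FreeGroup α) = FreeGroup.mk [] := rfl
  rw [this, fox_mk]
  rfl

theorem fox_of (x y : α) : fox φ x (FreeGroup.of y) = if y = x then 1 else 0 := by
  have : FreeGroup.of y = FreeGroup.mk [(y, true)] := rfl
  rw [this, fox_mk]
  simp [foxWord]

theorem fox_mul (x : α) (w w' : FreeGroup α) :
    fox φ x (w * w') = fox φ x w + MonoidAlgebra.single (φ w) 1 * fox φ x w' := by
  rw [← FreeGroup.mk_toWord (x := w), ← FreeGroup.mk_toWord (x := w'), FreeGroup.mul_mk, fox_mk,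
    fox_mk, fox_mk, foxWord_append, val_mk]

theorem fox_inv (x : α) (w : FreeGroup α) :
    fox φ x w⁻¹ = -(MonoidAlgebra.single (φ w)⁻¹ 1 * fox φ x w) := by
  have h := fox_mul φ x w⁻¹ w
  rw [inv_mul_cancel, fox_one, map_inv] at h
  exact eq_neg_of_add_eq_zero_left h.symm

/-- fundamental formula -/
theorem fox_fundamental [Fintype α] (w : FreeGroup α) :
    ∑ x, fox φ x w * (MonoidAlgebra.single (φ (FreeGroup.of x)) 1 - 1)
      = MonoidAlgebra.single (φ w) 1 - 1 := by
  induction w using FreeGroup.induction_on with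
  | C1 => simp [fox_one, s1]
  | of y => simp [fox_of]
  | inv_of y ih =>
    simp only [fox_inv, neg_mul, Finset.sum_neg_distrib, mul_assoc]
    rw [← Finset.mul_sum, ih, mul_sub, mul_one, ss, inv_mul_cancel, s1, map_inv, neg_sub]
  | mul w w' ih ih' =>
    simp only [fox_mul, add_mul, Finset.sum_add_distrib, mul_assoc]
    rw [← Finset.mul_sum, ih, ih', mul_sub, mul_one, ss, map_mul]
    abel

/-- chain rule -/
theorem fox_chain {β : Type} [DecidableEq β] [Fintype β] (f : FreeGroup β →* FreeGroup α)
    (x : α) (w : FreeGroup β) :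
    fox φ x (f w) = ∑ y : β, fox (φ.comp f) y w * fox φ x (f (FreeGroup.of y)) := by
  induction w using FreeGroup.induction_on with
  | C1 => simp [fox_one]
  | of y => simp [fox_of]
  | inv_of y ih =>
    simp only [fox_inv, neg_mul, Finset.sum_neg_distrib, mul_assoc, map_inv]
    rw [← Finset.mul_sum, ← ih]
    rfl
  | mul w w' ih ih' =>
    simp only [fox_mul, add_mul, Finset.sum_add_distrib, mul_assoc, map_mul]
    rw [← Finset.mul_sum, ← ih, ← ih']
    rfl

/-- change of groups -/
theorem fox_map {H : Type} [Group H] (ψ : G →* H) (x : α) (w : FreeGroup α) :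
    MonoidAlgebra.mapDomainRingHom ℤ ψ (fox φ x w) = fox (ψ.comp φ) x w := by
  have hs : ∀ g : G, MonoidAlgebra.mapDomainRingHom ℤ ψ (MonoidAlgebra.single g 1) =
      MonoidAlgebra.single (ψ g) 1 := fun g => MonoidAlgebra.mapDomain_single
  induction w using FreeGroup.induction_on with
  | C1 => rw [fox_one, fox_one, map_zero]
  | of y =>
    rw [fox_of, fox_of]
    split_ifs
    · rw [map_one]
    · rw [map_zero]
  | inv_of y ih =>
    rw [fox_inv, fox_inv, map_neg, map_mul, ih, hs, map_inv]
    rfl
  | mul w w' ih ih' =>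
    rw [fox_mul, fox_mul, map_add, map_mul, ih, ih', hs]
    rfl

/-- conjugating the coefficients: `s * φ w * s⁻¹ = φ' w` -/
theorem fox_conj (φ' : FreeGroup α →* G) (s : G) (h : ∀ w, φ' w = s * φ w * s⁻¹) (x : α)
    (w : FreeGroup α) : fox φ' x w * MonoidAlgebra.single s 1
      = MonoidAlgebra.single s 1 * fox φ x w := by
  induction w using FreeGroup.induction_on with
  | C1 => rw [fox_one, fox_one, zero_mul, mul_zero]
  | of y =>
    rw [fox_of, fox_of]
    split_ifs
    · rw [one_mul, mul_one]
    · rw [zero_mul, mul_zero]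
  | inv_of y ih =>
    rw [fox_inv, fox_inv, neg_mul, mul_assoc, ih, h, mul_neg, ← mul_assoc, ← mul_assoc, ss, ss]
    congr 3
    group
  | mul w w' ih ih' =>
    rw [fox_mul, fox_mul, add_mul, mul_add, ih, mul_assoc, ih', h, ← mul_assoc, ← mul_assoc, ss,
      ss]
    congr 3
    group

end fox

end Pool.Agent.TH350.Fox
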