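import Pool.Agent.TH62.PL.Stms

set_option autoImplicit false

namespace Pool.Agent.TH350.J726

open Pool.Agent.TH62.PL

section groups

variable {G : Type} [Group G]

theorem ds_eq (L : Subgroup G) (i : ℕ) : DS (⊤ : Subgroup L) i = derivedSeries L i := by
  induction i with
  | zero => rfl
  | succ i ih =>
    rw [derivedSeries_succ, ← ih]
    rfl

theorem ds_map (L : Subgroup G) (i : ℕ) : (DS (⊤ : Subgroup L) i).map L.subtype = DS L i := by
  induction i with
  | zero =>
    change (⊤ : Subgroup L).map L.subtype = L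
    rw [← MonoidHom.range_eq_map, Subgroup.range_subtype]
  | succ i ih =>
    change (⁅DS (⊤ : Subgroup L) i, DS (⊤ : Subgroup L) i⁆).map L.subtype = ⁅DS L i, DS L i⁆
    rw [Subgroup.map_commutator, ih]

theorem ds_conj (L : Subgroup G) (i : ℕ) (g : G) (hg : g ∈ L) (x : G) (hx : x ∈ DS L i) :
    g * x * g⁻¹ ∈ DS L i := by
  rw [← ds_map] at hx ⊢
  obtain ⟨y, hy, rfl⟩ := hx
  have hn : (DS (⊤ : Subgroup L) i).Normal := by
    rw [ds_eq]
    exact derivedSeries_normal L i
  exact ⟨⟨g, hg⟩ * y * ⟨g, hg⟩⁻¹, hn.conj_mem y hy _, rfl⟩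

end groups

section modules

variable {G k V : Type} [Group G] [Field k] [AddCommGroup V] [Module k V]

theorem vc_inv (ρ : G →* Module.End k V) (L : Subgroup G) (i : ℕ) :
    ∀ g ∈ L, ∀ t ∈ VC ρ (DS L) ⊤ i, ρ g t ∈ VC ρ (DS L) ⊤ i := by
  induction i with
  | zero =>
    intro g _ t _
    exact Submodule.mem_top
  | succ i ih =>
    intro g hg t ht
    have ht' : t ∈ cm ρ (VC ρ (DS L) ⊤ i) (DS L i) := ht
    change ρ g t ∈ cm ρ (VC ρ (DS L) ⊤ i) (DS L i)
    have hle : cm ρ (VC ρ (DS L) ⊤ i) (DS L i) ≤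
        (cm ρ (VC ρ (DS L) ⊤ i) (DS L i)).comap (ρ g) := by
      refine Submodule.span_le.2 ?_
      rintro v ⟨h, hh, w, hw, rfl⟩
      change ρ g (ρ h w - w) ∈ cm ρ (VC ρ (DS L) ⊤ i) (DS L i)
      have e : ρ g (ρ h w - w) = ρ (g * h * g⁻¹) (ρ g w) - ρ g w := by
        rw [map_sub, ← Module.End.mul_apply, ← map_mul, ← Module.End.mul_apply, ← map_mul]
        have e2 : g * h * g⁻¹ * g = g * h := by group
        rw [e2]
      rw [e]
      exact Submodule.subset_span ⟨_, ds_conj L i g hg h hh, _, ih g hg w hw, rfl⟩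
    exact hle ht'

end modules

theorem lemI (core : LemICoreStm) : LemIStm := by
  classical
  intro p _ k G V Ω _ _ _ _ _ _ _ _ ρ e he L hL j ω0 hex v
  obtain ⟨g0, hg0, hg0'⟩ := hex
  set T : Submodule k V := VC ρ (DS L) ⊤ (j + 1) with hT
  let W : Submodule k V :=
    ⨅ ω : MulAction.orbit L ω0, (T.map (e (ω : Ω))).comap (e (ω : Ω))
  have hW : ∀ x, x ∈ W ↔ ∀ ω ∈ MulAction.orbit L ω0, ∃ t ∈ T, e ω t = e ω x := by
    intro x
    simp only [W, Submodule.mem_iInf, Submodule.mem_comap, Submodule.mem_map, Subtype.forall]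
  suffices htop : W = ⊤ by
    have hv : v ∈ W := by rw [htop]; exact Submodule.mem_top
    exact (hW v).1 hv ω0 (MulAction.mem_orbit_self ω0)
  by_contra hne
  have hTW : T ≤ W := by
    intro t ht
    rw [hW]
    exact fun ω _ => ⟨t, ht, rfl⟩
  have hequi : ∀ (g : G) (ω : Ω) (x : V), ρ g (e ω x) = e (g • ω) (ρ g x) := by
    intro g ω x
    rw [← Module.End.mul_apply, he.equi, Module.End.mul_apply]
  have hWρ : ∀ g : L, W ≤ W.comap (ρ g) := by
    intro g x hx
    rw [Submodule.mem_comap, hW]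
    rw [hW] at hx
    intro ω hω
    have hω' : (g⁻¹ • ω) ∈ MulAction.orbit L ω0 := by
      rw [MulAction.mem_orbit_iff] at hω ⊢
      obtain ⟨h, rfl⟩ := hω
      exact ⟨g⁻¹ * h, mul_smul _ _ _⟩
    obtain ⟨t, ht, hte⟩ := hx _ hω'
    refine ⟨ρ g t, vc_inv ρ L (j + 1) g g.2 t ht, ?_⟩
    have e1 := hequi g (g⁻¹ • ω) t
    have e2 := hequi g (g⁻¹ • ω) x
    have e3 : (g : G) • (g⁻¹ • ω : Ω) = ω := by
      change g • (g⁻¹ • ω) = ω
      exact smul_inv_smul g ω
    rw [e3] at e1 e2
    rw [← e1, ← e2, hte]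
  have hWe : ∀ ω : MulAction.orbit L ω0, W ≤ W.comap (e (ω : Ω)) := by
    intro ω x hx
    rw [Submodule.mem_comap, hW]
    rw [hW] at hx
    intro ω' hω'
    by_cases h : ω' = ω
    · subst h
      obtain ⟨t, ht, hte⟩ := hx _ hω'
      refine ⟨t, ht, ?_⟩
      rw [hte, ← Module.End.mul_apply, he.idem]
    · refine ⟨0, T.zero_mem, ?_⟩
      rw [← Module.End.mul_apply, he.orth _ _ h, map_zero, LinearMap.zero_apply]
  have : Nontrivial (V ⧸ W) := Submodule.Quotient.nontrivial_iff.2 hne
  let ρ' : L →* Module.End k (V ⧸ W) :=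
    { toFun := fun g => W.mapQ W (ρ g) (hWρ g)
      map_one' := by
        apply Submodule.linearMap_qext
        ext x
        simp
      map_mul' := by
        intro g h
        apply Submodule.linearMap_qext
        ext x
        simp }
  have hρ' : ∀ (g : L) (x : V), ρ' g (Submodule.Quotient.mk x) =
      Submodule.Quotient.mk (ρ g x) := fun g x => rfl
  let e' : MulAction.orbit L ω0 → Module.End k (V ⧸ W) := fun ω => W.mapQ W (e (ω : Ω)) (hWe ω)
  have he' : ∀ (ω : MulAction.orbit L ω0) (x : V), e' ω (Submodule.Quotient.mk x) =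
      Submodule.Quotient.mk (e (ω : Ω) x) := fun g x => rfl
  have hext : ∀ f g : Module.End k (V ⧸ W), (∀ x : V, f (Submodule.Quotient.mk x) =
      g (Submodule.Quotient.mk x)) → f = g := by
    intro f g h
    apply Submodule.linearMap_qext
    ext x
    exact h x
  let _ : Fintype (MulAction.orbit L ω0) := Fintype.ofFinite _
  have hPS : PS ρ' e' := by
    refine ⟨?_, ?_, ?_, ?_⟩
    · intro ω
      apply hext
      intro x
      rw [Module.End.mul_apply, he', he', ← Module.End.mul_apply, he.idem]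
    · intro ω ω' h
      apply hext
      intro x
      rw [Module.End.mul_apply, he', he', ← Module.End.mul_apply,
        he.orth _ _ (fun h' => h (Subtype.ext h'))]
      rfl
    · apply hext
      intro x
      rw [LinearMap.sum_apply, Module.End.one_apply]
      simp only [he']
      have e1 : (∑ ω : MulAction.orbit L ω0, (Submodule.Quotient.mk (e (ω : Ω) x) : V ⧸ W)) =
          Submodule.Quotient.mk (∑ ω : MulAction.orbit L ω0, e (ω : Ω) x) := by
        change _ = W.mkQ _
        rw [map_sum]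
        rfl
      rw [e1, Submodule.Quotient.eq, hW]
      intro ω hω
      refine ⟨0, T.zero_mem, ?_⟩
      rw [map_zero, map_sub, map_sum, eq_comm, sub_eq_zero,
        Finset.sum_eq_single (⟨ω, hω⟩ : MulAction.orbit L ω0)]
      · rw [← Module.End.mul_apply, he.idem]
      · intro ω' _ hne'
        rw [← Module.End.mul_apply, he.orth _ _ (fun h' => hne' (Subtype.ext h'.symm)),
          LinearMap.zero_apply]
      · intro h
        exact absurd (Finset.mem_univ _) h
    · intro g ω
      apply hext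
      intro x
      rw [Module.End.mul_apply, Module.End.mul_apply, he', hρ', hρ', he', hequi]
      rfl
  have hVC : ∀ i, VC ρ' (DS (⊤ : Subgroup L)) ⊤ i ≤ (VC ρ (DS L) ⊤ i).map W.mkQ := by
    intro i
    induction i with
    | zero =>
      intro x _
      obtain ⟨y, rfl⟩ := Submodule.mkQ_surjective W x
      exact ⟨y, Submodule.mem_top, rfl⟩
    | succ i ih =>
      refine Submodule.span_le.2 ?_
      rintro x ⟨g, hg, w, hw, rfl⟩
      obtain ⟨y, hy, rfl⟩ := ih hw
      refine ⟨ρ g y - y, Submodule.subset_span ⟨g, ?_, y, hy, rfl⟩, ?_⟩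
      · rw [← ds_map]
        exact ⟨g, hg, rfl⟩
      · rw [map_sub]
        rfl
  have hbot : VC ρ' (DS (⊤ : Subgroup L)) ⊤ (j + 1) = ⊥ := by
    rw [eq_bot_iff]
    refine (hVC (j + 1)).trans ?_
    rintro x ⟨y, hy, rfl⟩
    rw [Submodule.mem_bot]
    exact (Submodule.Quotient.mk_eq_zero W).2 (hTW hy)
  rw [← ds_map] at hg0
  obtain ⟨g, hg, rfl⟩ := hg0
  have hfin := core p k L (V ⧸ W) (MulAction.orbit L ω0) ρ' e' hPS hL j hbot g hg
    ⟨ω0, MulAction.mem_orbit_self ω0⟩
  exact hg0' (congrArg Subtype.val hfin)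

end Pool.Agent.TH350.J726
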