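import Pool.Agent.TH62.PL.Stms

set_option autoImplicit false

namespace Pool.Agent.TH350.J733

open Pool.Agent.TH62.PL
open scoped commutatorElement

/-- `|N| * |K ∩ M| = |M|` for a complement `K` of `N` and `N ≤ M`. -/
theorem card_inf {G : Type} [Group G] [Finite G] {N K M : Subgroup G}
    (hNK : N.IsComplement' K) (hNM : N ≤ M) :
    Nat.card N * Nat.card (K ⊓ M : Subgroup G) = Nat.card M := by
  rw [← Nat.card_prod]
  refine Nat.card_congr (Equiv.ofBijective
    (fun p : N × (K ⊓ M : Subgroup G) =>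
      (⟨(p.1 : G) * (p.2 : G), M.mul_mem (hNM p.1.2) p.2.2.2⟩ : M)) ⟨?_, ?_⟩)
  · rintro ⟨⟨n, hn⟩, ⟨k, hk⟩⟩ ⟨⟨n', hn'⟩, ⟨k', hk'⟩⟩ h
    have h1 : n * k = n' * k' := congrArg Subtype.val h
    have h2 := hNK.1 (a₁ := (⟨n, hn⟩, ⟨k, hk.1⟩)) (a₂ := (⟨n', hn'⟩, ⟨k', hk'.1⟩)) h1
    have h3 : n = n' := congrArg (fun x => (x.1 : G)) h2
    have h4 : k = k' := congrArg (fun x => (x.2 : G)) h2
    subst h3 h4
    rfl
  · rintro ⟨m, hm⟩
    obtain ⟨⟨⟨n, hn⟩, ⟨k, hk⟩⟩, h⟩ := hNK.2 m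
    have h' : n * k = m := h
    have hkm : k ∈ M := by
      have : k = n⁻¹ * m := by rw [← h']; group
      rw [this]
      exact M.mul_mem (M.inv_mem (hNM hn)) hm
    exact ⟨(⟨n, hn⟩, ⟨k, hk, hkm⟩), Subtype.ext h'⟩

/-- `H ∩ (N ⊔ S) = S` for `S ≤ H` and `N ∩ H = 1`. -/
theorem inf_sup {G : Type} [Group G] {N H S : Subgroup G} (hN : N.Normal)
    (hd : N ⊓ H = ⊥) (hS : S ≤ H) : H ⊓ (N ⊔ S) = S := by
  apply le_antisymm
  · rintro x ⟨hxH, hx⟩
    obtain ⟨n, hn, s, hs, rfl⟩ := (Subgroup.mem_sup_of_normal_left).1 hx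
    have hnH : n ∈ H := by
      have : n = (n * s) * s⁻¹ := by group
      rw [this]
      exact H.mul_mem hxH (H.inv_mem (hS hs))
    have : n ∈ N ⊓ H := ⟨hn, hnH⟩
    rw [hd, Subgroup.mem_bot] at this
    rw [this, one_mul]
    exact hs
  · exact fun x hx => ⟨hS hx, (le_sup_right : S ≤ N ⊔ S) hx⟩

/-- Conjugacy of subgroups containing a normal subgroup `S` whose quotient by `S` is a Sylow
subgroup of the quotient. -/
theorem conj_over {L : Type} [Group L] [Finite L] (S A B : Subgroup L) [S.Normal] (hSA : S ≤ A)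
    (hSB : S ≤ B) (hc : Nat.card A = Nat.card B) (r a : ℕ) [Fact r.Prime]
    (hr : S.relIndex A = r ^ a) (hi : ¬ r ∣ A.index) :
    ∃ l : L, ∀ x, x ∈ B ↔ l⁻¹ * x * l ∈ A := by
  have hsurj := QuotientGroup.mk'_surjective S
  have hker : (QuotientGroup.mk' S).ker = S := QuotientGroup.ker_mk' S
  have key : ∀ C : Subgroup L, S ≤ C → Nat.card C = Nat.card A →
      Nat.card (C.map (QuotientGroup.mk' S)) = r ^ a ∧
        ¬ r ∣ (C.map (QuotientGroup.mk' S)).index := by
    intro C hSC hcC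
    have hi1 : (C.map (QuotientGroup.mk' S)).index = C.index :=
      Subgroup.index_map_eq C hsurj (by rw [hker]; exact hSC)
    have hCA : C.index = A.index := by
      have h1 := C.card_mul_index
      have h2 := A.card_mul_index
      rw [hcC, ← h2] at h1
      exact Nat.eq_of_mul_eq_mul_left Nat.card_pos h1
    have hpos : 0 < A.index := Nat.pos_of_ne_zero A.index_ne_zero_of_finite
    refine ⟨?_, by rw [hi1, hCA]; exact hi⟩
    have h1 := (C.map (QuotientGroup.mk' S)).card_mul_index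
    have h2 : S.relIndex A * A.index = S.index := Subgroup.relIndex_mul_index hSA
    have h3 : Nat.card (L ⧸ S) = S.index := rfl
    rw [h3, hi1, hCA, ← h2, hr] at h1
    exact Nat.eq_of_mul_eq_mul_right hpos h1
  obtain ⟨hA1, hA2⟩ := key A hSA rfl
  obtain ⟨hB1, hB2⟩ := key B hSB hc.symm
  have pA := IsPGroup.of_card hA1
  have pB := IsPGroup.of_card hB1
  obtain ⟨q, hq⟩ := MulAction.exists_smul_eq (L ⧸ S) (pA.toSylow hA2) (pB.toSylow hB2)
  obtain ⟨l, rfl⟩ := hsurj q
  have hmemA : ∀ x, (QuotientGroup.mk' S x) ∈ A.map (QuotientGroup.mk' S) ↔ x ∈ A := by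
    intro x
    have := Subgroup.comap_map_eq_self (f := QuotientGroup.mk' S) (H := A)
      (by rw [hker]; exact hSA)
    rw [← Subgroup.mem_comap, this]
  have hmemB : ∀ x, (QuotientGroup.mk' S x) ∈ B.map (QuotientGroup.mk' S) ↔ x ∈ B := by
    intro x
    have := Subgroup.comap_map_eq_self (f := QuotientGroup.mk' S) (H := B)
      (by rw [hker]; exact hSB)
    rw [← Subgroup.mem_comap, this]
  refine ⟨l, fun x => ?_⟩
  rw [← hmemA, ← hmemB]
  have h1 : (QuotientGroup.mk' S x) ∈ pB.toSylow hB2 ↔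
      (QuotientGroup.mk' S x) ∈ B.map (QuotientGroup.mk' S) := Iff.rfl
  rw [← h1, ← hq]
  have h2 : (QuotientGroup.mk' S x) ∈ (QuotientGroup.mk' S l) • pA.toSylow hA2 ↔
      (QuotientGroup.mk' S l)⁻¹ * (QuotientGroup.mk' S x) * (QuotientGroup.mk' S l) ∈
        A.map (QuotientGroup.mk' S) := by
    change (QuotientGroup.mk' S x) ∈
      (((QuotientGroup.mk' S l) • pA.toSylow hA2 : Sylow r (L ⧸ S)) : Subgroup (L ⧸ S)) ↔ _
    rw [Sylow.coe_subgroup_smul, Subgroup.mem_pointwise_smul_iff_inv_smul_mem]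
    have : (MulAut.conj (QuotientGroup.mk' S l))⁻¹ • (QuotientGroup.mk' S x) =
      (QuotientGroup.mk' S l)⁻¹ * (QuotientGroup.mk' S x) * (QuotientGroup.mk' S l) := by
      simp [MulAut.smul_def]
    rw [this]
    exact Iff.rfl
  rw [h2, map_mul, map_mul, map_inv]

/-- a nontrivial finite solvable group has a nontrivial normal `r`-subgroup -/
theorem exists_normal_p {Q : Type} [Group Q] [Finite Q] (hQ : Group.IsSolvable Q)
    [Nontrivial Q] : ∃ (r a : ℕ) (R : Subgroup Q), r.Prime ∧ R.Normal ∧ R ≠ ⊥ ∧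
      Nat.card R = r ^ a := by
  obtain ⟨n, hn⟩ := hQ.solvable
  obtain ⟨m, hm1, hm2⟩ : ∃ m, derivedSeries Q m ≠ ⊥ ∧ derivedSeries Q (m + 1) = ⊥ := by
    by_contra hcon
    push Not at hcon
    have : ∀ k, derivedSeries Q k ≠ ⊥ := by
      intro k
      induction k with
      | zero =>
        rw [derivedSeries_zero]
        exact top_ne_bot
      | succ k ih => exact hcon k ih
    exact this n hn
  set D := derivedSeries Q m with hD
  have hDn : D.Normal := derivedSeries_normal Q m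
  have hab : ∀ x ∈ D, ∀ y ∈ D, x * y = y * x := by
    intro x hx y hy
    have : ⁅x, y⁆ ∈ derivedSeries Q (m + 1) := by
      rw [derivedSeries_succ]
      exact Subgroup.commutator_mem_commutator hx hy
    rw [hm2, Subgroup.mem_bot, commutatorElement_eq_one_iff_mul_comm] at this
    exact this
  have hcard : Nat.card D ≠ 1 := by
    intro h
    exact hm1 (Subgroup.card_eq_one.1 h)
  obtain ⟨r, hr, hrd⟩ := Nat.exists_prime_and_dvd hcard
  have : Fact r.Prime := ⟨hr⟩
  let P : Sylow r D := default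
  have hPn : (P : Subgroup D).Normal := by
    constructor
    intro x hx g
    have : g * x * g⁻¹ = x := by
      apply Subtype.ext
      have := hab g g.2 x x.2
      simp only [Subgroup.coe_mul, Subgroup.coe_inv]
      rw [this]
      group
    rw [this]
    exact hx
  have := Sylow.characteristic_of_normal P hPn
  refine ⟨r, (Nat.card D).factorization r, (P : Subgroup D).map D.subtype, hr, inferInstance,
    ?_, ?_⟩
  · intro h
    have h1 : (P : Subgroup D) = ⊥ := by
      rwa [Subgroup.map_eq_bot_iff_of_injective _ D.subtype_injective] at h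
    exact P.ne_bot_of_dvd_card hrd h1
  · rw [Subgroup.card_map_of_injective D.subtype_injective]
    exact P.card_eq_multiplicity

/-- one step up from `S` inside a solvable group `H` normalising `S` -/
theorem exists_step {G : Type} [Group G] [Finite G] (H S : Subgroup G)
    (hH : Group.IsSolvable H) (hS : S ≤ H) (hne : S ≠ H)
    (hn : ∀ h ∈ H, ∀ s ∈ S, h * s * h⁻¹ ∈ S) :
    ∃ (r a : ℕ) (S' : Subgroup G), r.Prime ∧ S < S' ∧ S' ≤ H ∧
      (∀ h ∈ H, ∀ s ∈ S', h * s * h⁻¹ ∈ S') ∧ S.relIndex S' = r ^ a := by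
  let T : Subgroup H := S.subgroupOf H
  have hT : T.Normal := by
    constructor
    intro x hx g
    exact hn g g.2 x hx
  have hTne : T ≠ ⊤ := by
    intro h
    apply hne
    apply le_antisymm hS
    intro x hx
    have : (⟨x, hx⟩ : H) ∈ T := by rw [h]; trivial
    exact this
  have : Nontrivial (H ⧸ T) := by
    by_contra hcon
    rw [not_nontrivial_iff_subsingleton] at hcon
    have h1 : T.index = 1 := by
      rw [Subgroup.index_eq_card]
      exact Nat.card_unique
    exact hTne (Subgroup.index_eq_one.1 h1)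
  have := hH
  have hQ : Group.IsSolvable (H ⧸ T) := inferInstance
  obtain ⟨r, a, R, hr, hRn, hRne, hRc⟩ := exists_normal_p hQ
  let U : Subgroup H := R.comap (QuotientGroup.mk' T)
  have hTU : T ≤ U := by
    intro x hx
    change QuotientGroup.mk' T x ∈ R
    have : QuotientGroup.mk' T x = 1 := (QuotientGroup.eq_one_iff x).2 hx
    rw [this]
    exact R.one_mem
  have hUn : U.Normal := hRn.comap _
  have hUi : U.index = R.index :=
    Subgroup.index_comap_of_surjective R (QuotientGroup.mk'_surjective T)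
  have hrel : T.relIndex U = r ^ a := by
    have h1 : T.relIndex U * U.index = T.index := Subgroup.relIndex_mul_index hTU
    have h2 := R.card_mul_index
    have h3 : Nat.card (H ⧸ T) = T.index := rfl
    rw [h3, ← h1, hUi, hRc] at h2
    exact (Nat.eq_of_mul_eq_mul_right (Nat.pos_of_ne_zero R.index_ne_zero_of_finite) h2).symm
  have hmemU : ∀ x (hx : x ∈ H), x ∈ U.map H.subtype ↔ (⟨x, hx⟩ : H) ∈ U := by
    intro x hx
    constructor
    · rintro ⟨y, hy, rfl⟩
      exact hy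
    · intro h
      exact ⟨_, h, rfl⟩
  have hU'H : U.map H.subtype ≤ H := by
    rintro x ⟨y, hy, rfl⟩
    exact y.2
  have hSU : S ≤ U.map H.subtype := by
    intro x hx
    rw [hmemU x (hS hx)]
    exact hTU hx
  refine ⟨r, a, U.map H.subtype, hr, ?_, hU'H, ?_, ?_⟩
  · refine lt_of_le_of_ne hSU ?_
    intro h
    apply hRne
    rw [eq_bot_iff]
    intro q hq
    obtain ⟨x, rfl⟩ := QuotientGroup.mk'_surjective T q
    have hxU : x ∈ U := hq
    have : (x : G) ∈ U.map H.subtype := ⟨x, hxU, rfl⟩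
    rw [← h] at this
    rw [Subgroup.mem_bot]
    exact (QuotientGroup.eq_one_iff x).2 this
  · rintro h hh s ⟨y, hy, rfl⟩
    exact ⟨⟨h, hh⟩ * y * ⟨h, hh⟩⁻¹, hUn.conj_mem y hy _, rfl⟩
  · have h1 : (S.subgroupOf H).relIndex ((U.map H.subtype).subgroupOf H) =
        S.relIndex (U.map H.subtype) := Subgroup.relIndex_subgroupOf hU'H
    have h2 : (U.map H.subtype).subgroupOf H = U := by
      ext x
      rw [Subgroup.mem_subgroupOf, hmemU x x.2]
    rw [← h1, h2]
    exact hrel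

/-- a complement can be conjugated so as to contain the next step `S'` -/
theorem step {G : Type} [Group G] [Finite G] (N H K S S' : Subgroup G) (hN : N.Normal)
    (hco : (Nat.card N).Coprime N.index) (hH : N.IsComplement' H) (hK : N.IsComplement' K)
    (hSS' : S ≤ S') (hS'H : S' ≤ H) (hSK : S ≤ K)
    (hnS : ∀ h ∈ H, ∀ s ∈ S, h * s * h⁻¹ ∈ S) (r a : ℕ) (hr : r.Prime)
    (hrel : S.relIndex S' = r ^ a) (hlt : S ≠ S') :
    ∃ l : G, ∀ x ∈ S', l * x * l⁻¹ ∈ K := by
  have : Fact r.Prime := ⟨hr⟩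
  have hdH : N ⊓ H = ⊥ := disjoint_iff.1 hH.disjoint
  have hSH : S ≤ H := hSS'.trans hS'H
  have hcardS : Nat.card (K ⊓ (N ⊔ S) : Subgroup G) = Nat.card S := by
    have h1 := card_inf hK (le_sup_left : N ≤ N ⊔ S)
    have h2 := card_inf hH (le_sup_left : N ≤ N ⊔ S)
    rw [inf_sup hN hdH hSH] at h2
    rw [← h2] at h1
    exact Nat.eq_of_mul_eq_mul_left Nat.card_pos h1
  have hcardS' : Nat.card (K ⊓ (N ⊔ S') : Subgroup G) = Nat.card S' := by
    have h1 := card_inf hK (le_sup_left : N ≤ N ⊔ S')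
    have h2 := card_inf hH (le_sup_left : N ≤ N ⊔ S')
    rw [inf_sup hN hdH hS'H] at h2
    rw [← h2] at h1
    exact Nat.eq_of_mul_eq_mul_left Nat.card_pos h1
  have hKS : K ⊓ (N ⊔ S) = S :=
    (Subgroup.eq_of_le_of_card_ge (le_inf hSK le_sup_right) (le_of_eq hcardS)).symm
  -- `N ⊔ S` is normal
  have hNS : ∀ g, ∀ x ∈ N ⊔ S, g * x * g⁻¹ ∈ N ⊔ S := by
    intro g x hx
    obtain ⟨⟨⟨n, hn⟩, ⟨h, hh⟩⟩, hg⟩ := hH.2 g
    have hg' : n * h = g := hg
    obtain ⟨m, hm, s, hs, rfl⟩ := (Subgroup.mem_sup_of_normal_left).1 hx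
    have e : g * (m * s) * g⁻¹ = n * (h * m * h⁻¹) * (h * s * h⁻¹) * n⁻¹ := by
      rw [← hg']; group
    rw [e]
    have hnN : n ∈ N ⊔ S := (le_sup_left : N ≤ N ⊔ S) hn
    exact mul_mem (mul_mem (mul_mem hnN ((le_sup_left : N ≤ N ⊔ S) (hN.conj_mem m hm h)))
      ((le_sup_right : S ≤ N ⊔ S) (hnS h hh s hs))) (inv_mem hnN)
  have hKn : ∀ k ∈ K, ∀ s ∈ S, k * s * k⁻¹ ∈ S := by
    intro k hk s hs
    rw [← hKS]
    exact ⟨K.mul_mem (K.mul_mem hk (hSK hs)) (K.inv_mem hk),
      hNS k s ((le_sup_right : S ≤ N ⊔ S) hs)⟩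
  have hnorm : ∀ C : Subgroup G, (∀ h ∈ C, ∀ s ∈ S, h * s * h⁻¹ ∈ S) →
      C ≤ Subgroup.normalizer (S : Set G) := by
    intro C hC g hg
    rw [Subgroup.mem_normalizer_iff]
    intro s
    constructor
    · intro hs
      exact hC g hg s hs
    · intro hs
      have := hC g⁻¹ (C.inv_mem hg) _ hs
      have e : g⁻¹ * (g * s * g⁻¹) * g⁻¹⁻¹ = s := by group
      rwa [e] at this
  let L : Subgroup G := (N ⊔ S') ⊓ Subgroup.normalizer (S : Set G)
  have hS'L : S' ≤ L := le_inf le_sup_right ((hS'H).trans (hnorm H hnS))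
  have hK1L : K ⊓ (N ⊔ S') ≤ L := le_inf inf_le_right (inf_le_left.trans (hnorm K hKn))
  have hSL : S ≤ L := hSS'.trans hS'L
  have hLle : L ≤ N ⊔ S' := inf_le_left
  have hrelN : S'.relIndex (N ⊔ S') = Nat.card N := by
    have h2 := card_inf hH (le_sup_left : N ≤ N ⊔ S')
    rw [inf_sup hN hdH hS'H] at h2
    have h3 : S'.relIndex (N ⊔ S') * Nat.card S' = Nat.card (N ⊔ S' : Subgroup G) := by
      have h4 := (S'.subgroupOf (N ⊔ S')).card_mul_index
      have h5 : Nat.card (S'.subgroupOf (N ⊔ S')) = Nat.card S' :=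
        Nat.card_congr (Subgroup.subgroupOfEquivOfLe (le_sup_right : S' ≤ N ⊔ S')).toEquiv
      rw [h5, mul_comm] at h4
      exact h4
    rw [← h2] at h3
    exact Nat.eq_of_mul_eq_mul_right Nat.card_pos h3
  have hrS' : r ∣ Nat.card S' := by
    have h4 := (S.subgroupOf S').card_mul_index
    have ha : a ≠ 0 := by
      rintro rfl
      rw [pow_zero, Subgroup.relIndex_eq_one] at hrel
      exact hlt (le_antisymm hSS' hrel)
    have h5 : (S.subgroupOf S').index = r ^ a := hrel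
    rw [h5] at h4
    rw [← h4]
    exact Dvd.dvd.mul_left (dvd_pow_self r ha) _
  have hrN : ¬ r ∣ Nat.card N := by
    intro h
    have h1 : r ∣ N.index := by
      rw [hH.symm.index_eq_card]
      exact hrS'.trans (Subgroup.card_dvd_of_le hS'H)
    have := Nat.dvd_gcd h h1
    rw [hco.gcd_eq_one] at this
    exact hr.one_lt.ne' (Nat.dvd_one.1 this)
  have hrL : ¬ r ∣ S'.relIndex L := by
    intro h
    apply hrN
    rw [← hrelN, ← Subgroup.relIndex_mul_relIndex S' L (N ⊔ S') hS'L hLle]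
    exact Dvd.dvd.mul_right h _
  -- apply `conj_over` in the group `L`
  have : (S.subgroupOf L).Normal := by
    constructor
    intro x hx g
    have hg : (g : G) ∈ Subgroup.normalizer (S : Set G) := (g.2 : (g : G) ∈ L).2
    rw [Subgroup.mem_normalizer_iff] at hg
    exact (hg x).1 hx
  have hc : Nat.card (S'.subgroupOf L) = Nat.card ((K ⊓ (N ⊔ S')).subgroupOf L) := by
    rw [Nat.card_congr (Subgroup.subgroupOfEquivOfLe hS'L).toEquiv,
      Nat.card_congr (Subgroup.subgroupOfEquivOfLe hK1L).toEquiv, hcardS']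
  have hrel' : (S.subgroupOf L).relIndex (S'.subgroupOf L) = r ^ a := by
    rw [Subgroup.relIndex_subgroupOf hS'L, hrel]
  obtain ⟨l, hl⟩ := conj_over (S.subgroupOf L) (S'.subgroupOf L) ((K ⊓ (N ⊔ S')).subgroupOf L)
    (fun x hx => hSS' hx) (fun x hx => ⟨hSK hx, (le_sup_right : S ≤ N ⊔ S) hx |>
      (sup_le_sup_left hSS' N : N ⊔ S ≤ N ⊔ S')⟩) hc r a hrel' hrL
  refine ⟨l, fun x hx => ?_⟩
  have hxL : x ∈ L := hS'L hx
  have h1 := (hl (l * ⟨x, hxL⟩ * l⁻¹)).2 (by
    have e : l⁻¹ * (l * ⟨x, hxL⟩ * l⁻¹) * l = (⟨x, hxL⟩ : L) := by group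
    rw [e]
    exact hx)
  exact h1.1

/-- conjugates of complements of a normal subgroup are complements -/
theorem compl_conj {G : Type} [Group G] [Finite G] {N K K' : Subgroup G} (hN : N.Normal)
    (hK : N.IsComplement' K) (l : G) (h : ∀ x, x ∈ K' ↔ l * x * l⁻¹ ∈ K) :
    N.IsComplement' K' := by
  constructor
  · rintro ⟨⟨n, hn⟩, ⟨k, hk⟩⟩ ⟨⟨n', hn'⟩, ⟨k', hk'⟩⟩ he
    have h1 : n * k = n' * k' := he
    have h2 := hK.1 (a₁ := (⟨l * n * l⁻¹, hN.conj_mem n hn l⟩, ⟨l * k * l⁻¹, (h k).1 hk⟩))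
      (a₂ := (⟨l * n' * l⁻¹, hN.conj_mem n' hn' l⟩, ⟨l * k' * l⁻¹, (h k').1 hk'⟩)) (by
        change l * n * l⁻¹ * (l * k * l⁻¹) = l * n' * l⁻¹ * (l * k' * l⁻¹)
        have e1 : l * n * l⁻¹ * (l * k * l⁻¹) = l * (n * k) * l⁻¹ := by group
        have e2 : l * n' * l⁻¹ * (l * k' * l⁻¹) = l * (n' * k') * l⁻¹ := by group
        rw [e1, e2, h1])
    have h3 : l * n * l⁻¹ = l * n' * l⁻¹ := congrArg (fun x => (x.1 : G)) h2
    have h4 : l * k * l⁻¹ = l * k' * l⁻¹ := congrArg (fun x => (x.2 : G)) h2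
    have h5 : n = n' := by simpa using h3
    have h6 : k = k' := by simpa using h4
    subst h5 h6
    rfl
  · intro g
    obtain ⟨⟨⟨n, hn⟩, ⟨k, hk⟩⟩, he⟩ := hK.2 (l * g * l⁻¹)
    have he' : n * k = l * g * l⁻¹ := he
    have hk' : l⁻¹ * k * l ∈ K' := by
      rw [h]
      have e : l * (l⁻¹ * k * l) * l⁻¹ = k := by group
      rw [e]
      exact hk
    have hn' : l⁻¹ * n * l ∈ N := by
      have := hN.conj_mem n hn l⁻¹
      rwa [inv_inv] at this
    refine ⟨(⟨l⁻¹ * n * l, hn'⟩, ⟨l⁻¹ * k * l, hk'⟩), ?_⟩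
    change l⁻¹ * n * l * (l⁻¹ * k * l) = g
    have e : l⁻¹ * n * l * (l⁻¹ * k * l) = l⁻¹ * (n * k) * l := by group
    rw [e, he']
    group

theorem main {G : Type} [Group G] [Finite G] (N H : Subgroup G) (hN : N.Normal)
    (hco : (Nat.card N).Coprime N.index) (hH : N.IsComplement' H)
    (hsol : Group.IsSolvable H) :
    ∀ (n : ℕ) (S K : Subgroup G), Nat.card H - Nat.card S = n → S ≤ H → S ≤ K →
      (∀ h ∈ H, ∀ s ∈ S, h * s * h⁻¹ ∈ S) → N.IsComplement' K →
      ∃ g : G, ∀ x, x ∈ K ↔ g⁻¹ * x * g ∈ H := by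
  intro n
  induction n using Nat.strong_induction_on with
  | _ n ih =>
    intro S K hn hSH hSK hnS hK
    by_cases hne : S = H
    · subst hne
      have hc : Nat.card K = Nat.card S := by
        rw [← hK.symm.index_eq_card, ← hH.symm.index_eq_card]
      have : S = K := Subgroup.eq_of_le_of_card_ge hSK (le_of_eq hc)
      refine ⟨1, fun x => ?_⟩
      rw [this]
      simp
    · obtain ⟨r, a, S', hr, hlt, hS'H, hnS', hrel⟩ := exists_step H S hsol hSH hne hnS
      obtain ⟨l, hl⟩ := step N H K S S' hN hco hH hK hlt.le hS'H hSK hnS r a hr hrel hlt.ne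
      let K' : Subgroup G := K.comap (MulAut.conj l).toMonoidHom
      have hK' : ∀ x, x ∈ K' ↔ l * x * l⁻¹ ∈ K := fun x => Iff.rfl
      have hcK' := compl_conj hN hK l hK'
      have hlt' : Nat.card S < Nat.card S' := by
        by_contra hcon
        exact hlt.ne (Subgroup.eq_of_le_of_card_ge hlt.le (not_lt.1 hcon))
      have hle : Nat.card S' ≤ Nat.card H := Subgroup.card_le_of_le hS'H
      obtain ⟨g, hg⟩ := ih (Nat.card H - Nat.card S') (by omega) S' K' rfl hS'H
        (fun x hx => hl x hx) hnS' hcK'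
      refine ⟨l * g, fun x => ?_⟩
      have h1 : x ∈ K ↔ l⁻¹ * x * l ∈ K' := by
        rw [hK']
        have e : l * (l⁻¹ * x * l) * l⁻¹ = x := by group
        rw [e]
      rw [h1, hg]
      have e : g⁻¹ * (l⁻¹ * x * l) * g = (l * g)⁻¹ * x * (l * g) := by group
      rw [e]

theorem szConj : SZStm := by
  intro G _ _ N H K hN hco hH hK hsol
  exact main N H hN hco hH hsol _ ⊥ K rfl bot_le bot_le (by
    intro h _ s hs
    rw [Subgroup.mem_bot] at hs ⊢
    rw [hs]
    group) hK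

end Pool.Agent.TH350.J733
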