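import Pool.Agent.TH82.BS.Basic

namespace Pool.Agent.TH350.J81

open scoped commutatorElement
open Pool.Agent.TH82.BS

universe u

section general

variable {H X Y Z : Type*} [Group H] [AddCommGroup X] [AddCommGroup Y] [AddCommGroup Z]
  [DistribMulAction H X] [DistribMulAction H Y] [DistribMulAction H Z]

/-- conjugation action on additive homomorphisms -/
def cj (h : H) (f : X →+ Y) : X →+ Y where
  toFun x := h • f (h⁻¹ • x)
  map_zero' := by simp
  map_add' x y := by simp [smul_add]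

theorem cj_apply (h : H) (f : X →+ Y) (x : X) : cj h f x = h • f (h⁻¹ • x) := rfl

theorem cj_smul (h : H) (f : X →+ Y) (x : X) : cj h f (h • x) = h • f x := by
  rw [cj_apply, inv_smul_smul]

theorem cj_mul (g h : H) (f : X →+ Y) : cj (g * h) f = cj g (cj h f) := by
  ext x
  simp only [cj_apply, mul_smul, mul_inv_rev]

theorem cj_one (f : X →+ Y) : cj (1 : H) f = f := by
  ext x
  simp [cj_apply]

theorem cj_add (h : H) (f k : X →+ Y) : cj h (f + k) = cj h f + cj h k := by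
  ext x
  simp [cj_apply]

theorem cj_zero (h : H) : cj h (0 : X →+ Y) = 0 := by
  ext x
  simp [cj_apply]

theorem cj_comp (h : H) (f : Y →+ Z) (k : X →+ Y) :
    cj h (f.comp k) = (cj h f).comp (cj h k) := by
  ext x
  simp [cj_apply]

/-- conjugation action on additive endomorphisms -/
def cjE (h : H) (f : AddMonoid.End X) : AddMonoid.End X := (cj h (f : X →+ X) : X →+ X)

theorem cjE_apply (h : H) (f : AddMonoid.End X) (x : X) : cjE h f x = h • f (h⁻¹ • x) := rfl

theorem cjE_mul (g h : H) (f : AddMonoid.End X) : cjE (g * h) f = cjE g (cjE h f) :=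
  cj_mul g h f

theorem cjE_one (f : AddMonoid.End X) : cjE (1 : H) f = f := cj_one f

theorem cjE_zero (h : H) : cjE h (0 : AddMonoid.End X) = 0 := cj_zero h

theorem cjE_map_mul (h : H) (f k : AddMonoid.End X) : cjE h (f * k) = cjE h f * cjE h k :=
  cj_comp h f k

theorem cjE_map_one (h : H) : cjE h (1 : AddMonoid.End X) = 1 := by
  ext x
  rw [cjE_apply]
  exact smul_inv_smul h x

theorem cjE_pow (h : H) (f : AddMonoid.End X) (n : ℕ) : cjE h (f ^ n) = cjE h f ^ n := by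
  induction n with
  | zero => rw [pow_zero, pow_zero, cjE_map_one]
  | succ n ih => rw [pow_succ, pow_succ, cjE_map_mul, ih]

end general

section defs

variable {G : Type u} [Group G] {V : Type u} [AddCommGroup V] [DistribMulAction G V]

/-- stabilizer of an additive subgroup -/
def Hst (G : Type u) [Group G] {V : Type u} [AddCommGroup V] [DistribMulAction G V]
    (U : AddSubgroup V) : Subgroup G where
  carrier := {g | ∀ u : V, g • u ∈ U ↔ u ∈ U}
  mul_mem' := by
    intro a b ha hb u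
    rw [mul_smul]
    exact (ha _).trans (hb _)
  one_mem' := by intro u; simp
  inv_mem' := by
    intro a ha u
    have := ha (a⁻¹ • u)
    rw [smul_inv_smul] at this
    exact this.symm

theorem mem_Hst {U : AddSubgroup V} {g : G} :
    g ∈ Hst G U ↔ ∀ u : V, g • u ∈ U ↔ u ∈ U := Iff.rfl

instance actU (U : AddSubgroup V) : DistribMulAction (Hst G U) U where
  smul h u := ⟨(h : G) • (u : V), (h.2 u).2 u.2⟩
  one_smul u := Subtype.ext (one_smul G (u:V))
  mul_smul g h u := Subtype.ext (mul_smul (g:G) (h:G) (u:V))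
  smul_zero g := Subtype.ext (smul_zero (g:G))
  smul_add g u v := Subtype.ext (smul_add (g:G) (u:V) (v:V))

theorem coe_smulU {U : AddSubgroup V} (h : Hst G U) (u : U) :
    ((h • u : U) : V) = (h : G) • (u : V) := rfl

/-- homomorphisms `U → V` commuting with `M` -/
def WW (M : Subgroup G) (U : AddSubgroup V) : AddSubgroup (U →+ V) where
  carrier := {f | ∀ m ∈ M, ∀ u u' : U, (u' : V) = m • (u : V) → f u' = m • f u}
  add_mem' := by
    intro f k hf hk m hm u u' h
    simp [hf m hm u u' h, hk m hm u u' h]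
  zero_mem' := by intro m hm u u' h; simp
  neg_mem' := by
    intro f hf m hm u u' h
    simp [hf m hm u u' h]

theorem mem_WW {M : Subgroup G} {U : AddSubgroup V} {f : U →+ V} :
    f ∈ WW M U ↔ ∀ m ∈ M, ∀ u u' : U, (u' : V) = m • (u : V) → f u' = m • f u := Iff.rfl

/-- endomorphisms of `U` commuting with `M` -/
def FF (M : Subgroup G) (U : AddSubgroup V) : Subring (AddMonoid.End U) where
  carrier := {f | ∀ m ∈ M, ∀ u u' : U, (u' : V) = m • (u : V) →
    ((f u' : U) : V) = m • ((f u : U) : V)}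
  add_mem' := by
    intro f k hf hk m hm u u' h
    have h1 := hf m hm u u' h
    have h2 := hk m hm u u' h
    change ((f u' + k u' : U) : V) = m • ((f u + k u : U) : V)
    rw [AddSubgroup.coe_add, AddSubgroup.coe_add, smul_add, h1, h2]
  zero_mem' := by
    intro m hm u u' h
    change ((0 : U) : V) = m • ((0 : U) : V)
    simp
  neg_mem' := by
    intro f hf m hm u u' h
    have h1 := hf m hm u u' h
    change ((- f u' : U) : V) = m • ((- f u : U) : V)
    rw [AddSubgroup.coe_neg, AddSubgroup.coe_neg, smul_neg, h1]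
  mul_mem' := by
    intro f k hf hk m hm u u' h
    exact hf m hm (k u) (k u') (hk m hm u u' h)
  one_mem' := by
    intro m hm u u' h
    exact h

theorem mem_FF {M : Subgroup G} {U : AddSubgroup V} {f : AddMonoid.End U} :
    f ∈ FF M U ↔ ∀ m ∈ M, ∀ u u' : U, (u' : V) = m • (u : V) →
      ((f u' : U) : V) = m • ((f u : U) : V) := Iff.rfl

theorem cj_mem_WW {M : Subgroup G} [hM : M.Normal] {U : AddSubgroup V} (h : Hst G U)
    {f : U →+ V} (hf : f ∈ WW M U) : cj h f ∈ WW M U := by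
  intro m hm u u' huu
  rw [cj_apply, cj_apply]
  have h1 := hf ((h : G)⁻¹ * m * h) (by simpa using hM.conj_mem m hm (h : G)⁻¹) (h⁻¹ • u) (h⁻¹ • u')
    (by rw [coe_smulU, coe_smulU, huu]; simp [mul_smul])
  rw [h1, Subgroup.smul_def, Subgroup.smul_def, ← mul_smul, ← mul_smul]
  congr 1
  group

theorem cj_mem_FF {M : Subgroup G} [hM : M.Normal] {U : AddSubgroup V} (h : Hst G U)
    {f : AddMonoid.End U} (hf : f ∈ FF M U) : cjE h f ∈ FF M U := by
  intro m hm u u' huu
  have h1 := hf ((h : G)⁻¹ * m * h) (by simpa using hM.conj_mem m hm (h : G)⁻¹) (h⁻¹ • u) (h⁻¹ • u')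
    (by rw [coe_smulU, coe_smulU, huu]; simp [mul_smul])
  change ((h • f (h⁻¹ • u') : U) : V) = m • ((h • f (h⁻¹ • u) : U) : V)
  rw [coe_smulU, coe_smulU, h1, ← mul_smul, ← mul_smul]
  congr 1
  group

instance actW (M : Subgroup G) [M.Normal] (U : AddSubgroup V) :
    DistribMulAction (Hst G U) (WW M U) where
  smul h f := ⟨cj h f.1, cj_mem_WW h f.2⟩
  one_smul f := Subtype.ext (cj_one f.1)
  mul_smul g h f := Subtype.ext (cj_mul g h f.1)
  smul_zero g := Subtype.ext (cj_zero g)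
  smul_add g f k := Subtype.ext (cj_add g f.1 k.1)

theorem coe_smulW {M : Subgroup G} [M.Normal] {U : AddSubgroup V} (h : Hst G U) (f : WW M U) :
    ((h • f : WW M U) : U →+ V) = cj h (f : U →+ V) := rfl

/-- additive span of `M` in `End V` -/
def SS (M : Subgroup G) (V : Type u) [AddCommGroup V] [DistribMulAction G V] :
    AddSubgroup (V →+ V) :=
  AddSubgroup.closure (Set.range fun m : M => DistribSMul.toAddMonoidHom V (m : G))

theorem SS_ind {M : Subgroup G} {p : (V →+ V) → Prop}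
    (hm : ∀ m ∈ M, p (DistribSMul.toAddMonoidHom V (m : G))) (h0 : p 0)
    (hadd : ∀ s t, p s → p t → p (s + t)) (hneg : ∀ s, p s → p (-s)) {s : V →+ V}
    (hs : s ∈ SS M V) : p s := by
  refine AddSubgroup.closure_induction (p := fun s _ => p s) ?_ h0 ?_ ?_ hs
  · rintro _ ⟨m, rfl⟩
    exact hm m m.2
  · intro x y _ _ hx hy
    exact hadd x y hx hy
  · intro x _ hx
    exact hneg x hx

theorem SS_mem {M : Subgroup G} {m : G} (hm : m ∈ M) :
    DistribSMul.toAddMonoidHom V (m : G) ∈ SS M V :=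
  AddSubgroup.subset_closure ⟨⟨m, hm⟩, rfl⟩

/-- invariant subgroups -/
def Inv (M : Subgroup G) (U : AddSubgroup V) : Prop := ∀ m ∈ M, ∀ u ∈ U, m • u ∈ U

theorem SS_inv {M : Subgroup G} {U : AddSubgroup V} (hU : Inv M U) {s : V →+ V}
    (hs : s ∈ SS M V) : ∀ u ∈ U, s u ∈ U := by
  intro u hu
  refine SS_ind (p := fun s => s u ∈ U) ?_ ?_ ?_ ?_ hs
  · intro m hm
    exact hU m hm u hu
  · exact U.zero_mem
  · intro s t h1 h2
    exact U.add_mem h1 h2
  · intro s h1
    exact U.neg_mem h1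

theorem SS_comm {M : Subgroup G} {U : AddSubgroup V} (hU : Inv M U) {f : U →+ V}
    (hf : f ∈ WW M U) {s : V →+ V} (hs : s ∈ SS M V) :
    ∀ u u' : U, (u' : V) = s u → f u' = s (f u) := by
  intro u u' h
  have key : ∃ hu : s (u : V) ∈ U, f ⟨s u, hu⟩ = s (f u) := by
    refine SS_ind (p := fun s => ∃ hu : s (u : V) ∈ U, f ⟨s u, hu⟩ = s (f u)) ?_ ?_ ?_ ?_ hs
    · intro m hm
      exact ⟨hU m hm u u.2, hf m hm u _ rfl⟩
    · refine ⟨U.zero_mem, ?_⟩
      have : (⟨(0 : V →+ V) u, U.zero_mem⟩ : U) = 0 := Subtype.ext rfl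
      rw [this]
      simp
    · rintro s t ⟨h1, h2⟩ ⟨h3, h4⟩
      refine ⟨U.add_mem h1 h3, ?_⟩
      have : (⟨(s + t) u, U.add_mem h1 h3⟩ : U) = ⟨s u, h1⟩ + ⟨t u, h3⟩ := Subtype.ext rfl
      rw [this, map_add, h2, h4]
      rfl
    · rintro s ⟨h1, h2⟩
      refine ⟨U.neg_mem h1, ?_⟩
      have : (⟨(-s) u, U.neg_mem h1⟩ : U) = -⟨s u, h1⟩ := Subtype.ext rfl
      rw [this, map_neg, h2]
      rfl
  obtain ⟨h1, h2⟩ := key
  rw [← h2]
  congr 1
  exact Subtype.ext h

theorem SS_conj {M : Subgroup G} [hM : M.Normal] (g : G) {s : V →+ V} (hs : s ∈ SS M V) :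
    ∃ s' ∈ SS M V, ∀ v, s' (g • v) = g • s v := by
  refine SS_ind (p := fun s => ∃ s' ∈ SS M V, ∀ v, s' (g • v) = g • s v) ?_ ?_ ?_ ?_ hs
  · intro m hm
    refine ⟨_, SS_mem (hM.conj_mem m hm g), fun v => ?_⟩
    change (g * m * g⁻¹) • g • v = g • m • v
    rw [← mul_smul, ← mul_smul]
    congr 1
    group
  · exact ⟨0, (SS M V).zero_mem, fun v => by simp⟩
  · rintro s t ⟨s', hs', h1⟩ ⟨t', ht', h2⟩
    exact ⟨s' + t', (SS M V).add_mem hs' ht', fun v => by simp [h1, h2]⟩
  · rintro s ⟨s', hs', h1⟩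
    exact ⟨-s', (SS M V).neg_mem hs', fun v => by simp [h1]⟩

theorem SS_left {M : Subgroup G} {m : G} (hm : m ∈ M) {s : V →+ V} (hs : s ∈ SS M V) :
    (DistribSMul.toAddMonoidHom V m).comp s ∈ SS M V := by
  refine SS_ind (p := fun s => (DistribSMul.toAddMonoidHom V m).comp s ∈ SS M V) ?_ ?_ ?_ ?_ hs
  · intro m' hm'
    have h := SS_mem (V := V) (M.mul_mem hm hm')
    convert h using 1
    ext v
    simp [mul_smul]
  · simp
  · intro s t h1 h2
    rw [AddMonoidHom.comp_add]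
    exact (SS M V).add_mem h1 h2
  · intro s h1
    have : (DistribSMul.toAddMonoidHom V m).comp (-s) =
        -((DistribSMul.toAddMonoidHom V m).comp s) := by
      ext v
      simp
    rw [this]
    exact (SS M V).neg_mem h1

/-- minimal invariant subgroups -/
structure MinInv (M : Subgroup G) (U : AddSubgroup V) : Prop where
  inv : Inv M U
  ne : U ≠ ⊥
  min : ∀ U' : AddSubgroup V, Inv M U' → U' ≤ U → U' = ⊥ ∨ U' = U

theorem exists_minInv [Finite V] [Nontrivial V] (M : Subgroup G) :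
    ∃ U : AddSubgroup V, MinInv M U := by
  have hfin : Finite (AddSubgroup V) := inferInstance
  have hne : ({U : AddSubgroup V | Inv M U ∧ U ≠ ⊥}).Nonempty := by
    refine ⟨⊤, fun m _ u _ => AddSubgroup.mem_top _, ?_⟩
    exact top_ne_bot
  obtain ⟨U, hU⟩ := (Set.toFinite {U : AddSubgroup V | Inv M U ∧ U ≠ ⊥}).exists_minimal hne
  refine ⟨U, hU.prop.1, hU.prop.2, fun U' h1 h2 => ?_⟩
  by_cases h : U' = ⊥
  · exact Or.inl h
  · exact Or.inr (le_antisymm h2 (hU.le_of_le ⟨h1, h⟩ h2))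

/-- `S u = U` -/
theorem orbit_eq {M : Subgroup G} {U : AddSubgroup V} (hU : MinInv M U) {u : V} (hu : u ∈ U)
    (hu0 : u ≠ 0) : ∀ x ∈ U, ∃ s ∈ SS M V, s u = x := by
  let O : AddSubgroup V := (SS M V).map (AddMonoidHom.eval u)
  have hO : ∀ x, x ∈ O ↔ ∃ s ∈ SS M V, s u = x := fun x => Iff.rfl
  have h1 : Inv M O := by
    intro m hm x hx
    obtain ⟨s, hs, rfl⟩ := (hO x).1 hx
    exact (hO _).2 ⟨_, SS_left hm hs, rfl⟩
  have h2 : O ≤ U := by
    intro x hx
    obtain ⟨s, hs, rfl⟩ := (hO x).1 hx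
    exact SS_inv hU.inv hs u hu
  have h3 : u ∈ O := (hO _).2 ⟨_, SS_mem M.one_mem, by simp⟩
  rcases hU.min O h1 h2 with h | h
  · rw [h, AddSubgroup.mem_bot] at h3
    exact absurd h3 hu0
  · intro x hx
    rw [← h] at hx
    exact (hO x).1 hx

theorem inj_of_mem_FF {M : Subgroup G} {U : AddSubgroup V} (hU : MinInv M U)
    {f : AddMonoid.End U} (hf : f ∈ FF M U) (h0 : f ≠ 0) : ∀ u, f u = 0 → u = 0 := by
  let K : AddSubgroup V := (AddMonoidHom.ker (f : U →+ U)).map U.subtype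
  have h1 : Inv M K := by
    rintro m hm _ ⟨u, hu, rfl⟩
    refine ⟨⟨m • (u : V), hU.inv m hm u u.2⟩, ?_, rfl⟩
    have h2 := hf m hm u ⟨m • (u : V), hU.inv m hm u u.2⟩ rfl
    have hu' : f u = 0 := hu
    rw [hu'] at h2
    exact Subtype.ext (h2.trans (by simp))
  have h2 : K ≤ U := by
    rintro _ ⟨u, hu, rfl⟩
    exact u.2
  rcases hU.min K h1 h2 with h | h
  · intro u hu
    have h3 : (u : V) ∈ K := ⟨u, hu, rfl⟩
    rw [h, AddSubgroup.mem_bot] at h3
    exact Subtype.ext h3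
  · exfalso
    apply h0
    ext u
    have h3 : (u : V) ∈ K := by rw [h]; exact u.2
    obtain ⟨u', hu', h4⟩ := h3
    have h5 : u' = u := Subtype.ext h4
    rw [← h5]
    have h6 : f u' = 0 := hu'
    rw [h6]
    rfl

theorem inj_of_mem_WW {M : Subgroup G} {U : AddSubgroup V} (hU : MinInv M U)
    {f : U →+ V} (hf : f ∈ WW M U) (h0 : f ≠ 0) : ∀ u, f u = 0 → u = 0 := by
  let K : AddSubgroup V := (AddMonoidHom.ker f).map U.subtype
  have h1 : Inv M K := by
    rintro m hm _ ⟨u, hu, rfl⟩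
    refine ⟨⟨m • (u : V), hU.inv m hm u u.2⟩, ?_, rfl⟩
    have h2 := hf m hm u ⟨m • (u : V), hU.inv m hm u u.2⟩ rfl
    have hu' : f u = 0 := hu
    rw [hu'] at h2
    simpa using h2
  have h2 : K ≤ U := by
    rintro _ ⟨u, hu, rfl⟩
    exact u.2
  rcases hU.min K h1 h2 with h | h
  · intro u hu
    have h3 : (u : V) ∈ K := ⟨u, hu, rfl⟩
    rw [h, AddSubgroup.mem_bot] at h3
    exact Subtype.ext h3
  · exfalso
    apply h0
    ext u
    have h3 : (u : V) ∈ K := by rw [h]; exact u.2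
    obtain ⟨u', hu', h4⟩ := h3
    have h5 : u' = u := Subtype.ext h4
    rw [← h5]
    exact hu'

theorem FF_isField [Finite V] {M : Subgroup G} {U : AddSubgroup V} (hU : MinInv M U) :
    IsField (FF M U) := by
  have hnt : Nontrivial U := by
    rw [AddSubgroup.nontrivial_iff_ne_bot]
    exact hU.ne
  have h1 : Nontrivial (FF M U) := by
    refine ⟨0, 1, fun h => ?_⟩
    obtain ⟨u, hu⟩ := exists_ne (0 : U)
    apply hu
    have h2 : (0 : AddMonoid.End U) = 1 := congrArg Subtype.val h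
    have h3 : (0 : AddMonoid.End U) u = (1 : AddMonoid.End U) u := by rw [h2]
    exact h3.symm
  have h2 : NoZeroDivisors (FF M U) := by
    refine ⟨fun {a b} hab => ?_⟩
    by_contra hcon
    push Not at hcon
    obtain ⟨ha, hb⟩ := hcon
    apply hb
    refine Subtype.ext ?_
    ext u
    have h3 : (a : AddMonoid.End U) ((b : AddMonoid.End U) u) = 0 := by
      have h4 : (a : AddMonoid.End U) * (b : AddMonoid.End U) = 0 := congrArg Subtype.val hab
      have h5 : ((a : AddMonoid.End U) * (b : AddMonoid.End U)) u = 0 := by rw [h4]; rfl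
      exact h5
    have h6 := inj_of_mem_FF hU a.2 (fun h => ha (Subtype.ext h)) _ h3
    rw [h6]
    rfl
  have h3 : IsDomain (FF M U) := NoZeroDivisors.to_isDomain _
  have h4 : Finite (AddMonoid.End U) :=
    Finite.of_injective (fun f : U →+ U => (f : U → U)) DFunLike.coe_injective
  have h5 : Finite (FF M U) := inferInstance
  exact Finite.isDomain_to_isField _

theorem stab_mem_Hst {M : Subgroup G} [M.Normal] {U : AddSubgroup V} (hU : MinInv M U) {u : V}
    (hu : u ∈ U) (hu0 : u ≠ 0) {g : G} (hg : g • u = u) : g ∈ Hst G U := by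
  have key : ∀ g : G, g • u = u → ∀ x ∈ U, g • x ∈ U := by
    intro g hg x hx
    obtain ⟨s, hs, rfl⟩ := orbit_eq hU hu hu0 x hx
    obtain ⟨s', hs', h⟩ := SS_conj (M := M) g hs
    rw [← h, hg]
    exact SS_inv hU.inv hs' u hu
  rw [mem_Hst]
  intro x
  refine ⟨fun h => ?_, key g hg x⟩
  have h1 := key g⁻¹ (by rw [inv_smul_eq_iff, hg]) _ h
  rwa [inv_smul_smul] at h1

/-- span of the images -/
def VU (M : Subgroup G) (U : AddSubgroup V) : AddSubgroup V :=
  AddSubgroup.closure {x | ∃ f ∈ WW M U, ∃ u, x = f u}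

theorem VU_ind {M : Subgroup G} {U : AddSubgroup V} {p : V → Prop}
    (h1 : ∀ f ∈ WW M U, ∀ u, p (f u)) (h0 : p 0) (hadd : ∀ x y, p x → p y → p (x + y))
    (hneg : ∀ x, p x → p (-x)) {x : V} (hx : x ∈ VU M U) : p x := by
  refine AddSubgroup.closure_induction (p := fun s _ => p s) ?_ h0 ?_ ?_ hx
  · rintro _ ⟨f, hf, u, rfl⟩
    exact h1 f hf u
  · intro x y _ _ hx hy
    exact hadd x y hx hy
  · intro x _ hx
    exact hneg x hx

theorem VU_mem {M : Subgroup G} {U : AddSubgroup V} {f : U →+ V} (hf : f ∈ WW M U) (u : U) :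
    f u ∈ VU M U := AddSubgroup.subset_closure ⟨f, hf, u, rfl⟩

theorem le_VU {M : Subgroup G} {U : AddSubgroup V} : U ≤ VU M U := by
  intro u hu
  exact VU_mem (f := U.subtype) (M := M) (fun m hm u u' h => h) ⟨u, hu⟩

theorem comp_mem_WW {M : Subgroup G} {U : AddSubgroup V} {c : G}
    (hc : c ∈ Subgroup.centralizer (M : Set G)) {f : U →+ V} (hf : f ∈ WW M U) :
    (DistribSMul.toAddMonoidHom V c).comp f ∈ WW M U := by
  intro m hm u u' h
  change c • f u' = m • c • f u
  rw [hf m hm u u' h, ← mul_smul, ← mul_smul, Subgroup.mem_centralizer_iff.mp hc m hm]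

theorem VU_C {M : Subgroup G} {U : AddSubgroup V} {c : G}
    (hc : c ∈ Subgroup.centralizer (M : Set G)) {x : V} (hx : x ∈ VU M U) : c • x ∈ VU M U := by
  refine VU_ind (p := fun x => c • x ∈ VU M U) ?_ ?_ ?_ ?_ hx
  · intro f hf u
    exact VU_mem (comp_mem_WW hc hf) u
  · simp
  · intro x y h1 h2
    rw [smul_add]
    exact (VU M U).add_mem h1 h2
  · intro x h1
    rw [smul_neg]
    exact (VU M U).neg_mem h1

theorem VU_H {M : Subgroup G} [M.Normal] {U : AddSubgroup V} (h : Hst G U) {x : V}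
    (hx : x ∈ VU M U) : (h : G) • x ∈ VU M U := by
  refine VU_ind (p := fun x => (h : G) • x ∈ VU M U) ?_ ?_ ?_ ?_ hx
  · intro f hf u
    have h1 := VU_mem (cj_mem_WW h hf) (h • u)
    rw [cj_smul] at h1
    exact h1
  · simp
  · intro x y h1 h2
    rw [smul_add]
    exact (VU M U).add_mem h1 h2
  · intro x h1
    rw [smul_neg]
    exact (VU M U).neg_mem h1

theorem VU_comm {M : Subgroup G} [M.Normal] {U : AddSubgroup V} {h : Hst G U}
    (hh : ∀ w : WW M U, h • w = w) {c : G}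
    (hc : c ∈ Subgroup.centralizer (M : Set G)) {x : V} (hx : x ∈ VU M U) :
    (h : G) • c • x = c • (h : G) • x := by
  refine VU_ind (p := fun x => (h : G) • c • x = c • (h : G) • x) ?_ ?_ ?_ ?_ hx
  · intro f hf u
    have h1 := congrArg Subtype.val (hh ⟨f, hf⟩)
    have h2 := congrArg Subtype.val (hh ⟨_, comp_mem_WW hc hf⟩)
    rw [coe_smulW] at h1 h2
    have h3 := DFunLike.congr_fun h1 (h • u)
    have h4 := DFunLike.congr_fun h2 (h • u)
    rw [cj_smul] at h3 h4
    change (h : G) • f u = f (h • u) at h3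
    change (h : G) • c • f u = c • f (h • u) at h4
    rw [h4, h3]
  · simp
  · intro x y h1 h2
    simp only [smul_add, h1, h2]
  · intro x h1
    simp only [smul_neg, h1]

/-- elements acting trivially on a translate of `VU` -/
def Afix (W : AddSubgroup V) (g : G) : Subgroup G where
  carrier := {c | ∀ x ∈ W, c • g • x = g • x}
  mul_mem' := by
    intro a b ha hb x hx
    rw [mul_smul, hb x hx, ha x hx]
  one_mem' := by intro x _; simp
  inv_mem' := by
    intro a ha x hx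
    rw [inv_smul_eq_iff, ha x hx]

theorem mem_Afix {W : AddSubgroup V} {g c : G} :
    c ∈ Afix W g ↔ ∀ x ∈ W, c • g • x = g • x := Iff.rfl

theorem kernel_claim {T : Type u} [Group T] [IsSimpleGroup T] (hT : ¬ ∀ a b : T, a * b = b * a)
    [Finite G] {φ : G →* T}
    (hfaith : ∀ g : G, (∀ v : V, g • v = v) → g = 1)
    (hirr : ∀ W : AddSubgroup V, (∀ g : G, ∀ w ∈ W, g • w ∈ W) → W = ⊥ ∨ W = ⊤)
    {M : Subgroup G} [hMn : M.Normal]
    (hC : (Subgroup.centralizer (M : Set G)).map φ = ⊤)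
    {U : AddSubgroup V} (hU : MinInv M U) (hH : (Hst G U).map φ = ⊤)
    (h : Hst G U) (hh : ∀ w : WW M U, h • w = w) : φ h = 1 := by
  classical
  have := Fintype.ofFinite G
  set C := Subgroup.centralizer (M : Set G) with hCdef
  have hCn : C.Normal := inferInstance
  let Q' : Subgroup (Hst G U) := (MulAction.toPermHom (Hst G U) (WW M U)).ker
  have hQ' : ∀ k : Hst G U, k ∈ Q' ↔ ∀ w : WW M U, k • w = w := by
    intro k
    rw [MonoidHom.mem_ker]
    constructor
    · intro h1 w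
      have := congrArg (fun e : Equiv.Perm (WW M U) => e w) h1
      exact this
    · intro h1
      ext1 w
      exact h1 w
  let Q : Subgroup G := Q'.map (Hst G U).subtype
  rcases map_eq_bot_or_top (A := Q) hH (by
    rintro k hk _ ⟨q, hq, rfl⟩
    have hQn : Q'.Normal := inferInstance
    exact ⟨_, hQn.conj_mem q hq ⟨k, hk⟩, rfl⟩) with h1 | h1
  · have h2 : φ h ∈ Q.map φ := ⟨h, ⟨h, (hQ' h).2 hh, rfl⟩, rfl⟩
    rw [h1] at h2
    exact Subgroup.mem_bot.mp h2
  · exfalso
    -- `[Q, C]` acts trivially on `VU`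
    have h2 := map_commutator_eq_top hT h1 hC
    have h3 : ⁅Q, C⁆ ≤ C ⊓ Afix (VU M U) 1 := by
      rw [Subgroup.commutator_le]
      rintro _ ⟨q, hq, rfl⟩ c hc
      have hq1 := (hQ' q).1 hq
      have hq2 : ∀ w : WW M U, q⁻¹ • w = w := fun w => by
        rw [inv_smul_eq_iff, hq1 w]
      refine ⟨?_, ?_⟩
      · rw [commutatorElement_def]
        exact C.mul_mem (hCn.conj_mem c hc _) (C.inv_mem hc)
      · refine mem_Afix.2 ?_
        intro x hx
        rw [one_smul]
        have hy : (q : G)⁻¹ • c⁻¹ • x ∈ VU M U := VU_H q⁻¹ (VU_C (C.inv_mem hc) hx)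
        have h5 := VU_comm hq1 hc hy
        rw [smul_inv_smul, smul_inv_smul] at h5
        rw [commutatorElement_def]
        simp only [mul_smul]
        exact h5
    have h4 := map_top_mono h3 h2
    have h5 : ∀ g : G, (C ⊓ Afix (VU M U) g).map φ = ⊤ := by
      intro g
      rw [eq_top_iff]
      intro t _
      have ht : (φ g)⁻¹ * t * φ g ∈ (C ⊓ Afix (VU M U) 1).map φ := by
        rw [h4]; exact Subgroup.mem_top _
      obtain ⟨a, ⟨ha1, ha2⟩, ha3⟩ := ht
      refine ⟨g * a * g⁻¹, ⟨hCn.conj_mem a ha1 g, ?_⟩, ?_⟩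
      · refine mem_Afix.2 ?_
        intro x hx
        have h6 := (mem_Afix.1 ha2) x hx
        rw [one_smul] at h6
        simp only [mul_smul, inv_smul_smul, h6]
      · rw [map_mul, map_mul, ha3, map_inv]
        group
    have h6 := map_inf_finset hT hC Finset.univ (fun g => Afix (VU M U) g)
      (fun g _ k hk a ha => by
        rw [mem_Afix] at ha ⊢
        intro x hx
        have h7 : (g⁻¹ * k⁻¹ * g) • x ∈ VU M U :=
          VU_C (by simpa using hCn.conj_mem k⁻¹ (C.inv_mem hk) g⁻¹) hx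
        have h8 := ha _ h7
        simp only [mul_smul, smul_inv_smul] at h8 ⊢
        rw [h8, smul_inv_smul])
      (fun g _ => h5 g)
    have h7 : ∀ b ∈ C ⊓ Finset.univ.inf (fun g => Afix (VU M U) g), b = 1 := by
      rintro b ⟨_, hb⟩
      have hb' : ∀ g : G, ∀ x ∈ VU M U, b • g • x = g • x := by
        intro g
        have h8 : Finset.univ.inf (fun g => Afix (VU M U) g) ≤ Afix (VU M U) g :=
          Finset.inf_le (Finset.mem_univ g)
        exact h8 hb
      let Sum : AddSubgroup V := AddSubgroup.closure {y | ∃ g : G, ∃ x ∈ VU M U, y = g • x}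
      have h8 : ∀ g : G, ∀ w ∈ Sum, g • w ∈ Sum := by
        intro g w hw
        refine AddSubgroup.closure_induction (p := fun w _ => g • w ∈ Sum) ?_ ?_ ?_ ?_ hw
        · rintro _ ⟨g', x, hx, rfl⟩
          rw [← mul_smul]
          exact AddSubgroup.subset_closure ⟨g * g', x, hx, rfl⟩
        · simp
        · intro x y _ _ hx hy
          rw [smul_add]
          exact Sum.add_mem hx hy
        · intro x _ hx
          rw [smul_neg]
          exact Sum.neg_mem hx
      have h9 : Sum = ⊤ := by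
        rcases hirr Sum h8 with h | h
        · exfalso
          apply hU.ne
          rw [eq_bot_iff]
          intro u hu
          have : u ∈ Sum := AddSubgroup.subset_closure ⟨1, u, le_VU hu, (one_smul G u).symm⟩
          rwa [h] at this
        · exact h
      apply hfaith
      intro v
      have hv : v ∈ Sum := by rw [h9]; exact AddSubgroup.mem_top v
      refine AddSubgroup.closure_induction (p := fun w _ => b • w = w) ?_ ?_ ?_ ?_ hv
      · rintro _ ⟨g', x, hx, rfl⟩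
        exact hb' g' x hx
      · simp
      · intro x y _ _ hx hy
        rw [smul_add, hx, hy]
      · intro x _ hx
        rw [smul_neg, hx]
    apply hT
    have h8 : ∀ t : T, t = 1 := by
      intro t
      have ht : t ∈ (C ⊓ Finset.univ.inf (fun g => Afix (VU M U) g)).map φ := by
        rw [h6]; exact Subgroup.mem_top t
      obtain ⟨b, hb, rfl⟩ := ht
      rw [h7 b hb, map_one]
    intro a b
    rw [h8 a, h8 b]

theorem exists_u2 [Finite V] {M : Subgroup G} [hMn : M.Normal]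
    (hfaith : ∀ g : G, (∀ v : V, g • v = v) → g = 1)
    (hirr : ∀ W : AddSubgroup V, (∀ g : G, ∀ w ∈ W, g • w ∈ W) → W = ⊥ ∨ W = ⊤)
    (hM : ¬ ∀ a ∈ M, ∀ b ∈ M, a * b = b * a)
    {U : AddSubgroup V} (hU : MinInv M U) (u1 : U) :
    ∃ u2 : U, ∀ l ∈ FF M U, l u1 ≠ u2 := by
  by_contra hcon
  push Not at hcon
  apply hM
  intro a ha b hb
  have hF := FF_isField hU
  have hcommF : ∀ x ∈ FF M U, ∀ y ∈ FF M U, ∀ u, x (y u) = y (x u) := by
    intro x hx y hy u
    have h1 := hF.mul_comm ⟨x, hx⟩ ⟨y, hy⟩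
    have h2 : x * y = y * x := congrArg Subtype.val h1
    exact DFunLike.congr_fun h2 u
  let K : AddSubgroup V :=
    { carrier := {v | ∀ a ∈ M, ∀ b ∈ M, a • b • v = b • a • v}
      add_mem' := by
        intro x y hx hy a ha b hb
        simp only [smul_add, hx a ha b hb, hy a ha b hb]
      zero_mem' := by intro a _ b _; simp
      neg_mem' := by
        intro x hx a ha b hb
        simp only [smul_neg, hx a ha b hb] }
  have hK : ∀ v, v ∈ K ↔ ∀ a ∈ M, ∀ b ∈ M, a • b • v = b • a • v := fun v => Iff.rfl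
  have hKG : ∀ g : G, ∀ w ∈ K, g • w ∈ K := by
    intro g w hw
    rw [hK] at hw ⊢
    intro a ha b hb
    have h1 := hw (g⁻¹ * a * g) (by simpa using hMn.conj_mem a ha g⁻¹) (g⁻¹ * b * g)
      (by simpa using hMn.conj_mem b hb g⁻¹)
    simp only [mul_smul, smul_inv_smul] at h1
    exact MulAction.injective g⁻¹ h1
  have hUK : U ≤ K := by
    intro u hu
    rw [hK]
    intro a ha b hb
    obtain ⟨μ, hμ, h1⟩ := hcon ⟨u, hu⟩
    obtain ⟨α, hα, h2⟩ := hcon ⟨a • (u1 : V), hU.inv a ha _ u1.2⟩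
    obtain ⟨β, hβ, h3⟩ := hcon ⟨b • (u1 : V), hU.inv b hb _ u1.2⟩
    have h4 : u = μ u1 := by rw [h1]
    have key : ∀ x ∈ FF M U, ∀ c ∈ M, ∀ γ ∈ FF M U, ((γ u1 : U) : V) = c • (u1 : V) →
        c • ((x u1 : U) : V) = ((x (γ u1) : U) : V) := by
      intro x hx c hc γ hγ h5
      exact (hx c hc u1 (γ u1) h5).symm
    have h2' : ((α u1 : U) : V) = a • (u1 : V) := by rw [h2]
    have h3' : ((β u1 : U) : V) = b • (u1 : V) := by rw [h3]
    have k1 : a • ((μ (β u1) : U) : V) = ((μ (β (α u1)) : U) : V) :=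
      key (μ * β) ((FF M U).mul_mem hμ hβ) a ha α hα h2'
    have k2 : b • ((μ (α u1) : U) : V) = ((μ (α (β u1)) : U) : V) :=
      key (μ * α) ((FF M U).mul_mem hμ hα) b hb β hβ h3'
    rw [h4, key μ hμ b hb β hβ h3', key μ hμ a ha α hα h2', k1, k2, hcommF β hβ α hα]
  have h9 : K = ⊤ := by
    rcases hirr K hKG with h | h
    · exfalso
      apply hU.ne
      rw [eq_bot_iff, ← h]
      exact hUK
    · exact h
  have h10 : (b * a)⁻¹ * (a * b) = 1 := by
    apply hfaith
    intro v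
    have hv : v ∈ K := by rw [h9]; exact AddSubgroup.mem_top v
    have h11 := (hK v).1 hv a ha b hb
    rw [mul_smul, inv_smul_eq_iff, mul_smul, mul_smul]
    exact h11
  have h11 := inv_mul_eq_one.mp h10
  exact h11.symm

theorem card_WW_lt [Finite V] {M : Subgroup G}
    {U : AddSubgroup V} (hU : MinInv M U) {u1 : U} (hu1 : u1 ≠ 0) {u2 : U}
    (hu2 : ∀ l ∈ FF M U, l u1 ≠ u2) : Nat.card (WW M U) < Nat.card V := by
  have hfinW : Finite (U →+ V) :=
    Finite.of_injective (fun f : U →+ V => (f : U → V)) DFunLike.coe_injective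
  have := Fintype.ofFinite V
  have := Fintype.ofFinite (WW M U)
  have hu1' : (u1 : V) ≠ 0 := fun h => hu1 (Subtype.ext h)
  rw [Nat.card_eq_fintype_card, Nat.card_eq_fintype_card]
  refine Fintype.card_lt_of_injective_of_notMem (fun f : WW M U => f.1 u1) ?_ (b := (u2 : V)) ?_
  · intro f k hfk
    refine Subtype.ext ?_
    ext u
    obtain ⟨s, hs, h1⟩ := orbit_eq hU u1.2 hu1' u u.2
    rw [SS_comm hU.inv f.2 hs u1 u h1.symm, SS_comm hU.inv k.2 hs u1 u h1.symm]
    congr 1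
  · rintro ⟨f, hf⟩
    have hfU : ∀ u, f.1 u ∈ U := by
      intro u
      obtain ⟨s, hs, h1⟩ := orbit_eq hU u1.2 hu1' u u.2
      rw [SS_comm hU.inv f.2 hs u1 u h1.symm]
      change f.1 u1 = (u2 : V) at hf
      rw [hf]
      exact SS_inv hU.inv hs _ u2.2
    let l : AddMonoid.End U := AddMonoidHom.mk' (fun u => (⟨f.1 u, hfU u⟩ : U)) (by
      intro x y
      exact Subtype.ext (map_add f.1 x y))
    exact hu2 l (fun m hm u u' h => f.2 m hm u u' h) (Subtype.ext hf)

theorem exists_s [Finite V] {M : Subgroup G}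
    {U : AddSubgroup V} (hU : MinInv M U) {u1 : U} (hu1 : u1 ≠ 0) {u2 : U}
    (hu2 : ∀ l ∈ FF M U, l u1 ≠ u2) (y : U) :
    ∃ s ∈ SS M V, s (u1 : V) = 0 ∧ s (u2 : V) = y := by
  have hu1' : (u1 : V) ≠ 0 := fun h => hu1 (Subtype.ext h)
  let A : AddSubgroup V :=
    { carrier := {x | ∃ s ∈ SS M V, s (u1 : V) = 0 ∧ s (u2 : V) = x}
      add_mem' := by
        rintro x y ⟨s, hs, h1, h2⟩ ⟨t, ht, h3, h4⟩
        exact ⟨s + t, (SS M V).add_mem hs ht, by simp [h1, h3], by simp [h2, h4]⟩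
      zero_mem' := ⟨0, (SS M V).zero_mem, by simp, by simp⟩
      neg_mem' := by
        rintro x ⟨s, hs, h1, h2⟩
        exact ⟨-s, (SS M V).neg_mem hs, by simp [h1], by simp [h2]⟩ }
  have hA : ∀ x, x ∈ A ↔ ∃ s ∈ SS M V, s (u1 : V) = 0 ∧ s (u2 : V) = x := fun x => Iff.rfl
  have hAinv : Inv M A := by
    rintro m hm x hx
    obtain ⟨s, hs, h1, h2⟩ := (hA x).1 hx
    refine (hA _).2 ⟨_, SS_left hm hs, ?_, ?_⟩
    · simp [h1]
    · simp [h2]
  have hAU : A ≤ U := by
    intro x hx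
    obtain ⟨s, hs, h1, h2⟩ := (hA x).1 hx
    rw [← h2]
    exact SS_inv hU.inv hs _ u2.2
  rcases hU.min A hAinv hAU with h | h
  · exfalso
    choose! σ hσ1 hσ2 using orbit_eq hU u1.2 hu1'
    have huniq : ∀ s ∈ SS M V, ∀ x : U, s (u1 : V) = x → s (u2 : V) = σ x (u2 : V) := by
      intro s hs x hx
      have h1 : (s - σ x) (u2 : V) ∈ A :=
        (hA _).2 ⟨s - σ x, (SS M V).sub_mem hs (hσ1 x x.2), by simp [hx, hσ2 x x.2], rfl⟩
      rw [h, AddSubgroup.mem_bot] at h1
      exact sub_eq_zero.mp h1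
    let l : AddMonoid.End U := AddMonoidHom.mk'
      (fun x => (⟨σ x (u2 : V), SS_inv hU.inv (hσ1 x x.2) _ u2.2⟩ : U)) (by
        intro x y
        refine Subtype.ext ?_
        have h1 := huniq (σ x + σ y) ((SS M V).add_mem (hσ1 x x.2) (hσ1 y y.2)) (x + y)
          (by simp [hσ2 x x.2, hσ2 y y.2])
        exact h1.symm)
    refine hu2 l ?_ ?_
    · intro m hm u u' huu
      have h1 := huniq _ (SS_left hm (hσ1 u u.2)) u' (by
        rw [huu]
        change m • σ u (u1 : V) = _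
        rw [hσ2 u u.2])
      exact h1.symm
    · refine Subtype.ext ?_
      have h1 := huniq _ (SS_mem (V := V) M.one_mem) u1 (by simp)
      change σ u1 (u2 : V) = u2
      rw [← h1]
      simp
  · have hy : (y : V) ∈ A := by rw [h]; exact y.2
    exact (hA _).1 hy

theorem range_lemma {M : Subgroup G}
    {U : AddSubgroup V} (hU : MinInv M U) {w f : U →+ V} (hw : w ∈ WW M U) (hf : f ∈ WW M U)
    (h : ∀ u, ∃ y, f u = w y) : ∃ l ∈ FF M U, ∀ u, f u = w (l u) := by
  by_cases hw0 : w = 0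
  · refine ⟨0, (FF M U).zero_mem, fun u => ?_⟩
    obtain ⟨y, hy⟩ := h u
    rw [hy, hw0]
    simp
  · have hinj := inj_of_mem_WW hU hw hw0
    have hinj' : Function.Injective w := (injective_iff_map_eq_zero w).2 hinj
    choose l hl using h
    let l' : AddMonoid.End U := AddMonoidHom.mk' l (by
      intro x y
      apply hinj'
      rw [← hl, map_add, map_add, hl, hl])
    refine ⟨l', ?_, hl⟩
    intro m hm u u' huu
    have h1 := hw m hm (l u) ⟨m • (l u : V), hU.inv m hm _ (l u).2⟩ rfl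
    have h2 : l u' = ⟨m • (l u : V), hU.inv m hm _ (l u).2⟩ := by
      apply hinj'
      rw [h1, ← hl, ← hl, hf m hm u u' huu]
    change ((l u' : U) : V) = _
    rw [h2]
    rfl

theorem gen_of_isField {R : Type*} [Ring R] [Finite R] (h : IsField R) :
    ∃ t : R, ∀ x : R, x = 0 ∨ ∃ n : ℕ, x = t ^ n := by
  let _ : Field R := h.toField
  obtain ⟨t, ht⟩ := IsCyclic.exists_monoid_generator (α := Rˣ)
  refine ⟨(t : R), fun x => ?_⟩
  by_cases hx : x = 0
  · exact Or.inl hx
  · right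
    obtain ⟨n, hn⟩ := ht (Units.mk0 x hx)
    refine ⟨n, ?_⟩
    have := congrArg (Units.val) hn
    simpa using this.symm

theorem commutator_le_stab {H X : Type*} [Group H] [MulAction H X] {J : Subgroup H} {x : X}
    (h : ∀ a ∈ J, ∀ b ∈ J, (a * b) • x = (b * a) • x) :
    ⁅J, J⁆ ≤ MulAction.stabilizer H x := by
  rw [Subgroup.commutator_le]
  intro a ha b hb
  rw [MulAction.mem_stabilizer_iff, commutatorElement_def]
  have h1 := h a⁻¹ (J.inv_mem ha) b⁻¹ (J.inv_mem hb)
  have h2 : a * b * a⁻¹ * b⁻¹ = (a * b) * (a⁻¹ * b⁻¹) := by group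
  rw [h2, mul_smul, h1, ← mul_smul]
  have h3 : a * b * (b⁻¹ * a⁻¹) = 1 := by group
  rw [h3, one_smul]

/-- elements of `Hst G U` commuting with `FF M U` -/
def KF (M : Subgroup G) (U : AddSubgroup V) : Subgroup (Hst G U) where
  carrier := {h | ∀ l ∈ FF M U, cjE h l = l}
  mul_mem' := by
    intro a b ha hb l hl
    rw [cjE_mul, hb l hl, ha l hl]
  one_mem' := by
    intro l _
    rw [cjE_one]
  inv_mem' := by
    intro a ha l hl
    have h1 := ha l hl
    have h2 : cjE a⁻¹ (cjE a l) = cjE a⁻¹ l := by rw [h1]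
    rw [← cjE_mul, inv_mul_cancel, cjE_one] at h2
    exact h2.symm

theorem mem_KF {M : Subgroup G} {U : AddSubgroup V} {h : Hst G U} :
    h ∈ KF M U ↔ ∀ l ∈ FF M U, cjE h l = l := Iff.rfl

theorem commutator_le_KF [Finite V] {M : Subgroup G} [hMn : M.Normal] {U : AddSubgroup V}
    (hU : MinInv M U) (J : Subgroup (Hst G U)) : ⁅J, J⁆ ≤ KF M U := by
  have hfin : Finite (AddMonoid.End U) :=
    Finite.of_injective (fun f : U →+ U => (f : U → U)) DFunLike.coe_injective
  obtain ⟨t, ht⟩ := gen_of_isField (FF_isField hU)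
  have ht' : ∀ x ∈ FF M U, x = 0 ∨ ∃ n : ℕ, x = (t : AddMonoid.End U) ^ n := by
    intro x hx
    rcases ht ⟨x, hx⟩ with h | ⟨n, h⟩
    · exact Or.inl (congrArg Subtype.val h)
    · exact Or.inr ⟨n, congrArg Subtype.val h⟩
  have hpow : ∀ g : Hst G U, ∃ n : ℕ, cjE g (t : AddMonoid.End U) =
      (t : AddMonoid.End U) ^ n := by
    intro g
    rcases ht' _ (cj_mem_FF g t.2) with h | h
    · refine ⟨1, ?_⟩
      have h2 : cjE g⁻¹ (cjE g (t : AddMonoid.End U)) = cjE g⁻¹ 0 := by rw [h]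
      rw [← cjE_mul, inv_mul_cancel, cjE_one, cjE_zero] at h2
      rw [h, h2, pow_one]
    · exact h
  have hcomm : ∀ g h : Hst G U, cjE (g * h) (t : AddMonoid.End U) =
      cjE (h * g) (t : AddMonoid.End U) := by
    intro g h
    obtain ⟨a, ha⟩ := hpow g
    obtain ⟨b, hb⟩ := hpow h
    rw [cjE_mul, cjE_mul, ha, hb, cjE_pow, cjE_pow, ha, hb, ← pow_mul, ← pow_mul, mul_comm]
  rw [Subgroup.commutator_le]
  intro a _ b _
  have h1 : cjE ⁅a, b⁆ (t : AddMonoid.End U) = t := by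
    have h2 : ⁅a, b⁆ = (a * b) * (a⁻¹ * b⁻¹) := by rw [commutatorElement_def]; group
    rw [h2, cjE_mul, hcomm a⁻¹ b⁻¹, ← cjE_mul]
    have h3 : a * b * (b⁻¹ * a⁻¹) = 1 := by group
    rw [h3, cjE_one]
  rw [mem_KF]
  intro l hl
  rcases ht' l hl with h | ⟨n, h⟩
  · rw [h]
    exact cjE_zero _
  · rw [h, cjE_pow, h1]

end defs

theorem tensor_lemma {T : Type u} [Group T] [IsSimpleGroup T] (hT : ¬ ∀ a b : T, a * b = b * a)
    {G : Type u} [Group G] [Finite G] (φ : G →* T)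
    {V : Type u} [AddCommGroup V] [Finite V] [DistribMulAction G V]
    (hfaith : ∀ g : G, (∀ v : V, g • v = v) → g = 1)
    (hirr : ∀ W : AddSubgroup V, (∀ g : G, ∀ w ∈ W, g • w ∈ W) → W = ⊥ ∨ W = ⊤)
    (M : Subgroup G) [M.Normal] (hM : ¬ ∀ a ∈ M, ∀ b ∈ M, a * b = b * a)
    (hC : (Subgroup.centralizer (M : Set G)).map φ = ⊤)
    (IH : ∀ (H : Subgroup G) (W : Type u) [AddCommGroup W] [Finite W] [DistribMulAction H W],
      Nat.card W < Nat.card V → H.map φ = ⊤ →
      (∀ h : H, (∀ w : W, h • w = w) → φ h = 1) → LinConcl (φ.comp H.subtype) W) :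
    LinConcl φ V := by
  by_contra hcon
  have hbad : ∀ v₁ v₂ : V,
      (MulAction.stabilizer G v₁ ⊓ MulAction.stabilizer G v₂).map φ = ⊤ := by
    intro v₁ v₂
    by_contra h
    exact hcon ⟨v₁, v₂, h⟩
  have hnt : Nontrivial V := by
    by_contra h
    rw [not_nontrivial_iff_subsingleton] at h
    apply hM
    intro a _ b _
    have h1 : ∀ g : G, g = 1 := fun g => hfaith g (fun v => Subsingleton.elim _ _)
    rw [h1 a, h1 b]
  obtain ⟨U, hU⟩ := exists_minInv (V := V) M
  have hntU : Nontrivial U := by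
    rw [AddSubgroup.nontrivial_iff_ne_bot]
    exact hU.ne
  obtain ⟨u1, hu1⟩ := exists_ne (0 : U)
  have hu1' : (u1 : V) ≠ 0 := fun h => hu1 (Subtype.ext h)
  obtain ⟨u2, hu2⟩ := exists_u2 hfaith hirr hM hU u1
  have hH : (Hst G U).map φ = ⊤ := by
    refine map_top_mono ?_ (hbad u1 0)
    rintro g ⟨hg, _⟩
    exact stab_mem_Hst hU u1.2 hu1' hg
  have hfinW : Finite (U →+ V) :=
    Finite.of_injective (fun f : U →+ V => (f : U → V)) DFunLike.coe_injective
  obtain ⟨w1, w2, hw⟩ := IH (Hst G U) (WW M U) (card_WW_lt hU hu1 hu2) hH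
    (fun h hh => kernel_claim hT hfaith hirr hC hU hH h hh)
  apply hw
  set ψ : Hst G U →* T := φ.comp (Hst G U).subtype with hψ
  let v2 : V := w1.1 u1 + w2.1 u2
  have hJ := hbad u1 v2
  set J : Subgroup G := MulAction.stabilizer G (u1 : V) ⊓ MulAction.stabilizer G v2 with hJdef
  have hJH : J ≤ Hst G U := by
    rintro g ⟨hg, _⟩
    exact stab_mem_Hst hU u1.2 hu1' hg
  let J' : Subgroup (Hst G U) := J.subgroupOf (Hst G U)
  have hJ'mem : ∀ g : Hst G U, g ∈ J' → g • u1 = u1 ∧ (g : G) • v2 = v2 := by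
    intro g hg
    have h1 : (g : G) ∈ J := hg
    exact ⟨Subtype.ext h1.1, h1.2⟩
  have hJ' : J'.map ψ = ⊤ := by
    rw [eq_top_iff]
    intro t _
    have ht : t ∈ J.map φ := by rw [hJ]; exact Subgroup.mem_top t
    obtain ⟨g, hg, rfl⟩ := ht
    exact ⟨⟨g, hJH hg⟩, hg, rfl⟩
  -- the image of `w2` is invariant under `J`
  have hrange : ∀ g ∈ J', ∀ y : U, ∃ y' : U, (g : G) • w2.1 y = w2.1 y' := by
    intro g hg y
    obtain ⟨hg1, hg2⟩ := hJ'mem g hg
    obtain ⟨s, hs, hs1, hs2⟩ := exists_s hU hu1 hu2 y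
    have e1 : w2.1 y = s (w2.1 u2) := SS_comm hU.inv w2.2 hs u2 y hs2.symm
    have e2 : s (w1.1 u1) = 0 := by
      rw [← SS_comm hU.inv w1.2 hs u1 0 (by rw [hs1]; rfl), map_zero]
    have e3 : s v2 = w2.1 y := by
      change s (w1.1 u1 + w2.1 u2) = _
      rw [map_add, e2, zero_add, e1]
    obtain ⟨s', hs', hs'c⟩ := SS_conj (M := M) (g : G) hs
    have e4 : (g : G) • w2.1 y = s' v2 := by
      rw [← e3, ← hs'c, hg2]
    have e5 : s' (u1 : V) = 0 := by
      have : (u1 : V) = (g : G) • (u1 : V) := (congrArg Subtype.val hg1).symm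
      rw [this, hs'c, hs1, smul_zero]
    have e6 : s' (w1.1 u1) = 0 := by
      rw [← SS_comm hU.inv w1.2 hs' u1 0 (by rw [e5]; rfl), map_zero]
    refine ⟨⟨s' (u2 : V), SS_inv hU.inv hs' _ u2.2⟩, ?_⟩
    rw [SS_comm hU.inv w2.2 hs' u2 ⟨s' (u2 : V), SS_inv hU.inv hs' _ u2.2⟩ rfl, e4]
    change s' (w1.1 u1 + w2.1 u2) = _
    rw [map_add, e6, zero_add]
  have hcommF : ∀ x ∈ FF M U, ∀ y ∈ FF M U, ∀ u, x (y u) = y (x u) := by
    intro x hx y hy u
    have h1 := (FF_isField hU).mul_comm ⟨x, hx⟩ ⟨y, hy⟩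
    have h2 : x * y = y * x := congrArg Subtype.val h1
    exact DFunLike.congr_fun h2 u
  -- action on `w2`
  have hw2 : ∀ g ∈ J', ∃ l ∈ FF M U, ∀ u, (g • w2).1 u = w2.1 (l u) := by
    intro g hg
    refine range_lemma hU w2.2 (g • w2).2 ?_
    intro u
    obtain ⟨y', hy'⟩ := hrange g hg (g⁻¹ • u)
    exact ⟨y', hy'⟩
  have hw1 : ∀ g ∈ J', ∃ l ∈ FF M U, ∀ u, (g • w1).1 u = w1.1 u + w2.1 (l u) := by
    intro g hg
    obtain ⟨hg1, hg2⟩ := hJ'mem g hg
    have hbase : ∃ y, (g • w1 - w1).1 u1 = w2.1 y := by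
      obtain ⟨y', hy'⟩ := hrange g hg u2
      refine ⟨u2 - y', ?_⟩
      rw [map_sub, ← hy']
      have e1 : (g • w1).1 u1 = (g : G) • w1.1 u1 := by
        rw [coe_smulW]
        conv_lhs => rw [← hg1]
        rw [cj_smul, Subgroup.smul_def]
      have e2 : (g : G) • w1.1 u1 + (g : G) • w2.1 u2 = w1.1 u1 + w2.1 u2 := by
        rw [← smul_add]
        exact hg2
      change (g • w1).1 u1 - w1.1 u1 = _
      rw [e1, eq_sub_of_add_eq e2]
      abel
    obtain ⟨y0, hy0⟩ := hbase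
    obtain ⟨l, hl, hl2⟩ := range_lemma hU w2.2 (g • w1 - w1).2 (by
      intro u
      obtain ⟨s, hs, h1⟩ := orbit_eq hU u1.2 hu1' u u.2
      refine ⟨⟨s (y0 : V), SS_inv hU.inv hs _ y0.2⟩, ?_⟩
      rw [SS_comm hU.inv (g • w1 - w1).2 hs u1 u h1.symm, hy0,
        SS_comm hU.inv w2.2 hs y0 ⟨s (y0 : V), SS_inv hU.inv hs _ y0.2⟩ rfl])
    refine ⟨l, hl, fun u => ?_⟩
    rw [← hl2]
    change _ = w1.1 u + ((g • w1).1 u - w1.1 u)
    abel
  -- the chain of subgroups
  let J0 : Subgroup (Hst G U) := J' ⊓ KF M U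
  have hself : ∀ K : Subgroup (Hst G U), ⁅K, K⁆ ≤ K := by
    intro K
    rw [Subgroup.commutator_le]
    intro a ha b hb
    rw [commutatorElement_def]
    exact K.mul_mem (K.mul_mem (K.mul_mem ha hb) (K.inv_mem ha)) (K.inv_mem hb)
  have hJ0 : J0.map ψ = ⊤ :=
    map_eq_top_of_commutator_le hT hJ' (le_inf (hself J') (commutator_le_KF hU J'))
  have hKFapp : ∀ g ∈ J0, ∀ l ∈ FF M U, ∀ u : U, l (g⁻¹ • u) = g⁻¹ • l u := by
    intro g hg l hl u
    have h1 := (mem_KF.1 hg.2) l hl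
    have h2 := DFunLike.congr_fun h1 u
    rw [cjE_apply] at h2
    rw [eq_inv_smul_iff]
    exact h2
  let J1 : Subgroup (Hst G U) := J0 ⊓ MulAction.stabilizer (Hst G U) w2
  have hJ1 : J1.map ψ = ⊤ := by
    refine map_eq_top_of_commutator_le hT hJ0 (le_inf (hself J0) (commutator_le_stab ?_))
    have key : ∀ a ∈ J0, ∀ b ∈ J0, ∀ l ∈ FF M U, ∀ k ∈ FF M U,
        (∀ u, (a • w2).1 u = w2.1 (l u)) → (∀ u, (b • w2).1 u = w2.1 (k u)) →
        ∀ u, ((a * b) • w2).1 u = w2.1 (l (k u)) := by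
      intro a ha b hb l hl k hk h1 h2 u
      rw [mul_smul, coe_smulW, cj_apply, h2, hKFapp a ha k hk, ← h1]
      rfl
    intro a ha b hb
    obtain ⟨l, hl, h1⟩ := hw2 a ha.1
    obtain ⟨k, hk, h2⟩ := hw2 b hb.1
    refine Subtype.ext ?_
    ext u
    rw [key a ha b hb l hl k hk h1 h2, key b hb a ha k hk l hl h2 h1, hcommF l hl k hk]
  let J2 : Subgroup (Hst G U) := J1 ⊓ MulAction.stabilizer (Hst G U) w1
  have hJ2 : J2.map ψ = ⊤ := by
    refine map_eq_top_of_commutator_le hT hJ1 (le_inf (hself J1) (commutator_le_stab ?_))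
    have key : ∀ a ∈ J1, ∀ b ∈ J1, ∀ l ∈ FF M U, ∀ k ∈ FF M U,
        (∀ u, (a • w1).1 u = w1.1 u + w2.1 (l u)) →
        (∀ u, (b • w1).1 u = w1.1 u + w2.1 (k u)) →
        ∀ u, ((a * b) • w1).1 u = w1.1 u + w2.1 (l u) + w2.1 (k u) := by
      intro a ha b hb l hl k hk h1 h2 u
      have e0 : a • w2 = w2 := ha.2
      rw [mul_smul, coe_smulW, cj_apply, h2, smul_add]
      have e1 : a • w1.1 (a⁻¹ • u) = w1.1 u + w2.1 (l u) := h1 u
      rw [e1, hKFapp a ha.1 k hk]
      congr 1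
      have e2 : (a • w2).1 (k u) = w2.1 (k u) := by rw [e0]
      exact e2
    intro a ha b hb
    obtain ⟨l, hl, h1⟩ := hw1 a ha.1.1
    obtain ⟨k, hk, h2⟩ := hw1 b hb.1.1
    refine Subtype.ext ?_
    ext u
    rw [key a ha b hb l hl k hk h1 h2, key b hb a ha k hk l hl h2 h1]
    abel
  refine map_top_mono ?_ hJ2
  rintro g ⟨⟨_, h2⟩, h1⟩
  exact ⟨h1, h2⟩

end Pool.Agent.TH350.J81
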